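import Pool.Agent.TD.FinalDefs

/-!
# Module FinalB: Prop 1 (ii), (iii).  Blueprint section 1.
-/

set_option autoImplicit false

namespace TD

namespace FinB

open MulAction

lemma pow_smul_fix {G Y : Type*} [Group G] [MulAction G Y] (g : G) (c : Y) (h : g • c = c) (r : ℕ) :
    g ^ r • c = c := by
  induction r with
  | zero => simp
  | succ r ih => rw [pow_succ, mul_smul, h, ih]

/-- a common power -/
lemma common_pow {G Y : Type*} [Group G] [MulAction G Y] {n : ℕ} (g : G) (c : Fin n → Y)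
    (h : ∀ i, ∃ m : ℕ, m ≠ 0 ∧ g ^ m • c i = c i) : ∃ N : ℕ, N ≠ 0 ∧ ∀ i, g ^ N • c i = c i := by
  choose m hm0 hm using h
  refine ⟨∏ i, m i, Finset.prod_ne_zero_iff.2 (fun i _ => hm0 i), fun i => ?_⟩
  obtain ⟨r, hr⟩ := Finset.dvd_prod_of_mem m (Finset.mem_univ i)
  rw [hr, pow_mul]
  exact pow_smul_fix _ _ (hm i) r

/-- finite orbits are eventually periodic -/
lemma exists_pow_fix {G Y : Type*} [Group G] [MulAction G Y] (g : G) (c : Y) (A : Set Y)
    (hA : A.Finite) (h : ∀ n : ℕ, g ^ n • c ∈ A) : ∃ m : ℕ, m ≠ 0 ∧ g ^ m • c = c := by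
  have := hA.to_subtype
  obtain ⟨x, y, hxy, hf⟩ := Finite.exists_ne_map_eq_of_infinite
    (fun n : ℕ => (⟨g ^ n • c, h n⟩ : A))
  have hf' : g ^ x • c = g ^ y • c := congrArg Subtype.val hf
  rcases Nat.lt_or_gt_of_ne hxy with hlt | hlt
  · refine ⟨y - x, by omega, ?_⟩
    have e : g ^ y = g ^ x * g ^ (y - x) := by rw [← pow_add]; congr 1; omega
    rw [e, mul_smul] at hf'
    exact (smul_left_cancel _ hf').symm
  · refine ⟨x - y, by omega, ?_⟩
    have e : g ^ x = g ^ y * g ^ (x - y) := by rw [← pow_add]; congr 1; omega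
    rw [e, mul_smul] at hf'
    exact smul_left_cancel _ hf'

lemma out_smul {G : Type*} [Group G] (H : Subgroup G) (g : G) (c c' : G ⧸ H) :
    g • c = c' ↔ c'.out⁻¹ * g * c.out ∈ H := by
  constructor
  · intro h
    have h1 : ((g * c.out : G) : G ⧸ H) = ((c'.out : G) : G ⧸ H) := by
      rw [QuotientGroup.out_eq', ← h]
      conv_rhs => rw [← QuotientGroup.out_eq' c]
      rfl
    have h2 := QuotientGroup.eq.1 h1.symm
    rwa [mul_assoc]
  · intro h
    rw [mul_assoc] at h
    have h1 := (QuotientGroup.eq.2 h).symm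
    rw [QuotientGroup.out_eq'] at h1
    rw [← h1]
    conv_lhs => rw [← QuotientGroup.out_eq' c]
    rfl

lemma ff_quot {G : Type*} [Group G] {H : Subgroup G} {k : ℕ} (hF : FF H k) (g : G) (hg : g ≠ 1)
    (c : Fin (k + 1) → G ⧸ H) (hc : Function.Injective c) (h : ∀ i, g • c i = c i) : False := by
  obtain ⟨i, j, hij, hm⟩ := hF g hg (fun i => (c i).out) (fun i => (out_smul H g _ _).1 (h i))
  apply hij
  apply hc
  have h1 := QuotientGroup.eq.2 hm
  simpa using h1

/-- points with finite `U`-orbit -/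
def Phi {G : Type*} [Group G] (U H : Subgroup G) : Set (G ⧸ H) :=
  {c | {c' : G ⧸ H | ∃ u ∈ U, c' = u • c}.Finite}

lemma Phi_anti {G : Type*} [Group G] {U V : Subgroup G} (H : Subgroup G) (h : U ≤ V) :
    Phi V H ⊆ Phi U H := by
  intro c hc
  exact Set.Finite.subset hc (fun c' ⟨u, hu, e⟩ => ⟨u, h hu, e⟩)

lemma Phi_smul {G : Type*} [Group G] {U H : Subgroup G} {c : G ⧸ H} (hc : c ∈ Phi U H) {u : G}
    (hu : u ∈ U) : u • c ∈ Phi U H := by
  refine Set.Finite.subset hc ?_
  rintro c' ⟨v, hv, e⟩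
  exact ⟨v * u, U.mul_mem hv hu, by rw [e, mul_smul]⟩

lemma Phi_pow {G : Type*} [Group G] {U H : Subgroup G} {c : G ⧸ H} (hc : c ∈ Phi U H) {u : G}
    (hu : u ∈ U) : ∃ m : ℕ, m ≠ 0 ∧ u ^ m • c = c :=
  exists_pow_fix u c _ hc (fun n => ⟨u ^ n, U.pow_mem hu n, rfl⟩)

lemma Phi_card {G : Type*} [Group G] {U H : Subgroup G} (hT : TF G) {k : ℕ} (hF : FF H k) {q : G}
    (hq : q ∈ U) (hq1 : q ≠ 1) : (Phi U H).Finite ∧ (Phi U H).ncard ≤ k := by
  classical
  have key : ∀ t : Finset (G ⧸ H), (t : Set (G ⧸ H)) ⊆ Phi U H → t.card ≤ k := by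
    intro t ht
    by_contra hcon
    push Not at hcon
    obtain ⟨t', ht', hcard⟩ := Finset.exists_subset_card_eq (show k + 1 ≤ t.card from hcon)
    let e : Fin (k + 1) → G ⧸ H := fun i => ((t'.equivFinOfCardEq hcard).symm i : G ⧸ H)
    have he : Function.Injective e := by
      intro i j hij
      exact (t'.equivFinOfCardEq hcard).symm.injective (Subtype.ext hij)
    have hmem : ∀ i, e i ∈ Phi U H := fun i => ht (ht' ((t'.equivFinOfCardEq hcard).symm i).2)
    obtain ⟨N, hN, hfix⟩ := common_pow q e (fun i => Phi_pow (hmem i) hq)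
    refine ff_quot hF (q ^ N) ?_ e he hfix
    intro h
    exact hq1 (hT q N hN h)
  have hfin : (Phi U H).Finite := by
    by_contra hinf
    obtain ⟨t, ht, hcard⟩ := Set.Infinite.exists_subset_card_eq hinf (k + 1)
    have := key t ht
    omega
  refine ⟨hfin, ?_⟩
  rw [Set.ncard_eq_toFinset_card _ hfin]
  exact key _ (by simp)

lemma Phi_empty {G : Type*} [Group G] {U H : Subgroup G} (hT : TF G) {q : G} (hq : q ∈ U)
    (hq1 : q ≠ 1) (hS : Sep (Subgroup.zpowers q) H) : Phi U H = ∅ := by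
  rw [Set.eq_empty_iff_forall_notMem]
  intro c hc
  obtain ⟨m, hm, hfix⟩ := Phi_pow hc hq
  have h1 := (out_smul H (q ^ m) c c).1 hfix
  have h2 := hS c.out⁻¹ (q ^ m) (Subgroup.npow_mem_zpowers q m) (by rwa [inv_inv])
  exact hq1 (hT q m hm h2)

end FinB

open FinB MulAction in
/-- Prop 1 (ii), (iii). -/
theorem LimProps.not_ht {G : Type} [Group G] {M : ℕ → Subgroup G} (h : LimProps G M)
    (X : Type) [MulAction G X] [Infinite X]
    (ht : ∀ n : ℕ, MulAction.IsMultiplyPretransitive G X n) : False := by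
  classical
  have hTF := h.tf
  -- pointwise form of multiple transitivity
  have htr : ∀ (n : ℕ) (x y : Fin n → X), Function.Injective x → Function.Injective y →
      ∃ g : G, ∀ i, g • x i = y i := by
    intro n x y hx hy
    have := ht n
    obtain ⟨g, hg⟩ := MulAction.exists_smul_eq G (⟨x, hx⟩ : Fin n ↪ X) (⟨y, hy⟩ : Fin n ↪ X)
    refine ⟨g, fun i => ?_⟩
    have := congrArg (fun f : Fin n ↪ X => f i) hg
    simpa using this
  have hE : ∃ E : ℕ → X, Function.Injective E :=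
    ⟨Infinite.natEmbedding X, (Infinite.natEmbedding X).injective⟩
  obtain ⟨E, hEinj⟩ := hE
  -- a non-abelian pair in the stabilizer
  have hi1 : Function.Injective (fun i : Fin 3 => E (![0, 1, 2] i)) :=
    hEinj.comp (by decide)
  obtain ⟨q1, h1⟩ := htr 3 (fun i => E (![0, 1, 2] i)) (fun i => E (![0, 2, 1] i)) hi1
    (hEinj.comp (by decide))
  obtain ⟨q2, h2⟩ := htr 3 (fun i => E (![0, 1, 2] i)) (fun i => E (![0, 1, 3] i)) hi1
    (hEinj.comp (by decide))
  have a0 : q1 • E 0 = E 0 := by simpa using h1 0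
  have a1 : q1 • E 1 = E 2 := by simpa using h1 1
  have b0 : q2 • E 0 = E 0 := by simpa using h2 0
  have b1 : q2 • E 1 = E 1 := by simpa using h2 1
  have b2 : q2 • E 2 = E 3 := by simpa using h2 2
  have hq1 : q1 ≠ 1 := by
    rintro rfl
    rw [one_smul] at a1
    exact absurd (hEinj a1) (by decide)
  have hcomm : q1 * q2 ≠ q2 * q1 := by
    intro hc
    have := congrArg (fun g : G => g • E 1) hc
    simp only [mul_smul, a1, b1, b2] at this
    exact absurd (hEinj this) (by decide)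
  set M' : Subgroup G := stabilizer G (E 0) with hM'
  have hM'top : M' ≠ ⊤ := by
    intro htop
    obtain ⟨g, hg⟩ := htr 1 (fun _ => E 0) (fun _ => E 1) (fun _ _ _ => Subsingleton.elim _ _)
      (fun _ _ _ => Subsingleton.elim _ _)
    have h3 : g ∈ M' := by rw [htop]; trivial
    rw [hM', mem_stabilizer_iff] at h3
    have := hg 0
    rw [h3] at this
    exact absurd (hEinj this) (by decide)
  obtain ⟨k0, hk0⟩ := h.sep q1 hq1
  -- minimal choice
  let T := {S : Finset G // q1 ∈ S ∧ q2 ∈ S ∧ ∀ s ∈ S, s ∈ M'}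
  let f : T → ℕ := fun S => ∑ k ∈ Finset.Icc 1 k0,
    (Phi (Subgroup.closure ((S : Finset G) : Set G)) (M k)).ncard
  have hTne : Nonempty T := ⟨⟨{q1, q2}, by simp, by simp, by
    intro s hs
    simp only [Finset.mem_insert, Finset.mem_singleton] at hs
    rcases hs with rfl | rfl
    · exact a0
    · exact b0⟩⟩
  obtain ⟨S₀, hS₀⟩ : ∃ S₀ : T, ∀ S : T, f S₀ ≤ f S := by
    have hex : ∃ n, ∃ S : T, f S = n := ⟨f hTne.some, hTne.some, rfl⟩
    obtain ⟨S₀, hS₀⟩ := Nat.find_spec hex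
    refine ⟨S₀, fun S => ?_⟩
    rw [hS₀]
    exact Nat.find_min' hex ⟨S, rfl⟩
  have hcl : ∀ S : T, Subgroup.closure ((S : Finset G) : Set G) ≤ M' := by
    intro S
    rw [Subgroup.closure_le]
    intro s hs
    exact S.2.2.2 s hs
  have hq1mem : ∀ S : T, q1 ∈ Subgroup.closure ((S : Finset G) : Set G) := fun S =>
    Subgroup.subset_closure S.2.1
  have hq2mem : ∀ S : T, q2 ∈ Subgroup.closure ((S : Finset G) : Set G) := fun S =>
    Subgroup.subset_closure S.2.2.1
  have hconst : ∀ S : T, (S₀ : Finset G) ⊆ (S : Finset G) → ∀ k ∈ Finset.Icc 1 k0,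
      Phi (Subgroup.closure ((S : Finset G) : Set G)) (M k) =
        Phi (Subgroup.closure ((S₀ : Finset G) : Set G)) (M k) := by
    intro S hS
    have hsub : ∀ k, Phi (Subgroup.closure ((S : Finset G) : Set G)) (M k) ⊆
        Phi (Subgroup.closure ((S₀ : Finset G) : Set G)) (M k) := fun k =>
      Phi_anti (M k) (Subgroup.closure_mono (by exact_mod_cast hS))
    have hfin : ∀ k ∈ Finset.Icc 1 k0,
        (Phi (Subgroup.closure ((S₀ : Finset G) : Set G)) (M k)).Finite := fun k hk =>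
      (Phi_card hTF (h.ff k (Finset.mem_Icc.1 hk).1) (hq1mem S₀) hq1).1
    have hle : ∀ k ∈ Finset.Icc 1 k0,
        (Phi (Subgroup.closure ((S : Finset G) : Set G)) (M k)).ncard ≤
          (Phi (Subgroup.closure ((S₀ : Finset G) : Set G)) (M k)).ncard := fun k hk =>
      Set.ncard_le_ncard (hsub k) (hfin k hk)
    have hsum : f S = f S₀ := le_antisymm (Finset.sum_le_sum hle) (hS₀ S)
    have heq := (Finset.sum_eq_sum_iff_of_le hle).1 hsum
    intro k hk
    exact Set.eq_of_subset_of_ncard_le (hsub k) (heq k hk).ge (hfin k hk)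
  -- the degree and the finite invariant set
  obtain ⟨k, hk1, x, hx⟩ : ∃ k, 1 ≤ k ∧ ∃ x : G,
      (x : G ⧸ M k) ∈ Phi (Subgroup.closure ((S₀ : Finset G) : Set G)) (M k) := by
    rcases h.trap S₀ ⟨q1, hq1mem S₀, q2, hq2mem S₀, hcomm⟩ with htop | ⟨k, hk, x, hx⟩
    · exact absurd (top_le_iff.1 (htop ▸ hcl S₀)) hM'top
    · exact ⟨k, hk, x, hx⟩
  have hkk : k ∈ Finset.Icc 1 k0 := by
    rw [Finset.mem_Icc]
    refine ⟨hk1, ?_⟩
    by_contra hcon
    push Not at hcon
    have := Phi_empty (U := Subgroup.closure ((S₀ : Finset G) : Set G)) hTF (hq1mem S₀) hq1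
      (hk0 k hcon)
    rw [this] at hx
    exact hx
  set Sg : Set (G ⧸ M k) := Phi (Subgroup.closure ((S₀ : Finset G) : Set G)) (M k) with hSg
  have hSgcard := Phi_card hTF (h.ff k hk1) (hq1mem S₀) hq1
  have hinv : ∀ m ∈ M', ∀ c ∈ Sg, m • c ∈ Sg := by
    intro m hm c hc
    let S : T := ⟨insert m (S₀ : Finset G), Finset.mem_insert_of_mem S₀.2.1,
      Finset.mem_insert_of_mem S₀.2.2.1, by
        intro s hs
        rcases Finset.mem_insert.1 hs with rfl | hs
        · exact hm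
        · exact S₀.2.2.2 s hs⟩
    have heq := hconst S (Finset.subset_insert _ _) k hkk
    rw [hSg, ← heq] at hc ⊢
    exact Phi_smul hc (Subgroup.subset_closure (Finset.mem_insert_self _ _))
  -- the quotient is infinite
  obtain ⟨c0, hc0, hsep0⟩ := h.sep0
  have hinf : Infinite (G ⧸ M k) := by
    apply Infinite.of_injective (fun n : ℕ => ((c0 ^ n : G) : G ⧸ M k))
    intro m n hmn
    simp only at hmn
    have h3 := QuotientGroup.eq.1 hmn
    by_contra hne
    have h4 : (c0 ^ m)⁻¹ * c0 ^ n = 1 := by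
      apply hsep0 k hk1 1 _ (Subgroup.mul_mem _ (Subgroup.inv_mem _ (Subgroup.npow_mem_zpowers c0 m))
        (Subgroup.npow_mem_zpowers c0 n))
      simpa using h3
    have h5 : c0 ^ m = c0 ^ n := by
      rw [inv_mul_eq_one] at h4; exact h4
    rcases Nat.lt_or_gt_of_ne hne with hlt | hlt
    · apply hc0
      apply hTF c0 (n - m) (by omega)
      have e : c0 ^ n = c0 ^ m * c0 ^ (n - m) := by rw [← pow_add]; congr 1; omega
      rw [e] at h5
      exact (mul_eq_left.1 h5.symm)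
    · apply hc0
      apply hTF c0 (m - n) (by omega)
      have e : c0 ^ m = c0 ^ n * c0 ^ (m - n) := by rw [← pow_add]; congr 1; omega
      rw [e] at h5
      exact (mul_eq_left.1 h5)
  -- moving `Sg` off a finite set
  have havoid : ∀ F : Set (G ⧸ M k), F.Finite → ∃ t : G, ∀ c ∈ Sg, t • c ∉ F := by
    intro F hF
    have hSgf := hSgcard.1
    obtain ⟨A, hAsub, hAcard⟩ := Infinite.exists_superset_card_eq hSgf.toFinset k (by
      rw [← Set.ncard_eq_toFinset_card _ hSgf]; exact hSgcard.2)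
    obtain ⟨B, hBsub, hBcard⟩ := Set.Infinite.exists_subset_card_eq (Set.Finite.infinite_compl hF) k
    let eA := A.equivFinOfCardEq hAcard
    let eB := B.equivFinOfCardEq hBcard
    have hne : ∀ (C : Finset (G ⧸ M k)) (e : C ≃ Fin k) (i j : Fin k), i ≠ j →
        ((e.symm i : G ⧸ M k).out)⁻¹ * (e.symm j : G ⧸ M k).out ∉ M k := by
      intro C e i j hij hmem
      apply hij
      have h3 := QuotientGroup.eq.2 hmem
      rw [QuotientGroup.out_eq', QuotientGroup.out_eq'] at h3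
      exact e.symm.injective (Subtype.ext h3)
    obtain ⟨t, ht'⟩ := h.trans k hk1 (fun i => (eA.symm i : G ⧸ M k).out)
      (fun i => (eB.symm i : G ⧸ M k).out) (hne A eA) (hne B eB)
    refine ⟨t, fun c hc hcF => ?_⟩
    have hcA : c ∈ A := hAsub (by simpa using hc)
    have h3 := ht' (eA ⟨c, hcA⟩)
    simp only [Equiv.symm_apply_apply] at h3
    have h4 := (out_smul (M k) t c _).2 h3
    have h5 : (eB.symm (eA ⟨c, hcA⟩) : G ⧸ M k) ∈ Fᶜ := hBsub (eB.symm (eA ⟨c, hcA⟩)).2
    rw [← h4] at h5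
    exact h5 hcF
  obtain ⟨g, _, hg⟩ := exists_seq_of_forall_finset_exists (fun _ : G => True)
    (fun x y : G => ∀ c ∈ Sg, ∀ c' ∈ Sg, x • c ≠ y • c') (by
      intro s _
      obtain ⟨t, ht'⟩ := havoid (⋃ x ∈ s, (fun c => x • c) '' Sg)
        (Set.Finite.biUnion s.finite_toSet (fun x _ => hSgcard.1.image _))
      refine ⟨t, trivial, fun x hx c hc c' hc' heq => ht' c' hc' ?_⟩
      rw [← heq]
      simp only [Set.mem_iUnion]
      exact ⟨x, hx, c, hc, rfl⟩)
  have hgne : ∀ i j, i ≠ j → ∀ c ∈ Sg, ∀ c' ∈ Sg, g i • c ≠ g j • c' := by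
    intro i j hij c hc c' hc'
    rcases Nat.lt_or_gt_of_ne hij with hlt | hlt
    · exact hg i j hlt c hc c' hc'
    · exact fun e => hg j i hlt c' hc' c hc e.symm
  have hpinj : Function.Injective (fun i => g i • E 0) := by
    intro i j hij
    by_contra hne
    simp only at hij
    have h3 : (g j)⁻¹ * g i ∈ M' := by
      rw [hM', mem_stabilizer_iff, mul_smul, hij, inv_smul_smul]
    have h4 := hinv _ h3 _ hx
    refine hgne i j hne _ hx _ h4 ?_
    rw [mul_smul, smul_inv_smul]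
  have hy : Function.Injective (fun i : Fin (k + 2) =>
      g (if (i : ℕ) = k + 1 then k + 2 else (i : ℕ)) • E 0) := by
    apply hpinj.comp
    intro i j hij
    have := i.2
    have := j.2
    apply Fin.ext
    simp only at hij
    split_ifs at hij <;> omega
  obtain ⟨g0, hg0⟩ := htr (k + 2) (fun i => g (i : ℕ) • E 0) _
    (hpinj.comp (fun i j hij => Fin.ext hij)) hy
  have hfix : ∀ i : Fin (k + 1), g0 • (g (i : ℕ) • E 0) = g (i : ℕ) • E 0 := by
    intro i
    have := hg0 ⟨(i : ℕ), by omega⟩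
    have hi := i.2
    simp only [if_neg (show ¬ ((i : ℕ) = k + 1) by omega)] at this
    exact this
  have hmove : g0 • (g (k + 1) • E 0) = g (k + 2) • E 0 := by
    have := hg0 ⟨k + 1, by omega⟩
    simpa using this
  obtain ⟨N, hN, hNfix⟩ := common_pow g0 (fun i : Fin (k + 1) => g (i : ℕ) • (x : G ⧸ M k)) (by
    intro i
    have hmem : (g (i : ℕ))⁻¹ * g0 * g (i : ℕ) ∈ M' := by
      rw [hM', mem_stabilizer_iff, mul_smul, mul_smul, hfix, inv_smul_smul]
    obtain ⟨m, hm, hmf⟩ := exists_pow_fix ((g (i : ℕ))⁻¹ * g0 * g (i : ℕ)) (x : G ⧸ M k) Sg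
      hSgcard.1 (fun n => hinv _ (M'.pow_mem hmem n) _ hx)
    refine ⟨m, hm, ?_⟩
    have e : ((g (i : ℕ))⁻¹ * g0 * g (i : ℕ)) ^ m = (g (i : ℕ))⁻¹ * g0 ^ m * g (i : ℕ) := by
      have := conj_pow (i := m) (a := (g (i : ℕ))⁻¹) (b := g0)
      rwa [inv_inv] at this
    rw [e, mul_smul, mul_smul, inv_smul_eq_iff] at hmf
    exact hmf)
  have hone : g0 ^ N = 1 := by
    by_contra hne
    refine ff_quot (h.ff k hk1) (g0 ^ N) hne _ ?_ hNfix
    intro i j hij
    by_contra hne'
    exact hgne i j (fun e => hne' (Fin.ext e)) _ hx _ hx hij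
  have hg01 := hTF g0 N hN hone
  rw [hg01, one_smul] at hmove
  have := hpinj hmove
  omega

end TD
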