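import Pool.Agent.TD.FinalA
import Pool.Agent.TD.FinalB

/-!
# Module Final.  Blueprint section 1.
-/

set_option autoImplicit false

namespace TD

theorem final (h : ∃ (G : Type) (_ : Group G) (_ : Countable G) (M : ℕ → Subgroup G),
      LimProps G M) :
    ¬ (∀ (G : Type) [Group G] [Countable G],
      (∀ k : ℕ, ∃ (X : Type) (_ : MulAction G X),
          FaithfulSMul G X ∧ Nonempty (Fin k ↪ X) ∧
            MulAction.IsMultiplyPretransitive G X k) →
      ∃ (X : Type) (_ : MulAction G X),
          FaithfulSMul G X ∧ Infinite X ∧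
            ∀ n : ℕ, MulAction.IsMultiplyPretransitive G X n) := by
  intro H
  obtain ⟨G, i1, i2, M, hM⟩ := h
  obtain ⟨X, i3, hf, hinf, ht⟩ := H G (fun k => hM.transitive k)
  exact hM.not_ht X ht

end TD
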