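import Pool.Agent.TD.LimitB
import Pool.Agent.TD.Final

/-!
# Module LIMIT: the direct limit.  Blueprint section 18.
-/

set_option autoImplicit false

namespace TD

section

variable {s : ∀ n, State n} {f : ∀ n, StageHom (s n).A (s (n + 1)).A}

/-- The homomorphisms of the sequence. -/
abbrev phi (f : ∀ n, StageHom (s n).A (s (n + 1)).A) :
    ∀ n, (s n).A.G →* (s (n + 1)).A.G := fun n => (f n).φ

/-- The limit subgroups. -/
abbrev LM (f : ∀ n, StageHom (s n).A (s (n + 1)).A) (k : ℕ) : Subgroup (Lim (phi f)) :=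
  limSub (phi f) (fun n => (s n).A.H k)

theorem mapH' (k : ℕ) : ∀ n, ((s n).A.H k).map (phi f n) ≤ (s (n + 1)).A.H k :=
  fun n => (f n).mapH k

theorem exists_time
    (hdone : ∀ n, Done (f n) ((s n).e n.unpair.1 n.unpair.2))
    (hmap : ∀ n m, m ≤ n → ∀ i, (s (n + 1)).e m i = ((s n).e m i).map (f n).φ)
    (hsurj : ∀ n, Function.Surjective ((s n).e n))
    (T : ∀ n, Task (s n).A.G) (N : ℕ)
    (hT : ∀ n, N ≤ n → T (n + 1) = (T n).map (f n).φ) :
    ∃ n, N ≤ n ∧ Done (f n) (T n) := by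
  obtain ⟨i, hi⟩ := hsurj N (T N)
  have key : ∀ n, N ≤ n → (s n).e N i = T n := by
    intro n hn
    induction n, hn using Nat.le_induction with
    | base => exact hi
    | succ n hn ih => rw [hmap n N hn i, ih, hT n hn]
  have h := hdone (Nat.pair N i)
  rw [Nat.unpair_pair] at h
  have h2 : N ≤ Nat.pair N i := Nat.left_le_pair N i
  rw [key _ h2] at h
  exact ⟨_, h2, h⟩

theorem tf_lim : TF (Lim (phi f)) := by
  intro X p hp h
  obtain ⟨x, hx⟩ := exists_rep X
  obtain ⟨N, hN⟩ := (hx.pow p).eq_one_iff.mp h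
  refine hx.eq_one_iff.mpr ⟨N, fun n hn => (s n).A.tf _ p hp ?_⟩
  exact hN n hn

theorem ff_lim (k : ℕ) : FF (LM f k) k := by
  intro X hX Y hY
  obtain ⟨x, hx⟩ := exists_rep X
  obtain ⟨y, N, -, hy, hN⟩ := exists_reps Y 0
  have h1 : ∀ i, ∀ᶠ n in Filter.atTop, (y i n)⁻¹ * x n * y i n ∈ (s n).A.H k := by
    intro i
    rw [Filter.eventually_atTop]
    exact ((((hy i).inv.mul hx).mul (hy i)).mem_iff _).mp (hY i)
  have h2 := Filter.eventually_all.mpr h1
  rw [Filter.eventually_atTop] at h2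
  obtain ⟨M, hM⟩ := h2
  have h3 : ∃ n, max M N ≤ n ∧ x n ≠ 1 := by
    by_contra hcon
    push Not at hcon
    exact hX (hx.eq_one_iff.mpr ⟨max M N, hcon⟩)
  obtain ⟨n, hn, hxn⟩ := h3
  obtain ⟨i, j, hij, h⟩ := (s n).A.ff k (x n) hxn (fun i => y i n)
    (hM n (le_trans (le_max_left _ _) hn))
  refine ⟨i, j, hij, ?_⟩
  have hc : Coh (phi f) ((y i)⁻¹ * y j) N := by
    intro m hm
    rw [Pi.mul_apply, Pi.mul_apply, Pi.inv_apply, Pi.inv_apply, map_mul, map_inv, hN i m hm,
      hN j m hm]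
  exact ((hy i).inv.mul (hy j)).mem_of hc (mapH' k) (le_trans (le_max_right _ _) hn) h

theorem trans_lim
    (hdone : ∀ n, Done (f n) ((s n).e n.unpair.1 n.unpair.2))
    (hmap : ∀ n m, m ≤ n → ∀ i, (s (n + 1)).e m i = ((s n).e m i).map (f n).φ)
    (hsurj : ∀ n, Function.Surjective ((s n).e n))
    (k : ℕ) (hk : 1 ≤ k) (X Y : Fin k → Lim (phi f))
    (hX : ∀ i j, i ≠ j → (X i)⁻¹ * X j ∉ LM f k) (hY : ∀ i j, i ≠ j → (Y i)⁻¹ * Y j ∉ LM f k) :
    ∃ t, ∀ i, (Y i)⁻¹ * t * X i ∈ LM f k := by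
  obtain ⟨x, N, hkN, hx, hcx⟩ := exists_reps X k
  obtain ⟨y, M, hNM, hy, hcy⟩ := exists_reps Y N
  obtain ⟨n, hn, hd⟩ := exists_time hdone hmap hsurj
    (fun n => Sum.inr (⟨k, fun i => x i n, fun i => y i n⟩, 1)) M (by
      intro n hn
      have e1 : (fun i => x i (n + 1)) = fun i => (f n).φ (x i n) := by
        funext i; exact (hcx i n (hNM.trans hn)).symm
      have e2 : (fun i => y i (n + 1)) = fun i => (f n).φ (y i n) := by
        funext i; exact (hcy i n hn).symm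
      change (Sum.inr (⟨k, fun i => x i (n + 1), fun i => y i (n + 1)⟩, 1) :
        Task (s (n + 1)).A.G) = Sum.inr (⟨k, fun i => (f n).φ (x i n),
          fun i => (f n).φ (y i n)⟩, (f n).φ 1)
      rw [e1, e2, map_one])
  have hc : ∀ (z : Fin k → ∀ n, (s n).A.G), (∀ i, Coh (phi f) (z i) M) → ∀ i j,
      Coh (phi f) ((z i)⁻¹ * z j) M := by
    intro z hz i j m hm
    rw [Pi.mul_apply, Pi.mul_apply, Pi.inv_apply, Pi.inv_apply, map_mul, map_inv, hz i m hm,
      hz j m hm]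
  obtain ⟨-, hd⟩ := hd
  obtain ⟨t, ht⟩ := hd hk (by omega)
    (by
      intro i j hij h
      exact hX i j hij (((hx i).inv.mul (hx j)).mem_of
        (hc x (fun i => (hcx i).mono hNM) i j) (mapH' k) hn h))
    (by
      intro i j hij h
      exact hY i j hij (((hy i).inv.mul (hy j)).mem_of (hc y hcy i j) (mapH' k) hn h))
  refine ⟨iota (phi f) (n + 1) t, fun i => ?_⟩
  have e1 : iota (phi f) (n + 1) ((f n).φ (x i n)) = X i := by
    have := (hx i).iota_eq (hcx i) (show N ≤ n + 1 by omega)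
    rw [← this, ← hcx i n (by omega)]
  have e2 : iota (phi f) (n + 1) ((f n).φ (y i n)) = Y i := by
    have := (hy i).iota_eq (hcy i) (show M ≤ n + 1 by omega)
    rw [← this, ← hcy i n (by omega)]
  rw [← e1, ← e2, ← map_inv, ← map_mul, ← map_mul]
  exact iota_mem (mapH' k) (ht i)

/-- Separation at a recorded element. -/
theorem sep_aux {C : Lim (phi f)} {c : ∀ n, (s n).A.G} (hc : Rep (phi f) C c) (j N : ℕ)
    (hj : ∀ n, N ≤ n → (s n).A.c j = c n) (k : ℕ) (hk : j < k) :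
    Sep (Subgroup.zpowers C) (LM f k) := by
  intro X h hh hm
  obtain ⟨p, rfl⟩ := Subgroup.mem_zpowers_iff.mp hh
  obtain ⟨x, hx⟩ := exists_rep X
  obtain ⟨M, hM⟩ := (((hx.mul (hc.zpow p)).mul hx.inv).mem_iff _).mp hm
  refine (hc.zpow p).eq_one_iff.mpr ⟨max (max M N) j, fun n hn => ?_⟩
  have h1 : M ≤ n := le_trans (le_trans (le_max_left _ _) (le_max_left _ _)) hn
  have h2 : N ≤ n := le_trans (le_trans (le_max_right _ _) (le_max_left _ _)) hn
  have h3 : j ≤ n := le_trans (le_max_right _ _) hn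
  refine (s n).A.sep j k h3 hk (x n) ((c ^ p) n) ?_ (hM n h1)
  rw [hj n h2, Pi.pow_apply]
  exact Subgroup.zpow_mem_zpowers _ _

theorem sep_lim
    (hdone : ∀ n, Done (f n) ((s n).e n.unpair.1 n.unpair.2))
    (hmap : ∀ n m, m ≤ n → ∀ i, (s (n + 1)).e m i = ((s n).e m i).map (f n).φ)
    (hsurj : ∀ n, Function.Surjective ((s n).e n)) (C : Lim (phi f)) :
    ∃ k0, ∀ k, k0 < k → Sep (Subgroup.zpowers C) (LM f k) := by
  obtain ⟨c, hc⟩ := exists_rep C
  obtain ⟨N, hN⟩ := hc.coh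
  obtain ⟨n, hn, hd⟩ := exists_time hdone hmap hsurj (fun n => Sum.inl ([], 1, c n)) N (by
      intro n hn
      change (Sum.inl ([], 1, c (n + 1)) : Task (s (n + 1)).A.G) =
        Sum.inl (List.map (f n).φ [], (f n).φ 1, (f n).φ (c n))
      rw [map_one, List.map_nil, ← hN n hn])
  obtain ⟨h1, -⟩ := hd
  refine ⟨n + 1, fun k hk => sep_aux hc (n + 1) (n + 1) ?_ k hk⟩
  intro m hm
  induction m, hm using Nat.le_induction with
  | base => rw [h1, ← hN n hn]
  | succ m hm ih => rw [← (f m).mapc (n + 1) hm, ih, ← hN m (by omega)]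

theorem sep0_lim (h0 : (s 0).A.c 0 ≠ 1) :
    ∃ c0 : Lim (phi f), c0 ≠ 1 ∧ ∀ k, 1 ≤ k → Sep (Subgroup.zpowers c0) (LM f k) := by
  have hcoh : Coh (phi f) (fun n => (s n).A.c 0) 0 := fun n _ => (f n).mapc 0 (Nat.zero_le _)
  have hne : ∀ n, (s n).A.c 0 ≠ 1 := by
    intro n
    induction n with
    | zero => exact h0
    | succ n ih => exact (f n).c_ne 0 (Nat.zero_le _) ih
  have hrep : Rep (phi f) (iota (phi f) 0 ((s 0).A.c 0)) (fun n => (s n).A.c 0) := by
    refine ⟨⟨0, hcoh⟩, ?_⟩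
    have h : Rep (phi f) (QuotientGroup.mk (⟨fun n => (s n).A.c 0, ⟨0, hcoh⟩⟩ :
      cohGroup (phi f)) : cohGroup (phi f) ⧸ evOne (phi f)) (fun n => (s n).A.c 0) :=
      ⟨⟨0, hcoh⟩, rfl⟩
    exact h.iota_eq hcoh le_rfl
  refine ⟨_, ?_, fun k hk => sep_aux hrep 0 0 (fun _ _ => rfl) k hk⟩
  intro h
  obtain ⟨N, hN⟩ := hrep.eq_one_iff.mp h
  exact hne N (hN N le_rfl)

theorem trap_lim
    (hdone : ∀ n, Done (f n) ((s n).e n.unpair.1 n.unpair.2))
    (hmap : ∀ n m, m ≤ n → ∀ i, (s (n + 1)).e m i = ((s n).e m i).map (f n).φ)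
    (hsurj : ∀ n, Function.Surjective ((s n).e n)) (S : Finset (Lim (phi f)))
    (hS : NonAb (Subgroup.closure (S : Set (Lim (phi f))))) :
    Subgroup.closure (S : Set (Lim (phi f))) = ⊤ ∨
    ∃ k, 1 ≤ k ∧ ∃ x : Lim (phi f),
      {c : Lim (phi f) ⧸ LM f k | ∃ u ∈ Subgroup.closure (S : Set (Lim (phi f))),
        c = ((u * x : Lim (phi f)) : Lim (phi f) ⧸ LM f k)}.Finite := by
  by_contra hcon
  push Not at hcon
  obtain ⟨h1, h2⟩ := hcon
  apply h1
  rw [eq_top_iff]
  intro a _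
  -- representatives of the elements of `S` and of `a`
  obtain ⟨x, N, -, hx, hcx⟩ := exists_reps (fun i : S => (i : Lim (phi f))) 0
  obtain ⟨z, hz⟩ := exists_rep a
  obtain ⟨N', hN'⟩ := hz.coh
  obtain ⟨n, hn, hd⟩ := exists_time hdone hmap hsurj
    (fun n => Sum.inl (S.attach.toList.map (fun i => x i n), z n, 1)) (max N N') (by
      intro n hn
      change (Sum.inl (S.attach.toList.map (fun i => x i (n + 1)), z (n + 1), 1) :
        Task (s (n + 1)).A.G) =
        Sum.inl (List.map (f n).φ (S.attach.toList.map (fun i => x i n)), (f n).φ (z n),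
          (f n).φ 1)
      rw [map_one, List.map_map, ← hN' n (le_trans (le_max_right _ _) hn)]
      have e : (fun i => x i (n + 1)) = (f n).φ ∘ (fun i => x i n) := by
        funext i
        exact (hcx i n (le_trans (le_max_left _ _) hn)).symm
      rw [e])
  obtain ⟨-, hd⟩ := hd
  have hNn : N ≤ n := le_trans (le_max_left _ _) hn
  have hNn' : N' ≤ n := le_trans (le_max_right _ _) hn
  -- the image of the subgroup of the stage
  have himg : (clo (S.attach.toList.map (fun i => x i n))).map (iota (phi f) n) =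
      Subgroup.closure (S : Set (Lim (phi f))) := by
    unfold clo
    rw [MonoidHom.map_closure]
    congr 1
    ext X
    constructor
    · rintro ⟨g, hg, rfl⟩
      change g ∈ List.map (fun i => x i n) S.attach.toList at hg
      rw [List.mem_map] at hg
      obtain ⟨i, -, rfl⟩ := hg
      rw [(hx i).iota_eq (hcx i) hNn]
      exact i.2
    · intro hX
      refine ⟨x ⟨X, hX⟩ n, ?_, (hx ⟨X, hX⟩).iota_eq (hcx _) hNn⟩
      change _ ∈ List.map (fun i => x i n) S.attach.toList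
      rw [List.mem_map]
      exact ⟨⟨X, hX⟩, by simp, rfl⟩
  have hna : NonAb (clo (S.attach.toList.map (fun i => x i n))) := by
    obtain ⟨u, hu, v, hv, huv⟩ := hS
    rw [← himg] at hu hv
    obtain ⟨u', hu', rfl⟩ := hu
    obtain ⟨v', hv', rfl⟩ := hv
    refine ⟨u', hu', v', hv', fun h => huv ?_⟩
    rw [← map_mul, ← map_mul, h]
  have hno : ∀ k, 1 ≤ k → k ≤ n → NoFin (clo (S.attach.toList.map (fun i => x i n)))
      ((s n).A.H k) := by
    intro k hk _ g hfin
    apply h2 k hk (iota (phi f) n g)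
    let F : (s n).A.G ⧸ (s n).A.H k → Lim (phi f) ⧸ LM f k :=
      Quotient.map' (iota (phi f) n) (by
        intro p q hpq
        rw [QuotientGroup.leftRel_apply] at hpq ⊢
        rw [← map_inv, ← map_mul]
        exact iota_mem (mapH' k) hpq)
    refine (hfin.image F).subset ?_
    rintro c ⟨u, hu, rfl⟩
    rw [← himg] at hu
    obtain ⟨u', hu', rfl⟩ := hu
    refine ⟨_, ⟨u', hu', rfl⟩, ?_⟩
    change ((iota (phi f) n (u' * g) : Lim (phi f)) : Lim (phi f) ⧸ LM f k) = _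
    rw [map_mul]
  obtain ⟨u, hu, hua⟩ := hd hna hno
  rw [← himg]
  refine ⟨u, hu, ?_⟩
  have e1 : iota (phi f) (n + 1) ((f n).φ u) = iota (phi f) n u := iota_succ (φ := phi f) n u
  have e2 : iota (phi f) (n + 1) ((f n).φ (z n)) = iota (phi f) n (z n) :=
    iota_succ (φ := phi f) n (z n)
  rw [← e1, hua, e2]
  exact hz.iota_eq hN' hNn'

end

theorem exists_limit : ∃ (G : Type) (_ : Group G) (_ : Countable G) (M : ℕ → Subgroup G),
    LimProps G M := by
  obtain ⟨s, f, h0, hdone, hmap, hsurj⟩ := exists_seq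
  have hcount : ∀ n, Countable (s n).A.G := fun n => (s n).A.hG.countable
  refine ⟨Lim (phi f), inferInstance, inferInstance, LM f, ?_⟩
  exact
    { tf := tf_lim
      trans := fun k hk x y hx hy => trans_lim hdone hmap hsurj k hk x y hx hy
      ff := fun k _ => ff_lim k
      sep := fun c _ => sep_lim hdone hmap hsurj c
      sep0 := sep0_lim h0
      trap := fun S hS => trap_lim hdone hmap hsurj S hS }

end TD
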