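import Pool.Agent.TD.AxisB

/-!
# Module AxisD: the cone-off metric of the axes; bounded geodesic image (B5).  Blueprint section 8.
-/

set_option autoImplicit false

namespace TD

variable {G : Type*} [Group G] {d : G → G → ℕ} {δ : ℕ} {r : G} {γ : ℤ → G} {L θ c : ℕ}

theorem wax_smul (hS : SC d r γ L θ c) (g x : G) (v : Ax r) (hx : x ∈ wax r γ v) :
    g * x ∈ wax r γ (g • v) := by
  obtain ⟨s, rfl⟩ := hx
  have h1 : (((g • v).out : G) : Ax r) = ((g * v.out : G) : Ax r) := by
    rw [QuotientGroup.out_eq', ← smul_eq_mul, ← MulAction.Quotient.smul_coe,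
      QuotientGroup.out_eq']
  rw [QuotientGroup.eq] at h1
  obtain ⟨k, hk⟩ := Subgroup.mem_zpowers_iff.1 h1
  refine ⟨s + k * L, ?_⟩
  have h2 := rho_gam hS (g • v) k s
  rw [← h2]
  unfold gam rho
  rw [conj_zpow]
  have h3 : (g • v).out * r ^ k = g * v.out := by
    rw [hk]; group
  calc (g • v).out * r ^ k * (g • v).out⁻¹ * ((g • v).out * γ s)
      = ((g • v).out * r ^ k) * γ s := by group
    _ = g * (v.out * γ s) := by rw [h3, mul_assoc]

theorem cadj_smul (hG : IsHG d δ) (hS : SC d r γ L θ c) (g x y : G)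
    (h : cadj d (wax r γ) x y) : cadj d (wax r γ) (g * x) (g * y) := by
  rcases h with h | ⟨v, h1, h2⟩
  · left; rw [hG.inv]; exact h
  · right; exact ⟨g • v, wax_smul hS g x v h1, wax_smul hS g y v h2⟩

theorem cm_inv_le (hG : IsHG d δ) (hS : SC d r γ L θ c) (g x y : G) :
    cm d r γ (g * x) (g * y) ≤ cm d r γ x y := by
  obtain ⟨e, h0, hT, hadj⟩ := cd_reach (w := wax r γ) hG.toIsGM x y
  refine cd_le_of_reach ⟨fun i => g * e i, by simp [h0], ?_, fun i hi =>
    cadj_smul hG hS g _ _ (hadj i hi)⟩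
  change g * e (cd d (wax r γ) x y) = g * y
  rw [hT]

theorem cm_inv (hG : IsHG d δ) (hS : SC d r γ L θ c) (g x y : G) :
    cm d r γ (g * x) (g * y) = cm d r γ x y := by
  refine le_antisymm (cm_inv_le hG hS g x y) ?_
  have h := cm_inv_le hG hS g⁻¹ (g * x) (g * y)
  rwa [inv_mul_cancel_left, inv_mul_cancel_left] at h

/-- B5 (bounded geodesic image). -/
theorem ax_bgi (hG : IsHG d δ) (hS : SC d r γ L θ c) (hθ : 1000 * (δ + c + 1) ≤ θ)
    (hL : 1000 * θ ≤ L) (v : Ax r) (x y : G)
    (h : (6 * RR δ (kap δ c) (CC2 δ c) + 15) * (θ : ℤ) < |pos d γ v x - pos d γ v y|) :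
    ∃ s t : ℤ, cm d r γ x (gam γ v s) + 1 + cm d r γ (gam γ v t) y = cm d r γ x y := by
  by_contra hno
  push Not at hno
  have hL0 : 0 < L := by omega
  have hm := hG.toIsGM
  have hM : IsGM (cd d (wax r γ)) := isGM_cd hm
  obtain ⟨e, he0, heT, hadj⟩ := cd_reach (w := wax r γ) hm x y
  set T := cd d (wax r γ) x y with hT
  set R := RR δ (kap δ c) (CC2 δ c) with hR
  have hn : T = cd d (wax r γ) (e 0) (e T) := by rw [he0, heT]
  have hgeo : ∀ i j, i ≤ j → j ≤ T → cd d (wax r γ) (e i) (e j) = j - i :=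
    fun i j hij hj => cd_geod hm hn hadj hij hj
  -- steps
  have hstep : ∀ l < T, |pos d γ v (e l) - pos d γ v (e (l + 1))| ≤ 3 * (θ : ℤ) := by
    intro l hl
    rcases hadj l hl with h1 | ⟨u, hu1, hu2⟩
    · have h2 := ax_b hG hS hθ hL v (e l) (e (l + 1))
      have h3 : CC2 δ c ≤ 10 * (δ + c + 1) := by
        unfold CC2 CC1 kap; omega
      push_cast at h2
      have h4 : (d (e l) (e (l + 1)) : ℤ) ≤ 1 := by exact_mod_cast h1
      have h5 : (CC2 δ c : ℤ) ≤ 10 * (δ + c + 1) := by exact_mod_cast h3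
      have h6 : 1000 * ((δ : ℤ) + c + 1) ≤ θ := by exact_mod_cast hθ
      omega
    · by_cases huv : u = v
      · exfalso
        subst huv
        obtain ⟨s, hs⟩ := hu1
        obtain ⟨t, ht⟩ := hu2
        apply hno s t
        unfold cm
        rw [hs, ht, ← hT]
        have g1 := hgeo 0 l (Nat.zero_le _) hl.le
        have g2 := hgeo (l + 1) T hl le_rfl
        rw [he0] at g1
        rw [heT] at g2
        rw [g1, g2]
        omega
      · obtain ⟨s, hs⟩ := hu1
        obtain ⟨t, ht⟩ := hu2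
        rw [← hs, ← ht]
        have := ax_small hG hS hL0 huv s t
        omega
  have hsum : ∀ a b, a ≤ b → b ≤ T →
      |pos d γ v (e a) - pos d γ v (e b)| ≤ 3 * (θ : ℤ) * (b - a) := by
    intro a b hab
    induction b, hab using Nat.le_induction with
    | base => intro _; simp
    | succ b hab ih =>
      intro hb
      have h1 := ih (by omega)
      have h2 := hstep b (by omega)
      have h3 := abs_sub_le (pos d γ v (e a)) (pos d γ v (e b)) (pos d γ v (e (b + 1)))
      push_cast
      linarith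
  -- pieces far from the axis
  set near : ℕ → Prop := fun l => ∃ s, cd d (wax r γ) (gam γ v s) (e l) ≤ R with hnear
  have hfar : ∀ a b, a ≤ b → b ≤ T → (∀ l, a ≤ l → l ≤ b → ¬ near l) →
      |pos d γ v (e a) - pos d γ v (e b)| ≤ 3 * (θ : ℤ) := by
    intro a b hab hb hl
    by_contra hcon
    have h1 := ax_a hG hS hθ hL v (e a) (e b) (not_le.1 hcon)
    have h2 := hm.tri (prj d γ v (e a)) (prj d γ v (e b)) (e b)
    have hp : Btw d (CC2 δ c) (e a) (e b) (prj d γ v (e a)) := by
      unfold Btw; omega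
    have hq := cone_close (w := wax r γ) (κ := kap δ c) (C := CC2 δ c) hm hG.hyp
      (fun i => wax_qc hG hS i) (p := prj d γ v (e a)) (n := b - a) (e := fun l => e (a + l))
      (by
        rw [Nat.add_zero, Nat.add_sub_cancel' hab]
        exact (hgeo a b hab hb).symm)
      (by
        intro i hi
        have := hadj (a + i) (by omega)
        exact this)
      (by
        rw [Nat.add_zero, Nat.add_sub_cancel' hab]
        exact hp)
    obtain ⟨i, hi, hi'⟩ := hq
    exact hl (a + i) (by omega) (by omega) ⟨pos d γ v (e a), hi'⟩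
  have hθ0 : (0 : ℤ) ≤ θ := Int.natCast_nonneg θ
  have hRθ : (0 : ℤ) ≤ (R : ℤ) * θ := by positivity
  by_cases hex : ∃ l, l ≤ T ∧ near l
  · classical
    set i := Nat.find hex with hi
    have hiT : i ≤ T := (Nat.find_spec hex).1
    have hin : near i := (Nat.find_spec hex).2
    have himin : ∀ l < i, ¬ near l := fun l hl hnl =>
      Nat.find_min hex hl ⟨by omega, hnl⟩
    set j := Nat.findGreatest near T with hj
    have hjT : j ≤ T := Nat.findGreatest_le T
    have hjn : near j := Nat.findGreatest_spec hiT hin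
    have hij : i ≤ j := Nat.le_findGreatest hiT hin
    have hjmax : ∀ l, j < l → l ≤ T → ¬ near l := fun l h1 h2 =>
      Nat.findGreatest_is_greatest h1 h2
    have hA : |pos d γ v x - pos d γ v (e i)| ≤ 6 * (θ : ℤ) := by
      rcases Nat.eq_zero_or_pos i with h0 | h0
      · rw [h0, he0]; simp
      · have h1 := hfar 0 (i - 1) (Nat.zero_le _) (by omega) (fun l _ hl => himin l (by omega))
        have h2 := hstep (i - 1) (by omega)
        rw [Nat.sub_add_cancel h0] at h2
        rw [he0] at h1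
        have h3 := abs_sub_le (pos d γ v x) (pos d γ v (e (i - 1))) (pos d γ v (e i))
        linarith
    have hB : |pos d γ v (e j) - pos d γ v y| ≤ 6 * (θ : ℤ) := by
      rcases Nat.lt_or_ge j T with h0 | h0
      · have h1 := hfar (j + 1) T h0 le_rfl (fun l hl hl' => hjmax l (by omega) hl')
        have h2 := hstep j h0
        rw [heT] at h1
        have h3 := abs_sub_le (pos d γ v (e j)) (pos d γ v (e (j + 1))) (pos d γ v y)
        linarith
      · have h1 : j = T := le_antisymm hjT h0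
        rw [h1, heT]; simp
    have hC : j - i ≤ 2 * R + 1 := by
      obtain ⟨s, hs⟩ := hin
      obtain ⟨t, ht⟩ := hjn
      have h1 : cd d (wax r γ) (gam γ v s) (gam γ v t) ≤ 1 :=
        cd_adj hm (Or.inr ⟨v, ⟨s, rfl⟩, ⟨t, rfl⟩⟩)
      have h2 := hM.tri (e i) (gam γ v s) (e j)
      have h3 := hM.tri (gam γ v s) (gam γ v t) (e j)
      have h4 := hM.symm (e i) (gam γ v s)
      rw [hgeo i j hij hjT] at h2
      omega
    have hD := hsum i j hij hjT
    have hE : (3 * (θ : ℤ) * (j - i)) ≤ 3 * (θ : ℤ) * (2 * R + 1) := by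
      apply mul_le_mul_of_nonneg_left _ (by positivity)
      have : (j : ℤ) ≤ i + (2 * R + 1) := by exact_mod_cast (by omega : j ≤ i + (2 * R + 1))
      linarith
    have h3 := abs_sub_le (pos d γ v x) (pos d γ v (e i)) (pos d γ v y)
    have h4 := abs_sub_le (pos d γ v (e i)) (pos d γ v (e j)) (pos d γ v y)
    nlinarith
  · have h1 := hfar 0 T (Nat.zero_le _) le_rfl (fun l _ hl hnl => hex ⟨l, hl, hnl⟩)
    rw [he0, heT] at h1
    nlinarith

end TD
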