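import Pool.Agent.TD.AxisDefs

/-!
# Module AxisA: positions and projections to the axes.  Blueprint section 7.
-/

set_option autoImplicit false

namespace TD

variable {G : Type*} [Group G] {d : G → G → ℕ} {δ : ℕ} {r : G} {γ : ℤ → G} {L θ c : ℕ}

theorem rho_mem (v : Ax r) : rho v ∈ NN r := by
  have h1 : r ∈ NN r := Subgroup.subset_normalClosure rfl
  exact (Subgroup.normalClosure_normal (s := {r})).conj_mem r h1 v.out

theorem gam_btw (hG : IsHG d δ) (hS : SC d r γ L θ c) (v : Ax r) {s u t : ℤ} (h1 : s ≤ u)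
    (h2 : u ≤ t) : Btw d c (gam γ v s) (gam γ v t) (gam γ v u) := by
  have h := hS.btw s u t h1 h2
  unfold Btw gam at *
  rw [hG.inv, hG.inv, hG.inv]
  exact h

theorem gam_lip_aux (hG : IsHG d δ) (hS : SC d r γ L θ c) (v : Ax r) (s : ℤ) (n : ℕ) :
    d (gam γ v s) (gam γ v (s + n)) ≤ n := by
  induction n with
  | zero => simp [hG.self]
  | succ n ih =>
    have h1 := hG.tri (gam γ v s) (gam γ v (s + n)) (gam γ v (s + (n + 1 : ℕ)))
    have h2 : d (gam γ v (s + n)) (gam γ v (s + (n + 1 : ℕ))) ≤ 1 := by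
      have := hS.lip (s + n)
      unfold gam
      rw [hG.inv]
      have e : s + ((n + 1 : ℕ) : ℤ) = s + n + 1 := by push_cast; ring
      rw [e]
      exact this
    omega

theorem gam_lip (hG : IsHG d δ) (hS : SC d r γ L θ c) (v : Ax r) (s t : ℤ) :
    (d (gam γ v s) (gam γ v t) : ℤ) ≤ |s - t| := by
  rcases le_total s t with h | h
  · obtain ⟨n, hn⟩ := Int.eq_ofNat_of_zero_le (sub_nonneg.2 h)
    have e : t = s + n := by omega
    have := gam_lip_aux hG hS v s n
    rw [e, abs_sub_comm]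
    have e2 : s + (n : ℤ) - s = n := by ring
    rw [e2, abs_of_nonneg (by omega)]
    exact_mod_cast this
  · obtain ⟨n, hn⟩ := Int.eq_ofNat_of_zero_le (sub_nonneg.2 h)
    have e : s = t + n := by omega
    have := gam_lip_aux hG hS v t n
    rw [e, hG.symm]
    have e2 : t + (n : ℤ) - t = n := by ring
    rw [e2, abs_of_nonneg (by omega)]
    exact_mod_cast this

theorem gam_low (hG : IsHG d δ) (hS : SC d r γ L θ c) (v : Ax r) (s t : ℤ) :
    4 * |s - t| ≤ 5 * (d (gam γ v s) (gam γ v t) : ℤ) + 5 * θ := by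
  unfold gam
  rw [hG.inv]
  rcases le_total s t with h | h
  · have := hS.low s t h
    rw [abs_sub_comm, abs_of_nonneg (sub_nonneg.2 h)]
    exact this
  · have := hS.low t s h
    rw [abs_of_nonneg (sub_nonneg.2 h), hG.symm]
    exact this

theorem wax_qc (hG : IsHG d δ) (hS : SC d r γ L θ c) (v : Ax r) :
    QC d (kap δ c) (wax r γ v) := by
  rintro a ⟨s, rfl⟩ b ⟨t, rfl⟩ p
  have hl : ∀ u : ℤ, d (gam γ v u) (gam γ v (u + 1)) ≤ 1 := by
    intro u
    have := gam_lip_aux hG hS v u 1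
    simpa using this
  rcases le_total s t with h | h
  · obtain ⟨u, h1, h2, h3⟩ := path_qc hG.toIsGM hG.hyp (c := c) (l := 1) (gam γ v) h
      (fun u _ _ => hl u) (fun u h1 h2 => gam_btw hG hS v h1 h2) p
    exact ⟨gam γ v u, ⟨u, rfl⟩, h3⟩
  · obtain ⟨u, h1, h2, h3⟩ := path_qc hG.toIsGM hG.hyp (c := c) (l := 1) (gam γ v) h
      (fun u _ _ => hl u) (fun u h1 h2 => gam_btw hG hS v h1 h2) p
    refine ⟨gam γ v u, ⟨u, rfl⟩, ?_⟩
    rw [hG.symm (gam γ v s) (gam γ v t), hG.symm (gam γ v s) p, hG.symm p (gam γ v t)]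
    unfold kap
    omega

omit [Group G] in
theorem axisA_exists_near (d : G → G → ℕ) (γ : ℤ → G) (x : G) : ∃ s, IsNear d γ x s := by
  obtain ⟨s, hs⟩ : ∃ s : ℤ, ∀ t, ¬ d x (γ t) < d x (γ s) := by
    by_contra hcon
    push Not at hcon
    have key : ∀ n : ℕ, ∀ s : ℤ, d x (γ s) = n → False := by
      intro n
      induction n using Nat.strong_induction_on with
      | _ n ih =>
        intro s hs
        obtain ⟨t, ht⟩ := hcon s
        exact ih _ (hs ▸ ht) t rfl
    exact key _ 0 rfl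
  exact ⟨s, fun t => not_lt.1 (hs t)⟩

theorem axisA_isLeast (hG : IsHG d δ) (hS : SC d r γ L θ c) (x : G) :
    IsLeast {s | IsNear d γ x s} (pos0 d γ x) := by
  have hne : {s | IsNear d γ x s}.Nonempty := axisA_exists_near d γ x
  have hb : BddBelow {s | IsNear d γ x s} := by
    refine ⟨-(10 * (d x (γ 0) : ℤ) + 5 * θ), ?_⟩
    intro s hs
    have h1 : d x (γ s) ≤ d x (γ 0) := hs 0
    rcases le_total s 0 with h | h
    · have h2 := hS.low s 0 h
      have h3 := hG.tri (γ s) x (γ 0)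
      have h4 := hG.symm (γ s) x
      omega
    · have : (0 : ℤ) ≤ 10 * (d x (γ 0) : ℤ) + 5 * θ := by positivity
      omega
  exact ⟨Int.csInf_mem hne hb, fun s hs => csInf_le hb hs⟩

theorem axisA_near (hG : IsHG d δ) (hS : SC d r γ L θ c) (x : G) :
    IsNear d γ x (pos0 d γ x) := (axisA_isLeast hG hS x).1

theorem pos_isNear (hG : IsHG d δ) (hS : SC d r γ L θ c) (hL : 0 < L) (v : Ax r) (x : G) :
    IsNear d γ (v.out⁻¹ * x) (pos d γ v x) := by
  have _ := hL
  exact axisA_near hG hS _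

/-- The projection is a nearest point. -/
theorem prj_near (hG : IsHG d δ) (hS : SC d r γ L θ c) (hL : 0 < L) (v : Ax r) (x : G) (t : ℤ) :
    d x (prj d γ v x) ≤ d x (gam γ v t) := by
  have h := pos_isNear hG hS hL v x t
  have e : ∀ s, d (v.out⁻¹ * x) (γ s) = d x (gam γ v s) := by
    intro s
    rw [← hG.inv v.out (v.out⁻¹ * x) (γ s), mul_inv_cancel_left]
    rfl
  rw [e, e] at h
  exact h

theorem axisA_per (hS : SC d r γ L θ c) (e s : ℤ) : r ^ e * γ s = γ (s + e * L) := by
  induction e using Int.induction_on with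
  | zero => simp
  | succ n ih =>
    have h1 : r ^ ((n : ℤ) + 1) = r * r ^ (n : ℤ) := by
      rw [add_comm, zpow_add, zpow_one]
    rw [h1, mul_assoc, ih, ← hS.per]
    congr 1
    ring
  | pred n ih =>
    have h1 : r ^ (-(n : ℤ) - 1) = r⁻¹ * r ^ (-(n : ℤ)) := by
      rw [sub_eq_add_neg, add_comm, zpow_add, zpow_neg_one]
    rw [h1, mul_assoc, ih, inv_mul_eq_iff_eq_mul, ← hS.per]
    congr 1
    ring

theorem axisA_rho_zpow (v : Ax r) (e : ℤ) : rho v ^ e = v.out * r ^ e * v.out⁻¹ := by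
  unfold rho
  exact conj_zpow

theorem rho_gam (hS : SC d r γ L θ c) (v : Ax r) (e s : ℤ) :
    rho v ^ e * gam γ v s = gam γ v (s + e * L) := by
  rw [axisA_rho_zpow]
  unfold gam
  rw [← axisA_per hS e s]
  group

theorem axisA_near_shift (hG : IsHG d δ) (hS : SC d r γ L θ c) (x : G) (e s : ℤ) :
    IsNear d γ (r ^ e * x) (s + e * L) ↔ IsNear d γ x s := by
  have h1 : ∀ t : ℤ, d (r ^ e * x) (γ (t + e * L)) = d x (γ t) := by
    intro t
    rw [← axisA_per hS e t, hG.inv]
  constructor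
  · intro h t
    have := h (t + e * L)
    rwa [h1, h1] at this
  · intro h t
    have h2 := h (t - e * L)
    have h3 := h1 (t - e * L)
    rw [sub_add_cancel] at h3
    rw [h1, h3]
    exact h2

theorem axisA_pos0_shift (hG : IsHG d δ) (hS : SC d r γ L θ c) (x : G) (e : ℤ) :
    pos0 d γ (r ^ e * x) = pos0 d γ x + e * L := by
  refine (axisA_isLeast hG hS (r ^ e * x)).unique ⟨?_, ?_⟩
  · exact (axisA_near_shift hG hS x e _).2 (axisA_near hG hS x)
  · intro s hs
    have h1 : IsNear d γ (r ^ e * x) (s - e * L + e * L) := by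
      rw [sub_add_cancel]; exact hs
    have h2 := (axisA_isLeast hG hS x).2 ((axisA_near_shift hG hS x e _).1 h1)
    linarith

theorem pos_rho (hG : IsHG d δ) (hS : SC d r γ L θ c) (hL : 0 < L) (v : Ax r) (x : G) (e : ℤ) :
    pos d γ v (rho v ^ e * x) = pos d γ v x + e * L := by
  have _ := hL
  unfold pos
  rw [← axisA_pos0_shift hG hS]
  congr 1
  rw [axisA_rho_zpow]
  group

/-- The position is equivariant up to an additive constant (a multiple of `L`). -/
theorem pos_smul (hG : IsHG d δ) (hS : SC d r γ L θ c) (hL : 0 < L) (g : G) (v : Ax r) :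
    ∃ e : ℤ, ∀ x, pos d γ (g • v) (g * x) = pos d γ v x + e * L := by
  have _ := hL
  have h1 : ((g • v).out : G ⧸ Subgroup.zpowers r) = ((g * v.out : G) : G ⧸ Subgroup.zpowers r) := by
    have h0 : ((g • v).out : G ⧸ Subgroup.zpowers r) = g • v := QuotientGroup.out_eq' _
    rw [h0]
    conv_lhs => rw [← QuotientGroup.out_eq' v]
    rfl
  have h2 := QuotientGroup.eq.1 h1
  obtain ⟨k, hk⟩ := Subgroup.mem_zpowers_iff.1 h2
  refine ⟨k, fun x => ?_⟩
  unfold pos
  rw [← axisA_pos0_shift hG hS]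
  congr 1
  have h3 : (g • v).out⁻¹ = r ^ k * (g * v.out)⁻¹ := by
    rw [hk]; group
  rw [h3]
  group

/-- Distinct axes have small projections to each other. -/
theorem ax_small (hG : IsHG d δ) (hS : SC d r γ L θ c) (hL : 0 < L) {u v : Ax r} (huv : u ≠ v)
    (s t : ℤ) : |pos d γ v (gam γ u s) - pos d γ v (gam γ u t)| ≤ θ := by
  have hx : v.out⁻¹ * u.out ∉ Subgroup.zpowers r := by
    intro hmem
    apply huv
    have h1 := QuotientGroup.eq.2 hmem
    have h2 : (v.out : G ⧸ Subgroup.zpowers r) = v := QuotientGroup.out_eq' _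
    have h3 : (u.out : G ⧸ Subgroup.zpowers r) = u := QuotientGroup.out_eq' _
    rw [h2, h3] at h1
    exact h1.symm
  have h1 := pos_isNear hG hS hL v (gam γ u s)
  have h2 := pos_isNear hG hS hL v (gam γ u t)
  unfold gam at h1 h2
  rw [← mul_assoc] at h1 h2
  exact hS.small _ hx s t _ _ h1 h2

/-- Same, for translates given by an element: if `g⁻¹`-translate of the axis is different. -/
theorem ax_small_on (hG : IsHG d δ) (hL : 0 < L) (hS : SC d r γ L θ c) {H : Subgroup G}
    (hH : SmallOn d γ θ H) (v : Ax r) (x h : G) (hh : h ∈ H) :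
    |pos d γ v x - pos d γ v (x * h)| ≤ θ := by
  have h1 := pos_isNear hG hS hL v x
  have h2 := pos_isNear hG hS hL v (x * h)
  rw [← mul_assoc] at h2
  refine hH (v.out⁻¹ * x) 1 H.one_mem h hh _ _ ?_ h2
  rw [mul_one]
  exact h1

end TD
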