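import Pool.Agent.TD.AxisA

/-!
# Module AxisB: AX-a, AX-b, AX-c, AX-d.  Blueprint section 7.
-/

set_option autoImplicit false

namespace TD

variable {G : Type*} [Group G] {d : G → G → ℕ} {δ : ℕ} {r : G} {γ : ℤ → G} {L θ c : ℕ}

theorem axb_mem (v : Ax r) (x : G) : prj d γ v x ∈ wax r γ v := ⟨_, rfl⟩

theorem axb_min (hG : IsHG d δ) (hS : SC d r γ L θ c) (hL : 0 < L) (v : Ax r) (x : G) :
    ∀ q ∈ wax r γ v, d x (prj d γ v x) ≤ d x q := by
  rintro q ⟨t, rfl⟩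
  exact prj_near hG hS hL v x t

theorem axb_C2 (hθ : 1000 * (δ + c + 1) ≤ θ) : CC2 δ c ≤ θ := by
  unfold CC2 CC1 kap; omega

/-- AX-a -/
theorem ax_a (hG : IsHG d δ) (hS : SC d r γ L θ c) (hθ : 1000 * (δ + c + 1) ≤ θ)
    (hL : 1000 * θ ≤ L) (v : Ax r) (x y : G) (h : 3 * (θ : ℤ) < |pos d γ v x - pos d γ v y|) :
    d x (prj d γ v x) + d (prj d γ v x) (prj d γ v y) + d (prj d γ v y) y ≤
      d x y + CC2 δ c := by
  have hL0 : 0 < L := by omega
  have hC := axb_C2 hθ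
  have h1 := gam_low hG hS v (pos d γ v x) (pos d γ v y)
  have h2 := proj2 hG.toIsGM hG.hyp (wax_qc hG hS v) (axb_mem (d := d) v x)
    (axb_min hG hS hL0 v x) (axb_mem (d := d) v y) (axb_min hG hS hL0 v y)
  have h3 : d (prj d γ v x) (prj d γ v y)
      = d (gam γ v (pos d γ v x)) (gam γ v (pos d γ v y)) := rfl
  rcases h2 with h2 | h2
  · exfalso
    have h4 : d (prj d γ v x) (prj d γ v y) ≤ CC2 δ c := h2
    rw [h3] at h4
    omega
  · exact h2

/-- AX-b -/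
theorem ax_b (hG : IsHG d δ) (hS : SC d r γ L θ c) (hθ : 1000 * (δ + c + 1) ≤ θ)
    (hL : 1000 * θ ≤ L) (v : Ax r) (x y : G) :
    4 * |pos d γ v x - pos d γ v y| ≤ 5 * (d x y + CC2 δ c + θ : ℕ) := by
  have hL0 : 0 < L := by omega
  have h1 := gam_low hG hS v (pos d γ v x) (pos d γ v y)
  have h2 := proj3 hG.toIsGM hG.hyp (wax_qc hG hS v) (axb_mem (d := d) v x)
    (axb_min hG hS hL0 v x) (axb_mem (d := d) v y) (axb_min hG hS hL0 v y)
  have h3 : d (gam γ v (pos d γ v x)) (gam γ v (pos d γ v y)) ≤ d x y + CC2 δ c := h2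
  push_cast
  omega

/-- nearest multiple -/
theorem axb_round (a : ℤ) (L : ℕ) (hL : 0 < L) : ∃ e : ℤ, 2 * |a - e * L| ≤ L := by
  have hL' : (0:ℤ) < 2 * (L : ℤ) := by omega
  have h1 := Int.emod_add_mul_ediv (2 * a + L) (2 * (L : ℤ))
  have h2 := Int.emod_nonneg (2 * a + L) hL'.ne'
  have h3 := Int.emod_lt_of_pos (2 * a + L) hL'
  refine ⟨(2 * a + L) / (2 * (L : ℤ)), ?_⟩
  have h4 : 2 * (L : ℤ) * ((2 * a + L) / (2 * (L : ℤ))) = 2 * ((2 * a + L) / (2 * (L : ℤ)) * L) := by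
    ring
  rw [h4] at h1
  generalize (2 * a + L) / (2 * (L : ℤ)) * L = w at *
  generalize (2 * a + L) % (2 * (L : ℤ)) = z at *
  rcases abs_cases (a - w) with h | h <;> omega

/-- AX-c -/
theorem ax_c (hG : IsHG d δ) (hS : SC d r γ L θ c) (hθ : 1000 * (δ + c + 1) ≤ θ)
    (hL : 1000 * θ ≤ L) (v : Ax r) (x y : G) (h : ∀ e : ℤ, d x y ≤ d x (rho v ^ e * y)) :
    4 * |pos d γ v x - pos d γ v y| ≤ 3 * L := by
  have hL0 : 0 < L := by omega
  have hC := axb_C2 hθ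
  by_contra hcon
  have hD : 3 * (θ : ℤ) < |pos d γ v x - pos d γ v y| := by omega
  have ha := ax_a hG hS hθ hL v x y hD
  have h1 := gam_low hG hS v (pos d γ v x) (pos d γ v y)
  obtain ⟨e, he⟩ := axb_round (pos d γ v x - pos d γ v y) L hL0
  have h2 := h e
  -- distance to the translate
  have t1 := hG.tri x (prj d γ v x) (rho v ^ e * y)
  have t2 := hG.tri (prj d γ v x) (rho v ^ e * prj d γ v y) (rho v ^ e * y)
  have t3 := hG.inv (rho v ^ e) (prj d γ v y) y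
  have t4 : d (prj d γ v x) (rho v ^ e * prj d γ v y)
      = d (gam γ v (pos d γ v x)) (gam γ v (pos d γ v y + e * L)) := by
    rw [← rho_gam hS v e (pos d γ v y)]; rfl
  have t5 := gam_lip hG hS v (pos d γ v x) (pos d γ v y + e * L)
  have t6 : pos d γ v x - (pos d γ v y + e * L) = pos d γ v x - pos d γ v y - e * L := by ring
  rw [t6, ← t4] at t5
  have h3 : d (gam γ v (pos d γ v x)) (gam γ v (pos d γ v y))
      = d (prj d γ v x) (prj d γ v y) := rfl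
  rw [h3] at h1
  generalize e * (L : ℤ) = w at *
  omega

/-- AX-d -/
theorem ax_d (hG : IsHG d δ) (hS : SC d r γ L θ c) (hθ : 1000 * (δ + c + 1) ≤ θ)
    (hL : 1000 * θ ≤ L) (v : Ax r) (x y : G)
    (h : (L : ℤ) - 40 * θ ≤ |pos d γ v x - pos d γ v y|) :
    ∃ e : ℤ, d x (rho v ^ e * y) < d x y := by
  by_contra hcon
  push Not at hcon
  have := ax_c hG hS hθ hL v x y hcon
  omega

end TD
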