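import Pool.Agent.TD.RotCore

/-!
# Module ROT: abstract rotation systems and the Greendlinger-type lemma.  Blueprint section 6.
Pure combinatorics.
-/

set_option autoImplicit false

namespace TD

/-- Abstract rotation system. -/
structure RotSys (X Y : Type*) where
  a : X → Y → ℕ
  pos : Y → X → ℤ
  base : Y → X
  rot : Y → Equiv.Perm X
  rotY : Y → Equiv.Perm Y
  L : ℤ
  Θ : ℤ
  a_rot : ∀ v x u, a (rot v x) (rotY v u) = a x u
  rotY_self : ∀ v, rotY v v = v
  rot_conj : ∀ v u, rot (rotY v u) = rot v * rot u * (rot v)⁻¹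
  pos_rot : ∀ v x, pos v (rot v x) = pos v x + L
  behr : ∀ u v s, u ≠ v → |pos v s - pos v (base u)| ≤ Θ ∨ |pos u s - pos u (base v)| ≤ Θ
  near : ∀ u v x, u ≠ v → a x u ≤ a x v → |pos v x - pos v (base u)| ≤ Θ
  half : ∀ u v x, u ≠ v → (∀ e : ℤ, a x u ≤ a ((rot v ^ e) x) u) →
    4 * |pos v x - pos v (base u)| ≤ 3 * L
  one_le : 1 ≤ Θ
  large : 60 * Θ ≤ L

/-- Conversion to the structure used in `RotCore`. -/
def RotSys.toCore {X Y : Type*} (S : RotSys X Y) : Pool.Agent.TD.RotSys X Y where
  a := S.a
  pos := S.pos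
  base := S.base
  rot := S.rot
  rotY := S.rotY
  L := S.L
  T := S.Θ
  a_rot v u x := S.a_rot v x u
  rotY_self := S.rotY_self
  rot_conj := S.rot_conj
  pos_rot := S.pos_rot
  beh u v huv s := S.behr u v s huv
  near u v huv x := S.near u v x huv
  far u v huv x := S.half u v x huv
  hL := S.large
  hT := S.one_le

/-- THM GL: Greendlinger lemma. The hypothesis says that `y` is obtained from `x` by a finite
product of rotations and inverse rotations. -/
theorem RotSys.greendlinger {X Y : Type*} (S : RotSys X Y) {x y : X}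
    (h : Relation.EqvGen (fun p q => ∃ v, q = S.rot v p) x y) (hne : x ≠ y) :
    ∃ w, S.L - 10 * S.Θ ≤ |S.pos w x - S.pos w y| := by
  have key : Relation.ReflTransGen (fun x y => ∃ (v : Y) (e : ℤ), y = (S.rot v ^ e) x) x y := by
    have hs : ∀ p q, Relation.ReflTransGen
        (fun x y => ∃ (v : Y) (e : ℤ), y = (S.rot v ^ e) x) p q →
        Relation.ReflTransGen (fun x y => ∃ (v : Y) (e : ℤ), y = (S.rot v ^ e) x) q p := by
      intro p q hpq
      induction hpq with
      | refl => exact Relation.ReflTransGen.refl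
      | tail _ hbc ih =>
        obtain ⟨v, e, rfl⟩ := hbc
        exact Relation.ReflTransGen.head
          ⟨v, -e, by rw [← Equiv.Perm.mul_apply, ← zpow_add]; simp⟩ ih
    induction h with
    | rel a b hab =>
      obtain ⟨v, rfl⟩ := hab
      exact Relation.ReflTransGen.single ⟨v, 1, by simp⟩
    | refl a => exact Relation.ReflTransGen.refl
    | symm a b _ ih =>
      by_cases hab : a = b
      · subst hab; exact Relation.ReflTransGen.refl
      · exact hs _ _ (ih hab)
    | trans a b c _ _ ih1 ih2 =>
      by_cases hab : a = b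
      · subst hab
        by_cases hbc : a = c
        · subst hbc; exact Relation.ReflTransGen.refl
        · exact ih2 hbc
      · by_cases hbc : b = c
        · subst hbc; exact ih1 hab
        · exact (ih1 hab).trans (ih2 hbc)
  exact Pool.Agent.TD.RotSys.greendlinger S.toCore key hne

end TD
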