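import Pool.Agent.TD.AxisB
import Pool.Agent.TD.Rot

/-!
# Module AxisC: the axes form a rotation system; GL in the group.  Blueprint section 7.
-/

set_option autoImplicit false

namespace TD

variable {G : Type*} [Group G] {d : G → G → ℕ} {δ : ℕ} {r : G} {γ : ℤ → G} {L θ c : ℕ}

theorem axc_per (hS : SC d r γ L θ c) (e s : ℤ) : γ (s + e * L) = r ^ e * γ s := by
  have hnat : ∀ (n : ℕ) (s : ℤ), γ (s + n * L) = r ^ n * γ s := by
    intro n
    induction n with
    | zero => intro s; simp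
    | succ n ih =>
      intro s
      have h1 : s + ((n + 1 : ℕ) : ℤ) * L = (s + n * L) + L := by push_cast; ring
      rw [h1, hS.per, ih, ← mul_assoc, ← pow_succ']
  obtain ⟨n, rfl | rfl⟩ := e.eq_nat_or_neg
  · rw [hnat n s, zpow_natCast]
  · have h := hnat n (s + -(n : ℤ) * L)
    have h1 : s + -(n : ℤ) * L + n * L = s := by ring
    rw [h1] at h
    rw [h, zpow_neg, zpow_natCast, inv_mul_cancel_left]

theorem axc_out (g : G) (v : Ax r) : ∃ e : ℤ, (g • v).out = g * v.out * r ^ e := by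
  obtain ⟨h, hh⟩ := QuotientGroup.mk_out_eq_mul (Subgroup.zpowers r) (g * v.out)
  obtain ⟨e, he⟩ := Subgroup.mem_zpowers_iff.mp h.2
  refine ⟨e, ?_⟩
  have h1 : g • v = ((g * v.out : G) : Ax r) := by
    conv_lhs => rw [← QuotientGroup.out_eq' v]
    rfl
  rw [h1, hh, he]

theorem axc_gam (hS : SC d r γ L θ c) (g : G) (v : Ax r) :
    ∃ e : ℤ, ∀ s, gam γ (g • v) s = g * gam γ v (s + e * L) := by
  obtain ⟨e, he⟩ := axc_out g v
  refine ⟨e, fun s => ?_⟩
  unfold gam
  rw [he, axc_per hS]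
  simp only [mul_assoc]

theorem axc_rho (g : G) (v : Ax r) : rho (g • v) = g * rho v * g⁻¹ := by
  obtain ⟨e, he⟩ := axc_out g v
  unfold rho
  rw [he]
  have h1 : r ^ e * r = r * r ^ e := by
    rw [← zpow_add_one, ← zpow_one_add, add_comm]
  calc g * v.out * r ^ e * r * (g * v.out * r ^ e)⁻¹
      = g * v.out * (r ^ e * r) * (g * v.out * r ^ e)⁻¹ := by simp only [mul_assoc]
    _ = g * v.out * (r * r ^ e) * (g * v.out * r ^ e)⁻¹ := by rw [h1]
    _ = g * (v.out * r * v.out⁻¹) * g⁻¹ := by group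

theorem axc_rho_self (v : Ax r) : rho v • v = v := by
  have h1 : rho v • v = ((rho v * v.out : G) : Ax r) :=
    (congrArg (fun w => rho v • w) (QuotientGroup.out_eq' v)).symm
  rw [h1]
  refine Eq.trans ?_ (QuotientGroup.out_eq' v)
  rw [QuotientGroup.eq, Subgroup.mem_zpowers_iff]
  refine ⟨-1, ?_⟩
  unfold rho
  group

/-- The distance to the axis is equivariant. -/
theorem axc_a (hG : IsHG d δ) (hS : SC d r γ L θ c) (hL : 0 < L) (g : G) (v : Ax r) (x : G) :
    d (g * x) (prj d γ (g • v) (g * x)) = d x (prj d γ v x) := by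
  obtain ⟨e, he⟩ := axc_gam hS g v
  apply le_antisymm
  · have h1 := prj_near hG hS hL (g • v) (g * x) (pos d γ v x - e * L)
    rw [he, hG.inv] at h1
    have h2 : pos d γ v x - e * L + e * L = pos d γ v x := by ring
    rw [h2] at h1
    exact h1
  · have h1 : prj d γ (g • v) (g * x) = g * gam γ v (pos d γ (g • v) (g * x) + e * L) := by
      unfold prj
      rw [he]
    rw [h1, hG.inv]
    exact prj_near hG hS hL v x _

section
variable (hG : IsHG d δ) (hS : SC d r γ L θ c) (hθ : 1000 * (δ + c + 1) ≤ θ)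
  (hL : 1000 * θ ≤ L)
include hG hS hθ hL

/-- (R3) -/
theorem axc_behr {u v : Ax r} (huv : u ≠ v) (s : G) :
    |pos d γ v s - pos d γ v (gam γ u 0)| ≤ 4 * (θ : ℤ) ∨
      |pos d γ u s - pos d γ u (gam γ v 0)| ≤ 4 * (θ : ℤ) := by
  by_contra hcon
  rw [not_or, not_le, not_le] at hcon
  obtain ⟨h1, h2⟩ := hcon
  have hL0 : 0 < L := by omega
  have hsm := ax_small hG hS hL0 huv (pos d γ u s) 0
  have h3 : 3 * (θ : ℤ) < |pos d γ v s - pos d γ v (prj d γ u s)| := by
    have := abs_sub_le (pos d γ v s) (pos d γ v (prj d γ u s)) (pos d γ v (gam γ u 0))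
    unfold prj at this ⊢
    linarith
  have h4 := ax_a hG hS hθ hL v s (prj d γ u s) h3
  have h5 := hG.tri (prj d γ v s) (prj d γ v (prj d γ u s)) (prj d γ u s)
  have h6 := prj_near hG hS hL0 u s (pos d γ u (prj d γ v s))
  have h7 := hG.tri s (prj d γ v s) (gam γ u (pos d γ u (prj d γ v s)))
  have h8 : d (prj d γ v s) (gam γ u (pos d γ u (prj d γ v s))) +
      d (gam γ u (pos d γ u (prj d γ v s))) (prj d γ u s) ≤
      d (prj d γ v s) (prj d γ u s) + CC1 δ c := by
    refine proj1 hG.toIsGM hG.hyp (wax_qc hG hS u) ⟨_, rfl⟩ ?_ ⟨_, rfl⟩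
    rintro _ ⟨t, rfl⟩
    exact prj_near hG hS hL0 u _ t
  have h9 := gam_low hG hS u (pos d γ u (prj d γ v s)) (pos d γ u s)
  have h10 := ax_small hG hS hL0 huv.symm (pos d γ v s) 0
  have h11 := abs_sub_le (pos d γ u s) (pos d γ u (prj d γ v s)) (pos d γ u (gam γ v 0))
  have h12 := abs_sub_comm (pos d γ u s) (pos d γ u (prj d γ v s))
  unfold prj at *
  unfold CC2 CC1 kap at *
  generalize |pos d γ u s - pos d γ u (gam γ v 0)| = A at *
  generalize |pos d γ u s - pos d γ u (gam γ v (pos d γ v s))| = B at *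
  generalize |pos d γ u (gam γ v (pos d γ v s)) - pos d γ u s| = B' at *
  generalize |pos d γ u (gam γ v (pos d γ v s)) - pos d γ u (gam γ v 0)| = C at *
  omega

/-- (R4) -/
theorem axc_near {u v : Ax r} (huv : u ≠ v) (x : G)
    (h : d x (prj d γ u x) ≤ d x (prj d γ v x)) :
    |pos d γ v x - pos d γ v (gam γ u 0)| ≤ 4 * (θ : ℤ) := by
  have hL0 : 0 < L := by omega
  have hsm := ax_small hG hS hL0 huv (pos d γ u x) 0
  have h11 := abs_sub_le (pos d γ v x) (pos d γ v (prj d γ u x)) (pos d γ v (gam γ u 0))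
  by_contra hcon
  rw [not_le] at hcon
  have h3 : 3 * (θ : ℤ) < |pos d γ v x - pos d γ v (prj d γ u x)| := by
    unfold prj at h11 ⊢
    linarith
  have h4 := ax_a hG hS hθ hL v x (prj d γ u x) h3
  have h5 := gam_low hG hS v (pos d γ v x) (pos d γ v (prj d γ u x))
  unfold prj at *
  unfold CC2 CC1 kap at *
  generalize |pos d γ v x - pos d γ v (gam γ u (pos d γ u x))| = A at *
  omega

/-- (R5) -/
theorem axc_half {u v : Ax r} (huv : u ≠ v) (x : G)
    (h : ∀ e : ℤ, d x (prj d γ u x) ≤ d (rho v ^ e * x) (prj d γ u (rho v ^ e * x))) :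
    4 * |pos d γ v x - pos d γ v (gam γ u 0)| ≤ 3 * (L : ℤ) := by
  have hL0 : 0 < L := by omega
  have hLz : (0 : ℤ) < L := by exact_mod_cast hL0
  have hsm := ax_small hG hS hL0 huv (pos d γ u x) 0
  have h11 := abs_sub_le (pos d γ v x) (pos d γ v (prj d γ u x)) (pos d γ v (gam γ u 0))
  by_contra hcon
  rw [not_le] at hcon
  have h3 : 3 * (θ : ℤ) < |pos d γ v x - pos d γ v (prj d γ u x)| := by
    unfold prj at h11 ⊢
    have : (1000 : ℤ) * θ ≤ L := by exact_mod_cast hL
    linarith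
  have h4 := ax_a hG hS hθ hL v x (prj d γ u x) h3
  have h5 := gam_low hG hS v (pos d γ v x) (pos d γ v (prj d γ u x))
  -- the nearest translate
  obtain ⟨e, he⟩ : ∃ e : ℤ, 2 * |pos d γ v x + e * L - pos d γ v (prj d γ u x)| ≤ L := by
    refine ⟨(2 * (pos d γ v (prj d γ u x) - pos d γ v x) + L) / (2 * L), ?_⟩
    have e1 := Int.mul_ediv_add_emod (2 * (pos d γ v (prj d γ u x) - pos d γ v x) + L) (2 * L)
    have e2 := Int.emod_nonneg (2 * (pos d γ v (prj d γ u x) - pos d γ v x) + L)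
      (b := 2 * (L : ℤ)) (by omega)
    have e3 := Int.emod_lt_of_pos (2 * (pos d γ v (prj d γ u x) - pos d γ v x) + L)
      (b := 2 * (L : ℤ)) (by omega)
    generalize (2 * (pos d γ v (prj d γ u x) - pos d γ v x) + L) / (2 * L) = e at *
    generalize (2 * (pos d γ v (prj d γ u x) - pos d γ v x) + L) % (2 * L) = m at *
    have e4 : 2 * |pos d γ v x + e * L - pos d γ v (prj d γ u x)| =
        |2 * (pos d γ v x + e * L - pos d γ v (prj d γ u x))| := by
      rw [abs_mul]; norm_num
    rw [e4, abs_le]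
    constructor <;> nlinarith
  have h6 := h e
  have h7 := prj_near hG hS hL0 u (rho v ^ e * x) (pos d γ u x)
  have h8 := hG.tri (rho v ^ e * x) (gam γ v (pos d γ v x + e * L)) (gam γ u (pos d γ u x))
  have h9 := hG.tri (gam γ v (pos d γ v x + e * L)) (prj d γ v (prj d γ u x))
    (gam γ u (pos d γ u x))
  rw [← rho_gam hS, hG.inv, rho_gam hS] at h8
  have h10 := gam_lip hG hS v (pos d γ v x + e * L) (pos d γ v (prj d γ u x))
  unfold prj at *
  unfold CC2 CC1 kap at *
  generalize |pos d γ v x - pos d γ v (gam γ u (pos d γ u x))| = A at *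
  generalize |pos d γ v x - pos d γ v (gam γ u 0)| = A2 at *
  generalize |pos d γ v (gam γ u (pos d γ u x)) - pos d γ v (gam γ u 0)| = A3 at *
  generalize |pos d γ v x + e * L - pos d γ v (gam γ u (pos d γ u x))| = A4 at *
  omega

end

/-- The rotation system of the axes. -/
noncomputable def axSys (hG : IsHG d δ) (hS : SC d r γ L θ c) (hθ : 1000 * (δ + c + 1) ≤ θ)
    (hL : 1000 * θ ≤ L) : RotSys G (Ax r) where
  a x v := d x (prj d γ v x)
  pos := pos d γ
  base v := gam γ v 0
  rot v := Equiv.mulLeft (rho v)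
  rotY v := MulAction.toPerm (rho v)
  L := L
  Θ := 4 * θ
  a_rot v x u := axc_a hG hS (by omega) (rho v) u x
  rotY_self v := axc_rho_self v
  rot_conj v u := by
    ext x
    change rho (rho v • u) * x = rho v * (rho u * ((rho v)⁻¹ * x))
    rw [axc_rho]
    group
  pos_rot v x := by
    have h := pos_rho hG hS (by omega) v x 1
    rw [zpow_one, one_mul] at h
    exact h
  behr u v s huv := axc_behr hG hS hθ hL huv s
  near u v x huv h := axc_near hG hS hθ hL huv x h
  half u v x huv h := by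
    refine axc_half hG hS hθ hL huv x fun e => ?_
    have h1 := h e
    have h2 : (Equiv.mulLeft (rho v) ^ e : Equiv.Perm G) x = rho v ^ e * x := by
      have h3 : ∀ g : G, (Equiv.mulLeft (g ^ e) : Equiv.Perm G) = Equiv.mulLeft g ^ e := by
        intro g
        exact map_zpow (MulAction.toPermHom G G) g e
      rw [← h3]
      rfl
    rw [h2] at h1
    exact h1
  one_le := by omega
  large := by omega

/-- Products of conjugates of `r` are products of rotations. -/
theorem axc_eqv {n : G} (hn : n ∈ NN r) :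
    ∀ x : G, Relation.EqvGen (fun p q => ∃ v : Ax r, q = rho v * p) x (n * x) := by
  unfold NN at hn
  rw [Subgroup.normalClosure] at hn
  induction hn using Subgroup.closure_induction with
  | mem g hg =>
    intro x
    rw [Group.mem_conjugatesOfSet_iff] at hg
    obtain ⟨a, ha, hag⟩ := hg
    rw [Set.mem_singleton_iff] at ha
    subst ha
    obtain ⟨b, hb⟩ := isConj_iff.mp hag
    refine Relation.EqvGen.rel _ _ ⟨((b : G) : Ax a), ?_⟩
    have h1 : ((b : G) : Ax a) = b • ((1 : G) : Ax a) := by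
      change _ = ((b * 1 : G) : Ax a)
      rw [mul_one]
    obtain ⟨h, hh⟩ := QuotientGroup.mk_out_eq_mul (Subgroup.zpowers a) b
    obtain ⟨e, he⟩ := Subgroup.mem_zpowers_iff.mp h.2
    have h2 : rho ((b : G) : Ax a) = g := by
      unfold rho
      rw [hh, ← he, ← hb]
      have h3 : a ^ e * a = a * a ^ e := by
        rw [← zpow_add_one, ← zpow_one_add, add_comm]
      calc b * a ^ e * a * (b * a ^ e)⁻¹ = b * (a ^ e * a) * (b * a ^ e)⁻¹ := by
            simp only [mul_assoc]
        _ = b * (a * a ^ e) * (b * a ^ e)⁻¹ := by rw [h3]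
        _ = b * a * b⁻¹ := by group
    rw [h2]
  | one => intro x; rw [one_mul]; exact Relation.EqvGen.refl _
  | mul a b _ _ iha ihb =>
    intro x
    rw [mul_assoc]
    exact (ihb x).trans _ _ _ (iha (b * x))
  | inv a _ iha =>
    intro x
    have h1 := iha (a⁻¹ * x)
    rw [mul_inv_cancel_left] at h1
    exact h1.symm _ _

/-- GL in the group. -/
theorem ax_gl (hG : IsHG d δ) (hS : SC d r γ L θ c) (hθ : 1000 * (δ + c + 1) ≤ θ)
    (hL : 1000 * θ ≤ L) {n : G} (hn : n ∈ NN r) (hn1 : n ≠ 1) (x : G) :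
    ∃ v : Ax r, (L : ℤ) - 40 * θ ≤ |pos d γ v x - pos d γ v (n * x)| := by
  have hne : x ≠ n * x := by
    intro h
    apply hn1
    have h1 : 1 * x = n * x := by rw [one_mul]; exact h
    exact (mul_right_cancel h1).symm
  obtain ⟨w, hw⟩ := (axSys hG hS hθ hL).greendlinger (axc_eqv hn x) hne
  refine ⟨w, le_trans (le_of_eq ?_) hw⟩
  change (L : ℤ) - 40 * θ = L - 10 * (4 * θ)
  ring

end TD
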