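import Pool.Agent.TD.Cone
import Pool.Agent.TD.Rot

/-!
# AxisDefs: definitions for the system of axes of a small cancellation datum.  Blueprint section 7.
-/

set_option autoImplicit false

namespace TD

/-- The index set of the axes. -/
abbrev Ax {G : Type*} [Group G] (r : G) : Type _ := G ⧸ Subgroup.zpowers r

section

variable {G : Type*} [Group G]

/-- The path of the axis `v`. -/
noncomputable def gam {r : G} (γ : ℤ → G) (v : Ax r) (s : ℤ) : G := v.out * γ s

/-- The rotation at `v`. -/
noncomputable def rho {r : G} (v : Ax r) : G := v.out * r * v.out⁻¹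

/-- Position of the projection to `γ`. -/
noncomputable def pos0 (d : G → G → ℕ) (γ : ℤ → G) (x : G) : ℤ := sInf {s | IsNear d γ x s}

/-- Position of the projection to the axis `v`. -/
noncomputable def pos (d : G → G → ℕ) {r : G} (γ : ℤ → G) (v : Ax r) (x : G) : ℤ :=
  pos0 d γ (v.out⁻¹ * x)

/-- The projection of `x` to the axis `v`. -/
noncomputable def prj (d : G → G → ℕ) {r : G} (γ : ℤ → G) (v : Ax r) (x : G) : G :=
  gam γ v (pos d γ v x)

/-- The subgroup to be killed. -/
abbrev NN (r : G) : Subgroup G := Subgroup.normalClosure {r}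

/-- The family of the axes. -/
noncomputable def wax (r : G) (γ : ℤ → G) (v : Ax r) : Set G := Set.range (gam γ v)

/-- The cone-off metric of the system of axes. -/
noncomputable def cm (d : G → G → ℕ) (r : G) (γ : ℤ → G) : G → G → ℕ := cd d (wax r γ)

end

end TD
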