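import Pool.Agent.TD.BasicA

/-!
# Module BasicB: projections to quasi-convex sets (P1-P3).  Blueprint section 4.
-/

set_option autoImplicit false

namespace TD

variable {X : Type*} {d : X → X → ℕ} {δ : ℕ}

/-- P1 -/
theorem proj1 (hm : IsGM d) (hh : Hyp d δ) {W : Set X} {κ : ℕ} (hW : QC d κ W) {x p q : X}
    (hp : p ∈ W) (hmin : ∀ q ∈ W, d x p ≤ d x q) (hq : q ∈ W) :
    d x p + d p q ≤ d x q + (2 * δ + 2 * κ + 1) := by
  have t1 := hm.tri x p q
  have t2 := hm.tri x q p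
  have s1 := hm.symm q p
  obtain ⟨m, hm1, hm2⟩ := hm.exists_between p q ((d x p + d p q - d x q) / 2) (by omega)
  obtain ⟨c, hc, hc'⟩ := hW p hp q hq m
  have h3 := hmin c hc
  have h4 := hm.tri x m c
  rcases hh x p m q with h | h <;> omega

/-- P2 -/
theorem proj2 (hm : IsGM d) (hh : Hyp d δ) {W : Set X} {κ : ℕ} (hW : QC d κ W) {x y p q : X}
    (hp : p ∈ W) (hpm : ∀ q ∈ W, d x p ≤ d x q) (hq : q ∈ W) (hqm : ∀ p ∈ W, d y q ≤ d y p) :
    d p q ≤ 2 * (2 * δ + 2 * κ + 1) + δ ∨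
      d x p + d p q + d q y ≤ d x y + (2 * (2 * δ + 2 * κ + 1) + δ) := by
  have h1 := proj1 hm hh hW hp hpm hq
  have h2 := proj1 hm hh hW hq hqm hp
  have s1 := hm.symm q p
  have s2 := hm.symm q y
  rcases hh x y q p with h | h <;> omega

/-- P3 -/
theorem proj3 (hm : IsGM d) (hh : Hyp d δ) {W : Set X} {κ : ℕ} (hW : QC d κ W) {x y p q : X}
    (hp : p ∈ W) (hpm : ∀ q ∈ W, d x p ≤ d x q) (hq : q ∈ W) (hqm : ∀ p ∈ W, d y q ≤ d y p) :
    d p q ≤ d x y + (2 * (2 * δ + 2 * κ + 1) + δ) := by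
  rcases proj2 hm hh hW hp hpm hq hqm with h | h <;> omega

/-- Every point is within `κ + c` of `W` when it is `c`-between two points of `W`. -/
theorem QC.near {W : Set X} {κ c : ℕ} (hW : QC d κ W) {a b p : X} (ha : a ∈ W) (hb : b ∈ W)
    (h : Btw d c a b p) : ∃ q ∈ W, d p q ≤ κ + c := by
  obtain ⟨q, hq, h'⟩ := hW a ha b hb p
  refine ⟨q, hq, ?_⟩
  unfold Btw at h
  omega

end TD
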