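import Pool.Agent.TD.BasicA

/-!
# Module BasicG: metric groups, balls, powers, pigeonhole (A1.2).  Blueprint section 4.
-/

set_option autoImplicit false

namespace TD

variable {G : Type*} [Group G] {d : G → G → ℕ} {δ : ℕ}

theorem IsHG.norm_eq (hG : IsHG d δ) (x y : G) : d x y = d 1 (x⁻¹ * y) := by
  have := hG.inv x⁻¹ x y
  rw [inv_mul_cancel] at this
  exact this.symm

theorem IsHG.d_mul_right (hG : IsHG d δ) (x g : G) : d x (x * g) = d 1 g := by
  rw [hG.norm_eq x]; simp

theorem IsHG.norm_inv (hG : IsHG d δ) (g : G) : d 1 g⁻¹ = d 1 g := by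
  have h := hG.inv g 1 g⁻¹
  rw [mul_one, mul_inv_cancel] at h
  rw [← h]; exact hG.symm _ _

theorem IsHG.norm_mul (hG : IsHG d δ) (g h : G) : d 1 (g * h) ≤ d 1 g + d 1 h := by
  have := hG.tri 1 g (g * h)
  rwa [hG.d_mul_right] at this

/-- A1.2 balls are finite. -/
theorem IsHG.ball_finite (hG : IsHG d δ) (n : ℕ) : {g : G | d 1 g ≤ n}.Finite := by
  induction n with
  | zero =>
    refine (Set.finite_singleton (1 : G)).subset ?_
    intro g hg
    exact (hG.eq_of 1 g (Nat.le_zero.mp hg)).symm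
  | succ n ih =>
    refine (ih.union (hG.fin.image2 (fun x y : G => x * y) ih)).subset ?_
    intro g hg
    have hg' : d 1 g ≤ n + 1 := hg
    rcases Nat.lt_or_ge n (d 1 g) with h | h
    · right
      obtain ⟨z, hz1, hz2⟩ := hG.step 1 g n (by omega)
      refine ⟨z, hz1.le, z⁻¹ * g, ?_, by simp⟩
      change d 1 (z⁻¹ * g) ≤ n
      rw [← hG.norm_eq]
      exact hz2.le
    · left
      exact h

theorem IsHG.countable (hG : IsHG d δ) : Countable G := by
  have h : (Set.univ : Set G) = ⋃ n : ℕ, {g : G | d 1 g ≤ n} := by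
    ext g
    simp only [Set.mem_univ, Set.mem_iUnion, Set.mem_ofPred_eq, true_iff]
    exact ⟨d 1 g, le_rfl⟩
  rw [← Set.countable_univ_iff, h]
  exact Set.countable_iUnion fun n => (hG.ball_finite n).countable

/-- Powers of an element of infinite order leave every ball. -/
theorem IsHG.pow_large (hG : IsHG d δ) {g : G} (hg : ∀ n : ℕ, n ≠ 0 → g ^ n ≠ 1) (R : ℕ) :
    ∃ N : ℕ, ∀ m : ℤ, (N : ℤ) ≤ |m| → R < d 1 (g ^ m) := by
  have hz : ∀ n : ℤ, g ^ n = 1 → n = 0 := by
    intro n hn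
    by_contra h0
    have h1 : g ^ n.natAbs = 1 := by
      rcases Int.natAbs_eq n with h | h
      · rw [h] at hn
        rwa [zpow_natCast] at hn
      · rw [h, zpow_neg, zpow_natCast, inv_eq_one] at hn
        exact hn
    exact hg n.natAbs (Int.natAbs_ne_zero.mpr h0) h1
  have hinj : Function.Injective fun m : ℤ => g ^ m := by
    intro m n hmn
    have : g ^ (m - n) = 1 := by
      rw [zpow_sub]
      simpa using mul_inv_eq_one.mpr hmn
    have := hz _ this
    omega
  have hfin : {m : ℤ | d 1 (g ^ m) ≤ R}.Finite :=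
    (hG.ball_finite R).preimage hinj.injOn
  obtain ⟨B, hB⟩ := (hfin.image Int.natAbs).bddAbove
  refine ⟨B + 1, fun m hm => ?_⟩
  by_contra hcon
  have h1 : m.natAbs ≤ B := hB ⟨m, Nat.le_of_not_lt hcon, rfl⟩
  rw [Int.abs_eq_natAbs] at hm
  omega

/-- Pigeonhole: a map from a long interval of naturals into a ball is not injective. -/
theorem IsHG.pigeon (hG : IsHG d δ) (R : ℕ) :
    ∃ J : ℕ, ∀ (f : ℕ → G), (∀ j ≤ J, d 1 (f j) ≤ R) → ∃ i j, i < j ∧ j ≤ J ∧ f i = f j := by
  classical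
  refine ⟨(hG.ball_finite R).toFinset.card, fun f hf => ?_⟩
  obtain ⟨i, hi, j, hj, hij, he⟩ := Finset.exists_ne_map_eq_of_card_lt_of_maps_to
    (s := Finset.range ((hG.ball_finite R).toFinset.card + 1)) (t := (hG.ball_finite R).toFinset)
    (f := f) (by simp) (by
      intro j hj
      rw [Set.Finite.coe_toFinset]
      exact hf j (by
        have := Finset.mem_range.mp (Finset.mem_coe.mp hj)
        omega))
  have hi' := Finset.mem_range.mp hi
  have hj' := Finset.mem_range.mp hj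
  rcases lt_or_gt_of_ne hij with h | h
  · exact ⟨i, j, h, by omega, he⟩
  · exact ⟨j, i, h, by omega, he.symm⟩

theorem QC.translate (hG : IsHG d δ) {W : Set G} {κ : ℕ} (hW : QC d κ W) (g : G) :
    QC d κ ((fun x => g * x) '' W) := by
  rintro _ ⟨a, ha, rfl⟩ _ ⟨b, hb, rfl⟩ p
  obtain ⟨c, hc, h⟩ := hW a ha b hb (g⁻¹ * p)
  refine ⟨g * c, ⟨c, hc, rfl⟩, ?_⟩
  have e1 : d p (g * c) = d (g⁻¹ * p) c := by
    rw [← hG.inv g (g⁻¹ * p) c, mul_inv_cancel_left]
  have e2 : d (g * a) p = d a (g⁻¹ * p) := by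
    rw [← hG.inv g a (g⁻¹ * p), mul_inv_cancel_left]
  have e3 : d p (g * b) = d (g⁻¹ * p) b := by
    rw [← hG.inv g (g⁻¹ * p) b, mul_inv_cancel_left]
  simp only [hG.inv, e1, e2, e3]
  exact h

end TD
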