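import Pool.Agent.TD.Defs

/-!
# Module BasicA: betweenness calculus (A1.1-A1.9).  Blueprint section 4.
-/

set_option autoImplicit false

namespace TD

section metric

variable {X : Type*} {d : X → X → ℕ} {δ : ℕ}

/-- A1.1 interval points. -/
theorem IsGM.exists_between (hm : IsGM d) (x y : X) (k : ℕ) (hk : k ≤ d x y) :
    ∃ z, d x z = k ∧ d z y = d x y - k := by
  induction k generalizing x with
  | zero => exact ⟨x, hm.self x, by simp⟩
  | succ k ih =>
    obtain ⟨n, hn⟩ : ∃ n, d x y = n + 1 := ⟨d x y - 1, by omega⟩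
    obtain ⟨z, h1, h2⟩ := hm.step x y n hn
    obtain ⟨w, h3, h4⟩ := ih z (by omega)
    have h5 := hm.tri x z w
    have h6 := hm.tri x w y
    exact ⟨w, by omega, by omega⟩

theorem Btw.mono {c c' : ℕ} {x y p : X} (h : Btw d c x y p) (hc : c ≤ c') : Btw d c' x y p := by
  unfold Btw at *; omega

theorem Btw.swap (hm : IsGM d) {c : ℕ} {x y p : X} (h : Btw d c x y p) : Btw d c y x p := by
  have h1 := hm.symm x p
  have h2 := hm.symm p y
  have h3 := hm.symm x y
  unfold Btw at *; omega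

/-- A1.3 the min-inequality. -/
theorem Btw.or (hm : IsGM d) (hh : Hyp d δ) {c : ℕ} {x z p : X} (h : Btw d c x z p) (y : X) :
    Btw d (c + δ) x y p ∨ Btw d (c + δ) y z p := by
  have h1 := hh x y z p
  have h2 := hm.symm y p
  have h3 := hm.symm p z
  unfold Btw at *
  omega

/-- A1.4 -/
theorem Btw.left (hm : IsGM d) {c : ℕ} {x z p p' : X} (h : Btw d c x z p)
    (h0 : Btw d 0 x p p') : Btw d c x z p' := by
  have h1 := hm.tri p' p z
  unfold Btw at *
  omega

/-- A1.4 -/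
theorem Btw.left' (hm : IsGM d) {c : ℕ} {x z p p' : X} (h : Btw d c x z p)
    (h0 : Btw d 0 x p p') : Btw d c p' z p := by
  have h1 := hm.tri x p' z
  unfold Btw at *
  omega

/-- A1.4, right version. -/
theorem Btw.right (hm : IsGM d) {c : ℕ} {x z p p' : X} (h : Btw d c x z p)
    (h0 : Btw d 0 p z p') : Btw d c x z p' := by
  have h1 := hm.tri x p p'
  unfold Btw at *
  omega

/-- A1.4, right version. -/
theorem Btw.right' (hm : IsGM d) {c : ℕ} {x z p p' : X} (h : Btw d c x z p)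
    (h0 : Btw d 0 p z p') : Btw d c x p' p := by
  have h1 := hm.tri x p' z
  unfold Btw at *
  omega

/-- A1.5 -/
theorem Btw.change (hm : IsGM d) {c e e' e'' : ℕ} {x z p x' z' p' : X} (h : Btw d c x z p)
    (hx : d x x' ≤ e) (hz : d z z' ≤ e') (hp : d p p' ≤ e'') :
    Btw d (c + 2 * e + 2 * e' + 2 * e'') x' z' p' := by
  have h1 := hm.tri x' x p'
  have h2 := hm.tri x p p'
  have h3 := hm.tri p' z z'
  have h4 := hm.tri p' p z
  have h5 := hm.tri x x' z
  have h6 := hm.tri x' z' z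
  have h7 := hm.symm x x'
  have h8 := hm.symm z z'
  have h9 := hm.symm p p'
  unfold Btw at *
  omega

/-- A1.6 far endpoints can be moved at the cost of `2δ`. -/
theorem Btw.far (hm : IsGM d) (hh : Hyp d δ) {c e : ℕ} {x z p x' z' : X} (h : Btw d c x z p)
    (hx : d x x' ≤ e) (hz : d z z' ≤ e) (h1 : e + c + 2 * δ < d x p)
    (h2 : e + c + 2 * δ < d p z) : Btw d (c + 2 * δ) x' z' p := by
  have a1 : Btw d (c + δ) x' z p := by
    rcases h.or hm hh x' with h' | h'
    · unfold Btw at *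
      omega
    · exact h'
  rcases a1.or hm hh z' with h' | h'
  · unfold Btw at *
    omega
  · have h3 := hm.symm z z'
    unfold Btw at *
    omega

/-- A1.7 points with the same parameter are close. -/
theorem Btw.close (hm : IsGM d) (hh : Hyp d δ) {c c' : ℕ} {x y p q : X} (h : Btw d c x y p)
    (h' : Btw d c' x y q) : (d p q : ℤ) ≤ |(d x p : ℤ) - d x q| + c + c' + δ := by
  have h1 := hh p x q y
  have h2 := hm.symm p x
  have h3 := le_abs_self ((d x p : ℤ) - d x q)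
  have h4 := neg_abs_le ((d x p : ℤ) - d x q)
  unfold Btw at *
  omega

/-- A1.8 logarithmic lemma. -/
theorem Btw.chain (hm : IsGM d) (hh : Hyp d δ) {c : ℕ} {p : X} (k : ℕ) : ∀ (n : ℕ) (e : ℕ → X),
    1 ≤ n → n ≤ 2 ^ k → Btw d c (e 0) (e n) p →
    ∃ i < n, Btw d (c + k * δ) (e i) (e (i + 1)) p := by
  induction k generalizing c with
  | zero =>
    intro n e h1 h2 h3
    have hn : n = 1 := by simp at h2; omega
    subst hn
    exact ⟨0, by omega, by simpa using h3⟩
  | succ k ih =>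
    intro n e h1 h2 h3
    rcases Nat.lt_or_ge (2 ^ k) n with h4 | h4
    · have hpos : 1 ≤ 2 ^ k := Nat.one_le_two_pow
      have h2' : n ≤ 2 ^ k + 2 ^ k := by rw [pow_succ] at h2; omega
      have hc : c + δ + k * δ = c + (k + 1) * δ := by ring
      rcases h3.or hm hh (e (2 ^ k)) with h5 | h5
      · obtain ⟨i, hi, h6⟩ := ih (2 ^ k) e hpos le_rfl h5
        exact ⟨i, by omega, hc ▸ h6⟩
      · obtain ⟨i, hi, h6⟩ := ih (n - 2 ^ k) (fun i => e (2 ^ k + i)) (by omega) (by omega)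
          (by
            have h7 : 2 ^ k + (n - 2 ^ k) = n := by omega
            simpa [h7] using h5)
        exact ⟨2 ^ k + i, by omega, hc ▸ h6⟩
    · obtain ⟨i, hi, h6⟩ := ih n e h1 h4 h3
      refine ⟨i, hi, h6.mono ?_⟩
      have hc : c + (k + 1) * δ = c + k * δ + δ := by ring
      omega

/-- A1.9 path quasi-convexity. -/
theorem path_qc (hm : IsGM d) (hh : Hyp d δ) {c l : ℕ} (γ : ℤ → X) {s t : ℤ} (hst : s ≤ t)
    (hl : ∀ u, s ≤ u → u < t → d (γ u) (γ (u + 1)) ≤ l)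
    (hb : ∀ u, s ≤ u → u ≤ t → Btw d c (γ s) (γ t) (γ u)) (p : X) :
    ∃ u, s ≤ u ∧ u ≤ t ∧
      d p (γ u) + d (γ s) (γ t) ≤ d (γ s) p + d p (γ t) + (c + δ + l) := by
  classical
  obtain ⟨m, hmdef⟩ : ∃ m, m = min (d (γ s) p) (d (γ s) (γ t)) := ⟨_, rfl⟩
  have hex : ∃ n : ℕ, m ≤ d (γ s) (γ (s + n)) := by
    refine ⟨(t - s).toNat, ?_⟩
    have h1 : s + ((t - s).toNat : ℤ) = t := by omega
    rw [h1]
    omega
  obtain ⟨n, hn1, hn2⟩ : ∃ n : ℕ, m ≤ d (γ s) (γ (s + n)) ∧
      ∀ j : ℕ, j < n → d (γ s) (γ (s + j)) < m :=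
    ⟨Nat.find hex, Nat.find_spec hex, fun j hj => not_le.mp (Nat.find_min hex hj)⟩
  have hnt : s + (n : ℤ) ≤ t := by
    by_contra hcon
    have h1 : (t - s).toNat < n := by omega
    have h2 := hn2 _ h1
    have h3 : s + ((t - s).toNat : ℤ) = t := by omega
    rw [h3] at h2
    omega
  have hup : d (γ s) (γ (s + n)) ≤ m + l := by
    rcases Nat.eq_zero_or_pos n with h0 | h0
    · subst h0
      have h1 := hm.self (γ s)
      simp [h1]
    · obtain ⟨j, rfl⟩ : ∃ j, n = j + 1 := ⟨n - 1, by omega⟩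
      have h1 := hn2 j (by omega)
      have h2 := hl (s + j) (by omega) (by push_cast at hnt; omega)
      have h3 := hm.tri (γ s) (γ (s + j)) (γ (s + j + 1))
      have h4 : s + ((j + 1 : ℕ) : ℤ) = s + j + 1 := by push_cast; ring
      rw [h4]
      omega
  refine ⟨s + n, by omega, hnt, ?_⟩
  have hq := hb (s + n) (by omega) hnt
  have h1 := hh p (γ s) (γ (s + n)) (γ t)
  have h2 := hm.symm p (γ s)
  have h3 := hm.tri (γ s) p (γ t)
  unfold Btw at hq
  omega

/-- Consequence: if `p` is `c'`-between the endpoints then it is close to the path. -/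
theorem path_qc_btw (hm : IsGM d) (hh : Hyp d δ) {c c' l : ℕ} (γ : ℤ → X) {s t : ℤ}
    (hst : s ≤ t) (hl : ∀ u, s ≤ u → u < t → d (γ u) (γ (u + 1)) ≤ l)
    (hb : ∀ u, s ≤ u → u ≤ t → Btw d c (γ s) (γ t) (γ u)) {p : X}
    (hp : Btw d c' (γ s) (γ t) p) :
    ∃ u, s ≤ u ∧ u ≤ t ∧ d p (γ u) ≤ c' + c + δ + l := by
  obtain ⟨u, h1, h2, h3⟩ := path_qc hm hh γ hst hl hb p
  refine ⟨u, h1, h2, ?_⟩
  unfold Btw at hp
  omega

end metric

end TD
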