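import Pool.Agent.TD.BrokenA

/-!
# Module BrokenB: broken geodesic paths (A2.2).  Blueprint section 5.
-/

set_option autoImplicit false

namespace TD

variable {X : Type*} {d : X → X → ℕ} {δ : ℕ}

/-- Every integer lies in a segment. -/
theorem bb_seg (τ : ℤ → ℤ) (hτ : ∀ i, τ i < τ (i + 1)) (s : ℤ) :
    ∃ a, τ a ≤ s ∧ s < τ (a + 1) := by
  have hmono : Monotone (fun z : ℤ => τ z - z) := by
    apply monotone_int_of_le_succ
    intro z
    have := hτ z
    show τ z - z ≤ τ (z + 1) - (z + 1)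
    omega
  obtain ⟨a, ha, hmax⟩ := Int.exists_greatest_of_bdd (P := fun z => τ z ≤ s)
    ⟨max 0 (s - τ 0), by
      intro z hz
      rcases le_or_gt z 0 with h | h
      · exact le_trans h (le_max_left _ _)
      · have h1 : τ 0 - 0 ≤ τ z - z := hmono h.le
        have h2 := le_max_right (0 : ℤ) (s - τ 0)
        omega⟩
    ⟨min 0 (s - τ 0), by
      have h1 : τ (min 0 (s - τ 0)) - min 0 (s - τ 0) ≤ τ 0 - 0 :=
        hmono (min_le_left _ _)
      have h2 := min_le_right (0 : ℤ) (s - τ 0)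
      omega⟩
  refine ⟨a, ha, ?_⟩
  by_contra h
  have := hmax (a + 1) (by omega)
  omega

/-- Subpaths of two consecutive segments. -/
theorem bb_sub (hm : IsGM d) {c : ℕ} (γ : ℤ → X) (τ : ℤ → ℤ)
    (hgeo : ∀ i s t, τ i ≤ s → s ≤ t → t ≤ τ (i + 1) → (d (γ s) (γ t) : ℤ) = t - s)
    (hb : ∀ i, Btw d c (γ (τ (i - 1))) (γ (τ (i + 1))) (γ (τ i))) (k x y : ℤ)
    (h1 : τ k ≤ x) (h2 : x ≤ τ (k + 1)) (h3 : τ (k + 1) ≤ y) (h4 : y ≤ τ (k + 1 + 1)) :
    Btw d c (γ x) (γ y) (γ (τ (k + 1))) := by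
  have hb1 := hb (k + 1)
  have e : k + 1 - 1 = k := by ring
  rw [e] at hb1
  have g1 := hgeo k (τ k) x le_rfl h1 h2
  have g2 := hgeo k x (τ (k + 1)) h1 h2 le_rfl
  have g3 := hgeo (k + 1) (τ (k + 1)) y le_rfl h3 h4
  have g4 := hgeo (k + 1) y (τ (k + 1 + 1)) h3 h4 le_rfl
  have g5 := hgeo k (τ k) (τ (k + 1)) le_rfl (by omega) le_rfl
  have g6 := hgeo (k + 1) (τ (k + 1)) (τ (k + 1 + 1)) le_rfl (by omega) le_rfl
  have t1 := hm.tri (γ (τ k)) (γ x) (γ (τ (k + 1 + 1)))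
  have t2 := hm.tri (γ x) (γ y) (γ (τ (k + 1 + 1)))
  unfold Btw at *
  omega

/-- The vertices of the broken geodesic between positions `s < t`. -/
theorem bb_data (hm : IsGM d) {c : ℕ} (γ : ℤ → X) (τ : ℤ → ℤ)
    (hτ : ∀ i, (c : ℤ) + 2 * δ < τ (i + 1) - τ i)
    (hgeo : ∀ i s t, τ i ≤ s → s ≤ t → t ≤ τ (i + 1) → (d (γ s) (γ t) : ℤ) = t - s)
    (hb : ∀ i, Btw d c (γ (τ (i - 1))) (γ (τ (i + 1))) (γ (τ i))) (s t : ℤ) (hst : s < t) :
    ∃ (a : ℤ) (n : ℕ) (p : ℕ → ℤ), τ a ≤ s ∧ s < τ (a + 1) ∧ τ (a + n) < t ∧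
      t ≤ τ (a + n + 1) ∧ p 0 = s ∧ p (n + 1) = t ∧
      (∀ i, 1 ≤ i → i ≤ n → p i = τ (a + i)) ∧
      (∀ i, i ≤ n → τ (a + i) ≤ p i ∧ p i ≤ p (i + 1) ∧ p (i + 1) ≤ τ (a + i + 1)) ∧
      (∀ i, i + 2 ≤ n + 1 → Btw d c (γ (p i)) (γ (p (i + 2))) (γ (p (i + 1)))) ∧
      (∀ i, i + 3 ≤ n + 1 → c + 2 * δ < d (γ (p (i + 1))) (γ (p (i + 2)))) := by
  have hlt : ∀ i, τ i < τ (i + 1) := fun i => by have := hτ i; omega
  have hsm : StrictMono τ := strictMono_int_of_lt_succ hlt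
  obtain ⟨a, ha1, ha2⟩ := bb_seg τ hlt s
  obtain ⟨b, hb1, hb2⟩ := bb_seg τ hlt (t - 1)
  have hab : a ≤ b := by
    by_contra h
    have : τ (b + 1) ≤ τ a := hsm.monotone (by omega)
    omega
  obtain ⟨n, hn⟩ : ∃ n : ℕ, b = a + n := ⟨(b - a).toNat, by omega⟩
  subst hn
  have hp : ∀ i : ℕ, 1 ≤ i → i ≤ n → max s (min t (τ (a + i))) = τ (a + i) := by
    intro i h1 h2
    have h3 : τ (a + 1) ≤ τ (a + i) := hsm.monotone (by omega)
    have h4 : τ (a + i) ≤ τ (a + n) := hsm.monotone (by omega)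
    rw [min_eq_right (by omega), max_eq_right (by omega)]
  have hq : ∀ i : ℕ, i ≤ n → τ (a + i) ≤ max s (min t (τ (a + i))) ∧
      max s (min t (τ (a + i))) ≤ max s (min t (τ (a + (i + 1 : ℕ)))) ∧
      max s (min t (τ (a + (i + 1 : ℕ)))) ≤ τ (a + i + 1) := by
    intro i hi
    have e : a + ((i + 1 : ℕ) : ℤ) = a + i + 1 := by push_cast; ring
    rw [e]
    have h4 : τ (a + i) ≤ τ (a + n) := hsm.monotone (by omega)
    have h5 := hlt (a + i)
    have h6 : τ (a + 1) ≤ τ (a + i + 1) := hsm.monotone (by omega)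
    refine ⟨?_, ?_, ?_⟩
    · rw [min_eq_right (by omega)]; exact le_max_right _ _
    · exact max_le_max le_rfl (min_le_min le_rfl h5.le)
    · exact max_le (by omega) (min_le_right _ _)
  refine ⟨a, n, fun i => max s (min t (τ (a + i))), ha1, ha2, by omega, by omega, ?_, ?_, hp, hq,
    ?_, ?_⟩
  · have e : a + ((0 : ℕ) : ℤ) = a := by push_cast; ring
    show max s (min t (τ (a + (0 : ℕ)))) = s
    rw [e, min_eq_right (by omega), max_eq_left ha1]
  · have e : a + ((n + 1 : ℕ) : ℤ) = a + n + 1 := by push_cast; ring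
    show max s (min t (τ (a + (n + 1 : ℕ)))) = t
    rw [e, min_eq_left (by omega), max_eq_right hst.le]
  · intro i hi
    have q0 := hq i (by omega)
    have q1 := hq (i + 1) (by omega)
    have p1 := hp (i + 1) (by omega) (by omega)
    have e1 : a + ((i + 1 : ℕ) : ℤ) = a + i + 1 := by push_cast; ring
    have e2 : a + ((i + 2 : ℕ) : ℤ) = a + i + 1 + 1 := by push_cast; ring
    have e2' : a + ((i + 1 + 1 : ℕ) : ℤ) = a + i + 1 + 1 := by push_cast; ring
    show Btw d c (γ (max s (min t (τ (a + i))))) (γ (max s (min t (τ (a + (i + 2 : ℕ))))))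
      (γ (max s (min t (τ (a + (i + 1 : ℕ))))))
    rw [e1] at q1 p1 q0
    rw [e2'] at q1
    rw [e1, e2, p1]
    rw [p1] at q1
    exact bb_sub hm γ τ hgeo hb (a + i) _ _ q0.1 (by rw [p1] at q0; exact q0.2.1) q1.2.1 q1.2.2
  · intro i hi
    have p1 := hp (i + 1) (by omega) (by omega)
    have p2 := hp (i + 2) (by omega) (by omega)
    show c + 2 * δ < d (γ (max s (min t (τ (a + (i + 1 : ℕ))))))
      (γ (max s (min t (τ (a + (i + 2 : ℕ))))))
    rw [p1, p2]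
    have e2 : a + ((i + 2 : ℕ) : ℤ) = a + ((i + 1 : ℕ) : ℤ) + 1 := by push_cast; ring
    rw [e2]
    have h1 := hτ (a + ((i + 1 : ℕ) : ℤ))
    have h2 := hgeo (a + ((i + 1 : ℕ) : ℤ)) _ _ le_rfl (hlt _).le le_rfl
    omega

/-- Betweenness at a break point. -/
theorem bb_break (hm : IsGM d) (hh : Hyp d δ) {c : ℕ} (γ : ℤ → X) (τ : ℤ → ℤ)
    (hτ : ∀ i, (c : ℤ) + 2 * δ < τ (i + 1) - τ i)
    (hgeo : ∀ i s t, τ i ≤ s → s ≤ t → t ≤ τ (i + 1) → (d (γ s) (γ t) : ℤ) = t - s)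
    (hb : ∀ i, Btw d c (γ (τ (i - 1))) (γ (τ (i + 1))) (γ (τ i))) (s k t : ℤ) (hs : s ≤ τ k)
    (ht : τ k ≤ t) : Btw d (c + 2 * δ) (γ s) (γ t) (γ (τ k)) := by
  have hlt : ∀ i, τ i < τ (i + 1) := fun i => by have := hτ i; omega
  have hsm : StrictMono τ := strictMono_int_of_lt_succ hlt
  rcases eq_or_lt_of_le hs with h | hs'
  · have h1 := hm.self (γ (τ k))
    rw [h]; unfold Btw; omega
  rcases eq_or_lt_of_le ht with h | ht'
  · have h1 := hm.self (γ (τ k))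
    rw [← h]; unfold Btw; omega
  obtain ⟨a, n, p, h1, h2, h3, h4, p0, pn, hp, hq, hB, hL⟩ :=
    bb_data hm γ τ hτ hgeo hb s t (hs'.trans ht')
  have hak : a < k := by
    by_contra h
    have : τ k ≤ τ a := hsm.monotone (by omega)
    omega
  have hkn : k ≤ a + n := by
    by_contra h
    have : τ (a + n + 1) ≤ τ k := hsm.monotone (by omega)
    omega
  have h := broken_nat hm hh (fun i => γ (p i)) (n + 1) hB hL (k - a).toNat (by omega)
  have e : a + ((k - a).toNat : ℤ) = k := by omega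
  have e1 := hp (k - a).toNat (by omega) (by omega)
  rw [e] at e1
  simp only [p0, pn, e1] at h
  exact h

/-- A2.2 path version. -/
theorem broken_path (hm : IsGM d) (hh : Hyp d δ) {c : ℕ} (γ : ℤ → X) (τ : ℤ → ℤ)
    (hτ : ∀ i, (c : ℤ) + 2 * δ < τ (i + 1) - τ i)
    (hgeo : ∀ i s t, τ i ≤ s → s ≤ t → t ≤ τ (i + 1) → (d (γ s) (γ t) : ℤ) = t - s)
    (hb : ∀ i, Btw d c (γ (τ (i - 1))) (γ (τ (i + 1))) (γ (τ i))) (s u t : ℤ) (hsu : s ≤ u)
    (hut : u ≤ t) : Btw d (2 * c + 4 * δ) (γ s) (γ t) (γ u) := by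
  have hlt : ∀ i, τ i < τ (i + 1) := fun i => by have := hτ i; omega
  obtain ⟨k, hk1, hk2⟩ := bb_seg τ hlt u
  have hk := hlt k
  rcases le_or_gt (τ k) s with hs | hs
  · rcases le_or_gt t (τ (k + 1)) with ht | ht
    · have g1 := hgeo k s u hs hsu hk2.le
      have g2 := hgeo k u t hk1 hut ht
      have g3 := hgeo k s t hs (hsu.trans hut) ht
      unfold Btw; omega
    · have g1 := hgeo k s u hs hsu hk2.le
      have g2 := hgeo k u (τ (k + 1)) hk1 hk2.le le_rfl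
      have g3 := hgeo k s (τ (k + 1)) hs (by omega) le_rfl
      have A := bb_break hm hh γ τ hτ hgeo hb s (k + 1) t (by omega) ht.le
      have t1 := hm.tri (γ u) (γ (τ (k + 1))) (γ t)
      unfold Btw at *; omega
  · rcases le_or_gt t (τ (k + 1)) with ht | ht
    · have g1 := hgeo k (τ k) u le_rfl hk1 hk2.le
      have g2 := hgeo k u t hk1 hut ht
      have g3 := hgeo k (τ k) t le_rfl (by omega) ht
      have A := bb_break hm hh γ τ hτ hgeo hb s k t hs.le (by omega)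
      have t1 := hm.tri (γ s) (γ (τ k)) (γ u)
      unfold Btw at *; omega
    · have g1 := hgeo k (τ k) u le_rfl hk1 hk2.le
      have g2 := hgeo k u (τ (k + 1)) hk1 hk2.le le_rfl
      have g3 := hgeo k (τ k) (τ (k + 1)) le_rfl hk.le le_rfl
      have A := bb_break hm hh γ τ hτ hgeo hb s k (τ (k + 1)) hs.le hk.le
      have B := bb_break hm hh γ τ hτ hgeo hb s (k + 1) t (by omega) ht.le
      have t1 := hm.tri (γ s) (γ (τ k)) (γ u)
      have t2 := hm.tri (γ u) (γ (τ (k + 1))) (γ t)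
      unfold Btw at *; omega

/-- A2.2 path version, lower bound for distances. -/
theorem broken_path_low (hm : IsGM d) (hh : Hyp d δ) {c lam : ℕ} (γ : ℤ → X) (τ : ℤ → ℤ)
    (hlam : 5 * (c + δ) ≤ lam) (hlam' : c + 2 * δ < lam)
    (hτ : ∀ i, (lam : ℤ) ≤ τ (i + 1) - τ i)
    (hgeo : ∀ i s t, τ i ≤ s → s ≤ t → t ≤ τ (i + 1) → (d (γ s) (γ t) : ℤ) = t - s)
    (hb : ∀ i, Btw d c (γ (τ (i - 1))) (γ (τ (i + 1))) (γ (τ i))) (s t : ℤ) (hst : s ≤ t) :
    4 * (t - s) ≤ 5 * (d (γ s) (γ t) : ℤ) + 5 * (c + δ) := by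
  rcases eq_or_lt_of_le hst with h | hst'
  · subst h
    have : (0 : ℤ) ≤ (d (γ s) (γ s) : ℤ) := by positivity
    have h2 : (0 : ℤ) ≤ 5 * ((c : ℤ) + δ) := by positivity
    omega
  obtain ⟨a, n, p, h1, h2, h3, h4, p0, pn, hp, hq, hB, hL⟩ :=
    bb_data (δ := δ) hm γ τ (fun i => by have := hτ i; omega) hgeo hb s t hst'
  have hadd := broken_nat_add hm hh (fun i => γ (p i)) (n + 1) hB hL
  have hsum : ((∑ i ∈ Finset.range (n + 1), d (γ (p i)) (γ (p (i + 1))) : ℕ) : ℤ) = t - s := by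
    push_cast
    have : ∀ i ∈ Finset.range (n + 1), (d (γ (p i)) (γ (p (i + 1))) : ℤ) = p (i + 1) - p i := by
      intro i hi
      rw [Finset.mem_range] at hi
      have q := hq i (by omega)
      exact hgeo (a + i) _ _ q.1 q.2.1 q.2.2
    rw [Finset.sum_congr rfl this, Finset.sum_range_sub, pn, p0]
  have hcast : (t - s : ℤ) ≤ d (γ s) (γ t) + n * (c + δ) := by
    rw [← hsum]
    have h5 : ∑ i ∈ Finset.range (n + 1), d (γ (p i)) (γ (p (i + 1))) ≤
        d (γ s) (γ t) + n * (c + δ) := by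
      have := hadd
      simp only [p0, pn, Nat.add_sub_cancel] at this
      exact this
    exact_mod_cast h5
  -- the number of breaks
  have hgrow : ∀ m : ℕ, (m : ℤ) * lam ≤ τ (a + 1 + m) - τ (a + 1) := by
    intro m
    induction m with
    | zero => simp
    | succ m ih =>
      have h5 := hτ (a + 1 + m)
      have e : a + 1 + ((m + 1 : ℕ) : ℤ) = a + 1 + m + 1 := by push_cast; ring
      rw [e]
      push_cast
      linarith
  rcases Nat.eq_zero_or_pos n with hn | hn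
  · subst hn
    have h2 : (0 : ℤ) ≤ ((c : ℤ) + δ) := by positivity
    push_cast at hcast
    have h6 : (0 : ℤ) ≤ (d (γ s) (γ t) : ℤ) := by positivity
    linarith
  · obtain ⟨m, rfl⟩ : ∃ m, n = m + 1 := ⟨n - 1, by omega⟩
    have h5 := hgrow m
    have e : a + 1 + (m : ℤ) = a + ((m + 1 : ℕ) : ℤ) := by push_cast; ring
    rw [e] at h5
    have h6 : (m : ℤ) * (5 * (c + δ)) ≤ m * lam := by
      apply mul_le_mul_of_nonneg_left _ (by positivity)
      exact_mod_cast hlam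
    push_cast at hcast h3 h5
    nlinarith
end TD
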