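import Pool.Agent.TD.Basic

/-!
# Module BrokenA: broken geodesics (A2.1).  Blueprint section 5.
-/

set_option autoImplicit false

namespace TD

variable {X : Type*} {d : X → X → ℕ} {δ : ℕ}

/-- First step of A2.1: going forward. -/
theorem broken_fwd (hm : IsGM d) (hh : Hyp d δ) {c : ℕ} (v : ℕ → X) (n : ℕ)
    (hb : ∀ i, i + 2 ≤ n → Btw d c (v i) (v (i + 2)) (v (i + 1)))
    (hl : ∀ i, i + 3 ≤ n → c + 2 * δ < d (v (i + 1)) (v (i + 2))) :
    ∀ j, j + 2 ≤ n → Btw d (c + δ) (v 0) (v (j + 2)) (v (j + 1)) := by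
  intro j
  induction j with
  | zero => intro h; exact (hb 0 h).mono (by omega)
  | succ j ih =>
    intro h
    have ih' := ih (by omega)
    rcases (hb (j + 1) h).or hm hh (v 0) with h1 | h1
    · exfalso
      have h2 := hl j (by omega)
      have h3 := hm.symm (v (j + 1 + 1)) (v 0)
      have h4 := hm.symm (v (j + 1)) (v 0)
      have e : j + 1 + 1 = j + 2 := rfl
      unfold Btw at h1 ih'
      rw [e] at h1 h3
      omega
    · exact h1

/-- Second step of A2.1: going backward. -/
theorem broken_bwd (hm : IsGM d) (hh : Hyp d δ) {c : ℕ} (v : ℕ → X) (n : ℕ)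
    (hb : ∀ i, i + 2 ≤ n → Btw d c (v i) (v (i + 2)) (v (i + 1)))
    (hl : ∀ i, i + 3 ≤ n → c + 2 * δ < d (v (i + 1)) (v (i + 2))) :
    ∀ j, j + 2 ≤ n → Btw d (c + δ) (v j) (v n) (v (j + 1)) := by
  have hb' : ∀ i, i + 2 ≤ n → Btw d c (v (n - i)) (v (n - (i + 2))) (v (n - (i + 1))) := by
    intro i hi
    have h := (hb (n - (i + 2)) (by omega)).swap hm
    have e1 : n - (i + 2) + 2 = n - i := by omega
    have e2 : n - (i + 2) + 1 = n - (i + 1) := by omega
    rw [e1, e2] at h
    exact h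
  have hl' : ∀ i, i + 3 ≤ n → c + 2 * δ < d (v (n - (i + 1))) (v (n - (i + 2))) := by
    intro i hi
    have h := hl (n - (i + 3)) (by omega)
    have e1 : n - (i + 3) + 2 = n - (i + 1) := by omega
    have e2 : n - (i + 3) + 1 = n - (i + 2) := by omega
    rw [e1, e2, hm.symm] at h
    exact h
  intro j hj
  have h := (broken_fwd hm hh (fun i => v (n - i)) n hb' hl' (n - (j + 2)) (by omega)).swap hm
  have e1 : n - (n - (j + 2) + 2) = j := by omega
  have e2 : n - (n - (j + 2) + 1) = j + 1 := by omega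
  simp only [e1, e2, Nat.sub_zero] at h
  exact h

/-- A2.1, finite version with arbitrary (possibly short) first and last segments. -/
theorem broken_nat (hm : IsGM d) (hh : Hyp d δ) {c : ℕ} (v : ℕ → X) (n : ℕ)
    (hb : ∀ i, i + 2 ≤ n → Btw d c (v i) (v (i + 2)) (v (i + 1)))
    (hl : ∀ i, i + 3 ≤ n → c + 2 * δ < d (v (i + 1)) (v (i + 2))) :
    ∀ i, i ≤ n → Btw d (c + 2 * δ) (v 0) (v n) (v i) := by
  intro i hi
  rcases Nat.eq_zero_or_pos i with rfl | hi0
  · have h1 := hm.self (v 0)
    unfold Btw; omega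
  obtain ⟨j, rfl⟩ : ∃ j, i = j + 1 := ⟨i - 1, by omega⟩
  rcases Nat.lt_or_ge n (j + 2) with h2 | h2
  · have : n = j + 1 := by omega
    subst this
    have h1 := hm.self (v (j + 1))
    unfold Btw; omega
  · rcases Nat.lt_or_ge n (j + 3) with h3 | h3
    · have : n = j + 2 := by omega
      subst this
      exact (broken_fwd hm hh v (j + 2) hb hl j (le_refl _)).mono (by omega)
    · rcases (broken_fwd hm hh v n hb hl j h2).or hm hh (v n) with h1 | h1
      · exact h1.mono (by omega)
      · exfalso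
        have h4 := hl j h3
        have h5 := broken_bwd hm hh v n hb hl (j + 1) h3
        have h6 := hm.symm (v n) (v (j + 1))
        have h7 := hm.symm (v n) (v (j + 2))
        unfold Btw at h1 h5
        have e : j + 1 + 1 = j + 2 := rfl
        rw [e] at h5
        omega

/-- A2.1, additivity. -/
theorem broken_nat_add (hm : IsGM d) (hh : Hyp d δ) {c : ℕ} (v : ℕ → X) (n : ℕ)
    (hb : ∀ i, i + 2 ≤ n → Btw d c (v i) (v (i + 2)) (v (i + 1)))
    (hl : ∀ i, i + 3 ≤ n → c + 2 * δ < d (v (i + 1)) (v (i + 2))) :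
    ∑ i ∈ Finset.range n, d (v i) (v (i + 1)) ≤ d (v 0) (v n) + (n - 1) * (c + δ) := by
  have key : ∀ m, m ≤ n →
      ∑ i ∈ Finset.range m, d (v i) (v (i + 1)) ≤ d (v 0) (v m) + (m - 1) * (c + δ) := by
    intro m
    induction m with
    | zero => intro _; simp
    | succ m ih =>
      intro hm1
      have ih' := ih (by omega)
      rw [Finset.sum_range_succ]
      rcases Nat.eq_zero_or_pos m with rfl | hm0
      · simp
      · obtain ⟨j, rfl⟩ : ∃ j, m = j + 1 := ⟨m - 1, by omega⟩
        have h := broken_fwd hm hh v n hb hl j hm1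
        unfold Btw at h
        have e1 : j + 1 - 1 = j := by omega
        have e2 : j + 1 + 1 - 1 = j + 1 := by omega
        have e : j + 1 + 1 = j + 2 := rfl
        rw [e1] at ih'
        rw [e2, e, add_mul, one_mul]
        omega
  exact key n (le_refl n)

/-- A2.1 for bi-infinite broken geodesics. -/
theorem broken_int (hm : IsGM d) (hh : Hyp d δ) {c : ℕ} (v : ℤ → X)
    (hb : ∀ i, Btw d c (v (i - 1)) (v (i + 1)) (v i))
    (hl : ∀ i, c + 2 * δ < d (v i) (v (i + 1))) {i j k : ℤ} (hij : i ≤ j) (hjk : j ≤ k) :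
    Btw d (c + 2 * δ) (v i) (v k) (v j) := by
  have h := broken_nat hm hh (fun m : ℕ => v (i + m)) (k - i).toNat
    (by
      intro m _
      have h1 := hb (i + m + 1)
      have e1 : i + (m : ℤ) + 1 - 1 = i + m := by ring
      have e2 : i + (m : ℤ) + 1 + 1 = i + ((m + 2 : ℕ) : ℤ) := by push_cast; ring
      have e3 : i + (m : ℤ) + 1 = i + ((m + 1 : ℕ) : ℤ) := by push_cast; ring
      rw [e1, e2, e3] at h1
      exact h1)
    (by
      intro m _
      have h1 := hl (i + m + 1)
      have e2 : i + (m : ℤ) + 1 + 1 = i + ((m + 2 : ℕ) : ℤ) := by push_cast; ring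
      have e3 : i + (m : ℤ) + 1 = i + ((m + 1 : ℕ) : ℤ) := by push_cast; ring
      rw [e2, e3] at h1
      exact h1) (j - i).toNat (by omega)
  have e1 : i + (((k - i).toNat : ℕ) : ℤ) = k := by omega
  have e2 : i + (((j - i).toNat : ℕ) : ℤ) = j := by omega
  simp only [e1, e2, Nat.cast_zero, add_zero] at h
  exact h

/-- Distance along a bi-infinite broken geodesic grows. -/
theorem broken_int_grow (hm : IsGM d) (hh : Hyp d δ) {c : ℕ} (v : ℤ → X)
    (hb : ∀ i, Btw d c (v (i - 1)) (v (i + 1)) (v i))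
    (hl : ∀ i, c + 2 * δ < d (v i) (v (i + 1))) (i : ℤ) (n : ℕ) :
    n ≤ d (v i) (v (i + n)) := by
  induction n with
  | zero => exact Nat.zero_le _
  | succ n ih =>
    rcases Nat.eq_zero_or_pos n with rfl | hn
    · have h := hl i
      have e : i + ((0 + 1 : ℕ) : ℤ) = i + 1 := by push_cast; ring
      rw [e]
      omega
    · have h1 := broken_int hm hh v hb hl (i := i) (j := i + n) (k := i + ((n + 1 : ℕ) : ℤ))
        (by omega) (by push_cast; omega)
      have h2 := hl (i + n)
      have e : i + (n : ℤ) + 1 = i + ((n + 1 : ℕ) : ℤ) := by push_cast; ring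
      rw [e] at h2
      unfold Btw at h1
      omega

end TD
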