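import Pool.Agent.TD.Basic

/-!
# Module CloseA: the metric on a quotient group.  Blueprint section 9.
-/

set_option autoImplicit false

namespace TD

/-- The metric induced on a quotient group. -/
noncomputable def qd {G : Type*} [Group G] (D : G → G → ℕ) (N : Subgroup G) (x y : G ⧸ N) : ℕ :=
  sInf {n | ∃ a b : G, (a : G ⧸ N) = x ∧ (b : G ⧸ N) = y ∧ D a b = n}

variable {G : Type*} [Group G] {D : G → G → ℕ} {N : Subgroup G}

theorem qd_le (a b : G) : qd D N (a : G ⧸ N) (b : G ⧸ N) ≤ D a b :=
  Nat.sInf_le ⟨a, b, rfl, rfl, rfl⟩

/-- Lifts realizing the quotient distance exist with any prescribed first lift. -/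
theorem qd_lift [N.Normal] (hinv : ∀ g x y, D (g * x) (g * y) = D x y) (a b : G) :
    ∃ b' : G, (b' : G ⧸ N) = b ∧ D a b' = qd D N (a : G ⧸ N) (b : G ⧸ N) := by
  have hne : {n | ∃ a' b' : G, (a' : G ⧸ N) = (a : G ⧸ N) ∧ (b' : G ⧸ N) = (b : G ⧸ N) ∧
      D a' b' = n}.Nonempty := ⟨D a b, a, b, rfl, rfl, rfl⟩
  obtain ⟨a0, b0, ha0, hb0, h0⟩ := Nat.sInf_mem hne
  refine ⟨a * a0⁻¹ * b0, ?_, ?_⟩
  · have h1 : ((a * a0⁻¹ : G) : G ⧸ N) = 1 := by
      rw [QuotientGroup.mk_mul, QuotientGroup.mk_inv, ha0, mul_inv_cancel]
    rw [QuotientGroup.mk_mul, h1, one_mul, hb0]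
  · have h2 : D a (a * a0⁻¹ * b0) = D a0 b0 := by
      have := hinv (a * a0⁻¹) a0 b0
      rwa [inv_mul_cancel_right] at this
    rw [h2, h0]
    rfl

theorem isGM_qd [N.Normal] (hD : IsGM D) (hinv : ∀ g x y, D (g * x) (g * y) = D x y) :
    IsGM (qd D N) := by
  have htri : ∀ x y z : G ⧸ N, qd D N x z ≤ qd D N x y + qd D N y z := by
    intro x y z
    induction x using QuotientGroup.induction_on with
    | H a =>
      induction y using QuotientGroup.induction_on with
      | H b =>
        induction z using QuotientGroup.induction_on with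
        | H c =>
          obtain ⟨b', hb', h1⟩ := qd_lift (N := N) hinv a b
          obtain ⟨c', hc', h2⟩ := qd_lift (N := N) hinv b' c
          rw [← h1, ← hb', ← h2, ← hc']
          exact (qd_le a c').trans (hD.tri a b' c')
  refine ⟨?_, ?_, ?_, htri, ?_⟩
  · intro x
    induction x using QuotientGroup.induction_on with
    | H a =>
      have := qd_le (D := D) (N := N) a a
      rw [hD.self] at this
      omega
  · intro x y h
    induction x using QuotientGroup.induction_on with
    | H a =>
      induction y using QuotientGroup.induction_on with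
      | H b =>
        obtain ⟨b', hb', h1⟩ := qd_lift (N := N) hinv a b
        rw [h] at h1
        rw [← hb', hD.eq_of _ _ h1]
  · have hle : ∀ x y : G ⧸ N, qd D N x y ≤ qd D N y x := by
      intro x y
      induction x using QuotientGroup.induction_on with
      | H a =>
        induction y using QuotientGroup.induction_on with
        | H b =>
          obtain ⟨a', ha', h1⟩ := qd_lift (N := N) hinv b a
          rw [← h1, ← ha', hD.symm b a']
          exact qd_le a' b
    exact fun x y => le_antisymm (hle x y) (hle y x)
  · intro x y n h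
    induction x using QuotientGroup.induction_on with
    | H a =>
      induction y using QuotientGroup.induction_on with
      | H b =>
        obtain ⟨b', hb', h1⟩ := qd_lift (N := N) hinv a b
        rw [h] at h1
        obtain ⟨z, hz1, hz2⟩ := hD.step _ _ _ h1
        refine ⟨(z : G ⧸ N), ?_, ?_⟩
        · have e1 := qd_le (D := D) (N := N) a z
          have e2 := qd_le (D := D) (N := N) z b'
          have e3 := htri (a : G ⧸ N) z b
          rw [hb'] at e2
          omega
        · have e1 := qd_le (D := D) (N := N) a z
          have e2 := qd_le (D := D) (N := N) z b'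
          have e3 := htri (a : G ⧸ N) z b
          rw [hb'] at e2
          omega

theorem qd_inv [N.Normal] (hinv : ∀ g x y, D (g * x) (g * y) = D x y) (g x y : G ⧸ N) :
    qd D N (g * x) (g * y) = qd D N x y := by
  have hle : ∀ g x y : G ⧸ N, qd D N (g * x) (g * y) ≤ qd D N x y := by
    intro g x y
    induction g using QuotientGroup.induction_on with
    | H g0 =>
      induction x using QuotientGroup.induction_on with
      | H a =>
        induction y using QuotientGroup.induction_on with
        | H b =>
          obtain ⟨b', hb', h1⟩ := qd_lift (N := N) hinv a b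
          rw [← h1, ← hb', ← hinv g0 a b', ← QuotientGroup.mk_mul, ← QuotientGroup.mk_mul]
          exact qd_le _ _
  refine le_antisymm (hle g x y) ?_
  have := hle g⁻¹ (g * x) (g * y)
  rwa [inv_mul_cancel_left, inv_mul_cancel_left] at this

end TD
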