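import Pool.Agent.TD.CloseA
import Pool.Agent.TD.Axis

/-!
# Module CloseB: the closing lemma CL.  Blueprint section 9.
-/

set_option autoImplicit false

namespace TD

/-- The constant `M0`. -/
noncomputable def MM (δ c : ℕ) : ℕ := 24 * RR δ (kap δ c) (CC2 δ c) + 1000

variable {G : Type*} [Group G] {d : G → G → ℕ} {δ : ℕ} {r : G} {γ : ℤ → G} {L θ c : ℕ}

/-- Kinds of sides for the closing lemma: `none` is a geodesic side, `some H` is a side in a
coset of `H`. -/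
def SideOK (d : G → G → ℕ) (r : G) (γ : ℤ → G) (K : Option (Subgroup G)) (x y : G) : Prop :=
  match K with
  | none => cm d r γ x y = qd (cm d r γ) (NN r) (x : G ⧸ NN r) (y : G ⧸ NN r)
  | some H => x⁻¹ * y ∈ H

/-- Telescoping bound. -/
theorem closing_tele (f : ℕ → ℤ) (B : ℤ) : ∀ k : ℕ, (∀ i < k, |f i - f (i + 1)| ≤ B) →
    |f 0 - f k| ≤ k * B := by
  intro k
  induction k with
  | zero => intro _; simp
  | succ k ih =>
    intro h
    have h1 := ih (fun i hi => h i (by omega))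
    have h2 := h k (by omega)
    have h3 : |f 0 - f (k + 1)| ≤ |f 0 - f k| + |f k - f (k + 1)| := abs_sub_le _ _ _
    push_cast
    linarith

/-- Elements of `NN r` act trivially on the quotient. -/
theorem closing_coe {n : G} (hn : n ∈ NN r) (x : G) :
    ((n * x : G) : G ⧸ NN r) = (x : G ⧸ NN r) := by
  rw [QuotientGroup.eq]
  have h := (inferInstance : (NN r).Normal).conj_mem n⁻¹ ((NN r).inv_mem hn) x⁻¹
  have e : (n * x)⁻¹ * x = x⁻¹ * n⁻¹ * x⁻¹⁻¹ := by group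
  rw [e]
  exact h

/-- `SideOK` is invariant under the action of `NN r`. -/
theorem closing_inv (hG : IsHG d δ) (hS : SC d r γ L θ c) {K : Option (Subgroup G)} {x y n : G}
    (hn : n ∈ NN r) (h : SideOK d r γ K x y) : SideOK d r γ K (n * x) (n * y) := by
  cases K with
  | none =>
    have h' : cm d r γ x y = qd (cm d r γ) (NN r) (x : G ⧸ NN r) (y : G ⧸ NN r) := h
    show cm d r γ (n * x) (n * y) =
      qd (cm d r γ) (NN r) ((n * x : G) : G ⧸ NN r) ((n * y : G) : G ⧸ NN r)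
    rw [closing_coe hn, closing_coe hn, cm_inv hG hS, h']
  | some H =>
    have h' : x⁻¹ * y ∈ H := h
    show (n * x)⁻¹ * (n * y) ∈ H
    have e : (n * x)⁻¹ * (n * y) = x⁻¹ * y := by group
    rw [e]
    exact h'

/-- The cut: if a geodesic side crosses the axis `v`, its end can be rotated. -/
theorem closing_cut (hG : IsHG d δ) (hS : SC d r γ L θ c) (hθ : 1000 * (δ + c + 1) ≤ θ)
    (hL : 1000 * θ ≤ L) (v : Ax r) (x y : G)
    (h : (6 * RR δ (kap δ c) (CC2 δ c) + 15) * (θ : ℤ) < |pos d γ v x - pos d γ v y|)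
    (hs : SideOK d r γ none x y) (e : ℤ) : SideOK d r γ none x (rho v ^ e * y) := by
  have hs' : cm d r γ x y = qd (cm d r γ) (NN r) (x : G ⧸ NN r) (y : G ⧸ NN r) := hs
  show cm d r γ x (rho v ^ e * y) =
      qd (cm d r γ) (NN r) (x : G ⧸ NN r) ((rho v ^ e * y : G) : G ⧸ NN r)
  have hre : rho v ^ e ∈ NN r := Subgroup.zpow_mem _ (rho_mem v) e
  obtain ⟨s, t, hst⟩ := ax_bgi hG hS hθ hL v x y h
  have hm : IsGM (cm d r γ) := isGM_cd hG.toIsGM
  have h1 : cm d r γ x (rho v ^ e * y) ≤ cm d r γ x (gam γ v s) +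
      (cm d r γ (gam γ v s) (rho v ^ e * gam γ v t) +
        cm d r γ (rho v ^ e * gam γ v t) (rho v ^ e * y)) := by
    refine (hm.tri _ (gam γ v s) _).trans ?_
    exact Nat.add_le_add_left (hm.tri _ _ _) _
  have h2 : cm d r γ (rho v ^ e * gam γ v t) (rho v ^ e * y) = cm d r γ (gam γ v t) y :=
    cm_inv hG hS _ _ _
  have h3 : cm d r γ (gam γ v s) (rho v ^ e * gam γ v t) ≤ 1 := by
    apply cd_adj hG.toIsGM
    right
    refine ⟨v, ⟨s, rfl⟩, ?_⟩
    rw [rho_gam hS]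
    exact ⟨_, rfl⟩
  have h4 := qd_le (D := cm d r γ) (N := NN r) x (rho v ^ e * y)
  rw [closing_coe hre] at h4 ⊢
  omega

/-- CL: the closing lemma. -/
theorem closing (hG : IsHG d δ) (hS : SC d r γ L θ c) (hθ : 1000 * (δ + c + 1) ≤ θ)
    (hL : MM δ c * θ ≤ L) (k : ℕ) (hk : k ≤ 4) (K : ℕ → Option (Subgroup G))
    (hK : ∀ i H, K i = some H → SmallOn d γ θ H) (x : ℕ → G)
    (hx : ∀ i < k, SideOK d r γ (K i) (x i) (x (i + 1))) (hend : x k * (x 0)⁻¹ ∈ NN r) :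
    ∃ x' : ℕ → G, (∀ i ≤ k, x' i * (x i)⁻¹ ∈ NN r) ∧
      (∀ i < k, SideOK d r γ (K i) (x' i) (x' (i + 1))) ∧ x' k = x' 0 := by
  classical
  have hL1 : 1000 * θ ≤ L := by
    unfold MM at hL
    nlinarith
  have hθ0 : 0 < θ := by omega
  have hL0 : 0 < L := by omega
  -- minimal lifts
  have hex : ∃ m : ℕ, ∃ x' : ℕ → G, (∀ i ≤ k, x' i * (x i)⁻¹ ∈ NN r) ∧
      (∀ i < k, SideOK d r γ (K i) (x' i) (x' (i + 1))) ∧ d (x' 0) (x' k) = m :=
    ⟨_, x, fun i _ => by simp, hx, rfl⟩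
  obtain ⟨x', h1, h2, h3⟩ := Nat.find_spec hex
  refine ⟨x', h1, h2, ?_⟩
  by_contra hne
  have hn : x' k * (x' 0)⁻¹ ∈ NN r := by
    have a1 := h1 k le_rfl
    have a2 := (NN r).inv_mem (h1 0 (Nat.zero_le _))
    have e : x' k * (x' 0)⁻¹ = (x' k * (x k)⁻¹) * (x k * (x 0)⁻¹) * (x' 0 * (x 0)⁻¹)⁻¹ := by
      group
    rw [e]
    exact (NN r).mul_mem ((NN r).mul_mem a1 hend) a2
  have hn1 : x' k * (x' 0)⁻¹ ≠ 1 := by
    intro h
    exact hne (mul_inv_eq_one.1 h)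
  obtain ⟨v, hv⟩ := ax_gl hG hS hθ hL1 hn hn1 (x' 0)
  rw [inv_mul_cancel_right] at hv
  -- a long side
  have hB : ∃ i < k, (6 * RR δ (kap δ c) (CC2 δ c) + 15) * (θ : ℤ) <
      |pos d γ v (x' i) - pos d γ v (x' (i + 1))| := by
    by_contra hcon
    push Not at hcon
    have h4 := closing_tele (fun i => pos d γ v (x' i))
      ((6 * RR δ (kap δ c) (CC2 δ c) + 15) * (θ : ℤ)) k hcon
    have h5 : (k : ℤ) ≤ 4 := by exact_mod_cast hk
    have hR0 : (0 : ℤ) ≤ (RR δ (kap δ c) (CC2 δ c) : ℤ) := Int.natCast_nonneg _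
    have hθ0' : (0 : ℤ) < (θ : ℤ) := by exact_mod_cast hθ0
    have h6 : (k : ℤ) * ((6 * RR δ (kap δ c) (CC2 δ c) + 15) * (θ : ℤ)) ≤
        4 * ((6 * RR δ (kap δ c) (CC2 δ c) + 15) * (θ : ℤ)) :=
      mul_le_mul_of_nonneg_right h5 (by positivity)
    have h7 : ((24 * RR δ (kap δ c) (CC2 δ c) + 1000 : ℕ) : ℤ) * (θ : ℤ) ≤ (L : ℤ) := by
      exact_mod_cast hL
    push_cast at h7
    have h8 : (L : ℤ) - 40 * θ ≤ 4 * ((6 * RR δ (kap δ c) (CC2 δ c) + 15) * (θ : ℤ)) :=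
      hv.trans (h4.trans h6)
    nlinarith
  obtain ⟨i, hik, hi⟩ := hB
  -- the long side is geodesic
  have hKi : K i = none := by
    cases hKi : K i with
    | none => rfl
    | some H =>
      exfalso
      have h4 := h2 i hik
      rw [hKi] at h4
      have h4' : (x' i)⁻¹ * x' (i + 1) ∈ H := h4
      have h5 := ax_small_on hG hL0 hS (hK i H hKi) v (x' i) _ h4'
      rw [mul_inv_cancel_left] at h5
      have hR0 : (0 : ℤ) ≤ (RR δ (kap δ c) (CC2 δ c) : ℤ) := Int.natCast_nonneg _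
      have hθ0' : (0 : ℤ) < (θ : ℤ) := by exact_mod_cast hθ0
      have h6 : (θ : ℤ) ≤ (6 * RR δ (kap δ c) (CC2 δ c) + 15) * (θ : ℤ) := by nlinarith
      exact absurd (hi.trans_le h5) (not_lt.2 h6)
  obtain ⟨e, he⟩ := ax_d hG hS hθ hL1 v (x' 0) (x' k) hv
  have hre : rho v ^ e ∈ NN r := Subgroup.zpow_mem _ (rho_mem v) e
  -- the new lifts
  let y : ℕ → G := fun j => if j ≤ i then x' j else rho v ^ e * x' j
  have hy1 : ∀ j, j ≤ i → y j = x' j := fun j hj => if_pos hj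
  have hy2 : ∀ j, i < j → y j = rho v ^ e * x' j := fun j hj => if_neg (not_le.2 hj)
  have hmin := Nat.find_min hex (m := d (y 0) (y k)) (by
    rw [← h3, hy1 0 (Nat.zero_le _), hy2 k hik]
    exact he)
  apply hmin
  refine ⟨y, ?_, ?_, rfl⟩
  · intro j hj
    rcases le_or_gt j i with h | h
    · rw [hy1 j h]
      exact h1 j hj
    · rw [hy2 j h, mul_assoc]
      exact (NN r).mul_mem hre (h1 j hj)
  · intro j hj
    rcases lt_trichotomy j i with h | h | h
    · rw [hy1 j h.le, hy1 (j + 1) h]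
      exact h2 j hj
    · subst h
      rw [hy1 j le_rfl, hy2 (j + 1) (Nat.lt_succ_self _), hKi]
      have h4 := h2 j hj
      rw [hKi] at h4
      exact closing_cut hG hS hθ hL1 v _ _ hi h4 e
    · rw [hy2 j h, hy2 (j + 1) (by omega)]
      exact closing_inv hG hS hre (h2 j hj)

end TD
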