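import Pool.Agent.TD.CloseB

/-!
# Module CloseC: the quotient is hyperbolic, quasi-convexity, injectivity.  Blueprint section 9.
-/

set_option autoImplicit false

namespace TD

variable {G : Type*} [Group G] {d : G → G → ℕ} {δ : ℕ} {r : G} {γ : ℤ → G} {L θ c : ℕ}

private theorem closeC_L (hθ : 1000 * (δ + c + 1) ≤ θ) (hL : MM δ c * θ ≤ L) :
    1000 * θ ≤ L ∧ 0 < θ := by
  refine ⟨le_trans (Nat.mul_le_mul_right θ ?_) hL, by omega⟩
  unfold MM
  omega

private theorem closeC_CC2 (δ c : ℕ) : 3 * δ + 1 ≤ CC2 δ c ∧ CC2 δ c ≤ 10 * (δ + c + 1) := by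
  unfold CC2 CC1 kap
  omega

private theorem closeC_mk {a b : G} (h : a * b⁻¹ ∈ NN r) :
    (a : G ⧸ NN r) = (b : G ⧸ NN r) := by
  have h1 : ((a * b⁻¹ : G) : G ⧸ NN r) = 1 := (QuotientGroup.eq_one_iff _).mpr h
  rw [QuotientGroup.mk_mul, QuotientGroup.mk_inv] at h1
  exact mul_inv_eq_one.mp h1

private theorem closeC_mk' {a b : G} (h : (a : G ⧸ NN r) = (b : G ⧸ NN r)) :
    a * b⁻¹ ∈ NN r := by
  rw [← QuotientGroup.eq_one_iff, QuotientGroup.mk_mul, QuotientGroup.mk_inv, h,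
    mul_inv_cancel]

/-- The quotient metric is a hyperbolic group metric. -/
theorem quot_isHG (hG : IsHG d δ) (hS : SC d r γ L θ c) (hθ : 1000 * (δ + c + 1) ≤ θ)
    (hL : MM δ c * θ ≤ L) :
    IsHG (G := G ⧸ NN r) (qd (cm d r γ) (NN r)) (4 * RR δ (kap δ c) (CC2 δ c)) := by
  obtain ⟨hL1, hθ0⟩ := closeC_L hθ hL
  have hM : IsGM (cm d r γ) := isGM_cd hG.toIsGM
  have hinv : ∀ g x y, cm d r γ (g * x) (g * y) = cm d r γ x y := cm_inv hG hS
  have hHyp : Hyp (cm d r γ) (4 * RR δ (kap δ c) (CC2 δ c)) :=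
    cone_hyp hG.toIsGM hG.hyp (fun v => wax_qc hG hS v) (closeC_CC2 δ c).1
  refine { toIsGM := isGM_qd hM hinv, inv := qd_inv hinv, fin := ?_, hyp := ?_ }
  · -- finiteness of the unit ball
    have hL0 : (0 : ℤ) < L := by omega
    have hper : ∀ (e : ℕ) (s : ℤ), ((γ (s + e * L) : G) : G ⧸ NN r) = (γ s : G ⧸ NN r) := by
      intro e
      induction e with
      | zero => intro s; simp
      | succ e ih =>
        intro s
        have h1 : s + ((e + 1 : ℕ) : ℤ) * L = (s + e * L) + L := by push_cast; ring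
        rw [h1, hS.per, ← ih s]
        refine closeC_mk ?_
        rw [mul_inv_cancel_right]
        exact Subgroup.subset_normalClosure (Set.mem_singleton r)
    have hmod : ∀ s : ℤ, ((γ s : G) : G ⧸ NN r) = (γ (s % L) : G ⧸ NN r) := by
      intro s
      rcases le_total 0 (s / L) with h | h
      · have h1 := hper (s / L).toNat (s % L)
        rw [Int.toNat_of_nonneg h, Int.emod_add_ediv_mul] at h1
        exact h1
      · have h1 := hper (-(s / L)).toNat s
        rw [Int.toNat_of_nonneg (by omega)] at h1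
        have h2 : s + -(s / L) * L = s % L := by
          have := Int.emod_add_ediv_mul s L
          linarith
        rw [h2] at h1
        exact h1.symm
    have hfin1 : ((fun g : G => (g : G ⧸ NN r)) '' {g : G | d 1 g ≤ 1}).Finite :=
      hG.fin.image _
    have hfin2 : (Set.image2 (fun s t : ℤ => (((γ s)⁻¹ * γ t : G) : G ⧸ NN r))
        (Set.Ico (0 : ℤ) L) (Set.Ico (0 : ℤ) L)).Finite :=
      (Set.finite_Ico _ _).image2 _ (Set.finite_Ico _ _)
    refine (hfin1.union hfin2).subset ?_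
    intro q hq
    have hq' : qd (cm d r γ) (NN r) 1 q ≤ 1 := hq
    obtain ⟨b, rfl⟩ := QuotientGroup.mk_surjective q
    obtain ⟨b', hb', hd⟩ := qd_lift (N := NN r) hinv 1 b
    rw [QuotientGroup.mk_one] at hd
    have h1 : cm d r γ 1 b' ≤ 1 := by rw [hd]; exact hq'
    rcases cadj_of_cd hG.toIsGM h1 with h2 | ⟨v, hv1, hv2⟩
    · left
      exact ⟨b', h2, hb'⟩
    · right
      obtain ⟨s, hs⟩ := hv1
      obtain ⟨t, ht⟩ := hv2
      refine ⟨s % L, ⟨Int.emod_nonneg _ hL0.ne', Int.emod_lt_of_pos _ hL0⟩, t % L,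
        ⟨Int.emod_nonneg _ hL0.ne', Int.emod_lt_of_pos _ hL0⟩, ?_⟩
      have h3 : b' = (γ s)⁻¹ * γ t := by
        unfold gam at hs ht
        have h4 : γ s = v.out⁻¹ := by
          rw [eq_inv_iff_mul_eq_one]
          have := congrArg (fun x => v.out⁻¹ * x * v.out) hs
          simpa [mul_assoc] using this
        rw [h4, inv_inv, ht]
      simp only
      rw [← hb', h3, QuotientGroup.mk_mul, QuotientGroup.mk_inv, QuotientGroup.mk_mul,
        QuotientGroup.mk_inv, ← hmod s, ← hmod t]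
  · -- hyperbolicity
    intro x y z w
    obtain ⟨x0, rfl⟩ := QuotientGroup.mk_surjective x
    obtain ⟨y0, rfl⟩ := QuotientGroup.mk_surjective y
    obtain ⟨z0, rfl⟩ := QuotientGroup.mk_surjective z
    obtain ⟨w0, rfl⟩ := QuotientGroup.mk_surjective w
    obtain ⟨x1, hx1, hd1⟩ := qd_lift (N := NN r) hinv x0 y0
    obtain ⟨x2, hx2, hd2⟩ := qd_lift (N := NN r) hinv x1 z0
    obtain ⟨x3, hx3, hd3⟩ := qd_lift (N := NN r) hinv x2 w0
    obtain ⟨x4, hx4, hd4⟩ := qd_lift (N := NN r) hinv x3 x0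
    let f : ℕ → G := fun i => if i = 0 then x0 else if i = 1 then x1 else if i = 2 then x2 else
      if i = 3 then x3 else x4
    have f0 : f 0 = x0 := rfl
    have f1 : f 1 = x1 := rfl
    have f2 : f 2 = x2 := rfl
    have f3 : f 3 = x3 := rfl
    have f4 : f 4 = x4 := rfl
    obtain ⟨g, hg1, hg2, hg3⟩ := closing hG hS hθ hL 4 le_rfl (fun _ => none)
      (fun i H h => by simp at h) f (by
        intro i hi
        unfold SideOK
        simp only
        interval_cases i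
        · rw [f0, f1, hd1, hx1]
        · rw [f1, f2, hd2, hx2]
        · rw [f2, f3, hd3, hx3]
        · simp only [Nat.reduceAdd]
          rw [f3, f4, hd4, hx4]) (by rw [f4, f0]; exact closeC_mk' hx4)
    have e0 : (g 0 : G ⧸ NN r) = (x0 : G ⧸ NN r) := closeC_mk (by simpa [f0] using hg1 0 (by omega))
    have e1 : (g 1 : G ⧸ NN r) = (y0 : G ⧸ NN r) := by
      rw [← hx1]; exact closeC_mk (by simpa [f1] using hg1 1 (by omega))
    have e2 : (g 2 : G ⧸ NN r) = (z0 : G ⧸ NN r) := by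
      rw [← hx2]; exact closeC_mk (by simpa [f2] using hg1 2 (by omega))
    have e3 : (g 3 : G ⧸ NN r) = (w0 : G ⧸ NN r) := by
      rw [← hx3]; exact closeC_mk (by simpa [f3] using hg1 3 (by omega))
    have s0 := hg2 0 (by omega)
    have s1 := hg2 1 (by omega)
    have s2 := hg2 2 (by omega)
    have s3 := hg2 3 (by omega)
    unfold SideOK at s0 s1 s2 s3
    simp only [Nat.reduceAdd, zero_add] at s0 s1 s2 s3
    rw [hg3] at s3
    rw [e0, e1] at s0
    rw [e1, e2] at s1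
    rw [e2, e3] at s2
    rw [e3, e0] at s3
    have t1 := qd_le (D := cm d r γ) (N := NN r) (g 0) (g 2)
    have t2 := qd_le (D := cm d r γ) (N := NN r) (g 1) (g 3)
    rw [e0, e2] at t1
    rw [e1, e3] at t2
    have hQ : IsGM (qd (cm d r γ) (NN r)) := isGM_qd hM hinv
    have s4 := hQ.symm (w0 : G ⧸ NN r) (x0 : G ⧸ NN r)
    have s5 := hM.symm (g 3) (g 0)
    have h := hHyp (g 0) (g 1) (g 2) (g 3)
    omega

/-- Images of quasi-convex subgroups with small projections are quasi-convex. -/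
theorem quot_qc (hG : IsHG d δ) (hS : SC d r γ L θ c) (hθ : 1000 * (δ + c + 1) ≤ θ)
    (hL : MM δ c * θ ≤ L) (H : Subgroup G) (hH : SmallOn d γ θ H) {κ : ℕ}
    (hq : QC d κ (H : Set G)) :
    ∃ κ', QC (qd (cm d r γ) (NN r)) κ' (H.map (QuotientGroup.mk' (NN r)) : Set (G ⧸ NN r)) := by
  have hM : IsGM (cm d r γ) := isGM_cd hG.toIsGM
  have hinv : ∀ g x y, cm d r γ (g * x) (g * y) = cm d r γ x y := cm_inv hG hS
  have hQC : QC (cm d r γ) (κ + 6 * RR δ (kap δ c) (CC2 δ c)) (H : Set G) :=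
    cone_qc hG.toIsGM hG.hyp (fun v => wax_qc hG hS v) (closeC_CC2 δ c).1 hq
  refine ⟨κ + 6 * RR δ (kap δ c) (CC2 δ c), ?_⟩
  rintro _ ⟨a, ha, rfl⟩ _ ⟨b, hb, rfl⟩ p
  obtain ⟨p0, rfl⟩ := QuotientGroup.mk_surjective p
  simp only [QuotientGroup.mk'_apply]
  obtain ⟨x1, hx1, hd1⟩ := qd_lift (N := NN r) hinv a p0
  obtain ⟨x2, hx2, hd2⟩ := qd_lift (N := NN r) hinv x1 b
  let f : ℕ → G := fun i => if i = 0 then a else if i = 1 then x1 else if i = 2 then x2 else
    x2 * b⁻¹ * a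
  have f0 : f 0 = a := rfl
  have f1 : f 1 = x1 := rfl
  have f2 : f 2 = x2 := rfl
  have f3 : f 3 = x2 * b⁻¹ * a := rfl
  let K : ℕ → Option (Subgroup G) := fun i => if i = 2 then some H else none
  have K0 : K 0 = none := rfl
  have K1 : K 1 = none := rfl
  have K2 : K 2 = some H := rfl
  obtain ⟨g, hg1, hg2, hg3⟩ := closing hG hS hθ hL 3 (by omega) K (by
      intro i H' h
      by_cases hi : i = 2
      · simp only [K, hi, if_true, Option.some.injEq] at h
        rw [← h]; exact hH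
      · simp [K, hi] at h) f (by
      intro i hi
      interval_cases i
      · rw [K0]
        unfold SideOK
        simp only [zero_add]
        rw [f0, f1, hd1, hx1]
      · rw [K1]
        unfold SideOK
        simp only [Nat.reduceAdd]
        rw [f1, f2, hd2, hx2]
      · rw [K2]
        unfold SideOK
        simp only [Nat.reduceAdd]
        rw [f2, f3]
        have : x2⁻¹ * (x2 * b⁻¹ * a) = b⁻¹ * a := by group
        rw [this]
        exact H.mul_mem (H.inv_mem hb) ha) (by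
      rw [f3, f0, mul_inv_cancel_right]
      exact closeC_mk' hx2)
  have s0 := hg2 0 (by omega)
  have s1 := hg2 1 (by omega)
  have s2 := hg2 2 (by omega)
  rw [K0] at s0
  rw [K1] at s1
  rw [K2] at s2
  unfold SideOK at s0 s1 s2
  simp only [Nat.reduceAdd, zero_add] at s0 s1 s2
  rw [hg3] at s2
  have m0 := hg1 0 (by omega)
  rw [f0] at m0
  have e0 : (g 0 : G ⧸ NN r) = (a : G ⧸ NN r) := closeC_mk m0
  have e1 : (g 1 : G ⧸ NN r) = (p0 : G ⧸ NN r) := by
    rw [← hx1]; exact closeC_mk (by simpa [f1] using hg1 1 (by omega))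
  have e2 : (g 2 : G ⧸ NN r) = (b : G ⧸ NN r) := by
    rw [← hx2]; exact closeC_mk (by simpa [f2] using hg1 2 (by omega))
  set n : G := g 0 * a⁻¹ with hn
  have en : ((n⁻¹ : G) : G ⧸ NN r) = 1 := (QuotientGroup.eq_one_iff _).mpr ((NN r).inv_mem m0)
  have k0 : n⁻¹ * g 0 = a := by rw [hn]; group
  have k2 : n⁻¹ * g 2 ∈ H := by
    have : n⁻¹ * g 2 = a * ((g 2)⁻¹ * g 0)⁻¹ := by rw [hn]; group
    rw [this]
    exact H.mul_mem ha (H.inv_mem s2)
  obtain ⟨x, hx, hqc⟩ := hQC a ha (n⁻¹ * g 2) k2 (n⁻¹ * g 1)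
  refine ⟨(x : G ⧸ NN r), ⟨x, hx, rfl⟩, ?_⟩
  have t1 := qd_le (D := cm d r γ) (N := NN r) (n⁻¹ * g 1) x
  have t2 := qd_le (D := cm d r γ) (N := NN r) a (n⁻¹ * g 2)
  rw [QuotientGroup.mk_mul, en, one_mul, e1] at t1
  rw [QuotientGroup.mk_mul, en, one_mul, e2] at t2
  have t3 : cm d r γ a (n⁻¹ * g 1) = qd (cm d r γ) (NN r) (a : G ⧸ NN r) (p0 : G ⧸ NN r) := by
    rw [← k0, hinv, s0, k0, e0, e1]
  have t4 : cm d r γ (n⁻¹ * g 1) (n⁻¹ * g 2) =
      qd (cm d r γ) (NN r) (p0 : G ⧸ NN r) (b : G ⧸ NN r) := by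
    rw [hinv, s1, e1, e2]
  omega

/-- INJ: short elements of the kernel are trivial. -/
theorem quot_inj (hG : IsHG d δ) (hS : SC d r γ L θ c) (hθ : 1000 * (δ + c + 1) ≤ θ)
    (hL : MM δ c * θ ≤ L) {f : G} (hf : f ∈ NN r) (hf' : d 1 f ≤ θ) : f = 1 := by
  obtain ⟨hL1, hθ0⟩ := closeC_L hθ hL
  by_contra hne
  obtain ⟨v, hv⟩ := ax_gl hG hS hθ hL1 hf hne 1
  rw [mul_one] at hv
  have h1 := ax_b hG hS hθ hL1 v 1 f
  have h2 := (closeC_CC2 δ c).2
  push_cast at h1
  omega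

end TD
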