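import Pool.Agent.TD.Basic

/-!
# Module ConeA: the coned-off metric, basic facts.  Blueprint section 8.
-/

set_option autoImplicit false

namespace TD

/-- There is an `adj`-path with `n` steps. -/
def Reach {X : Type*} (adj : X → X → Prop) (n : ℕ) (x y : X) : Prop :=
  ∃ e : ℕ → X, e 0 = x ∧ e n = y ∧ ∀ i < n, adj (e i) (e (i + 1))

/-- Graph distance of a relation. -/
noncomputable def gd {X : Type*} (adj : X → X → Prop) (x y : X) : ℕ :=
  sInf {n | Reach adj n x y}

/-- Cone-off adjacency. -/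
def cadj {X ι : Type*} (d : X → X → ℕ) (w : ι → Set X) (x y : X) : Prop :=
  d x y ≤ 1 ∨ ∃ i, x ∈ w i ∧ y ∈ w i

/-- Cone-off metric. -/
noncomputable def cd {X ι : Type*} (d : X → X → ℕ) (w : ι → Set X) : X → X → ℕ :=
  gd (cadj d w)

/-- The constant of the bootstrap argument. -/
noncomputable def RR (δ κ C : ℕ) : ℕ := sSup {D : ℕ | D ≤ C + κ + 1 + δ * Nat.clog 2 (8 * D)}

private theorem RR_bound {δ K D : ℕ} (h : D ≤ K + δ * Nat.clog 2 (8 * D)) :
    D ≤ K + δ * (16 * K + 64 * δ + 6) := by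
  rcases Nat.eq_zero_or_pos D with h0 | h0
  · omega
  · set L := Nat.clog 2 (8 * D) with hL
    have h1 : 2 ^ (L - 1) < 8 * D := by
      have := Nat.pow_pred_clog_lt_self (b := 2) (by norm_num) (x := 8 * D) (by omega)
      simpa [hL, Nat.pred_eq_sub_one] using this
    set n := (L - 1) / 2 with hn
    have h2 : n * n ≤ 2 ^ (L - 1) := by
      have h3 : n < 2 ^ n := Nat.lt_two_pow_self
      calc n * n ≤ 2 ^ n * 2 ^ n := Nat.mul_le_mul h3.le h3.le
        _ = 2 ^ (n + n) := (pow_add _ _ _).symm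
        _ ≤ 2 ^ (L - 1) := Nat.pow_le_pow_right (by norm_num) (by omega)
    have h3 : L ≤ 2 * n + 2 := by omega
    have h4 : n * n < 8 * K + 8 * (δ * (2 * n + 2)) := by
      have h5 : δ * L ≤ δ * (2 * n + 2) := Nat.mul_le_mul_left _ h3
      omega
    have h5 : n ≤ 8 * K + 32 * δ + 1 := by
      by_contra hc
      push Not at hc
      have h6 : (8 * K + 32 * δ + 1) * n ≤ n * n := Nat.mul_le_mul_right _ (by omega)
      have h7 : 1 ≤ n := by omega
      nlinarith [Nat.zero_le (K * (n - 1)), Nat.mul_le_mul_left (8 * K) h7,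
        Nat.mul_le_mul_left (16 * δ) h7]
    have h8 : L ≤ 16 * K + 64 * δ + 6 := by omega
    exact h.trans (Nat.add_le_add_left (Nat.mul_le_mul_left _ h8) _)

theorem le_RR {δ κ C D : ℕ} (h : D ≤ C + κ + 1 + δ * Nat.clog 2 (8 * D)) : D ≤ RR δ κ C := by
  refine le_csSup ?_ h
  refine ⟨C + κ + 1 + δ * (16 * (C + κ + 1) + 64 * δ + 6), fun E hE => ?_⟩
  exact RR_bound hE

section reach

variable {X : Type*} {adj : X → X → Prop}

theorem Reach.zero (x : X) : Reach adj 0 x x :=
  ⟨fun _ => x, rfl, rfl, fun i hi => absurd hi (Nat.not_lt_zero i)⟩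

theorem Reach.cons {n : ℕ} {x z y : X} (h : adj x z) (hr : Reach adj n z y) :
    Reach adj (n + 1) x y := by
  obtain ⟨e, he0, hen, hadj⟩ := hr
  refine ⟨fun i => Nat.casesOn i x e, rfl, hen, fun i hi => ?_⟩
  cases i with
  | zero => simpa [he0] using h
  | succ i => exact hadj i (by omega)

theorem Reach.of_path {e : ℕ → X} {n : ℕ} (hadj : ∀ i < n, adj (e i) (e (i + 1))) {i j : ℕ}
    (hij : i ≤ j) (hj : j ≤ n) : Reach adj (j - i) (e i) (e j) := by
  refine ⟨fun k => e (i + k), by simp, ?_, fun k hk => ?_⟩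
  · show e (i + (j - i)) = e j
    rw [Nat.add_sub_cancel' hij]
  · exact hadj (i + k) (by omega)

theorem Reach.symm' (hs : ∀ x y, adj x y → adj y x) {n : ℕ} {x y : X} (h : Reach adj n x y) :
    Reach adj n y x := by
  obtain ⟨e, he0, hen, hadj⟩ := h
  refine ⟨fun i => e (n - i), by simpa using hen, by simpa using he0, fun i hi => ?_⟩
  have h1 := hs _ _ (hadj (n - (i + 1)) (by omega))
  rwa [show n - (i + 1) + 1 = n - i by omega] at h1

theorem Reach.trans' {n m : ℕ} {x y z : X} (h : Reach adj n x y) (h' : Reach adj m y z) :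
    Reach adj (n + m) x z := by
  induction n generalizing x with
  | zero =>
    obtain ⟨e, he0, hen, -⟩ := h
    rw [Nat.zero_add, ← he0, hen]
    exact h'
  | succ n ih =>
    obtain ⟨e, he0, hen, hadj⟩ := h
    have h1 : Reach adj n (e 1) y := by
      have := Reach.of_path hadj (i := 1) (j := n + 1) (by omega) le_rfl
      rwa [hen] at this
    have h2 := Reach.cons (he0 ▸ hadj 0 (by omega)) (ih h1)
    rwa [show n + m + 1 = n + 1 + m by omega] at h2

end reach

section

variable {X ι : Type*} {d : X → X → ℕ} {w : ι → Set X} {δ κ C : ℕ}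

theorem cadj_symm (hm : IsGM d) (x y : X) (h : cadj d w x y) : cadj d w y x := by
  rcases h with h | ⟨i, h1, h2⟩
  · exact Or.inl (by rwa [hm.symm])
  · exact Or.inr ⟨i, h2, h1⟩

theorem reach_of_d (hm : IsGM d) : ∀ (n : ℕ) (x y : X), d x y = n → Reach (cadj d w) n x y := by
  intro n
  induction n with
  | zero =>
    intro x y h
    rw [hm.eq_of x y h]
    exact Reach.zero y
  | succ n ih =>
    intro x y h
    obtain ⟨z, h1, h2⟩ := hm.step x y n h
    exact Reach.cons (Or.inl h1.le) (ih z y h2)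

theorem cd_reach (hm : IsGM d) (x y : X) : Reach (cadj d w) (cd d w x y) x y :=
  Nat.sInf_mem (s := {n | Reach (cadj d w) n x y}) ⟨_, reach_of_d hm _ x y rfl⟩

theorem cd_le_of_reach {n : ℕ} {x y : X} (h : Reach (cadj d w) n x y) : cd d w x y ≤ n :=
  Nat.sInf_le h

private theorem cd_tri (hm : IsGM d) (x y z : X) : cd d w x z ≤ cd d w x y + cd d w y z :=
  cd_le_of_reach ((cd_reach hm x y).trans' (cd_reach hm y z))

private theorem cd_symm (hm : IsGM d) (x y : X) : cd d w x y = cd d w y x :=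
  le_antisymm (cd_le_of_reach ((cd_reach hm y x).symm' (cadj_symm hm)))
    (cd_le_of_reach ((cd_reach hm x y).symm' (cadj_symm hm)))

theorem cd_adj (hm : IsGM d) {x y : X} (h : cadj d w x y) : cd d w x y ≤ 1 :=
  cd_le_of_reach (Reach.cons h (Reach.zero y))

theorem isGM_cd (hm : IsGM d) : IsGM (cd d w) where
  self x := Nat.le_zero.1 (cd_le_of_reach (Reach.zero x))
  eq_of x y h := by
    obtain ⟨e, he0, hen, -⟩ := cd_reach (w := w) hm x y
    rw [h] at hen
    rw [← he0, ← hen]
  symm := cd_symm hm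
  tri := cd_tri hm
  step x y n h := by
    obtain ⟨e, he0, hen, hadj⟩ := cd_reach (w := w) hm x y
    rw [h] at hen hadj
    have h1 : cd d w x (e 1) ≤ 1 := cd_adj hm (by rw [← he0]; exact hadj 0 (by omega))
    have h2 : cd d w (e 1) y ≤ n := by
      have := Reach.of_path hadj (i := 1) (j := n + 1) (by omega) le_rfl
      rw [hen] at this
      exact cd_le_of_reach this
    have h3 := cd_tri (w := w) hm x (e 1) y
    exact ⟨e 1, by omega, by omega⟩

theorem cd_le (hm : IsGM d) (x y : X) : cd d w x y ≤ d x y :=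
  cd_le_of_reach (reach_of_d hm _ x y rfl)

theorem cadj_of_cd (hm : IsGM d) {x y : X} (h : cd d w x y ≤ 1) : cadj d w x y := by
  rcases Nat.le_one_iff_eq_zero_or_eq_one.1 h with h | h
  · rw [(isGM_cd (w := w) hm).eq_of x y h]
    exact Or.inl (by rw [hm.self]; exact Nat.zero_le 1)
  · obtain ⟨e, he0, hen, hadj⟩ := cd_reach (w := w) hm x y
    rw [h] at hen hadj
    rw [← he0, ← hen]
    exact hadj 0 (by omega)

/-- Sub-paths of geodesics are geodesics. -/
theorem cd_geod (hm : IsGM d) {n : ℕ} {e : ℕ → X} (hn : n = cd d w (e 0) (e n))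
    (hadj : ∀ i < n, cadj d w (e i) (e (i + 1))) {i j : ℕ} (hij : i ≤ j) (hj : j ≤ n) :
    cd d w (e i) (e j) = j - i := by
  have h1 := cd_le_of_reach (Reach.of_path hadj hij hj)
  have h2 := cd_le_of_reach (Reach.of_path hadj (Nat.zero_le i) (hij.trans hj))
  have h3 := cd_le_of_reach (Reach.of_path hadj hj le_rfl)
  have h4 := cd_tri (w := w) hm (e 0) (e i) (e n)
  have h5 := cd_tri (w := w) hm (e i) (e j) (e n)
  omega

/-- Discrete intermediate value theorem for `cd` along a `d`-geodesic: every value is taken. -/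
theorem cd_ivt (hm : IsGM d) (x y q : X) (k : ℕ) (h1 : cd d w q x ≤ k) (h2 : k ≤ cd d w q y) :
    ∃ z, Btw d 0 x y z ∧ cd d w q z = k := by
  obtain ⟨D, hD⟩ : ∃ D, d x y = D := ⟨_, rfl⟩
  induction D generalizing x with
  | zero =>
    have h3 := hm.eq_of x y hD
    subst h3
    exact ⟨x, by unfold Btw; have := hm.self x; omega, le_antisymm h1 h2⟩
  | succ n ih =>
    rcases Nat.lt_or_ge (cd d w q x) k with h3 | h3
    · obtain ⟨z1, h4, h5⟩ := hm.step x y n hD
      have h6 := cd_tri (w := w) hm q x z1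
      have h7 := cd_adj (w := w) hm (x := x) (y := z1) (Or.inl h4.le)
      obtain ⟨z, h8, h9⟩ := ih z1 (by omega) h5
      refine ⟨z, ?_, h9⟩
      unfold Btw at h8 ⊢
      have h10 := hm.tri x z1 z
      omega
    · exact ⟨x, by unfold Btw; have := hm.self x; omega, le_antisymm h1 h3⟩

end

end TD
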