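import Pool.Agent.TD.ConeA

/-!
# Module ConeB: the bootstrap argument B1, B2.  Blueprint section 8.
-/

set_option autoImplicit false

namespace TD

variable {X ι : Type*} {d : X → X → ℕ} {w : ι → Set X} {δ κ C : ℕ}

theorem Reach.comp {S : X → X → Prop} {m n : ℕ} {x y z : X} (h1 : Reach S m x y)
    (h2 : Reach S n y z) : Reach S (m + n) x z := by
  obtain ⟨e, e0, em, he⟩ := h1
  obtain ⟨f, f0, fn, hf⟩ := h2
  refine ⟨fun i => if i ≤ m then e i else f (i - m), ?_, ?_, ?_⟩
  · simp [e0]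
  · by_cases hn : n = 0
    · subst hn
      simp only [Nat.add_zero, le_refl, if_true]
      rw [em, ← fn, f0]
    · have h : ¬ (m + n ≤ m) := by omega
      simp only [h, if_false]
      rw [Nat.add_sub_cancel_left, fn]
  · intro i hi
    by_cases h : i < m
    · have h1 : i ≤ m := by omega
      have h2 : i + 1 ≤ m := by omega
      simp only [h1, h2, if_true]
      exact he i h
    · by_cases h' : i = m
      · subst h'
        have h2 : ¬ (i + 1 ≤ i) := by omega
        simp only [le_refl, if_true, h2, if_false]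
        have h3 : i + 1 - i = 0 + 1 := by omega
        rw [h3, em, ← f0]
        exact hf 0 (by omega)
      · have h1 : ¬ (i ≤ m) := by omega
        have h2 : ¬ (i + 1 ≤ m) := by omega
        simp only [h1, h2, if_false]
        have h3 : i + 1 - m = (i - m) + 1 := by omega
        rw [h3]
        exact hf (i - m) (by omega)

theorem Reach.rev {S : X → X → Prop} (hS : ∀ u v, S u v → S v u) {n : ℕ} {x y : X}
    (h : Reach S n x y) : Reach S n y x := by
  obtain ⟨e, e0, en, he⟩ := h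
  refine ⟨fun i => e (n - i), by simpa using en, by simpa using e0, fun i hi => ?_⟩
  have h1 : n - i = (n - (i + 1)) + 1 := by omega
  have h2 := he (n - (i + 1)) (by omega)
  apply hS
  simp only
  rw [h1]
  exact h2

theorem Reach.sub {S : X → X → Prop} (e : ℕ → X) {i j : ℕ} (hij : i ≤ j)
    (h : ∀ k, i ≤ k → k < j → S (e k) (e (k + 1))) : Reach S (j - i) (e i) (e j) := by
  refine ⟨fun k => e (i + k), by simp, by simp only; congr 1; omega, fun k hk => ?_⟩
  simp only
  have := h (i + k) (by omega) (by omega)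
  rw [Nat.add_assoc] at this
  exact this

theorem cadj_symmB (hm : IsGM d) {x y : X} (h : cadj d w x y) : cadj d w y x := by
  rcases h with h | ⟨i, h1, h2⟩
  · left; rw [hm.symm]; exact h
  · right; exact ⟨i, h2, h1⟩

/-- The restricted adjacency relation: both ends are at distance at least `D` from `p`. -/
def farAdj (d : X → X → ℕ) (w : ι → Set X) (p : X) (D : ℕ) (u v : X) : Prop :=
  cadj d w u v ∧ D ≤ cd d w p u ∧ D ≤ cd d w p v

theorem farAdj_symm (hm : IsGM d) {p : X} {D : ℕ} (u v : X) (h : farAdj d w p D u v) :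
    farAdj d w p D v u := ⟨cadj_symmB hm h.1, h.2.2, h.2.1⟩

/-- A chain far from `p` whose endpoints have `p` in between forces `D` to be small. -/
theorem far_chain (hm : IsGM d) (hh : Hyp d δ) (hw : ∀ i, QC d κ (w i)) {p u v : X} {D N : ℕ}
    (hD : 1 ≤ D) (hN : N ≤ 8 * D) (h : Reach (farAdj d w p D) N u v)
    (hu : D ≤ cd d w p u) (hb : Btw d C u v p) : D ≤ RR δ κ C := by
  -- make the chain of positive length
  obtain ⟨N', hN1, hN', h'⟩ : ∃ N', 1 ≤ N' ∧ N' ≤ 8 * D ∧ Reach (farAdj d w p D) N' u v := by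
    by_cases h0 : N = 0
    · subst h0
      obtain ⟨e, e0, en, -⟩ := h
      have huv : u = v := e0.symm.trans en
      subst huv
      refine ⟨1, le_refl _, by omega, fun _ => u, rfl, rfl, fun i _ => ⟨?_, hu, hu⟩⟩
      left; rw [hm.self]; exact Nat.zero_le _
    · exact ⟨N, by omega, hN, h⟩
  obtain ⟨e, e0, en, he⟩ := h'
  subst e0
  subst en
  have hpow : N' ≤ 2 ^ Nat.clog 2 (8 * D) := hN'.trans (Nat.le_pow_clog (by norm_num) _)
  obtain ⟨i, hi, hbi⟩ := Btw.chain hm hh (Nat.clog 2 (8 * D)) N' e hN1 hpow hb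
  obtain ⟨hadj, hf1, hf2⟩ := he i hi
  apply le_RR
  refine hf1.trans ?_
  have hM : IsGM (cd d w) := isGM_cd hm
  rcases hadj with hd | ⟨j, hj1, hj2⟩
  · have h1 := cd_le (w := w) hm p (e i)
    have h2 := hm.symm p (e i)
    unfold Btw at hbi
    have h3 : Nat.clog 2 (8 * D) * δ = δ * Nat.clog 2 (8 * D) := Nat.mul_comm _ _
    omega
  · obtain ⟨q, hq, hq'⟩ : ∃ q ∈ w j, d p q ≤ κ + (C + Nat.clog 2 (8 * D) * δ) := by
      obtain ⟨q, hq, h'⟩ := hw j _ hj1 _ hj2 p
      refine ⟨q, hq, ?_⟩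
      unfold Btw at hbi
      omega
    have h1 := cd_le (w := w) hm p q
    have h2 : cd d w q (e i) ≤ 1 := cd_adj hm (Or.inr ⟨j, hq, hj1⟩)
    have h3 := hM.tri p q (e i)
    have h4 : Nat.clog 2 (8 * D) * δ = δ * Nat.clog 2 (8 * D) := Nat.mul_comm _ _
    omega

/-- One side of the detour: a point `p'` between `x` and `p` which is joined to the path `e` far
away from `p`. -/
theorem far_side (hm : IsGM d) {p x : X} {n : ℕ} {e : ℕ → X} {D : ℕ}
    (hx : ∃ i ≤ n, e i = x)
    (hp : ∀ i ≤ n, D ≤ cd d w p (e i))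
    (hall : ∀ q, Btw d 0 x p q → ∃ i ≤ n, cd d w q (e i) ≤ D) :
    ∃ q i m, Btw d 0 x p q ∧ i ≤ n ∧ m ≤ D ∧ cd d w p q ≤ 2 * D ∧ cd d w q (e i) ≤ D ∧
      D ≤ cd d w p q ∧ Reach (farAdj d w p D) m q (e i) := by
  have hM : IsGM (cd d w) := isGM_cd hm
  by_cases h : 2 * D ≤ cd d w p x
  · obtain ⟨q, hq, hq2⟩ := cd_ivt (w := w) hm p x p (2 * D) (by rw [hM.self]; exact Nat.zero_le _) h
    have hq' : Btw d 0 x p q := by
      have h1 := hm.symm x p
      have h2 := hm.symm p q
      have h3 := hm.symm q x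
      unfold Btw at *
      omega
    obtain ⟨i, hi, hi'⟩ := hall q hq'
    refine ⟨q, i, cd d w q (e i), hq', hi, hi', by omega, hi', by omega, ?_⟩
    obtain ⟨f, f0, fn, hf⟩ := cd_reach (w := w) hm q (e i)
    have key : ∀ k ≤ cd d w q (e i), D ≤ cd d w p (f k) := by
      intro k hk
      have h1 : cd d w q (f k) ≤ k := by
        have h2 : Reach (cadj d w) (k - 0) (f 0) (f k) :=
          Reach.sub f (Nat.zero_le _) fun l _ hl => hf l (by omega)
        rw [f0] at h2
        exact cd_le_of_reach h2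
      have h3 := hM.tri p (f k) q
      have h4 := hM.symm (f k) q
      omega
    exact ⟨f, f0, fn, fun k hk => ⟨hf k hk, key k (by omega), key (k + 1) (by omega)⟩⟩
  · obtain ⟨i, hi, rfl⟩ := hx
    have h0 : Btw d 0 (e i) p (e i) := by
      have := hm.self (e i)
      unfold Btw
      omega
    have h1 : cd d w (e i) (e i) = 0 := hM.self _
    refine ⟨e i, i, 0, h0, hi, Nat.zero_le _, by omega, by omega, hp i hi, fun _ => e i, rfl, rfl,
      fun k hk => absurd hk (Nat.not_lt_zero _)⟩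

/-- B1: points between `x` and `y` are close to every cone-off geodesic from `x` to `y`. -/
theorem cone_close (hm : IsGM d) (hh : Hyp d δ) (hw : ∀ i, QC d κ (w i)) {p : X} {n : ℕ}
    {e : ℕ → X} (hn : n = cd d w (e 0) (e n)) (hadj : ∀ i < n, cadj d w (e i) (e (i + 1)))
    (hp : Btw d C (e 0) (e n) p) : ∃ i ≤ n, cd d w p (e i) ≤ RR δ κ C := by
  classical
  by_contra hcon
  push Not at hcon
  have hM : IsGM (cd d w) := isGM_cd hm
  set P : ℕ → Prop := fun D => ∃ p, Btw d C (e 0) (e n) p ∧ ∀ i ≤ n, D ≤ cd d w p (e i) with hP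
  have hbound : ∀ D, P D → D ≤ d (e 0) (e n) + C := by
    rintro D ⟨p, hp, hD⟩
    have h1 := hD 0 (Nat.zero_le _)
    have h2 := cd_le (w := w) hm p (e 0)
    have h3 := hm.symm p (e 0)
    unfold Btw at hp
    omega
  have hR : P (RR δ κ C + 1) := ⟨p, hp, fun i hi => hcon i hi⟩
  set D := Nat.findGreatest P (d (e 0) (e n) + C) with hDdef
  have hD1 : RR δ κ C + 1 ≤ D := Nat.le_findGreatest (hbound _ hR) hR
  have hPD : P D := Nat.findGreatest_spec (hbound _ hR) hR
  have hmax : ∀ q, Btw d C (e 0) (e n) q → ∃ i ≤ n, cd d w q (e i) ≤ D := by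
    intro q hq
    by_contra hc
    push Not at hc
    have hq1 : P (D + 1) := ⟨q, hq, fun i hi => hc i hi⟩
    have := Nat.le_findGreatest (hbound _ hq1) hq1
    omega
  obtain ⟨p0, hp0, hfar⟩ := hPD
  obtain ⟨q1, i1, m1, hb1, hi1, hm1, hpq1, hqe1, hDq1, hr1⟩ := far_side (x := e 0) hm
    ⟨0, Nat.zero_le _, rfl⟩ hfar (fun q hq => hmax q (hp0.left hm hq))
  have hswap : Btw d C (e n) (e 0) p0 := hp0.swap hm
  obtain ⟨q2, i2, m2, hb2, hi2, hm2, hpq2, hqe2, hDq2, hr2⟩ := far_side (x := e n) hm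
    ⟨n, le_refl _, rfl⟩ hfar (fun q hq => hmax q ((hswap.left hm hq).swap hm))
  -- the middle part of the path
  have hmid : ∀ i j, i ≤ j → j ≤ n → Reach (farAdj d w p0 D) (j - i) (e i) (e j) :=
    fun i j hij hj => Reach.sub e hij fun k _ hk =>
      ⟨hadj k (by omega), hfar k (by omega), hfar (k + 1) (by omega)⟩
  have hmid' : ∀ i j, i ≤ n → j ≤ n →
      ∃ m, m = cd d w (e i) (e j) ∧ Reach (farAdj d w p0 D) m (e i) (e j) := by
    intro i j hi hj
    rcases Nat.le_total i j with h | h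
    · exact ⟨j - i, (cd_geod hm hn hadj h hj).symm, hmid i j h hj⟩
    · refine ⟨i - j, ?_, (hmid j i h hi).rev (farAdj_symm hm)⟩
      rw [hM.symm]
      exact (cd_geod hm hn hadj h hi).symm
  obtain ⟨m3, hm3, hr3⟩ := hmid' i1 i2 hi1 hi2
  have hm3' : m3 ≤ 6 * D := by
    have t1 := hM.tri (e i1) q1 (e i2)
    have t2 := hM.tri q1 p0 (e i2)
    have t3 := hM.tri p0 q2 (e i2)
    have s1 := hM.symm (e i1) q1
    have s2 := hM.symm q1 p0
    omega
  have hreach : Reach (farAdj d w p0 D) (m1 + m3 + m2) q1 q2 :=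
    (hr1.comp hr3).comp (hr2.rev (farAdj_symm hm))
  have hbtw : Btw d C q1 q2 p0 := by
    have h1 : Btw d C q1 (e n) p0 := hp0.left' hm hb1
    have h2 : Btw d C q2 q1 p0 := (h1.swap hm).left' hm hb2
    exact h2.swap hm
  have := far_chain hm hh hw (by omega) (by omega) hreach hDq1 hbtw
  omega

/-- B2 -/
theorem cone_btw (hm : IsGM d) (hh : Hyp d δ) (hw : ∀ i, QC d κ (w i)) {x y p : X}
    (hp : Btw d C x y p) : Btw (cd d w) (2 * RR δ κ C) x y p := by
  have hM : IsGM (cd d w) := isGM_cd hm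
  obtain ⟨e, e0, en, he⟩ := cd_reach (w := w) hm x y
  have hn : cd d w x y = cd d w (e 0) (e (cd d w x y)) := by rw [e0, en]
  have hp' : Btw d C (e 0) (e (cd d w x y)) p := by rw [e0, en]; exact hp
  obtain ⟨i, hi, hi'⟩ := cone_close hm hh hw hn he hp'
  have g1 := cd_geod hm hn he (Nat.zero_le i) hi
  have g2 := cd_geod hm hn he hi (le_refl _)
  rw [e0] at g1
  rw [en] at g2
  have t1 := hM.tri x (e i) p
  have t2 := hM.tri p (e i) y
  have s1 := hM.symm (e i) p
  unfold Btw
  omega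

end TD
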