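import Pool.Agent.TD.ConeB

/-!
# Module ConeC: hyperbolicity and quasi-convexity in the cone-off (B3, B4).  Blueprint section 8.
-/

set_option autoImplicit false

namespace TD

variable {X ι : Type*} {d : X → X → ℕ} {w : ι → Set X} {δ κ C : ℕ}

/-- One half of B3. -/
theorem cone_hyp_aux (hm : IsGM d) (hh : Hyp d δ) (hw : ∀ i, QC d κ (w i)) (hC : 3 * δ + 1 ≤ C)
    (x y z v : X) (hAB : d y z + d x v ≤ d x y + d z v) :
    cd d w x z + cd d w y v ≤ cd d w x y + cd d w z v + 4 * RR δ κ C := by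
  have t1 := hm.tri y x z
  have t2 := hm.tri x y z
  have s1 := hm.symm y x
  obtain ⟨p, hp1, hp2⟩ := hm.exists_between x y ((d x y + d x z - d y z) / 2) (by omega)
  have s2 := hm.symm p x
  have s3 := hm.symm z y
  have s4 := hm.symm v y
  have s5 := hm.symm p z
  have hmain := hh x y z v
  have h1 := hh p x z y
  have h2 := hh p x v y
  have hb0 : Btw d C x y p := by
    unfold Btw
    omega
  have hb1 : Btw d C z v p := by
    unfold Btw
    omega
  have q1 := cone_btw hm hh hw hb0
  have q2 := cone_btw hm hh hw hb1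
  unfold Btw at q1 q2
  have hM : IsGM (cd d w) := isGM_cd hm
  have t3 := hM.tri x p z
  have t4 := hM.tri y p v
  have s6 := hM.symm p z
  have s7 := hM.symm y p
  omega

/-- B3 -/
theorem cone_hyp (hm : IsGM d) (hh : Hyp d δ) (hw : ∀ i, QC d κ (w i)) (hC : 3 * δ + 1 ≤ C) :
    Hyp (cd d w) (4 * RR δ κ C) := by
  intro x y z v
  have hM : IsGM (cd d w) := isGM_cd hm
  rcases Nat.le_total (d y z + d x v) (d x y + d z v) with h | h
  · left
    exact cone_hyp_aux hm hh hw hC x y z v h
  · right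
    have s1 := hm.symm v x
    have s2 := hm.symm y x
    have h' : d z v + d y x ≤ d y z + d v x := by omega
    have h1 := cone_hyp_aux hm hh hw hC y z v x h'
    have s3 := hM.symm z x
    have s4 := hM.symm v x
    omega

/-- B4 -/
theorem cone_qc (hm : IsGM d) (hh : Hyp d δ) (hw : ∀ i, QC d κ (w i)) (hC : 3 * δ + 1 ≤ C)
    {H : Set X} {κ' : ℕ} (hH : QC d κ' H) : QC (cd d w) (κ' + 6 * RR δ κ C) H := by
  intro a ha b hb p
  have hM : IsGM (cd d w) := isGM_cd hm
  have hHyp := cone_hyp (w := w) hm hh hw hC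
  obtain ⟨p', hp', hk⟩ := cd_ivt (w := w) hm a b a (min (cd d w a p) (cd d w a b))
    (by rw [hM.self]; exact Nat.zero_le _) (Nat.min_le_right _ _)
  obtain ⟨c, hc, hc'⟩ := hH a ha b hb p'
  refine ⟨c, hc, ?_⟩
  have hpc : d p' c ≤ κ' := by
    unfold Btw at hp'
    omega
  have hpc' : cd d w p' c ≤ κ' := (cd_le hm p' c).trans hpc
  have q := cone_btw hm hh hw (hp'.mono (Nat.zero_le C))
  unfold Btw at q
  have h := hHyp p a p' b
  have t1 := hM.tri a p b
  have t2 := hM.tri p p' c
  have s1 := hM.symm p a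
  omega

end TD
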