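import Mathlib

/-!
# Transitivity degree project (MP_405426_al): common definitions

All metrics are natural-number valued; hyperbolicity is the four-point condition.
-/

set_option autoImplicit false

namespace TD

/-- `p` is `c`-between `x` and `y`. -/
def Btw {X : Type*} (d : X → X → ℕ) (c : ℕ) (x y p : X) : Prop :=
  d x p + d p y ≤ d x y + c

/-- A graph-like (geodesic) metric with values in the natural numbers. -/
structure IsGM {X : Type*} (d : X → X → ℕ) : Prop where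
  self : ∀ x, d x x = 0
  eq_of : ∀ x y, d x y = 0 → x = y
  symm : ∀ x y, d x y = d y x
  tri : ∀ x y z, d x z ≤ d x y + d y z
  step : ∀ x y n, d x y = n + 1 → ∃ z, d x z = 1 ∧ d z y = n

/-- Four-point hyperbolicity. -/
def Hyp {X : Type*} (d : X → X → ℕ) (δ : ℕ) : Prop :=
  ∀ x y z w, d x z + d y w ≤ d x y + d z w + δ ∨ d x z + d y w ≤ d y z + d x w + δ

/-- A group with a left-invariant, geodesic, hyperbolic metric with finite unit ball
(so `G` is a finitely generated hyperbolic group). -/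
structure IsHG {G : Type*} [Group G] (d : G → G → ℕ) (δ : ℕ) : Prop extends IsGM d where
  inv : ∀ g x y, d (g * x) (g * y) = d x y
  fin : {g : G | d 1 g ≤ 1}.Finite
  hyp : Hyp d δ

/-- Quasi-convexity with constant `κ`. -/
def QC {X : Type*} (d : X → X → ℕ) (κ : ℕ) (W : Set X) : Prop :=
  ∀ a ∈ W, ∀ b ∈ W, ∀ p, ∃ c ∈ W, d p c + d a b ≤ d a p + d p b + κ

/-- Torsion-free. -/
def TF (G : Type*) [Group G] : Prop :=
  ∀ (g : G) (n : ℕ), n ≠ 0 → g ^ n = 1 → g = 1

/-- Every non-trivial element fixes at most `k` points of `G ⧸ H`. -/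
def FF {G : Type*} [Group G] (H : Subgroup G) (k : ℕ) : Prop :=
  ∀ g : G, g ≠ 1 → ∀ x : Fin (k + 1) → G, (∀ i, (x i)⁻¹ * g * x i ∈ H) →
    ∃ i j, i ≠ j ∧ (x i)⁻¹ * x j ∈ H

/-- No non-trivial element of `H` is conjugate into `K`. -/
def Sep {G : Type*} [Group G] (H K : Subgroup G) : Prop :=
  ∀ x h : G, h ∈ H → x * h * x⁻¹ ∈ K → h = 1

/-- `U` has no finite orbit on `G ⧸ H`. -/
def NoFin {G : Type*} [Group G] (U H : Subgroup G) : Prop :=
  ∀ x : G, {c : G ⧸ H | ∃ u ∈ U, c = ((u * x : G) : G ⧸ H)}.Infinite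

/-- A non-abelian subgroup. -/
def NonAb {G : Type*} [Group G] (U : Subgroup G) : Prop :=
  ∃ x ∈ U, ∃ y ∈ U, x * y ≠ y * x

/-- `s` is a nearest position to `x` on the path `γ`. -/
def IsNear {X : Type*} (d : X → X → ℕ) (γ : ℤ → X) (x : X) (s : ℤ) : Prop :=
  ∀ t, d x (γ s) ≤ d x (γ t)

/-- Small cancellation data: `γ` is the axis of `r` (translation length `L`), which is a
uniform quasi-geodesic (constant `c`), and distinct translates have overlap at most `θ`. -/
structure SC {G : Type*} [Group G] (d : G → G → ℕ) (r : G) (γ : ℤ → G) (L θ c : ℕ) : Prop where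
  per : ∀ s, γ (s + L) = r * γ s
  lip : ∀ s, d (γ s) (γ (s + 1)) ≤ 1
  btw : ∀ s u t, s ≤ u → u ≤ t → Btw d c (γ s) (γ t) (γ u)
  low : ∀ s t, s ≤ t → 4 * (t - s) ≤ 5 * (d (γ s) (γ t) : ℤ) + 5 * θ
  small : ∀ x, x ∉ Subgroup.zpowers r → ∀ s' t' s t, IsNear d γ (x * γ s') s →
    IsNear d γ (x * γ t') t → |s - t| ≤ θ

/-- Cosets of `H` have projection of size at most `θ` to `γ`. -/
def SmallOn {G : Type*} [Group G] (d : G → G → ℕ) (γ : ℤ → G) (θ : ℕ) (H : Subgroup G) : Prop :=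
  ∀ x, ∀ h ∈ H, ∀ h' ∈ H, ∀ s t, IsNear d γ (x * h) s → IsNear d γ (x * h') t → |s - t| ≤ θ

/-- Independence of two elements: no common non-trivial powers. -/
def Indep {G : Type*} [Group G] (g h : G) : Prop :=
  ∀ p q : ℤ, g ^ p = h ^ q → p = 0

/-- Constants. -/
def kap (δ c : ℕ) : ℕ := c + δ + 1
def CC1 (δ c : ℕ) : ℕ := 2 * δ + 2 * kap δ c + 1
def CC2 (δ c : ℕ) : ℕ := 2 * CC1 δ c + δ

end TD
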