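import Pool.Agent.TD.Lox

/-!
# Module ElemA: E1-E3.  Blueprint section 13.
-/

set_option autoImplicit false

namespace TD

variable {G : Type*} [Group G] {d : G → G → ℕ} {δ : ℕ}

theorem TF.inf (tf : TF G) {g : G} (hg : g ≠ 1) : ∀ n : ℕ, n ≠ 0 → g ^ n ≠ 1 :=
  fun n hn h => hg (tf g n hn h)

theorem TF.zpow_eq_one (tf : TF G) {g : G} (hg : g ≠ 1) {n : ℤ} (h : g ^ n = 1) : n = 0 := by
  by_contra hn
  rcases Int.natAbs_eq n with h1 | h1
  · rw [h1, zpow_natCast] at h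
    exact tf.inf hg _ (by omega) h
  · rw [h1, zpow_neg, zpow_natCast, inv_eq_one] at h
    exact tf.inf hg _ (by omega) h

theorem TF.zpow_inj (tf : TF G) {g : G} (hg : g ≠ 1) {p q : ℤ} (h : g ^ p = g ^ q) : p = q := by
  have : g ^ (p - q) = 1 := by rw [zpow_sub, h, mul_inv_cancel]
  have := tf.zpow_eq_one hg this
  omega

/-- E1 -/
theorem zpowers_qc (hG : IsHG d δ) (tf : TF G) (g : G) :
    ∃ κ, QC d κ (Subgroup.zpowers g : Set G) := by
  by_cases hg : g = 1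
  · subst hg
    refine ⟨0, fun a ha b hb p => ⟨1, by simp, ?_⟩⟩
    simp only [Subgroup.zpowers_one_eq_bot, Subgroup.coe_bot, Set.mem_singleton_iff] at ha hb
    subst ha; subst hb
    rw [hG.self]; omega
  · obtain ⟨κ, hκ⟩ := lox hG (tf.inf hg)
    refine ⟨κ + δ + d 1 g, ?_⟩
    rintro a ⟨i, rfl⟩ b ⟨k, rfl⟩ p
    have hstep : ∀ u : ℤ, d (g ^ u) (g ^ (u + 1)) ≤ d 1 g := by
      intro u
      rw [zpow_add_one, hG.d_mul_right]
    simp only
    rcases le_total i k with hik | hik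
    · obtain ⟨u, -, -, hu⟩ := path_qc hG.toIsGM hG.hyp (fun i : ℤ => g ^ i) hik
        (fun u _ _ => hstep u) (fun u h1 h2 => hκ _ _ _ h1 h2) p
      exact ⟨g ^ u, ⟨u, rfl⟩, by simpa using hu⟩
    · obtain ⟨u, -, -, hu⟩ := path_qc hG.toIsGM hG.hyp (fun i : ℤ => g ^ i) hik
        (fun u _ _ => hstep u) (fun u h1 h2 => hκ _ _ _ h1 h2) p
      refine ⟨g ^ u, ⟨u, rfl⟩, ?_⟩
      have e1 := hG.symm (g ^ i) (g ^ k)
      have e2 := hG.symm (g ^ i) p
      have e3 := hG.symm (g ^ k) p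
      omega

/-- The commensurator: elements commuting with a non-trivial power of `g`. -/
def EE (g : G) : Subgroup G where
  carrier := {x | ∃ p : ℤ, p ≠ 0 ∧ x * g ^ p = g ^ p * x}
  one_mem' := ⟨1, by norm_num, by simp⟩
  mul_mem' := by
    rintro x y ⟨p, hp, hx⟩ ⟨q, hq, hy⟩
    refine ⟨p * q, mul_ne_zero hp hq, ?_⟩
    have h1 : Commute x (g ^ (p * q)) := by
      rw [zpow_mul]; exact Commute.zpow_right hx q
    have h2 : Commute y (g ^ (p * q)) := by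
      rw [mul_comm, zpow_mul]; exact Commute.zpow_right hy p
    exact (h1.mul_left h2)
  inv_mem' := by
    rintro x ⟨p, hp, hx⟩
    exact ⟨p, hp, (Commute.inv_left hx : Commute x⁻¹ (g ^ p))⟩

/-- E2 -/
theorem conj_power_near (hG : IsHG d δ) (tf : TF G) {g : G} (hg : g ≠ 1) :
    ∃ C : ℕ, ∀ (x : G) (p q : ℤ), p ≠ 0 → q ≠ 0 → x * g ^ p * x⁻¹ = g ^ q →
      ∃ i : ℤ, d x (g ^ i) ≤ C := by
  obtain ⟨κ, hκ⟩ := lox hG (tf.inf hg)
  obtain ⟨κ', hκ'⟩ := zpowers_qc hG tf g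
  refine ⟨κ' + (κ + 2 * δ), ?_⟩
  intro x p q hp hq hx
  obtain ⟨N, hN⟩ := hG.pow_large (tf.inf hg) (d 1 x + κ + 2 * δ)
  have hrel : ∀ k : ℤ, x * g ^ (p * k) = g ^ (q * k) * x := by
    intro k
    have : x * g ^ (p * k) * x⁻¹ = g ^ (q * k) := by
      rw [zpow_mul, zpow_mul, ← hx, conj_zpow]
    rw [← this]; group
  have hd : ∀ k : ℤ, d (x * g ^ (p * k)) (g ^ (q * k)) = d 1 x := by
    intro k
    rw [hrel k, hG.symm, hG.d_mul_right]
  have hb : Btw d κ (x * g ^ (p * (-(N : ℤ)))) (x * g ^ (p * (N : ℤ))) x := by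
    have key : Btw d κ (g ^ (p * (-(N : ℤ)))) (g ^ (p * (N : ℤ))) 1 := by
      rcases lt_or_gt_of_ne hp with h | h
      · apply Btw.swap hG.toIsGM
        have := hκ (p * N) 0 (p * -N) (by nlinarith) (by nlinarith)
        simpa using this
      · have := hκ (p * -N) 0 (p * N) (by nlinarith) (by nlinarith)
        simpa using this
    have h1 := hG.inv x (g ^ (p * (-(N : ℤ)))) 1
    have h2 := hG.inv x 1 (g ^ (p * (N : ℤ)))
    have h3 := hG.inv x (g ^ (p * (-(N : ℤ)))) (g ^ (p * (N : ℤ)))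
    rw [mul_one] at h1 h2
    unfold Btw at *
    omega
  have hN' : ∀ k : ℤ, |k| = N → d 1 x + κ + 2 * δ < d 1 (g ^ (p * k)) := by
    intro k hk
    apply hN
    rw [abs_mul, hk]
    have : 1 ≤ |p| := Int.one_le_abs hp
    nlinarith
  have h1 : d 1 x + κ + 2 * δ < d (x * g ^ (p * (-(N : ℤ)))) x := by
    rw [hG.symm (x * _) x, hG.d_mul_right]; exact hN' _ (by simp)
  have h2 : d 1 x + κ + 2 * δ < d x (x * g ^ (p * (N : ℤ))) := by
    rw [hG.d_mul_right]; exact hN' _ (by simp)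
  have h3 := Btw.far hG.toIsGM hG.hyp hb (hd (-(N : ℤ))).le (hd (N : ℤ)).le h1 h2
  obtain ⟨h, ⟨i, rfl⟩, hi⟩ := hκ'.near ⟨_, rfl⟩ ⟨_, rfl⟩ h3
  exact ⟨i, hi⟩

/-- E3, common power. -/
theorem conj_power_common (hG : IsHG d δ) (tf : TF G) {g x : G} (hg : g ≠ 1) {p q : ℤ}
    (hp : p ≠ 0) (hq : q ≠ 0) (h : x * g ^ p * x⁻¹ = g ^ q) :
    ∃ (n : ℕ) (s : ℤ), n ≠ 0 ∧ x ^ n = g ^ s := by
  obtain ⟨C, hC⟩ := conj_power_near hG tf hg
  have hi : ∀ i : ℕ, x ^ i * g ^ (p ^ i) * (x ^ i)⁻¹ = g ^ (q ^ i) := by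
    intro i
    induction i with
    | zero => simp
    | succ i ih =>
      have e1 : x ^ (i + 1) * g ^ (p ^ (i + 1)) * (x ^ (i + 1))⁻¹ =
          x ^ i * (x * g ^ (p ^ (i + 1)) * x⁻¹) * (x ^ i)⁻¹ := by
        rw [pow_succ x i]; group
      have e2 : x * g ^ (p ^ (i + 1)) * x⁻¹ = g ^ (q * p ^ i) := by
        rw [pow_succ' p i, zpow_mul, ← conj_zpow, h, ← zpow_mul]
      have e3 : x ^ i * g ^ (q * p ^ i) * (x ^ i)⁻¹ = g ^ (q ^ (i + 1)) := by
        rw [mul_comm q, zpow_mul, ← conj_zpow, ih, ← zpow_mul, pow_succ]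
      rw [e1, e2, e3]
  choose s hs using fun i : ℕ => hC (x ^ i) (p ^ i) (q ^ i) (pow_ne_zero i hp)
    (pow_ne_zero i hq) (hi i)
  obtain ⟨J, hJ⟩ := hG.pigeon C
  obtain ⟨i, j, hij, -, hf⟩ := hJ (fun i => (g ^ (s i))⁻¹ * x ^ i) (fun j _ => by
    have := hs j
    rw [hG.symm, hG.norm_eq] at this
    exact this)
  refine ⟨j - i, s j - s i, by omega, ?_⟩
  have e : x ^ j = x ^ (j - i) * x ^ i := by rw [← pow_add]; congr 1; omega
  have e2 : g ^ (s j) * ((g ^ (s i))⁻¹ * x ^ i) = x ^ j := by rw [hf]; group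
  rw [e] at e2
  have e3 : g ^ (s j) * (g ^ (s i))⁻¹ = x ^ (j - i) := by
    rw [← mul_assoc] at e2
    exact mul_right_cancel e2
  rw [← e3, zpow_sub]

/-- E3 -/
theorem conj_power (hG : IsHG d δ) (tf : TF G) {g x : G} (hg : g ≠ 1) {p q : ℤ} (hp : p ≠ 0)
    (hq : q ≠ 0) (h : x * g ^ p * x⁻¹ = g ^ q) : x ∈ EE g ∧ p = q := by
  obtain ⟨n, s, hn, hx⟩ := conj_power_common hG tf hg hp hq h
  by_cases hx1 : x = 1
  · subst hx1
    refine ⟨one_mem _, ?_⟩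
    have : g ^ p = g ^ q := by simpa using h
    exact tf.zpow_inj hg this
  · have hs : s ≠ 0 := by
      rintro rfl
      rw [zpow_zero] at hx
      exact tf.inf hx1 n hn hx
    have hc : Commute x (g ^ s) := by
      rw [← hx]; exact Commute.self_pow x n
    refine ⟨⟨s, hs, hc⟩, ?_⟩
    have e1 : x * g ^ (p * s) * x⁻¹ = g ^ (q * s) := by
      rw [zpow_mul, ← conj_zpow, h, ← zpow_mul]
    have e2 : x * g ^ (p * s) * x⁻¹ = g ^ (p * s) := by
      have : Commute x (g ^ (p * s)) := by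
        rw [mul_comm, zpow_mul]; exact hc.zpow_right p
      rw [this.eq]; group
    have e3 := tf.zpow_inj hg (e2.symm.trans e1)
    exact mul_right_cancel₀ hs e3

/-- E3': elements of `EE g` have a common power with `g`. -/
theorem EE_common (hG : IsHG d δ) (tf : TF G) {g x : G} (hg : g ≠ 1) (hx : x ∈ EE g) :
    ∃ (n : ℕ) (s : ℤ), n ≠ 0 ∧ x ^ n = g ^ s := by
  obtain ⟨p, hp, h⟩ := hx
  exact conj_power_common hG tf hg hp hp (by rw [h]; group)

end TD
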