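import Pool.Agent.TD.ElemA

/-!
# Module ElemB: E4-E7.  Blueprint section 13.
-/

set_option autoImplicit false

namespace TD

variable {G : Type*} [Group G] {d : G → G → ℕ} {δ : ℕ}

theorem elb_zpow_ne (tf : TF G) {g : G} (hg : g ≠ 1) {p : ℤ} (hp : p ≠ 0) : g ^ p ≠ 1 := by
  intro h
  have h1 : g ^ p.natAbs = 1 := by
    rcases Int.natAbs_eq p with h2 | h2
    · rw [h2, zpow_natCast] at h; exact h
    · rw [h2, zpow_neg, zpow_natCast, inv_eq_one] at h; exact h
  exact hg (tf g _ (Int.natAbs_ne_zero.2 hp) h1)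

/-- a common exponent for finitely many elements of `EE g` -/
theorem elb_exp {g : G} (B : Set G) (hB : B.Finite) (h : ∀ b ∈ B, b ∈ EE g) :
    ∃ P : ℕ, P ≠ 0 ∧ ∀ b ∈ B, Commute b (g ^ P) := by
  induction B, hB using Set.Finite.induction_on with
  | empty => exact ⟨1, one_ne_zero, by simp⟩
  | @insert a s _ _ ih =>
    obtain ⟨P, hP, hPc⟩ := ih (fun b hb => h b (Set.mem_insert_of_mem _ hb))
    obtain ⟨p, hp, hpc⟩ := h a (Set.mem_insert _ _)
    refine ⟨p.natAbs * P, mul_ne_zero (Int.natAbs_ne_zero.2 hp) hP, ?_⟩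
    intro b hb
    rcases Set.mem_insert_iff.1 hb with rfl | hb
    · have h1 : Commute b (g ^ p.natAbs) := by
        have h0 : Commute b (g ^ p) := hpc
        rcases Int.natAbs_eq p with h2 | h2
        · rw [h2, zpow_natCast] at h0; exact h0
        · rw [h2, zpow_neg, zpow_natCast] at h0
          exact Commute.inv_right_iff.1 h0
      rw [pow_mul]; exact h1.pow_right P
    · have h1 := hPc b hb
      rw [mul_comm, pow_mul]; exact h1.pow_right _

/-- elements of `EE g` are close to powers of `g` -/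
theorem elb_near (hG : IsHG d δ) (tf : TF G) {g : G} (hg : g ≠ 1) :
    ∃ C : ℕ, ∀ x ∈ EE g, ∃ i : ℤ, d x (g ^ i) ≤ C := by
  obtain ⟨C, hC⟩ := conj_power_near hG tf hg
  refine ⟨C, ?_⟩
  rintro x ⟨p, hp, hx⟩
  refine hC x p p hp hp ?_
  rw [hx, mul_inv_cancel_right]

/-- the centre of `EE g` has finite index -/
theorem elb_finiteIndex (hG : IsHG d δ) (tf : TF G) {g : G} (hg : g ≠ 1) :
    (Subgroup.center (EE g)).FiniteIndex := by
  obtain ⟨C, hC⟩ := elb_near hG tf hg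
  have hgE : g ∈ EE g := ⟨1, one_ne_zero, by simp⟩
  -- finite set of short elements
  have hBf : {b : G | b ∈ EE g ∧ d 1 b ≤ C}.Finite :=
    (hG.ball_finite C).subset (fun b hb => hb.2)
  obtain ⟨P, hP, hPc⟩ := elb_exp (g := g) _ hBf (fun b hb => hb.1)
  -- decomposition
  have hdec : ∀ x ∈ EE g, ∃ (i : ℤ) (b : G), b ∈ EE g ∧ d 1 b ≤ C ∧ x = g ^ i * b := by
    intro x hx
    obtain ⟨i, hi⟩ := hC x hx
    refine ⟨i, g ^ (-i) * x, (EE g).mul_mem ((EE g).zpow_mem hgE _) hx, ?_, ?_⟩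
    · have h1 := hG.inv (g ^ (-i)) (g ^ i) x
      rw [← zpow_add, neg_add_cancel, zpow_zero] at h1
      rw [h1, hG.symm]; exact hi
    · rw [← mul_assoc, ← zpow_add, add_neg_cancel, zpow_zero, one_mul]
  -- `g ^ P` is central
  have hcen : ∀ k : ℤ, ∀ x ∈ EE g, Commute x (g ^ ((P : ℤ) * k)) := by
    intro k x hx
    obtain ⟨i, b, hb, hbC, rfl⟩ := hdec x hx
    have h1 : Commute b (g ^ P) := hPc b ⟨hb, hbC⟩
    have h2 : Commute (g ^ i) (g ^ ((P : ℤ) * k)) := (Commute.refl g).zpow_zpow _ _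
    have h3 : Commute b (g ^ ((P : ℤ) * k)) := by
      rw [zpow_mul, zpow_natCast]; exact h1.zpow_right k
    exact h2.mul_left h3
  -- finite quotient
  set R : ℕ := ((Finset.range P).sup (fun j => d 1 (g ^ j))) + C with hR
  have hTf : {x : EE g | d 1 (x : G) ≤ R}.Finite := by
    exact Set.Finite.preimage (f := fun x : EE g => (x : G)) (Subtype.coe_injective.injOn)
      (hG.ball_finite R)
  have hfin : Finite (EE g ⧸ Subgroup.center (EE g)) := by
    have : Finite {x : EE g | d 1 (x : G) ≤ R} := hTf.to_subtype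
    refine Finite.of_surjective
      (fun x : {x : EE g | d 1 (x : G) ≤ R} => (QuotientGroup.mk (x : EE g) : EE g ⧸ Subgroup.center (EE g))) ?_
    intro q
    obtain ⟨x, rfl⟩ := QuotientGroup.mk_surjective q
    obtain ⟨i, b, hb, hbC, hxb⟩ := hdec x x.2
    have hPpos : (0:ℤ) < P := by
      have : 0 < P := Nat.pos_of_ne_zero hP
      exact_mod_cast this
    have hmod0 := Int.emod_nonneg i hPpos.ne'
    have hmodlt := Int.emod_lt_of_pos i hPpos
    obtain ⟨j, hj⟩ := Int.eq_ofNat_of_zero_le hmod0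
    have hjP : j < P := by
      rw [hj] at hmodlt; exact_mod_cast hmodlt
    have hi : i = (P : ℤ) * (i / P) + j := by
      have := Int.emod_add_mul_ediv i P
      rw [hj] at this
      linarith
    have hy : g ^ j * b ∈ EE g := (EE g).mul_mem ((EE g).pow_mem hgE _) hb
    refine ⟨⟨⟨g ^ j * b, hy⟩, ?_⟩, ?_⟩
    · change d 1 (g ^ j * b) ≤ R
      have h1 := hG.norm_mul (g ^ j) b
      have h2 : d 1 (g ^ j) ≤ (Finset.range P).sup (fun j => d 1 (g ^ j)) :=
        Finset.le_sup (f := fun j => d 1 (g ^ j)) (Finset.mem_range.2 hjP)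
      omega
    · change (QuotientGroup.mk (⟨g ^ j * b, hy⟩ : EE g) : EE g ⧸ Subgroup.center (EE g))
        = QuotientGroup.mk x
      rw [QuotientGroup.eq, Subgroup.mem_center_iff]
      have hval : (((⟨g ^ j * b, hy⟩ : EE g)⁻¹ * x : EE g) : G) = g ^ ((P : ℤ) * (i / P)) := by
        rw [Subgroup.coe_mul, Subgroup.coe_inv, hxb]
        conv_lhs => rw [hi]
        rw [zpow_add, zpow_natCast]
        have hc1 := hcen (i / P) (g ^ j * b) hy
        have : g ^ ((P : ℤ) * (i / P)) * g ^ j * b = (g ^ j * b) * g ^ ((P : ℤ) * (i / P)) := by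
          rw [mul_assoc]; exact hc1.symm
        rw [this, inv_mul_cancel_left]
      intro z
      apply Subtype.ext
      have hz : (z : G) * g ^ ((P : ℤ) * (i / P)) = g ^ ((P : ℤ) * (i / P)) * z := hcen (i / P) z z.2
      rw [← hval] at hz
      exact hz
  exact Subgroup.finiteIndex_of_finite_quotient

/-- E4 -/
theorem EE_comm (hG : IsHG d δ) (tf : TF G) {g : G} (hg : g ≠ 1) :
    ∀ x ∈ EE g, ∀ y ∈ EE g, x * y = y * x := by
  intro x hx y hy
  have hfi := elb_finiteIndex hG tf hg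
  set X : EE g := ⟨x, hx⟩
  set Y : EE g := ⟨y, hy⟩
  set f := MonoidHom.transferCenterPow (EE g)
  have h1 : f (X * Y * X⁻¹ * Y⁻¹) = 1 := by
    rw [map_mul, map_mul, map_mul, map_inv, map_inv]
    have : f X * f Y = f Y * f X := Subtype.ext ((Subgroup.mem_center_iff.1 (f X).2 _).symm)
    rw [this]
    group
  have h2 : (X * Y * X⁻¹ * Y⁻¹) ^ (Subgroup.center (EE g)).index = 1 := by
    have := MonoidHom.transferCenterPow_apply (X * Y * X⁻¹ * Y⁻¹)
    rw [← this]
    change ((f (X * Y * X⁻¹ * Y⁻¹) : Subgroup.center (EE g)) : EE g) = 1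
    rw [h1]; rfl
  have h3 : (x * y * x⁻¹ * y⁻¹) ^ (Subgroup.center (EE g)).index = 1 := by
    have := congrArg (fun z : EE g => (z : G)) h2
    simpa using this
  have h4 := tf _ _ hfi.index_ne_zero h3
  have h5 : x * y * x⁻¹ = y := by
    rwa [mul_inv_eq_one] at h4
  rw [mul_inv_eq_iff_eq_mul] at h5
  exact h5

/-- E5 -/
theorem EE_of_pow (hG : IsHG d δ) (tf : TF G) {g x : G} (hg : g ≠ 1) {n : ℕ} (hn : n ≠ 0)
    (hx : x ^ n ∈ EE g) : x ∈ EE g := by
  by_cases hx1 : x = 1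
  · rw [hx1]; exact (EE g).one_mem
  obtain ⟨k, s, hk, hs⟩ := EE_common hG tf hg hx
  rw [← pow_mul] at hs
  have hs0 : s ≠ 0 := by
    rintro rfl
    rw [zpow_zero] at hs
    exact hx1 (tf x _ (mul_ne_zero hn hk) hs)
  refine ⟨s, hs0, ?_⟩
  rw [← hs]
  exact (Commute.refl x).pow_right _

theorem elb_zpow_mem (hG : IsHG d δ) (tf : TF G) {g x : G} (hg : g ≠ 1) {p : ℤ} (hp : p ≠ 0)
    (hx : x ^ p ∈ EE g) : x ∈ EE g := by
  have h1 : x ^ p.natAbs ∈ EE g := by
    rcases Int.natAbs_eq p with h2 | h2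
    · rw [h2, zpow_natCast] at hx; exact hx
    · rw [h2, zpow_neg, zpow_natCast] at hx
      exact (EE g).inv_mem_iff.1 hx
  exact EE_of_pow hG tf hg (Int.natAbs_ne_zero.2 hp) h1

/-- E6 -/
theorem common_of_centralizer (hG : IsHG d δ) (tf : TF G) {b g g' : G} (hb : b ≠ 1)
    (hg : g ≠ 1) (hg' : g' ≠ 1) {p q : ℤ} (hp : p ≠ 0) (hq : q ≠ 0)
    (h : b * g ^ p = g ^ p * b) (h' : b * g' ^ q = g' ^ q * b) : ¬ Indep g g' := by
  have key : ∀ {u : G} {a : ℤ}, u ≠ 1 → a ≠ 0 → b * u ^ a = u ^ a * b →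
      ∃ (n : ℕ) (s : ℤ), n ≠ 0 ∧ s ≠ 0 ∧ u ^ n = b ^ s := by
    intro u a hu ha hc
    have h1 : u ^ a ∈ EE b := ⟨1, one_ne_zero, by rw [zpow_one]; exact hc.symm⟩
    have h2 : u ∈ EE b := elb_zpow_mem hG tf hb ha h1
    obtain ⟨n, s, hn, hs⟩ := EE_common hG tf hb h2
    refine ⟨n, s, hn, ?_, hs⟩
    rintro rfl
    rw [zpow_zero] at hs
    exact hu (tf u n hn hs)
  obtain ⟨n, s, hn, hs0, hs⟩ := key hg hp h
  obtain ⟨n', s', hn', hs0', hs'⟩ := key hg' hq h'
  intro hI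
  have h3 : g ^ ((n : ℤ) * s') = g' ^ ((n' : ℤ) * s) := by
    rw [zpow_mul, zpow_natCast, hs, ← zpow_mul, zpow_mul g', zpow_natCast, hs', ← zpow_mul, mul_comm]
  have h4 := hI _ _ h3
  have h5 : (n : ℤ) * s' ≠ 0 := mul_ne_zero (by exact_mod_cast hn) hs0'
  exact h5 h4

/-- E7 (CYC), part 1 -/
theorem zpowers_ff (hG : IsHG d δ) (tf : TF G) (g : G) : ∃ k, FF (Subgroup.zpowers g) k := by
  by_cases hg : g = 1
  · refine ⟨0, ?_⟩
    intro h hh x hx
    exfalso
    have h1 := hx 0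
    rw [hg, Subgroup.zpowers_one_eq_bot, Subgroup.mem_bot] at h1
    apply hh
    have h2 : h = x 0 * ((x 0)⁻¹ * h * x 0) * (x 0)⁻¹ := by group
    rw [h2, h1]; simp
  · obtain ⟨C, hC⟩ := conj_power_near hG tf hg
    obtain ⟨J, hJ⟩ := hG.pigeon C
    refine ⟨J, ?_⟩
    intro h hh x hx
    have hp : ∀ i, ∃ p : ℤ, g ^ p = (x i)⁻¹ * h * x i := fun i => Subgroup.mem_zpowers_iff.1 (hx i)
    choose p hp using hp
    have hp0 : ∀ i, p i ≠ 0 := by
      intro i h0
      have h1 := hp i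
      rw [h0, zpow_zero] at h1
      apply hh
      have h2 : h = x i * ((x i)⁻¹ * h * x i) * (x i)⁻¹ := by group
      rw [h2, ← h1]; simp
    have hconj : ∀ i, ((x 0)⁻¹ * x i) * g ^ p i * ((x 0)⁻¹ * x i)⁻¹ = g ^ p 0 := by
      intro i
      rw [hp i, hp 0]; group
    have hEE : ∀ i, (x 0)⁻¹ * x i ∈ EE g := fun i =>
      (conj_power hG tf hg (hp0 i) (hp0 0) (hconj i)).1
    have hgE : g ∈ EE g := ⟨1, one_ne_zero, by simp⟩
    have hn : ∀ i, ∃ j : ℤ, d ((x 0)⁻¹ * x i) (g ^ j) ≤ C := fun i =>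
      hC _ _ _ (hp0 i) (hp0 0) (hconj i)
    choose j hj using hn
    -- short elements
    set bb : Fin (J + 1) → G := fun i => g ^ (-(j i)) * ((x 0)⁻¹ * x i) with hbb
    have hbbC : ∀ i, d 1 (bb i) ≤ C := by
      intro i
      have h1 := hG.inv (g ^ (-(j i))) (g ^ (j i)) ((x 0)⁻¹ * x i)
      rw [← zpow_add, neg_add_cancel, zpow_zero] at h1
      rw [hbb]
      dsimp only
      rw [h1, hG.symm]; exact hj i
    obtain ⟨a, b, hab, hbJ, hfab⟩ := hJ (fun n => if hn : n < J + 1 then bb ⟨n, hn⟩ else 1)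
      (fun n hn => by
        have : n < J + 1 := by omega
        simp only [this, dif_pos]
        exact hbbC _)
    have ha1 : a < J + 1 := by omega
    have hb1 : b < J + 1 := by omega
    simp only [ha1, hb1, dif_pos] at hfab
    refine ⟨⟨a, ha1⟩, ⟨b, hb1⟩, ?_, ?_⟩
    · intro h1
      have := congrArg Fin.val h1
      simp only at this
      omega
    · set A : Fin (J + 1) := ⟨a, ha1⟩
      set B : Fin (J + 1) := ⟨b, hb1⟩
      -- x_A⁻¹ x_B = (g^{jA} c)⁻¹ (g^{jB} c)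
      have hA : (x 0)⁻¹ * x A = g ^ (j A) * bb A := by
        rw [hbb]; dsimp only
        rw [← mul_assoc, ← zpow_add, add_neg_cancel, zpow_zero, one_mul]
      have hB : (x 0)⁻¹ * x B = g ^ (j B) * bb A := by
        rw [hfab, hbb]; dsimp only
        rw [← mul_assoc, ← zpow_add, add_neg_cancel, zpow_zero, one_mul]
      have hbE : bb A ∈ EE g := by
        rw [hbb]
        exact (EE g).mul_mem ((EE g).zpow_mem hgE _) (hEE A)
      have hcomm : ∀ k : ℤ, bb A * g ^ k = g ^ k * bb A := fun k =>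
        EE_comm hG tf hg _ hbE _ ((EE g).zpow_mem hgE k)
      have h1 : (x A)⁻¹ * x B = ((x 0)⁻¹ * x A)⁻¹ * ((x 0)⁻¹ * x B) := by group
      rw [h1, hA, hB, Subgroup.mem_zpowers_iff]
      refine ⟨j B - j A, ?_⟩
      rw [mul_inv_rev, ← hcomm (j B), ← zpow_neg, mul_assoc, ← mul_assoc (g ^ (-(j A))),
        ← hcomm (-(j A)), mul_assoc, ← zpow_add, inv_mul_cancel_left]
      congr 1
      ring

/-- E7 (CYC), part 2 -/
theorem zpowers_noFin (hG : IsHG d δ) (tf : TF G) (g : G) {U : Subgroup G} (hU : NonAb U) :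
    NoFin U (Subgroup.zpowers g) := by
  intro x hfin
  -- every element has a power in the conjugate
  have hpow : ∀ u ∈ U, ∃ n : ℕ, n ≠ 0 ∧ (x⁻¹ * u * x) ^ n ∈ Subgroup.zpowers g := by
    intro u hu
    have hmem : ∀ n : ℕ, ((u ^ n * x : G) : G ⧸ Subgroup.zpowers g) ∈
        {c : G ⧸ Subgroup.zpowers g | ∃ u ∈ U, c = ((u * x : G) : G ⧸ Subgroup.zpowers g)} :=
      fun n => ⟨u ^ n, U.pow_mem hu n, rfl⟩
    obtain ⟨a, -, b, -, hab, hEq⟩ := Set.infinite_univ.exists_ne_map_eq_of_mapsTo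
      (f := fun n : ℕ => ((u ^ n * x : G) : G ⧸ Subgroup.zpowers g)) (fun n _ => hmem n) hfin
    -- symmetric in a b: treat a < b
    have key : ∀ a b : ℕ, a < b → ((u ^ a * x : G) : G ⧸ Subgroup.zpowers g)
        = ((u ^ b * x : G) : G ⧸ Subgroup.zpowers g) →
        ∃ n : ℕ, n ≠ 0 ∧ (x⁻¹ * u * x) ^ n ∈ Subgroup.zpowers g := by
      intro a b hlt hE
      refine ⟨b - a, by omega, ?_⟩
      rw [QuotientGroup.eq] at hE
      have h1 : (x⁻¹ * u * x) ^ (b - a) = (u ^ a * x)⁻¹ * (u ^ b * x) := by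
        have h2 : (x⁻¹ * u * x) ^ (b - a) = x⁻¹ * u ^ (b - a) * x := by
          have := conj_pow (i := b - a) (a := x⁻¹) (b := u)
          rw [inv_inv] at this
          exact this
        have h3 : u ^ b = u ^ a * u ^ (b - a) := by
          rw [← pow_add]; congr 1; omega
        rw [h2, h3]; group
      rw [h1]; exact hE
    rcases lt_or_gt_of_ne hab with h | h
    · exact key a b h hEq
    · exact key b a h hEq.symm
  obtain ⟨y, hy, z, hz, hyz⟩ := hU
  apply hyz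
  by_cases hg : g = 1
  · have h1 : ∀ u ∈ U, u = 1 := by
      intro u hu
      obtain ⟨n, hn, hm⟩ := hpow u hu
      rw [hg, Subgroup.zpowers_one_eq_bot, Subgroup.mem_bot] at hm
      have h2 := tf _ n hn hm
      have h3 : u = x * (x⁻¹ * u * x) * x⁻¹ := by group
      rw [h3, h2]; simp
    rw [h1 y hy, h1 z hz]
  · have h1 : ∀ u ∈ U, x⁻¹ * u * x ∈ EE g := by
      intro u hu
      obtain ⟨n, hn, hm⟩ := hpow u hu
      refine EE_of_pow hG tf hg hn ?_
      obtain ⟨k, hk⟩ := Subgroup.mem_zpowers_iff.1 hm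
      rw [← hk]
      exact (EE g).zpow_mem ⟨1, one_ne_zero, by simp⟩ k
    have h2 := EE_comm hG tf hg _ (h1 y hy) _ (h1 z hz)
    have h3 : x⁻¹ * (y * z) * x = x⁻¹ * (z * y) * x := by
      calc x⁻¹ * (y * z) * x = x⁻¹ * y * x * (x⁻¹ * z * x) := by group
        _ = x⁻¹ * z * x * (x⁻¹ * y * x) := h2
        _ = x⁻¹ * (z * y) * x := by group
    exact mul_left_cancel (mul_right_cancel h3)

end TD
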