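import Pool.Agent.TD.ElemB

/-!
# Module ElemC: E8-E10.  Blueprint section 13.
-/

set_option autoImplicit false

namespace TD

variable {G : Type*} [Group G] {d : G → G → ℕ} {δ : ℕ}

theorem elemC_zpow_ne (tf : TF G) {g : G} (hg : g ≠ 1) {p : ℤ} (hp : p ≠ 0) : g ^ p ≠ 1 := by
  intro h
  apply hg
  rcases Int.natAbs_eq p with h1 | h1
  · rw [h1, zpow_natCast] at h
    exact tf g _ (by omega) h
  · rw [h1, zpow_neg, inv_eq_one, zpow_natCast] at h
    exact tf g _ (by omega) h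

theorem elemC_pow_ne (tf : TF G) {g : G} (hg : g ≠ 1) : ∀ n : ℕ, n ≠ 0 → g ^ n ≠ 1 :=
  fun n hn h => hg (tf g n hn h)

theorem elemC_norm_pow_le (hG : IsHG d δ) (g : G) (n : ℕ) : d 1 (g ^ n) ≤ n * d 1 g := by
  induction n with
  | zero => simp [hG.self]
  | succ n ih =>
    have h := hG.norm_mul (g ^ n) g
    rw [pow_succ, Nat.add_mul]
    omega

theorem Indep.symm' (tf : TF G) {g g' : G} (hg : g ≠ 1) (hg' : g' ≠ 1)
    (hi : Indep g g') : Indep g' g := by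
  intro p q h
  have hq := hi q p h.symm
  rw [hq, zpow_zero] at h
  by_contra hp
  exact elemC_zpow_ne tf hg' hp h

/-- E8, non-negative powers. -/
theorem indep_btw_nat (hG : IsHG d δ) (tf : TF G) {g g' : G} (hg : g ≠ 1) (hg' : g' ≠ 1)
    (hi : Indep g g') : ∃ c : ℕ, ∀ (m : ℕ) (n : ℤ), Btw d c (g ^ m) (g' ^ n) 1 := by
  obtain ⟨κ, hκ⟩ := lox hG (elemC_pow_ne tf hg)
  obtain ⟨κ', hκ'⟩ := zpowers_qc hG tf g'
  obtain ⟨J, hJ⟩ := hG.pigeon (κ' + (κ + δ))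
  refine ⟨2 * (J * d 1 g) + κ + δ, ?_⟩
  intro m n
  by_contra hcon
  unfold Btw at hcon
  push Not at hcon
  have s1 := hG.symm (g ^ m) 1
  have hbound : ∀ j ≤ J, d 1 (g ^ j) ≤ J * d 1 g := fun j hj =>
    (elemC_norm_pow_le hG g j).trans (Nat.mul_le_mul_right _ hj)
  have hmJ : J < m := by
    by_contra hle
    push Not at hle
    have h1 := hbound m hle
    have h2 := hG.tri 1 (g ^ m) (g' ^ n)
    omega
  have hnear : ∀ j : ℕ, ∃ i : ℤ, j ≤ J → d (g ^ j) (g' ^ i) ≤ κ' + (κ + δ) := by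
    intro j
    by_cases hj : j ≤ J
    · have h1 : Btw d κ (g ^ (0 : ℤ)) (g ^ (m : ℤ)) (g ^ (j : ℤ)) :=
        hκ 0 j m (by omega) (by omega)
      rw [zpow_zero, zpow_natCast, zpow_natCast] at h1
      rcases h1.or hG.toIsGM hG.hyp (g' ^ n) with h2 | h2
      · obtain ⟨q, ⟨i, hi1⟩, hq⟩ := hκ'.near (Subgroup.one_mem _)
          (Subgroup.zpow_mem _ (Subgroup.mem_zpowers g') n) h2
        refine ⟨i, fun _ => ?_⟩
        rw [← hi1] at hq
        exact hq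
      · exfalso
        unfold Btw at h2
        have h3 := hbound j hj
        have h4 := hG.tri 1 (g ^ j) (g' ^ n)
        have h5 := hG.tri 1 (g ^ j) (g ^ m)
        have h6 := hG.symm (g ^ j) (g' ^ n)
        have h7 := hG.symm (g ^ m) (g' ^ n)
        omega
    · exact ⟨0, fun h => absurd h hj⟩
  choose i hi' using hnear
  obtain ⟨a, b, hab, hbJ, hf⟩ := hJ (fun j => (g' ^ i j)⁻¹ * g ^ j) (by
    intro j hj
    rw [← hG.norm_eq, hG.symm]
    exact hi' j hj)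
  have h8 : g ^ ((b : ℤ) - a) = g' ^ (i b - i a) := by
    have h9 : (g' ^ i a)⁻¹ * g ^ a = (g' ^ i b)⁻¹ * g ^ b := hf
    rw [zpow_sub, zpow_natCast, zpow_natCast, zpow_sub]
    have h10 : g ^ b = g' ^ i b * ((g' ^ i a)⁻¹ * g ^ a) := by rw [h9]; group
    rw [h10]
    group
  have h9 := hi _ _ h8
  omega

/-- E8: independent elements have bounded Gromov products. -/
theorem indep_btw (hG : IsHG d δ) (tf : TF G) {g g' : G} (hg : g ≠ 1) (hg' : g' ≠ 1)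
    (hi : Indep g g') : ∃ c : ℕ, ∀ m n : ℤ, Btw d c (g ^ m) (g' ^ n) 1 := by
  obtain ⟨c1, h1⟩ := indep_btw_nat hG tf hg hg' hi
  have hi2 : Indep g⁻¹ g' := by
    intro p q h
    rw [inv_zpow, ← zpow_neg] at h
    have := hi (-p) q h
    omega
  obtain ⟨c2, h2⟩ := indep_btw_nat hG tf (inv_ne_one.2 hg) hg' hi2
  refine ⟨c1 + c2, fun m n => ?_⟩
  rcases Int.natAbs_eq m with hm | hm
  · rw [hm, zpow_natCast]
    exact (h1 _ n).mono (by omega)
  · rw [hm, zpow_neg, zpow_natCast, ← inv_pow]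
    exact (h2 _ n).mono (by omega)

/-- E9 -/
theorem exists_indep_conj (hG : IsHG d δ) (tf : TF G) {U : Subgroup G} (hU : NonAb U) {g : G}
    (hg : g ∈ U) (hg1 : g ≠ 1) (a : G) :
    ∃ u ∈ U, Indep g (u * g * u⁻¹) ∧ Indep (a * g * a⁻¹) (u * g * u⁻¹) := by
  have key : ∃ u ∈ U, u ∉ EE g ∧ a⁻¹ * u ∉ EE g := by
    by_contra hcon
    push Not at hcon
    have hle : ∀ u ∈ U, u ∈ EE g := by
      intro u hu
      by_contra hnu
      have h1 := hcon u hu hnu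
      have h2 : u ^ 2 ∉ EE g := fun h => hnu (EE_of_pow hG tf hg1 (by norm_num) h)
      have h3 := hcon (u ^ 2) (U.pow_mem hu 2) h2
      apply hnu
      have h4 := (EE g).mul_mem ((EE g).inv_mem h1) h3
      have h5 : (a⁻¹ * u)⁻¹ * (a⁻¹ * u ^ 2) = u := by group
      rwa [h5] at h4
    obtain ⟨x, hx, y, hy, hxy⟩ := hU
    exact hxy (EE_comm hG tf hg1 x (hle x hx) y (hle y hy))
  obtain ⟨u, hu, h1, h2⟩ := key
  refine ⟨u, hu, ?_, ?_⟩
  · intro p q h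
    by_contra hp
    rw [conj_zpow] at h
    have hq : q ≠ 0 := by
      rintro rfl
      rw [zpow_zero, mul_one, mul_inv_cancel] at h
      exact elemC_zpow_ne tf hg1 hp h
    exact h1 (conj_power hG tf hg1 hq hp h.symm).1
  · intro p q h
    by_contra hp
    rw [conj_zpow, conj_zpow] at h
    have hq : q ≠ 0 := by
      rintro rfl
      rw [zpow_zero, mul_one, mul_inv_cancel, mul_inv_eq_one, mul_eq_left] at h
      exact elemC_zpow_ne tf hg1 hp h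
    have h3 : (a⁻¹ * u) * g ^ q * (a⁻¹ * u)⁻¹ = g ^ p := by
      have h4 : (a⁻¹ * u) * g ^ q * (a⁻¹ * u)⁻¹ = a⁻¹ * (u * g ^ q * u⁻¹) * a := by group
      rw [h4, ← h]
      group
    exact h2 (conj_power hG tf hg1 hq hp h3).1

/-- E10 (near lemma): a long power of `g` near a coset of a quasi-convex subgroup gives a power
in a conjugate. -/
theorem near_lemma (hG : IsHG d δ) (tf : TF G) {g : G} (hg : g ≠ 1) {H : Subgroup G} {κ : ℕ}
    (hH : QC d κ (H : Set G)) (E : ℕ) :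
    ∃ m0 : ℕ, ∀ m : ℕ, m0 ≤ m → ∀ x h h' : G, h ∈ H → h' ∈ H → d 1 (x * h) ≤ E →
      d (g ^ m) (x * h') ≤ E → ∃ q : ℕ, q ≠ 0 ∧ x⁻¹ * g ^ q * x ∈ H := by
  obtain ⟨κ1, hκ⟩ := lox hG (elemC_pow_ne tf hg)
  obtain ⟨J, hJ⟩ := hG.pigeon (κ + (κ1 + 2 * E + 2 * E + 2 * 0))
  refine ⟨J, ?_⟩
  intro m hm x h h' hh hh' h1 h2
  have hnear : ∀ j : ℕ, ∃ c : G, j ≤ J →
      (c ∈ H ∧ d (x⁻¹ * g ^ j) c ≤ κ + (κ1 + 2 * E + 2 * E + 2 * 0)) := by
    intro j
    by_cases hj : j ≤ J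
    · have h3 : Btw d κ1 (g ^ (0 : ℤ)) (g ^ (m : ℤ)) (g ^ (j : ℤ)) :=
        hκ 0 j m (by omega) (by omega)
      rw [zpow_zero, zpow_natCast, zpow_natCast] at h3
      have h4 := h3.change hG.toIsGM h1 h2 (le_of_eq (hG.self (g ^ j)))
      have h5 : Btw d (κ1 + 2 * E + 2 * E + 2 * 0) h h' (x⁻¹ * g ^ j) := by
        have e1 : d (x * h) (g ^ j) = d h (x⁻¹ * g ^ j) := by
          rw [← hG.inv x⁻¹ (x * h), inv_mul_cancel_left]
        have e2 : d (g ^ j) (x * h') = d (x⁻¹ * g ^ j) h' := by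
          rw [← hG.inv x⁻¹ (g ^ j) (x * h'), inv_mul_cancel_left]
        have e3 : d (x * h) (x * h') = d h h' := hG.inv _ _ _
        unfold Btw at h4 ⊢
        rw [e1, e2, e3] at h4
        exact h4
      obtain ⟨q, hq1, hq2⟩ := hH.near hh hh' h5
      exact ⟨q, fun _ => ⟨hq1, hq2⟩⟩
    · exact ⟨1, fun h => absurd h hj⟩
  choose c hc using hnear
  obtain ⟨a, b, hab, hbJ, hf⟩ := hJ (fun j => (x⁻¹ * g ^ j)⁻¹ * c j) (by
    intro j hj
    rw [← hG.norm_eq]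
    exact (hc j hj).2)
  refine ⟨b - a, by omega, ?_⟩
  have h6 : (x⁻¹ * g ^ a)⁻¹ * c a = (x⁻¹ * g ^ b)⁻¹ * c b := hf
  have h7 : x⁻¹ * g ^ (b - a) * x = c b * (c a)⁻¹ := by
    have h8 : g ^ (b - a) * g ^ a = g ^ b := by
      rw [← pow_add]; congr 1; omega
    have h9 : c b = (x⁻¹ * g ^ b) * ((x⁻¹ * g ^ a)⁻¹ * c a) := by rw [h6]; group
    rw [h9, ← h8]
    group
  rw [h7]
  exact H.mul_mem (hc b hbJ).1 (H.inv_mem (hc a (by omega)).1)

end TD
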