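import Pool.Agent.TD.FinalDefs

/-!
# Module FinalA: Prop 1 (i).  Blueprint section 1.
-/

set_option autoImplicit false

namespace TD

/-- the cosets of the powers of `c0` are pairwise distinct. -/
private lemma fa_coset {G : Type} [Group G] (tf : TF G) {c0 : G} (hc : c0 ≠ 1)
    {K : Subgroup G} (hs : Sep (Subgroup.zpowers c0) K) (i j : ℤ)
    (h : (c0 ^ i)⁻¹ * c0 ^ j ∈ K) : i = j := by
  have h1 : c0 ^ (j - i) ∈ K := by
    rwa [← zpow_neg, ← zpow_add, neg_add_eq_sub] at h
  have h2 : c0 ^ (j - i) = 1 := by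
    refine hs 1 _ (Subgroup.zpow_mem_zpowers c0 (j - i)) ?_
    simpa using h1
  by_contra hij
  rcases lt_or_gt_of_ne hij with h3 | h3
  · refine hc (tf c0 (j - i).toNat (by omega) ?_)
    rw [← zpow_natCast, Int.toNat_of_nonneg (by omega), h2]
  · refine hc (tf c0 (i - j).toNat (by omega) ?_)
    rw [← zpow_natCast, Int.toNat_of_nonneg (by omega), ← neg_sub, zpow_neg, h2, inv_one]

/-- Prop 1 (i) for `k ≥ 1`. -/
private lemma fa_main {G : Type} [Group G] {M : ℕ → Subgroup G} (h : LimProps G M)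
    (k : ℕ) (hk : 1 ≤ k) :
      FaithfulSMul G (G ⧸ M k) ∧ Infinite (G ⧸ M k) ∧
        MulAction.IsMultiplyPretransitive G (G ⧸ M k) k := by
  obtain ⟨c0, hc, hs⟩ := h.sep0
  have hinj : Function.Injective (fun n : ℤ => ((c0 ^ n : G) : G ⧸ M k)) := by
    intro i j hij
    exact fa_coset h.tf hc (hs k hk) i j (QuotientGroup.eq.1 hij)
  refine ⟨⟨?_⟩, Infinite.of_injective _ hinj, ?_⟩
  · intro g g' hgg
    by_contra hne
    have hne' : g'⁻¹ * g ≠ 1 := fun e => hne ((inv_mul_eq_one.1 e).symm)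
    obtain ⟨i, j, hij, hm⟩ := h.ff k hk (g'⁻¹ * g) hne'
      (fun i : Fin (k + 1) => c0 ^ ((i : ℕ) : ℤ)) (by
        intro i
        have e := hgg ((c0 ^ ((i : ℕ) : ℤ) : G) : G ⧸ M k)
        rw [MulAction.Quotient.smul_coe, MulAction.Quotient.smul_coe, smul_eq_mul, smul_eq_mul,
          eq_comm, QuotientGroup.eq] at e
        convert e using 1
        group)
    have := fa_coset h.tf hc (hs k hk) _ _ hm
    exact hij (Fin.ext (by exact_mod_cast this))
  · rw [MulAction.isMultiplyPretransitive_iff]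
    intro x y
    obtain ⟨t, ht⟩ := h.trans k hk (fun i => (x i).out) (fun i => (y i).out)
      (by
        intro i j hij hm
        refine hij (x.injective ?_)
        rw [← QuotientGroup.out_eq' (x i), ← QuotientGroup.out_eq' (x j)]
        exact QuotientGroup.eq.2 hm)
      (by
        intro i j hij hm
        refine hij (y.injective ?_)
        rw [← QuotientGroup.out_eq' (y i), ← QuotientGroup.out_eq' (y j)]
        exact QuotientGroup.eq.2 hm)
    refine ⟨t, ?_⟩
    ext i
    have h1 := ht i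
    rw [Function.Embedding.smul_apply]
    rw [← QuotientGroup.out_eq' (x i), ← QuotientGroup.out_eq' (y i), eq_comm]
    rw [MulAction.Quotient.smul_coe, smul_eq_mul, QuotientGroup.eq]
    rwa [mul_assoc] at h1

/-- Prop 1 (i). -/
theorem LimProps.transitive {G : Type} [Group G] {M : ℕ → Subgroup G} (h : LimProps G M)
    (k : ℕ) : ∃ (X : Type) (_ : MulAction G X),
      FaithfulSMul G X ∧ Nonempty (Fin k ↪ X) ∧ MulAction.IsMultiplyPretransitive G X k := by
  rcases Nat.eq_zero_or_pos k with rfl | hk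
  · obtain ⟨h1, h2, -⟩ := fa_main h 1 le_rfl
    exact ⟨G ⧸ M 1, inferInstance, h1, ⟨Function.Embedding.ofIsEmpty⟩, inferInstance⟩
  · obtain ⟨h1, h2, h3⟩ := fa_main h k hk
    exact ⟨G ⧸ M k, inferInstance, h1, ⟨(Fin.valEmbedding).trans (Infinite.natEmbedding _)⟩, h3⟩

end TD
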