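import Pool.Agent.TD.Defs

/-!
# FinalDefs: the properties of the limit group.  Blueprint section 1.
-/

set_option autoImplicit false

namespace TD

/-- The properties of the limit group. -/
structure LimProps (G : Type) [Group G] (M : ℕ → Subgroup G) : Prop where
  tf : TF G
  trans : ∀ k, 1 ≤ k → ∀ x y : Fin k → G, (∀ i j, i ≠ j → (x i)⁻¹ * x j ∉ M k) →
    (∀ i j, i ≠ j → (y i)⁻¹ * y j ∉ M k) → ∃ t, ∀ i, (y i)⁻¹ * t * x i ∈ M k
  ff : ∀ k, 1 ≤ k → FF (M k) k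
  sep : ∀ c : G, c ≠ 1 → ∃ k0, ∀ k, k0 < k → Sep (Subgroup.zpowers c) (M k)
  sep0 : ∃ c0 : G, c0 ≠ 1 ∧ ∀ k, 1 ≤ k → Sep (Subgroup.zpowers c0) (M k)
  trap : ∀ S : Finset G, NonAb (Subgroup.closure (S : Set G)) →
    Subgroup.closure (S : Set G) = ⊤ ∨
    ∃ k, 1 ≤ k ∧ ∃ x : G,
      {c : G ⧸ M k | ∃ u ∈ Subgroup.closure (S : Set G), c = ((u * x : G) : G ⧸ M k)}.Finite

end TD
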