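import Pool.Agent.TD.FreeB

/-!
# Module FreeD: stabilizers of base points, quasi-convexity.  Blueprint section 17 (F6).
-/

set_option autoImplicit false

namespace TD

variable {G : Type*} [Group G] {d : G → G → ℕ} {δ : ℕ}

/-- The stabilizer of the base point. -/
noncomputable def stb (H : Subgroup G) (τ : (G ⧸ H) ≃. (G ⧸ H)) : Subgroup (FPr G) :=
  MulAction.stabilizer (FPr G) (ZZ.base (G := G) τ ((1 : G) : G ⧸ H))

section

variable {Y : Type*} [MulAction G Y] {τ : Y ≃. Y}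

theorem inG_smul_base (g : G) (y : Y) :
    ((inG g : FPr G) • ZZ.base (G := G) τ y : ZZ G τ) = ZZ.base τ (g • y) :=
  Subtype.ext (by rw [ZZ.inG_smul]; rfl)

theorem te_smul_base {ε : Bool} {y y' : Y} (h : tau τ ε y = some y') :
    ((te ε : FPr G) • ZZ.base (G := G) τ y : ZZ G τ) = ZZ.base τ y' :=
  Subtype.ext (by rw [ZZ.te_smul]; exact tact_base_some h)

/-- The image of the base point `y` under the element with word `z`. -/
noncomputable def ptw (τ : Y ≃. Y) (y : Y) (z : Z0 G G) : Z0 G Y :=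
  ((ev z : FPr G) • ZZ.base (G := G) τ y : ZZ G τ).1

theorem ptw_base (y : Y) (g : G) : ptw τ y (.base g) = .base (g • y) := by
  unfold ptw
  rw [ev, inG_smul_base]
  rfl

theorem ptw_node (y : Y) (g : G) (ε : Bool) (z : Z0 G G) :
    ptw τ y (.node g ε z) = gact g (tact τ ε (ptw τ y z)) := by
  unfold ptw
  rw [ev, mul_smul, mul_smul, ZZ.inG_smul, ZZ.te_smul]

theorem ptw_cases (y : Y) : ∀ z : Z0 G G, NF (⊥ : G ≃. G) z →
    (∃ y', ptw τ y z = .base y') ∨
      (∃ g ε z', z = .node g ε z' ∧ ptw τ y z = .node g ε (ptw τ y z'))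
  | .base g, _ => Or.inl ⟨g • y, ptw_base y g⟩
  | .node g ε (.base g'), _ => by
    rw [ptw_node, ptw_base]
    cases h : tau τ ε (g' • y) with
    | some y' =>
      left
      rw [tact_base_some h]
      exact ⟨g • y', rfl⟩
    | none =>
      right
      rw [tact_base_none h]
      refine ⟨g, ε, .base g', rfl, ?_⟩
      rw [ptw_base]
      simp only [gact, mul_one]
  | .node g ε (.node g' ε' z), hz => by
    rw [ptw_node]
    rcases ptw_cases y (.node g' ε' z) hz.tail with ⟨y', hy'⟩ | ⟨g1, ε1, z1, h1, h2⟩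
    · rw [hy']
      cases h : tau τ ε y' with
      | some y'' =>
        left
        rw [tact_base_some h]
        exact ⟨g • y'', rfl⟩
      | none =>
        right
        rw [tact_base_none h]
        refine ⟨g, ε, .node g' ε' z, rfl, ?_⟩
        rw [hy']
        simp only [gact, mul_one]
    · right
      refine ⟨g, ε, .node g' ε' z, rfl, ?_⟩
      rw [h2]
      have h3 : g' = g1 := by injection h1
      have h4 : ε' = ε1 := by injection h1
      have h5 : ¬ (g1 = 1 ∧ ε1 = !ε) := by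
        rintro ⟨h6, h7⟩
        have h8 := hz.1 (h3.trans h6)
        rw [h4, h7] at h8
        cases ε <;> exact absurd h8 (by decide)
      rw [tact_node_neg h5]
      simp only [gact, mul_one]

theorem ptw_node_base {y y' : Y} {g : G} {ε : Bool} {z : Z0 G G}
    (hz : NF (⊥ : G ≃. G) (.node g ε z)) (h : ptw τ y (.node g ε z) = .base y') :
    ∃ y'', ptw τ y z = .base y'' ∧ tau τ ε y'' = some (g⁻¹ • y') := by
  have hn := ptw_node (τ := τ) y g ε z
  rcases ptw_cases (τ := τ) y z hz.tail with ⟨y'', hy''⟩ | ⟨g1, ε1, z1, h1, h2⟩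
  · refine ⟨y'', hy'', ?_⟩
    rw [h, hy''] at hn
    cases h3 : tau τ ε y'' with
    | some y3 =>
      rw [tact_base_some h3] at hn
      simp only [gact] at hn
      have h4 : y' = g • y3 := by injection hn
      rw [h4, inv_smul_smul]
    | none =>
      rw [tact_base_none h3] at hn
      simp only [gact] at hn
      exact absurd hn (by simp)
  · exfalso
    rw [h, h2] at hn
    subst h1
    have h5 : ¬ (g1 = 1 ∧ ε1 = !ε) := by
      rintro ⟨h6, h7⟩
      have h8 := hz.1 h6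
      rw [h7] at h8
      cases ε <;> exact absurd h8 (by decide)
    rw [tact_node_neg h5] at hn
    simp only [gact] at hn
    exact absurd hn (by simp)

end

theorem map_le_stb (H : Subgroup G) (τ : (G ⧸ H) ≃. (G ⧸ H)) : H.map inG ≤ stb H τ := by
  rintro _ ⟨h, hh, rfl⟩
  rw [stb, MulAction.mem_stabilizer_iff, inG_smul_base]
  congr 1
  rw [MulAction.Quotient.smul_coe, smul_eq_mul, mul_one, QuotientGroup.eq]
  simpa using hh

/-- Without partial injection the stabilizer is the image of `H`. -/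
theorem stb_bot (H : Subgroup G) : stb H ⊥ = H.map inG := by
  apply le_antisymm _ (map_le_stb H ⊥)
  intro x hx
  rw [stb, MulAction.mem_stabilizer_iff] at hx
  have h1 : ptw (⊥ : (G ⧸ H) ≃. (G ⧸ H)) ((1 : G) : G ⧸ H) (wd x).1 =
      .base ((1 : G) : G ⧸ H) := by
    unfold ptw
    rw [ev_wd, hx]
    rfl
  have h2 := (wd x).2
  have h3 := ev_wd x
  generalize (wd x).1 = z at h1 h2 h3
  cases z with
  | base g =>
    rw [ptw_base] at h1
    rw [ev] at h3
    have h4 : g • ((1 : G) : G ⧸ H) = ((1 : G) : G ⧸ H) := by injection h1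
    rw [MulAction.Quotient.smul_coe, smul_eq_mul, mul_one, QuotientGroup.eq] at h4
    refine ⟨g, ?_, h3⟩
    simpa using h4
  | node g ε z =>
    obtain ⟨y'', _, h5⟩ := ptw_node_base h2 h1
    rw [tau_bot] at h5
    exact absurd h5 (by simp)

/-- If `τ (x H) = y H` then `y⁻¹ t x` is in the stabilizer. -/
theorem mem_stb (H : Subgroup G) (τ : (G ⧸ H) ≃. (G ⧸ H)) (x y : G)
    (h : τ (x : G ⧸ H) = some (y : G ⧸ H)) : (inG y)⁻¹ * tt * inG x ∈ stb H τ := by
  rw [stb, MulAction.mem_stabilizer_iff, mul_smul, mul_smul, inG_smul_base]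
  have h1 : (tt : FPr G) = te true := by simp [te]
  have h2 : tau τ true (x • ((1 : G) : G ⧸ H)) = some (y : G ⧸ H) := by
    rw [MulAction.Quotient.smul_coe, smul_eq_mul, mul_one]
    simpa [tau] using h
  rw [h1, te_smul_base h2, ← map_inv, inG_smul_base]
  congr 1
  rw [MulAction.Quotient.smul_coe, smul_eq_mul, inv_mul_cancel]

/-- The first group entry of a raw word. -/
def hdw : Z0 G G → G
  | .base g => g
  | .node g _ _ => g

theorem nrm_hdw (w : Z0 G G) : nrm d w = d 1 (hdw w) + tnrm d w := by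
  cases w with
  | base g => simp [nrm, hdw, tnrm]
  | node g ε w => simp [nrm, hdw, tnrm, add_assoc]

theorem dW_base_right (w : Z0 G G) (g : G) : dW d w (.base g) = d (hdw w) g + tnrm d w := by
  cases w with
  | base g => simp [dW, hdw, tnrm]
  | node g ε w => simp [dW, hdw, tnrm, add_assoc]

theorem dW_cases (w z : Z0 G G) :
    (∃ g ε w' z', w = .node g ε w' ∧ z = .node g ε z' ∧ dW d w z = dW d w' z') ∨
      dW d w z = d (hdw w) (hdw z) + tnrm d w + tnrm d z := by
  cases w with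
  | base g =>
    right
    cases z with
    | base h => simp [dW, hdw, tnrm]
    | node h ε' z => simp [dW, hdw, tnrm, add_assoc]
  | node g ε w =>
    cases z with
    | base h => right; simp [dW, hdw, tnrm, add_assoc]
    | node h ε' z =>
      by_cases hc : g = h ∧ ε = ε'
      · left
        obtain ⟨rfl, rfl⟩ := hc
        refine ⟨g, ε, w, z, rfl, rfl, ?_⟩
        simp only [dW, and_self, if_true]
      · right
        simp only [dW, if_neg hc, hdw, tnrm]

/-- The first entry of a word of an element mapping the base coset to `α H` is near `α H`. -/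
theorem near_coset (hG : IsHG d δ) (H : Subgroup G) {D : ℕ}
    (τ : (G ⧸ H) ≃. (G ⧸ H))
    (hD : ∀ ε y, (tau τ ε y).isSome → ∃ α : G, y = (α : G ⧸ H) ∧ d 1 α ≤ D)
    (z : Z0 G G) (α : G) (hz : NF (⊥ : G ≃. G) z)
    (h : ptw τ ((1 : G) : G ⧸ H) z = .base (α : G ⧸ H)) :
    ∃ q : G, (q : G ⧸ H) = (α : G ⧸ H) ∧ d (hdw z) q ≤ D := by
  cases z with
  | base g =>
    rw [ptw_base] at h
    have h4 : g • ((1 : G) : G ⧸ H) = (α : G ⧸ H) := by injection h
    rw [MulAction.Quotient.smul_coe, smul_eq_mul, mul_one] at h4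
    exact ⟨g, h4, by simp [hdw, hG.self]⟩
  | node g ε z =>
    obtain ⟨y'', _, h5⟩ := ptw_node_base hz h
    have h6 : tau τ (!ε) (g⁻¹ • (α : G ⧸ H)) = some y'' := by
      apply tau_not
      rwa [Bool.not_not]
    obtain ⟨β, h7, h8⟩ := hD (!ε) (g⁻¹ • (α : G ⧸ H)) (by rw [h6]; rfl)
    refine ⟨g * β, ?_, ?_⟩
    · have h9 : ((g * β : G) : G ⧸ H) = g • (β : G ⧸ H) := by
        rw [MulAction.Quotient.smul_coe, smul_eq_mul]
      rw [h9, ← h7, smul_inv_smul]
    · have h10 := hG.inv g 1 β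
      rw [mul_one] at h10
      simp only [hdw]
      omega

/-- F6 for words without common first entry. -/
theorem stb_qc_ns (hG : IsHG d δ) (H : Subgroup G) {κ D : ℕ} (hq : QC d κ (H : Set G))
    (τ : (G ⧸ H) ≃. (G ⧸ H)) (w z : Z0 G G) (α : G) (hw : NF (⊥ : G ≃. G) w) (hα : d 1 α ≤ D)
    (q : G) (hq1 : (q : G ⧸ H) = (α : G ⧸ H)) (hq2 : d (hdw z) q ≤ D)
    (hdist : dW d w z = d (hdw w) (hdw z) + tnrm d w + tnrm d z) :
      ∃ c : FPr G, (c • ZZ.base (G := G) τ ((1 : G) : G ⧸ H) : ZZ G τ) =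
          ZZ.base τ (α : G ⧸ H) ∧
        dF d (ev w) c + nrm d z ≤ nrm d w + dW d w z + (κ + 4 * D) := by
  have hm : α⁻¹ * q ∈ H := QuotientGroup.eq.1 hq1.symm
  obtain ⟨c1, hc1, hc2⟩ := hq 1 H.one_mem (α⁻¹ * q) hm (α⁻¹ * hdw w)
  refine ⟨inG (α * c1), ?_, ?_⟩
  · rw [inG_smul_base]
    congr 1
    rw [MulAction.Quotient.smul_coe, smul_eq_mul, mul_one, QuotientGroup.eq]
    have e : (α * c1)⁻¹ * α = c1⁻¹ := by group
    rw [e]
    exact H.inv_mem hc1
  · have e1 : dF d (ev w) (inG (α * c1)) = d (hdw w) (α * c1) + tnrm d w := by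
      rw [← dW_base_right]
      unfold dF
      rw [wd_inG]
      have := wd_ev (G := G) ⟨w, hw⟩
      rw [this]
    have e2 : d (α⁻¹ * hdw w) c1 = d (hdw w) (α * c1) := by
      have := hG.inv α (α⁻¹ * hdw w) c1
      rw [mul_inv_cancel_left] at this
      exact this.symm
    have e3 : d 1 (α⁻¹ * q) = d α q := by
      have := hG.inv α 1 (α⁻¹ * q)
      rw [mul_inv_cancel_left, mul_one] at this
      exact this.symm
    have e4 : d 1 (α⁻¹ * hdw w) = d α (hdw w) := by
      have := hG.inv α 1 (α⁻¹ * hdw w)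
      rw [mul_inv_cancel_left, mul_one] at this
      exact this.symm
    have e5 : d (α⁻¹ * hdw w) (α⁻¹ * q) = d (hdw w) q := hG.inv _ _ _
    rw [e2, e3, e4, e5] at hc2
    rw [e1, nrm_hdw z, nrm_hdw w, hdist]
    have t1 := hG.tri 1 α (hdw z)
    have t2 := hG.tri α q (hdw z)
    have t3 := hG.symm q (hdw z)
    have t4 := hG.tri α 1 (hdw w)
    have t5 := hG.symm α 1
    have t6 := hG.tri (hdw w) (hdw z) q
    omega

/-- F6, inductive form. -/
theorem stb_qc_aux (hG : IsHG d δ) (H : Subgroup G) {κ D : ℕ} (hq : QC d κ (H : Set G))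
    (τ : (G ⧸ H) ≃. (G ⧸ H))
    (hD : ∀ ε y, (tau τ ε y).isSome → ∃ α : G, y = (α : G ⧸ H) ∧ d 1 α ≤ D) (z : Z0 G G) :
    ∀ (w : Z0 G G) (α : G), NF (⊥ : G ≃. G) z → NF (⊥ : G ≃. G) w → d 1 α ≤ D →
      ptw τ ((1 : G) : G ⧸ H) z = .base (α : G ⧸ H) →
      ∃ c : FPr G, (c • ZZ.base (G := G) τ ((1 : G) : G ⧸ H) : ZZ G τ) =
          ZZ.base τ (α : G ⧸ H) ∧
        dF d (ev w) c + nrm d z ≤ nrm d w + dW d w z + (κ + 4 * D) := by
  induction z with
  | base g =>
    intro w α hz hw hα h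
    rcases dW_cases (d := d) w (.base g) with ⟨_, _, _, _, _, h0, _⟩ | hdist
    · exact absurd h0 (by simp)
    · obtain ⟨q, hq1, hq2⟩ := near_coset hG H τ hD (.base g) α hz h
      exact stb_qc_ns hG H hq τ w (.base g) α hw hα q hq1 hq2 hdist
  | node g ε z ih =>
    intro w α hz hw hα h
    rcases dW_cases (d := d) w (.node g ε z) with ⟨g1, ε1, w', z', hw', hz', hdd⟩ | hdist
    · have e1 : g = g1 := by injection hz'
      have e2 : ε = ε1 := by injection hz'
      have e3 : z = z' := by injection hz'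
      subst e1 e2 e3 hw'
      obtain ⟨y'', h5, h6⟩ := ptw_node_base hz h
      obtain ⟨β, h7, h8⟩ := hD ε y'' (by rw [h6]; rfl)
      rw [h7] at h5 h6
      obtain ⟨c', hc1, hc2⟩ := ih w' β hz.tail hw.tail h8 h5
      refine ⟨inG g * te ε * c', ?_, ?_⟩
      · rw [mul_smul, mul_smul, hc1, te_smul_base h6, inG_smul_base, smul_inv_smul]
      · have e4 : dF d (ev (.node g ε w')) (inG g * te ε * c') = dF d (ev w') c' := by
          rw [ev]
          exact dF_inv hG _ _ _
        rw [e4, hdd]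
        simp only [nrm]
        omega
    · obtain ⟨q, hq1, hq2⟩ := near_coset hG H τ hD (.node g ε z) α hz h
      exact stb_qc_ns hG H hq τ w (.node g ε z) α hw hα q hq1 hq2 hdist

/-- F6 -/
theorem stb_qc (hG : IsHG d δ) (H : Subgroup G) {κ D : ℕ} (hq : QC d κ (H : Set G))
    (τ : (G ⧸ H) ≃. (G ⧸ H))
    (hD : ∀ ε y, (tau τ ε y).isSome → ∃ α : G, y = (α : G ⧸ H) ∧ d 1 α ≤ D) :
    QC (dF d) (κ + 4 * D) (stb H τ : Set (FPr G)) := by
  intro a ha b hb p
  have hab : a⁻¹ * b ∈ stb H τ := (stb H τ).mul_mem ((stb H τ).inv_mem ha) hb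
  have h1 : ptw τ ((1 : G) : G ⧸ H) (wd (a⁻¹ * b)).1 = .base ((1 : G) : G ⧸ H) := by
    rw [stb, MulAction.mem_stabilizer_iff] at hab
    unfold ptw
    rw [ev_wd, hab]
    rfl
  obtain ⟨c, hc1, hc2⟩ := stb_qc_aux hG H hq τ hD (wd (a⁻¹ * b)).1 (wd (a⁻¹ * p)).1 1
    (wd (a⁻¹ * b)).2 (wd (a⁻¹ * p)).2 (by rw [hG.self]; omega) h1
  have hc : c ∈ stb H τ := by
    rw [stb, MulAction.mem_stabilizer_iff]
    exact hc1
  refine ⟨a * c, (stb H τ).mul_mem ha hc, ?_⟩
  rw [ev_wd, ← dF_one hG, ← dF_one hG] at hc2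
  have e1 : dF d (a⁻¹ * p) c = dF d p (a * c) := by
    rw [← dF_inv hG a⁻¹ p (a * c), inv_mul_cancel_left]
  have e2 : dF d 1 (a⁻¹ * b) = dF d a b := by
    rw [← dF_inv hG a⁻¹ a b, inv_mul_cancel]
  have e3 : dF d 1 (a⁻¹ * p) = dF d a p := by
    rw [← dF_inv hG a⁻¹ a p, inv_mul_cancel]
  have e4 : dW d (wd (a⁻¹ * p)).1 (wd (a⁻¹ * b)).1 = dF d p b := dF_inv hG a⁻¹ p b
  rw [e1, e2, e3, e4] at hc2
  exact hc2

end TD
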