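import Pool.Agent.TD.FreeC
import Pool.Agent.TD.FreeD

/-!
# THM FREE (assembly of FreeA-FreeD).  Blueprint section 17.
-/

set_option autoImplicit false

namespace TD

/-- The partial injection `a i ↦ b i`. -/
theorem exists_pequiv {Y : Type*} {k : ℕ} (a b : Fin k → Y) (ha : Function.Injective a)
    (hb : Function.Injective b) :
    ∃ τ : Y ≃. Y, ∀ u v, τ u = some v ↔ ∃ i, a i = u ∧ b i = v := by
  classical
  let F : Y → Option Y := fun u => if h : ∃ i, a i = u then some (b h.choose) else none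
  let F' : Y → Option Y := fun v => if h : ∃ i, b i = v then some (a h.choose) else none
  have hF : ∀ u v, F u = some v ↔ ∃ i, a i = u ∧ b i = v := by
    intro u v
    by_cases h : ∃ i, a i = u
    · have h1 : F u = some (b h.choose) := dif_pos h
      rw [h1]
      constructor
      · intro h2
        exact ⟨h.choose, h.choose_spec, Option.some.inj h2⟩
      · rintro ⟨i, hi, rfl⟩
        have h3 : h.choose = i := ha (h.choose_spec.trans hi.symm)
        rw [h3]
    · have h1 : F u = none := dif_neg h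
      rw [h1]
      constructor
      · intro h2; exact absurd h2 (by simp)
      · rintro ⟨i, hi, -⟩
        exact absurd ⟨i, hi⟩ h
  have hF' : ∀ u v, F' v = some u ↔ ∃ i, a i = u ∧ b i = v := by
    intro u v
    by_cases h : ∃ i, b i = v
    · have h1 : F' v = some (a h.choose) := dif_pos h
      rw [h1]
      constructor
      · intro h2
        exact ⟨h.choose, Option.some.inj h2, h.choose_spec⟩
      · rintro ⟨i, rfl, hi⟩
        have h3 : h.choose = i := hb (h.choose_spec.trans hi.symm)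
        rw [h3]
    · have h1 : F' v = none := dif_neg h
      rw [h1]
      constructor
      · intro h2; exact absurd h2 (by simp)
      · rintro ⟨i, -, hi⟩
        exact absurd ⟨i, hi⟩ h
  exact ⟨⟨F, F', fun u v => (hF' u v).trans (hF u v).symm⟩, hF⟩

/-- Points of the coset space: `g • a H = a H` means `a⁻¹ g a ∈ H`. -/
theorem smul_coset_eq {G : Type*} [Group G] (H : Subgroup G) (g a : G) :
    g • (a : G ⧸ H) = (a : G ⧸ H) ↔ a⁻¹ * g * a ∈ H := by
  rw [MulAction.Quotient.smul_coe, smul_eq_mul, eq_comm, QuotientGroup.eq, ← mul_assoc]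

theorem fix_stb {G : Type*} [Group G] (H : Subgroup G) (τ : (G ⧸ H) ≃. (G ⧸ H)) (w x : FPr G)
    (h : x⁻¹ * w * x ∈ stb H τ) :
    w • (x • ZZ.base (G := G) τ ((1 : G) : G ⧸ H)) = x • ZZ.base (G := G) τ ((1 : G) : G ⧸ H) := by
  have h1 : (x⁻¹ * w * x) • ZZ.base (G := G) τ ((1 : G) : G ⧸ H)
      = ZZ.base (G := G) τ ((1 : G) : G ⧸ H) := h
  rw [mul_smul, mul_smul, inv_smul_eq_iff] at h1
  exact h1

/-- Bound for the number of fixed points of the non-trivial elements on the cosets of the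
stabilizer. -/
theorem ff_stb {G : Type*} [Group G] (H : Subgroup G) {K : ℕ} (hff : FF H K)
    (τ : (G ⧸ H) ≃. (G ⧸ H))
    (hτ : ∀ ε, ∀ f : Fin (K + 1) → G ⧸ H, (∀ i, (tau τ ε (f i)).isSome) →
      ∃ i j, i ≠ j ∧ f i = f j) : FF (stb H τ) K := by
  intro w hw x hx
  have hY : ∀ g : G, g ≠ 1 → ∀ f : Fin (K + 1) → G ⧸ H, (∀ i, g • f i = f i) →
      ∃ i j, i ≠ j ∧ f i = f j := by
    intro g hg f hf
    choose a ha using fun i => QuotientGroup.mk_surjective (f i)
    obtain ⟨i, j, hij, h⟩ := hff g hg a (fun i => (smul_coset_eq H g (a i)).1 (by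
      rw [ha i]; exact hf i))
    refine ⟨i, j, hij, ?_⟩
    rw [← ha i, ← ha j]
    exact QuotientGroup.eq.2 h
  obtain ⟨i, j, hij, h⟩ := fix_bound τ hY hτ w hw
    (fun i => x i • ZZ.base (G := G) τ ((1 : G) : G ⧸ H)) (fun i => fix_stb H τ w (x i) (hx i))
  refine ⟨i, j, hij, ?_⟩
  change ((x i)⁻¹ * x j) • ZZ.base (G := G) τ ((1 : G) : G ⧸ H)
      = ZZ.base (G := G) τ ((1 : G) : G ⧸ H)
  rw [mul_smul, inv_smul_eq_iff]
  exact h.symm

theorem sep_stb {G : Type*} [Group G] (H H0 : Subgroup G) (τ : (G ⧸ H0) ≃. (G ⧸ H0))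
    (hs : Sep H H0) : Sep (H.map inG) (stb H0 τ) := by
  rintro x _ ⟨h, hh, rfl⟩ hx
  by_contra hne
  have hne' : h ≠ 1 := by
    rintro rfl
    exact hne (map_one inG)
  have h1 : (inG h : FPr G) • (x⁻¹ • ZZ.base (G := G) τ ((1 : G) : G ⧸ H0))
      = x⁻¹ • ZZ.base (G := G) τ ((1 : G) : G ⧸ H0) := by
    apply fix_stb
    rwa [inv_inv]
  obtain ⟨y, -, hy⟩ := fix_inG hne' h1
  obtain ⟨a, rfl⟩ := QuotientGroup.mk_surjective y
  have h2 := (smul_coset_eq H0 h a).1 hy
  exact hne' (hs a⁻¹ h hh (by rwa [inv_inv]))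

theorem free_step {G : Type} [Group G] {d : G → G → ℕ} {δ : ℕ} (hG : IsHG d δ) (tf : TF G)
    (H0 : Subgroup G) {κ : ℕ} (hq : QC d κ (H0 : Set G)) {K : ℕ} (hff : FF H0 K) {k : ℕ}
    (hk : k ≤ K) (x y : Fin k → G) (hx : ∀ i j, i ≠ j → (x i)⁻¹ * x j ∉ H0)
    (hy : ∀ i j, i ≠ j → (y i)⁻¹ * y j ∉ H0) :
    ∃ (G' : Type) (_ : Group G') (φ : G →* G') (t : G') (d' : G' → G' → ℕ) (δ' : ℕ)
      (H0' : Subgroup G'), Function.Injective φ ∧ IsHG d' δ' ∧ TF G' ∧ H0.map φ ≤ H0' ∧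
      (∃ κ', QC d' κ' (H0' : Set G')) ∧ FF H0' K ∧
      (∀ i, (φ (y i))⁻¹ * t * φ (x i) ∈ H0') ∧
      (∀ H : Subgroup G, (∃ κ, QC d κ (H : Set G)) → ∃ κ', QC d' κ' (H.map φ : Set G')) ∧
      (∀ (H : Subgroup G) (k : ℕ), FF H k → FF (H.map φ) k) ∧
      (∀ H : Subgroup G, Sep H H0 → Sep (H.map φ) H0') ∧
      (∀ H H' : Subgroup G, Sep H H' → Sep (H.map φ) (H'.map φ)) := by
  have hxi : Function.Injective (fun i => ((x i : G) : G ⧸ H0)) := by
    intro i j hij
    by_contra hne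
    exact hx i j hne (QuotientGroup.eq.1 hij)
  have hyi : Function.Injective (fun i => ((y i : G) : G ⧸ H0)) := by
    intro i j hij
    by_contra hne
    exact hy i j hne (QuotientGroup.eq.1 hij)
  obtain ⟨τ, hτ⟩ := exists_pequiv (fun i => ((x i : G) : G ⧸ H0))
    (fun i => ((y i : G) : G ⧸ H0)) hxi hyi
  have hdom : ∀ ε (u : G ⧸ H0), (tau τ ε u).isSome →
      ∃ i : Fin k, u = if ε then ((x i : G) : G ⧸ H0) else ((y i : G) : G ⧸ H0) := by
    intro ε u hu
    obtain ⟨v, hv⟩ := Option.isSome_iff_exists.1 hu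
    cases ε
    · have h1 : τ v = some u := (PEquiv.eq_some_iff τ).1 hv
      obtain ⟨i, -, hi⟩ := (hτ v u).1 h1
      exact ⟨i, by simpa using hi.symm⟩
    · have h1 : τ u = some v := hv
      obtain ⟨i, hi, -⟩ := (hτ u v).1 h1
      exact ⟨i, by simpa using hi.symm⟩
  let D : ℕ := ∑ i, (d 1 (x i) + d 1 (y i))
  have hDx : ∀ i, d 1 (x i) ≤ D := fun i => by
    have := Finset.single_le_sum (f := fun i => d 1 (x i) + d 1 (y i)) (fun _ _ => Nat.zero_le _)
      (Finset.mem_univ i)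
    exact le_trans (Nat.le_add_right _ _) this
  have hDy : ∀ i, d 1 (y i) ≤ D := fun i => by
    have := Finset.single_le_sum (f := fun i => d 1 (x i) + d 1 (y i)) (fun _ _ => Nat.zero_le _)
      (Finset.mem_univ i)
    exact le_trans (Nat.le_add_left _ _) this
  have hbot : ∀ H : Subgroup G, H.map inG = stb H ⊥ := fun H => (stb_bot H).symm
  refine ⟨FPr G, inferInstance, inG, tt, dF d, δ, stb H0 τ, inG_injective, isHG_dF hG,
    FPr_tf tf, map_le_stb H0 τ, ⟨κ + 4 * D, stb_qc hG H0 hq τ ?_⟩, ff_stb H0 hff τ ?_, ?_, ?_,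
    ?_, ?_, ?_⟩
  · intro ε u hu
    obtain ⟨i, hi⟩ := hdom ε u hu
    cases ε
    · exact ⟨y i, by simpa using hi, hDy i⟩
    · exact ⟨x i, by simpa using hi, hDx i⟩
  · intro ε f hf
    choose g hg using fun i => hdom ε (f i) (hf i)
    obtain ⟨i, j, hij, h⟩ := Fintype.exists_ne_map_eq_of_card_lt g (by simp; omega)
    exact ⟨i, j, hij, by rw [hg i, hg j, h]⟩
  · intro i
    exact mem_stb H0 τ (x i) (y i) ((hτ _ _).2 ⟨i, rfl, rfl⟩)
  · rintro H ⟨κ', hκ⟩
    refine ⟨κ' + 4 * 0, ?_⟩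
    rw [hbot]
    refine stb_qc hG H hκ ⊥ ?_
    intro ε u hu
    rw [tau_bot] at hu
    simp at hu
  · intro H k' hH
    rw [hbot]
    refine ff_stb H hH ⊥ ?_
    intro ε f hf
    have := hf 0
    rw [tau_bot] at this
    simp at this
  · intro H hs
    exact sep_stb H H0 τ hs
  · intro H H' hs
    rw [hbot H']
    exact sep_stb H H' ⊥ hs

end TD
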