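import Pool.Agent.TD.Basic

/-!
# Module FreeA: the free completion of a `G`-set with a partial injection, as a set with
an action of the free product of `G` and the infinite cyclic group.  Blueprint section 17.
-/

set_option autoImplicit false

namespace TD

/-- The free product of `G` with an infinite cyclic group. -/
abbrev FPr (G : Type*) [Group G] : Type _ := Monoid.Coprod G (Multiplicative ℤ)

/-- The inclusion of `G`. -/
def inG {G : Type*} [Group G] : G →* FPr G := Monoid.Coprod.inl

/-- The stable letter. -/
def tt {G : Type*} [Group G] : FPr G := Monoid.Coprod.inr (Multiplicative.ofAdd 1)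

/-- `te true = t` and `te false` is the inverse of `t`. -/
def te {G : Type*} [Group G] (ε : Bool) : FPr G := if ε then tt else tt⁻¹

/-- Raw points: `node g ε z` stands for `g * t ^ ε * z`. -/
inductive Z0 (G Y : Type*) where
  | base (y : Y) : Z0 G Y
  | node (g : G) (ε : Bool) (z : Z0 G Y) : Z0 G Y

/-- The partial map given by `t ^ ε`. -/
def tau {Y : Type*} (τ : Y ≃. Y) (ε : Bool) : Y → Option Y := if ε then τ else τ.symm

/-- Normal points. -/
def NF {G Y : Type*} [Group G] (τ : Y ≃. Y) : Z0 G Y → Prop
  | .base _ => True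
  | .node _ ε (.base y) => tau τ ε y = none
  | .node _ ε (.node g' ε' z) => (g' = 1 → ε' = ε) ∧ NF τ (.node g' ε' z)

/-- The completed set. -/
def ZZ (G : Type*) {Y : Type*} [Group G] (τ : Y ≃. Y) : Type _ := {z : Z0 G Y // NF τ z}

/-- The base points. -/
def ZZ.base {G Y : Type*} [Group G] (τ : Y ≃. Y) (y : Y) : ZZ G τ := ⟨.base y, trivial⟩

/-- Left multiplication by an element of `G`. -/
def gact {G Y : Type*} [Group G] [MulAction G Y] (g : G) : Z0 G Y → Z0 G Y
  | .base y => .base (g • y)
  | .node h ε z => .node (g * h) ε z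

open Classical in
/-- Left multiplication by `t ^ ε`. -/
noncomputable def tact {G Y : Type*} [Group G] (τ : Y ≃. Y) (ε : Bool) : Z0 G Y → Z0 G Y
  | .base y => match tau τ ε y with
    | some y' => .base y'
    | none => .node 1 ε (.base y)
  | .node g ε' z => if g = 1 ∧ ε' = !ε then z else .node 1 ε (.node g ε' z)

theorem tau_not {Y : Type*} {τ : Y ≃. Y} {ε : Bool} {y y' : Y} (h : tau τ (!ε) y = some y') :
    tau τ ε y' = some y := by
  cases ε
  · simp only [tau, Bool.not_false, if_true] at h
    simp only [tau, Bool.false_eq_true, if_false]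
    exact (PEquiv.eq_some_iff τ).2 h
  · simp only [tau, Bool.not_true, Bool.false_eq_true, if_false] at h
    simp only [tau, if_true]
    exact (PEquiv.eq_some_iff τ).1 h

section

variable {G Y : Type*} [Group G] {τ : Y ≃. Y}

theorem tact_base_some {ε : Bool} {y y' : Y} (h : tau τ ε y = some y') :
    tact τ ε (.base y : Z0 G Y) = .base y' := by
  simp only [tact, h]

theorem tact_base_none {ε : Bool} {y : Y} (h : tau τ ε y = none) :
    tact τ ε (.base y : Z0 G Y) = .node 1 ε (.base y) := by
  simp only [tact, h]

theorem tact_node_not (ε : Bool) (z : Z0 G Y) :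
    tact τ ε (.node 1 (!ε) z : Z0 G Y) = z := by
  simp only [tact, and_self, if_true]

theorem tact_node_neg {ε ε' : Bool} {g : G} {z : Z0 G Y} (h : ¬ (g = 1 ∧ ε' = !ε)) :
    tact τ ε (.node g ε' z : Z0 G Y) = .node 1 ε (.node g ε' z) := by
  simp only [tact, if_neg h]

theorem NF.tail {g : G} {ε : Bool} {z : Z0 G Y} (h : NF τ (.node g ε z)) : NF τ z := by
  cases z with
  | base y => trivial
  | node g' ε' z => exact h.2

theorem NF_tact (ε : Bool) {z : Z0 G Y} (h : NF τ z) : NF τ (tact τ ε z) := by
  cases z with
  | base y =>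
    cases hy : tau τ ε y with
    | some y' => rw [tact_base_some hy]; trivial
    | none => rw [tact_base_none hy]; exact hy
  | node g ε' z =>
    by_cases hc : g = 1 ∧ ε' = !ε
    · obtain ⟨rfl, rfl⟩ := hc
      rw [tact_node_not]; exact h.tail
    · rw [tact_node_neg hc]
      refine ⟨fun hg => ?_, h⟩
      by_contra hne
      apply hc
      refine ⟨hg, ?_⟩
      cases ε <;> cases ε' <;> simp_all

theorem tact_tact (ε : Bool) {z : Z0 G Y} (h : NF τ z) : tact τ ε (tact τ (!ε) z) = z := by
  cases z with
  | base y =>
    cases hy : tau τ (!ε) y with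
    | some y' =>
      rw [tact_base_some hy, tact_base_some (tau_not hy)]
    | none =>
      rw [tact_base_none hy, tact_node_not]
  | node g ε' z =>
    by_cases hc : g = 1 ∧ ε' = ε
    · obtain ⟨rfl, rfl⟩ := hc
      have h1 : tact τ (!ε') (.node 1 ε' z : Z0 G Y) = z := by
        have := tact_node_not (τ := τ) (!ε') z
        rwa [Bool.not_not] at this
      rw [h1]
      cases z with
      | base y => exact tact_base_none h
      | node g'' ε'' z =>
        apply tact_node_neg
        rintro ⟨h4, h5⟩
        have h6 := h.1 h4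
        rw [h6] at h5
        cases ε' <;> exact absurd h5 (by decide)
    · have h3 : ¬ (g = 1 ∧ ε' = !(!ε)) := by rwa [Bool.not_not]
      rw [tact_node_neg h3, tact_node_not]

/-- The permutation of the completed set given by `t`. -/
noncomputable def tPerm (τ : Y ≃. Y) : Equiv.Perm (ZZ G τ) where
  toFun z := ⟨tact τ true z.1, NF_tact true z.2⟩
  invFun z := ⟨tact τ false z.1, NF_tact false z.2⟩
  left_inv z := Subtype.ext (tact_tact false z.2)
  right_inv z := Subtype.ext (tact_tact true z.2)

end

variable {G Y : Type*} [Group G] [MulAction G Y] {τ : Y ≃. Y}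

theorem NF_gact (g : G) {z : Z0 G Y} (h : NF τ z) : NF τ (gact g z) := by
  cases z with
  | base y => trivial
  | node k ε z => cases z with
    | base y => exact h
    | node g' ε' z => exact h

theorem gact_one (z : Z0 G Y) : gact 1 z = z := by
  cases z <;> simp [gact]

theorem gact_mul (g h : G) (z : Z0 G Y) : gact (g * h) z = gact g (gact h z) := by
  cases z <;> simp [gact, mul_smul, mul_assoc]

/-- The permutation of the completed set given by `g`. -/
def gEquiv (τ : Y ≃. Y) (g : G) : Equiv.Perm (ZZ G τ) where
  toFun z := ⟨gact g z.1, NF_gact g z.2⟩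
  invFun z := ⟨gact g⁻¹ z.1, NF_gact g⁻¹ z.2⟩
  left_inv z := Subtype.ext (by
    change gact g⁻¹ (gact g z.1) = z.1
    rw [← gact_mul, inv_mul_cancel, gact_one])
  right_inv z := Subtype.ext (by
    change gact g (gact g⁻¹ z.1) = z.1
    rw [← gact_mul, mul_inv_cancel, gact_one])

/-- The action of `G` on the completed set. -/
def gPerm (τ : Y ≃. Y) : G →* Equiv.Perm (ZZ G τ) where
  toFun := gEquiv τ
  map_one' := Equiv.ext fun z => Subtype.ext (gact_one z.1)
  map_mul' g h := Equiv.ext fun z => Subtype.ext (gact_mul g h z.1)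

/-- The action of the free product on the completed set. -/
noncomputable instance ZZ.action (τ : Y ≃. Y) : MulAction (FPr G) (ZZ G τ) :=
  MulAction.compHom _ (Monoid.Coprod.lift (gPerm τ) (zpowersHom _ (tPerm τ)))

theorem ZZ.smul_def (x : FPr G) (z : ZZ G τ) :
    x • z = (Monoid.Coprod.lift (gPerm τ) (zpowersHom _ (tPerm τ)) x) z := rfl

theorem ZZ.inG_smul (g : G) (z : ZZ G τ) : (inG g • z).1 = gact g z.1 := by
  rw [ZZ.smul_def, inG, Monoid.Coprod.lift_apply_inl]
  rfl

theorem ZZ.tt_smul (z : ZZ G τ) : ((tt : FPr G) • z : ZZ G τ) = tPerm τ z := by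
  rw [ZZ.smul_def, tt, Monoid.Coprod.lift_apply_inr]
  simp [zpowersHom]

theorem ZZ.te_smul (ε : Bool) (z : ZZ G τ) : ((te ε : FPr G) • z : ZZ G τ).1 = tact τ ε z.1 := by
  cases ε
  · have h1 : ((te false : FPr G) • z : ZZ G τ) = (tPerm τ)⁻¹ z := by
      have h2 : (tt : FPr G) • ((te false : FPr G) • z : ZZ G τ) = z := by
        rw [← mul_smul]; simp [te]
      rw [ZZ.tt_smul] at h2
      rw [Equiv.Perm.eq_inv_iff_eq]; exact h2
    rw [h1]; rfl
  · have h1 : ((te true : FPr G) • z : ZZ G τ) = tPerm τ z := ZZ.tt_smul z
    rw [h1]; rfl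

theorem te_mul_te {G : Type*} [Group G] (ε : Bool) : (te ε * te (!ε) : FPr G) = 1 := by
  cases ε <;> simp [te]

/-- Induction on the free product. -/
theorem FPr.induction {G : Type*} [Group G] {p : FPr G → Prop} (h1 : p 1)
    (hg : ∀ (g : G) (x : FPr G), p x → p (inG g * x))
    (ht : ∀ (ε : Bool) (x : FPr G), p x → p (te ε * x)) (x : FPr G) : p x := by
  have key : ∀ y : FPr G, ∀ x : FPr G, p x → p (y * x) := by
    intro y
    induction y using Monoid.Coprod.induction_on with
    | inl g => intro x hx; exact hg g x hx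
    | inr n =>
      have hn : ∀ m : ℤ, ∀ x : FPr G, p x → p (tt ^ m * x) := by
        intro m
        induction m using Int.induction_on with
        | zero => intro x hx; simpa using hx
        | succ i ih =>
          intro x hx
          rw [add_comm, zpow_add, zpow_one, mul_assoc]
          exact ht true _ (ih x hx)
        | pred i ih =>
          intro x hx
          rw [sub_eq_add_neg, add_comm, zpow_add, zpow_neg_one, mul_assoc]
          exact ht false _ (ih x hx)
      intro x hx
      have h3 := hn (Multiplicative.toAdd n) x hx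
      have h4 : (tt : FPr G) ^ (Multiplicative.toAdd n) = Monoid.Coprod.inr n := by
        rw [tt, ← map_zpow]
        congr 1
        rw [← ofAdd_zsmul]; simp
      rwa [h4] at h3
    | mul a b iha ihb =>
      intro x hx
      rw [mul_assoc]
      exact iha _ (ihb x hx)
  have := key x 1 h1
  rwa [mul_one] at this

end TD
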