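import Pool.Agent.TD.FreeA

/-!
# Module FreeB: words and the word metric on the free product.  Blueprint section 17 (W, F1-F4).
`WW G` is the completed set of the regular `G`-set with the empty partial injection; the orbit map
of the base point `1` is a bijection from the free product to `WW G`.
-/

set_option autoImplicit false
set_option linter.unusedSimpArgs false
set_option linter.unusedVariables false

namespace TD

/-- Normal words. -/
abbrev WW (G : Type*) [Group G] : Type _ := ZZ G (⊥ : G ≃. G)

/-- Evaluation of words. -/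
noncomputable def ev {G : Type*} [Group G] : Z0 G G → FPr G
  | .base g => inG g
  | .node g ε z => inG g * te ε * ev z

/-- The word of an element. -/
noncomputable def wd {G : Type*} [Group G] (x : FPr G) : WW G := x • ZZ.base (⊥ : G ≃. G) 1

/-- Norm of a raw word. -/
def nrm {G : Type*} [Group G] (d : G → G → ℕ) : Z0 G G → ℕ
  | .base g => d 1 g
  | .node g _ z => d 1 g + 1 + nrm d z

/-- Norm of a raw word without its first entry. -/
def tnrm {G : Type*} [Group G] (d : G → G → ℕ) : Z0 G G → ℕ
  | .base _ => 0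
  | .node _ _ z => 1 + nrm d z

open Classical in
/-- Distance of raw words. -/
noncomputable def dW {G : Type*} [Group G] (d : G → G → ℕ) : Z0 G G → Z0 G G → ℕ
  | .base g, .base h => d g h
  | .base g, .node h _ w => d g h + 1 + nrm d w
  | .node g _ z, .base h => d g h + 1 + nrm d z
  | .node g ε z, .node h ε' w =>
    if g = h ∧ ε = ε' then dW d z w else d g h + (1 + nrm d z) + (1 + nrm d w)

/-- The metric of the free product. -/
noncomputable def dF {G : Type*} [Group G] (d : G → G → ℕ) (x y : FPr G) : ℕ :=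
  dW d (wd x).1 (wd y).1

variable {G : Type*} [Group G] {d : G → G → ℕ} {δ : ℕ}

theorem tau_bot {Y : Type*} (ε : Bool) (y : Y) : tau (⊥ : Y ≃. Y) ε y = none := by
  cases ε <;> rfl

theorem ev_gact (g : G) (z : Z0 G G) : ev (gact g z) = inG g * ev z := by
  cases z with
  | base y => simp [gact, ev]
  | node h ε z => simp [gact, ev, mul_assoc]

theorem ev_tact (ε : Bool) (z : Z0 G G) : ev (tact (⊥ : G ≃. G) ε z) = te ε * ev z := by
  cases z with
  | base y =>
    rw [tact_base_none (tau_bot ε y)]
    simp [ev]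
  | node h ε' z =>
    by_cases hc : h = 1 ∧ ε' = !ε
    · obtain ⟨rfl, rfl⟩ := hc
      rw [tact_node_not]
      simp only [ev, map_one, one_mul]
      rw [← mul_assoc, te_mul_te, one_mul]
    · rw [tact_node_neg hc]
      simp [ev]

theorem ev_smul (x : FPr G) (z : WW G) : ev (x • z).1 = x * ev z.1 := by
  induction x using FPr.induction generalizing z with
  | h1 => simp
  | hg g x ih =>
    rw [mul_smul, ZZ.inG_smul, ev_gact, ih, mul_assoc]
  | ht ε x ih =>
    rw [mul_smul, ZZ.te_smul, ev_tact, ih, mul_assoc]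

theorem ev_wd (x : FPr G) : ev (wd x).1 = x := by
  unfold wd
  rw [ev_smul]
  simp [ZZ.base, ev]

theorem tact_of_NF {g : G} {ε : Bool} {z : Z0 G G} (h : NF (⊥ : G ≃. G) (.node g ε z)) :
    tact (⊥ : G ≃. G) ε z = .node 1 ε z := by
  cases z with
  | base y => exact tact_base_none (tau_bot ε y)
  | node g' ε' z =>
    apply tact_node_neg
    rintro ⟨h4, h5⟩
    have h6 := h.1 h4
    rw [h6] at h5
    cases ε <;> exact absurd h5 (by decide)

theorem wd_ev (z : WW G) : wd (ev z.1) = z := by
  obtain ⟨z, hz⟩ := z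
  induction z with
  | base g =>
    apply Subtype.ext
    change (inG g • ZZ.base (⊥ : G ≃. G) 1).1 = Z0.base g
    rw [ZZ.inG_smul]
    simp [ZZ.base, gact]
  | node g ε z ih =>
    apply Subtype.ext
    have h1 := ih hz.tail
    change ((inG g * te ε * ev z) • ZZ.base (⊥ : G ≃. G) 1).1 = Z0.node g ε z
    unfold wd at h1
    rw [mul_smul, mul_smul, ZZ.inG_smul, ZZ.te_smul, h1]
    change gact g (tact (⊥ : G ≃. G) ε z) = Z0.node g ε z
    rw [tact_of_NF hz]
    simp [gact]

theorem wd_inG (g : G) : (wd (inG g)).1 = .base g := by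
  unfold wd
  rw [ZZ.inG_smul]
  simp [ZZ.base, gact]

/-- If `node g ε z` is a normal word then it is the word of `inG g * te ε * ev z`. -/
theorem wd_node (g : G) (ε : Bool) (x : FPr G) (h : NF (⊥ : G ≃. G) (.node g ε (wd x).1)) :
    (wd (inG g * te ε * x)).1 = .node g ε (wd x).1 := by
  have h1 : wd (inG g * te ε * x) = (inG g : FPr G) • ((te ε : FPr G) • wd x) := by
    unfold wd
    rw [mul_smul, mul_smul]
  rw [h1, ZZ.inG_smul, ZZ.te_smul, tact_of_NF h]
  simp [gact]

theorem wd_one : (wd (1 : FPr G)).1 = Z0.base (1 : G) := by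
  have h := wd_inG (1 : G)
  rwa [map_one (inG : G →* FPr G)] at h

theorem dF_one (hG : IsHG d δ) (x : FPr G) : dF d 1 x = nrm d (wd x).1 := by
  unfold dF
  rw [wd_one (G := G)]
  cases (wd x).1 with
  | base h => simp [dW, nrm]
  | node h ε w => simp [dW, nrm]

/-- The first entry of a raw word. -/
def hd : Z0 G G → G
  | .base g => g
  | .node g _ _ => g

/-- Words with the same first letter. -/
def Shr : Z0 G G → Z0 G G → Prop
  | .node g ε _, .node h ε' _ => g = h ∧ ε = ε'
  | _, _ => False

omit [Group G] in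
theorem hd_b (g : G) : hd (.base g) = g := rfl

omit [Group G] in
theorem hd_n (g : G) (ε : Bool) (z : Z0 G G) : hd (.node g ε z) = g := rfl

theorem tnrm_b (g : G) : tnrm d (.base g) = 0 := rfl

theorem tnrm_n (g : G) (ε : Bool) (z : Z0 G G) : tnrm d (.node g ε z) = 1 + nrm d z := rfl

theorem nrm_b (g : G) : nrm d (.base g) = d 1 g := rfl

theorem nrm_n (g : G) (ε : Bool) (z : Z0 G G) :
    nrm d (.node g ε z) = d 1 g + 1 + nrm d z := rfl

omit [Group G] in
theorem Shr.symm {z w : Z0 G G} (h : Shr z w) : Shr w z := by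
  cases z <;> cases w <;> simp_all [Shr]

omit [Group G] in
theorem Shr.trans {x y z : Z0 G G} (h : Shr x y) (h' : Shr y z) : Shr x z := by
  cases x <;> cases y <;> cases z <;> simp_all [Shr]

omit [Group G] in
theorem Shr.elim {z w : Z0 G G} (h : Shr z w) :
    ∃ g ε z' w', z = .node g ε z' ∧ w = .node g ε w' := by
  cases z with
  | base g => exact absurd h (by simp [Shr])
  | node g ε z' =>
    cases w with
    | base k => exact absurd h (by simp [Shr])
    | node k ε' w' =>
      obtain ⟨rfl, rfl⟩ := h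
      exact ⟨g, ε, z', w', rfl, rfl⟩

theorem dW_sh (g : G) (ε : Bool) (z w : Z0 G G) :
    dW d (.node g ε z) (.node g ε w) = dW d z w := by
  simp [dW]

theorem nrm_eq (z : Z0 G G) : nrm d z = d 1 (hd z) + tnrm d z := by
  cases z <;> simp [nrm, hd, tnrm, add_assoc]

theorem dW_ns {z w : Z0 G G} (h : ¬ Shr z w) :
    dW d z w = d (hd z) (hd w) + tnrm d z + tnrm d w := by
  cases z with
  | base g =>
    cases w with
    | base k => simp [dW, hd, tnrm]
    | node k ε' w' => simp [dW, hd, tnrm, add_assoc]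
  | node g ε z' =>
    cases w with
    | base k => simp [dW, hd, tnrm, add_assoc]
    | node k ε' w' =>
      have h' : ¬ (g = k ∧ ε = ε') := h
      simp [dW, hd, tnrm, h']

theorem hd_gact (g : G) (z : Z0 G G) : hd (gact g z) = g * hd z := by
  cases z <;> simp [hd, gact]

theorem tnrm_gact (g : G) (z : Z0 G G) : tnrm d (gact g z) = tnrm d z := by
  cases z <;> simp [tnrm, gact]

theorem shr_gact (g : G) (z w : Z0 G G) : Shr (gact g z) (gact g w) ↔ Shr z w := by
  cases z <;> cases w <;> simp [Shr, gact]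

theorem dW_gact (hG : IsHG d δ) (g : G) (z w : Z0 G G) :
    dW d (gact g z) (gact g w) = dW d z w := by
  by_cases h : Shr z w
  · obtain ⟨k, ε, z', w', rfl, rfl⟩ := h.elim
    simp only [gact]
    rw [dW_sh, dW_sh]
  · have h' : ¬ Shr (gact g z) (gact g w) := by rwa [shr_gact]
    rw [dW_ns h, dW_ns h', hd_gact, hd_gact, tnrm_gact, tnrm_gact, hG.inv]

/-- A word either starts with the letter `(1, ε)` or `tact` adds the letter `(1, !ε)`. -/
theorem tact_alt (ε : Bool) (z : Z0 G G) :
    (∃ z', z = .node 1 (!ε) z') ∨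
      (tact (⊥ : G ≃. G) ε z = .node 1 ε z ∧ ∀ z', z ≠ .node 1 (!ε) z') := by
  cases z with
  | base y => exact Or.inr ⟨tact_base_none (tau_bot ε y), fun z' h => by cases h⟩
  | node g ε' z =>
    by_cases hc : g = 1 ∧ ε' = !ε
    · obtain ⟨rfl, rfl⟩ := hc
      exact Or.inl ⟨z, rfl⟩
    · refine Or.inr ⟨tact_node_neg hc, ?_⟩
      intro z' h
      injection h with h1 h2 h3
      exact hc ⟨h1, h2⟩

theorem not_shr_of_NF {g : G} {ε : Bool} {z : Z0 G G} (h : NF (⊥ : G ≃. G) (.node g (!ε) z))
    (w : Z0 G G) : ¬ Shr z (.node 1 ε w) := by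
  cases z with
  | base y => simp [Shr]
  | node g' ε' z =>
    rintro ⟨h1, h2⟩
    have h3 := h.1 h1
    rw [h2] at h3
    cases ε <;> exact absurd h3 (by decide)

theorem dW_tact (hG : IsHG d δ) (ε : Bool) {z w : Z0 G G} (hz : NF (⊥ : G ≃. G) z)
    (hw : NF (⊥ : G ≃. G) w) :
    dW d (tact (⊥ : G ≃. G) ε z) (tact (⊥ : G ≃. G) ε w) = dW d z w := by
  have aux : ∀ (z' w : Z0 G G), NF (⊥ : G ≃. G) (.node 1 (!ε) z') →
      (∀ w', w ≠ .node 1 (!ε) w') →
      dW d z' (.node 1 ε w) = dW d (.node 1 (!ε) z') w := by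
    intro z' w h1 h2
    have h3 : ¬ Shr (.node 1 (!ε) z') w := by
      cases w with
      | base y => simp [Shr]
      | node g ε' w =>
        rintro ⟨h3, h4⟩
        exact h2 w (by rw [← h3, ← h4])
    rw [dW_ns (not_shr_of_NF h1 w), dW_ns h3]
    have e1 := nrm_eq (d := d) z'
    have e2 := nrm_eq (d := d) w
    have e3 := hG.symm (hd z') 1
    simp only [hd_b, hd_n, tnrm_b, tnrm_n]
    omega
  have sy : ∀ z w : Z0 G G, dW d z w = dW d w z := by
    intro z
    induction z with
    | base g =>
      intro w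
      rw [dW_ns (by cases w <;> simp [Shr]), dW_ns (by cases w <;> simp [Shr]), hG.symm]
      omega
    | node g ε z ih =>
      intro w
      by_cases h : Shr (.node g ε z) w
      · obtain ⟨k, ε, z', w', h1, rfl⟩ := h.elim
        injection h1 with h1 h2 h3
        subst h1 h2 h3
        rw [dW_sh, dW_sh, ih]
      · rw [dW_ns h, dW_ns (fun h' => h h'.symm), hG.symm]
        omega
  rcases tact_alt ε z with ⟨z', rfl⟩ | ⟨h1, h2⟩
  · rcases tact_alt ε w with ⟨w', rfl⟩ | ⟨h3, h4⟩
    · rw [tact_node_not, tact_node_not, dW_sh]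
    · rw [tact_node_not, h3]
      exact aux z' w hz h4
  · rcases tact_alt ε w with ⟨w', rfl⟩ | ⟨h3, h4⟩
    · rw [tact_node_not, h1, sy, aux w' z hw h2, sy]
    · rw [h1, h3, dW_sh]

theorem wd_mul (x y : FPr G) : wd (x * y) = x • wd y := by
  unfold wd
  rw [mul_smul]

/-- F1 -/
theorem dF_inv (hG : IsHG d δ) (g x y : FPr G) : dF d (g * x) (g * y) = dF d x y := by
  induction g using FPr.induction generalizing x y with
  | h1 => simp
  | hg g z ih =>
    rw [mul_assoc, mul_assoc, ← ih x y]
    unfold dF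
    rw [wd_mul (inG g) (z * x), wd_mul (inG g) (z * y), ZZ.inG_smul, ZZ.inG_smul, dW_gact hG]
  | ht ε z ih =>
    rw [mul_assoc, mul_assoc, ← ih x y]
    unfold dF
    rw [wd_mul (te ε) (z * x), wd_mul (te ε) (z * y), ZZ.te_smul, ZZ.te_smul,
      dW_tact hG ε (wd _).2 (wd _).2]

omit [Group G] in
theorem not_shr_base (g : G) (w : Z0 G G) : ¬ Shr (.base g) w := by
  cases w <;> simp [Shr]

theorem dW_self (hG : IsHG d δ) (z : Z0 G G) : dW d z z = 0 := by
  induction z with
  | base g => simp [dW, hG.self]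
  | node g ε z ih => rw [dW_sh, ih]

theorem dW_symm (hG : IsHG d δ) (z w : Z0 G G) : dW d z w = dW d w z := by
  induction z generalizing w with
  | base g =>
    rw [dW_ns (not_shr_base g w), dW_ns (fun h => not_shr_base g w h.symm), hG.symm]
    omega
  | node g ε z ih =>
    by_cases h : Shr (.node g ε z) w
    · obtain ⟨k, ε, z', w', h1, rfl⟩ := h.elim
      injection h1 with h1 h2 h3
      subst h1 h2 h3
      rw [dW_sh, dW_sh, ih]
    · rw [dW_ns h, dW_ns (fun h' => h h'.symm), hG.symm]
      omega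

theorem dW_eq (hG : IsHG d δ) (z w : Z0 G G) (h0 : dW d z w = 0) : z = w := by
  induction z generalizing w with
  | base g =>
    cases w with
    | base k =>
      have h1 : d g k = 0 := h0
      rw [hG.eq_of _ _ h1]
    | node k ε w => simp [dW] at h0
  | node g ε z ih =>
    by_cases h : Shr (.node g ε z) w
    · obtain ⟨k, ε, z', w', h1, rfl⟩ := h.elim
      injection h1 with h1 h2 h3
      subst h1 h2 h3
      rw [dW_sh] at h0
      rw [ih _ h0]
    · rw [dW_ns h] at h0
      simp [tnrm] at h0

/-- The norm of a word is at least its distance minus the norm of the other word. -/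
theorem dW_le (hG : IsHG d δ) (z w : Z0 G G) : dW d z w ≤ nrm d z + nrm d w := by
  induction z generalizing w with
  | base g =>
    rw [dW_ns (not_shr_base g w)]
    have h1 := hG.tri g 1 (hd w)
    have h2 := hG.symm g 1
    have h3 := nrm_eq (d := d) w
    simp only [hd_b, hd_n, tnrm_b, tnrm_n, nrm_b, nrm_n]
    omega
  | node g ε z ih =>
    by_cases h : Shr (.node g ε z) w
    · obtain ⟨k, ε, z', w', h1, rfl⟩ := h.elim
      injection h1 with h1 h2 h3
      subst h1 h2 h3
      rw [dW_sh]
      have := ih w'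
      simp only [nrm_b, nrm_n]
      omega
    · rw [dW_ns h]
      have h1 := hG.tri (hd (.node g ε z)) 1 (hd w)
      have h2 := hG.symm (hd (.node g ε z)) 1
      have h3 := nrm_eq (d := d) w
      have h4 := nrm_eq (d := d) (.node g ε z)
      omega

theorem nrm_le (hG : IsHG d δ) (z w : Z0 G G) : nrm d z ≤ dW d z w + nrm d w := by
  induction z generalizing w with
  | base g =>
    rw [dW_ns (not_shr_base g w)]
    have h1 := hG.tri 1 (hd w) g
    have h2 := hG.symm g (hd w)
    have h3 := nrm_eq (d := d) w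
    simp only [hd_b, hd_n, tnrm_b, tnrm_n, nrm_b, nrm_n]
    omega
  | node g ε z ih =>
    by_cases h : Shr (.node g ε z) w
    · obtain ⟨k, ε, z', w', h1, rfl⟩ := h.elim
      injection h1 with h1 h2 h3
      subst h1 h2 h3
      rw [dW_sh]
      have := ih w'
      simp only [nrm_b, nrm_n]
      omega
    · rw [dW_ns h]
      have h1 := hG.tri 1 (hd w) (hd (.node g ε z))
      have h2 := hG.symm (hd (.node g ε z)) (hd w)
      have h3 := nrm_eq (d := d) w
      have h4 := nrm_eq (d := d) (.node g ε z)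
      omega

theorem dW_tri (hG : IsHG d δ) (x y z : Z0 G G) : dW d x z ≤ dW d x y + dW d y z := by
  induction x generalizing y z with
  | base g =>
    rw [dW_ns (not_shr_base g z), dW_ns (not_shr_base g y)]
    by_cases h : Shr y z
    · obtain ⟨k, ε, y', z', rfl, rfl⟩ := h.elim
      rw [dW_sh]
      have h1 := nrm_le hG z' y'
      have h2 := dW_symm hG z' y'
      simp only [hd_b, hd_n, tnrm_b, tnrm_n]
      omega
    · rw [dW_ns h]
      have h1 := hG.tri g (hd y) (hd z)
      simp only [hd_b, hd_n, tnrm_b, tnrm_n] at *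
      omega
  | node g ε x ih =>
    by_cases hxy : Shr (.node g ε x) y
    · obtain ⟨k, ε, x', y', h1, rfl⟩ := hxy.elim
      injection h1 with h1 h2 h3
      subst h1 h2 h3
      by_cases hyz : Shr (.node g ε y') z
      · obtain ⟨k, ε, x', z', h1, rfl⟩ := hyz.elim
        injection h1 with h1 h2 h3
        subst h1 h2 h3
        rw [dW_sh, dW_sh, dW_sh]
        exact ih _ _
      · have hxz : ¬ Shr (.node g ε x) z := fun h => hyz (Shr.trans (Shr.symm hxy) h)
        rw [dW_sh, dW_ns hyz, dW_ns hxz]
        have h1 := nrm_le hG x y'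
        simp only [hd_b, hd_n, tnrm_b, tnrm_n]
        omega
    · by_cases hyz : Shr y z
      · have hxz : ¬ Shr (.node g ε x) z := fun h => hxy (h.trans hyz.symm)
        obtain ⟨k, ε', y', z', rfl, rfl⟩ := hyz.elim
        rw [dW_sh, dW_ns hxy, dW_ns hxz]
        have h1 := nrm_le hG z' y'
        have h2 := dW_symm hG z' y'
        simp only [hd_b, hd_n, tnrm_b, tnrm_n]
        omega
      · by_cases hxz : Shr (.node g ε x) z
        · rw [dW_ns hxy, dW_ns hyz]
          obtain ⟨k, ε, x', z', h1, rfl⟩ := hxz.elim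
          injection h1 with h1 h2 h3
          subst h1 h2 h3
          rw [dW_sh]
          have h1 := dW_le hG x z'
          simp only [hd_b, hd_n, tnrm_b, tnrm_n]
          omega
        · rw [dW_ns hxy, dW_ns hyz, dW_ns hxz]
          have h1 := hG.tri (hd (.node g ε x)) (hd y) (hd z)
          omega

theorem wd_te (ε : Bool) : (wd (te ε : FPr G)).1 = .node 1 ε (.base 1) := by
  have h := wd_node (1 : G) ε (1 : FPr G) (by rw [wd_one]; exact tau_bot ε 1)
  rw [wd_one] at h
  simpa using h

/-- F2 -/
theorem isGM_dF (hG : IsHG d δ) : IsGM (dF d) := by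
  refine ⟨?_, ?_, ?_, ?_, ?_⟩
  · intro x
    exact dW_self hG _
  · intro x y h
    have h1 := dW_eq hG _ _ h
    have h2 := ev_wd x
    rw [h1, ev_wd] at h2
    exact h2.symm
  · intro x y
    exact dW_symm hG _ _
  · intro x y z
    exact dW_tri hG _ _ _
  · intro x y n hn
    have h1 : dF d 1 (x⁻¹ * y) = n + 1 := by
      rw [← hn, ← dF_inv hG x 1 (x⁻¹ * y)]
      simp
    obtain ⟨z, hz1, hz2⟩ : ∃ z, dF d 1 z = 1 ∧ dF d z (x⁻¹ * y) = n := by
      have h2 := ev_wd (x⁻¹ * y)
      have h3 := h1
      rw [dF_one hG] at h3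
      cases hw : (wd (x⁻¹ * y)).1 with
      | base g =>
        rw [hw] at h3
        obtain ⟨g', h4, h5⟩ := hG.step 1 g n h3
        refine ⟨inG g', ?_, ?_⟩
        · rw [dF_one hG, wd_inG]
          exact h4
        · unfold dF
          rw [wd_inG, hw]
          exact h5
      | node g ε w =>
        rw [hw] at h3
        simp only [nrm_b, nrm_n] at h3
        rcases Nat.eq_zero_or_pos (d 1 g) with h4 | h4
        · have h5 := hG.eq_of _ _ h4
          subst h5
          refine ⟨te ε, ?_, ?_⟩
          · rw [dF_one hG, wd_te]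
            simp [nrm, hG.self]
          · unfold dF
            rw [wd_te, hw, dW_sh]
            have h6 : ¬ Shr (.base 1) w := by cases w <;> simp [Shr]
            rw [dW_ns h6]
            have h7 := nrm_eq (d := d) w
            simp only [hd_b, hd_n, tnrm_b, tnrm_n]
            omega
        · obtain ⟨m, hm⟩ : ∃ m, d 1 g = m + 1 := ⟨d 1 g - 1, by omega⟩
          obtain ⟨g', h5, h6⟩ := hG.step 1 g m hm
          refine ⟨inG g', ?_, ?_⟩
          · rw [dF_one hG, wd_inG]
            exact h5
          · unfold dF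
            rw [wd_inG, hw]
            simp only [dW]
            omega
    refine ⟨x * z, ?_, ?_⟩
    · have := dF_inv hG x 1 z
      rw [mul_one] at this
      rw [this, hz1]
    · have := dF_inv hG x z (x⁻¹ * y)
      rw [mul_inv_cancel_left] at this
      rw [this, hz2]

theorem dW_hyp (hG : IsHG d δ) (x y z : Z0 G G) :
    dW d x z + nrm d y ≤ dW d x y + nrm d z + δ ∨
      dW d x z + nrm d y ≤ dW d y z + nrm d x + δ := by
  induction x generalizing y z with
  | base g =>
    rw [dW_ns (not_shr_base g z), dW_ns (not_shr_base g y)]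
    by_cases h : Shr y z
    · obtain ⟨k, ε, y', z', rfl, rfl⟩ := h.elim
      left
      simp only [hd_b, hd_n, tnrm_b, tnrm_n, nrm_b, nrm_n]
      omega
    · rw [dW_ns h]
      have h1 := hG.hyp g (hd y) (hd z) 1
      have h2 := hG.symm (hd y) 1
      have h3 := hG.symm (hd z) 1
      have h4 := hG.symm g 1
      have h5 := nrm_eq (d := d) y
      have h6 := nrm_eq (d := d) z
      simp only [hd_b, hd_n, tnrm_b, tnrm_n, nrm_b, nrm_n] at *
      omega
  | node g ε x ih =>
    by_cases hxy : Shr (.node g ε x) y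
    · obtain ⟨k, ε, x', y', h1, rfl⟩ := hxy.elim
      injection h1 with h1 h2 h3
      subst h1 h2 h3
      by_cases hyz : Shr (.node g ε y') z
      · obtain ⟨k, ε, x', z', h1, rfl⟩ := hyz.elim
        injection h1 with h1 h2 h3
        subst h1 h2 h3
        rw [dW_sh, dW_sh, dW_sh]
        have := ih y' z'
        simp only [nrm_b, nrm_n]
        omega
      · have hxz : ¬ Shr (.node g ε x) z := fun h => hyz (Shr.trans (Shr.symm hxy) h)
        rw [dW_sh, dW_ns hyz, dW_ns hxz]
        right
        simp only [hd_b, hd_n, tnrm_b, tnrm_n, nrm_b, nrm_n]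
        omega
    · by_cases hyz : Shr y z
      · have hxz : ¬ Shr (.node g ε x) z := fun h => hxy (h.trans hyz.symm)
        obtain ⟨k, ε', y', z', rfl, rfl⟩ := hyz.elim
        rw [dW_sh, dW_ns hxy, dW_ns hxz]
        left
        simp only [hd_b, hd_n, tnrm_b, tnrm_n, nrm_b, nrm_n]
        omega
      · by_cases hxz : Shr (.node g ε x) z
        · rw [dW_ns hxy, dW_ns hyz]
          obtain ⟨k, ε, x', z', h1, rfl⟩ := hxz.elim
          injection h1 with h1 h2 h3
          subst h1 h2 h3
          rw [dW_sh]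
          have h1 := dW_le hG x z'
          have h2 := nrm_eq (d := d) y
          have h3 := hG.tri 1 g (hd y)
          left
          simp only [hd_b, hd_n, tnrm_b, tnrm_n, nrm_b, nrm_n]
          omega
        · rw [dW_ns hxy, dW_ns hyz, dW_ns hxz]
          have h1 := hG.hyp (hd (.node g ε x)) (hd y) (hd z) 1
          have h2 := hG.symm (hd y) 1
          have h3 := hG.symm (hd z) 1
          have h4 := hG.symm (hd (.node g ε x)) 1
          have h5 := nrm_eq (d := d) y
          have h6 := nrm_eq (d := d) z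
          have h7 := nrm_eq (d := d) (.node g ε x)
          omega

/-- F3: the three-point inequality for Gromov products at `1`, i.e. hyperbolicity. -/
theorem hyp_dF (hG : IsHG d δ) : Hyp (dF d) δ := by
  intro x y z w
  have e : ∀ a b : FPr G, dF d (w⁻¹ * a) (w⁻¹ * b) = dF d a b := fun a b => dF_inv hG _ _ _
  have h := dW_hyp hG (wd (w⁻¹ * x)).1 (wd (w⁻¹ * y)).1 (wd (w⁻¹ * z)).1
  rw [← dF_one hG, ← dF_one hG, ← dF_one hG] at h
  change dF d (w⁻¹ * x) (w⁻¹ * z) + dF d 1 (w⁻¹ * y) ≤
      dF d (w⁻¹ * x) (w⁻¹ * y) + dF d 1 (w⁻¹ * z) + δ ∨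
      dF d (w⁻¹ * x) (w⁻¹ * z) + dF d 1 (w⁻¹ * y) ≤
      dF d (w⁻¹ * y) (w⁻¹ * z) + dF d 1 (w⁻¹ * x) + δ at h
  have e1 : ∀ a, dF d 1 (w⁻¹ * a) = dF d w a := by
    intro a
    have := e w a
    rwa [inv_mul_cancel] at this
  rw [e, e, e, e1, e1, e1] at h
  have hm := isGM_dF hG
  rw [hm.symm w y, hm.symm w z, hm.symm w x] at h
  exact h

/-- F4 -/
theorem fin_dF (hG : IsHG d δ) : {x : FPr G | dF d 1 x ≤ 1}.Finite := by
  apply Set.Finite.subset (((hG.fin).image (inG : G → FPr G)).union
    (Set.toFinite {te true, te false}))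
  intro x hx
  have h1 : nrm d (wd x).1 ≤ 1 := by rw [← dF_one hG]; exact hx
  have h2 := ev_wd x
  cases hw : (wd x).1 with
  | base g =>
    rw [hw] at h1 h2
    left
    exact ⟨g, h1, h2⟩
  | node g ε w =>
    rw [hw] at h1 h2
    simp only [nrm_b, nrm_n] at h1
    have h3 := hG.eq_of 1 g (by omega)
    subst h3
    cases w with
    | base k =>
      simp only [nrm_b, nrm_n] at h1
      have h4 := hG.eq_of 1 k (by omega)
      subst h4
      right
      simp only [ev, map_one, one_mul, mul_one] at h2
      rw [← h2]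
      cases ε <;> simp
    | node k ε' w =>
      simp only [nrm_b, nrm_n] at h1
      omega

theorem isHG_dF (hG : IsHG d δ) : IsHG (dF d) δ :=
  { isGM_dF hG with
    inv := dF_inv hG
    fin := fin_dF hG
    hyp := hyp_dF hG }

theorem dF_inG (hG : IsHG d δ) (g h : G) : dF d (inG g) (inG h) = d g h := by
  unfold dF
  rw [wd_inG, wd_inG]
  rfl

theorem inG_injective : Function.Injective (inG : G →* FPr G) := by
  intro g h hgh
  have h1 := wd_inG g
  rw [hgh, wd_inG] at h1
  injection h1 with h2
  exact h2.symm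

end TD
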