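import Pool.Agent.TD.FreeA

/-!
# Module FreeC: fixed points in the completed set.  Blueprint section 17 (F5).
-/

set_option autoImplicit false

namespace TD

variable {G Y : Type*} [Group G] [MulAction G Y] {τ : Y ≃. Y}

/-- Elliptic elements fix only base points. -/
theorem fix_inG {g : G} (hg : g ≠ 1) {z : ZZ G τ} (h : (inG g : FPr G) • z = z) :
    ∃ y, z = ZZ.base τ y ∧ g • y = y := by
  have h1 : gact g z.1 = z.1 := by
    rw [← ZZ.inG_smul, h]
  obtain ⟨w, hw⟩ := z
  cases w with
  | base y =>
    refine ⟨y, rfl, ?_⟩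
    simpa [gact] using h1
  | node k ε w =>
    exfalso
    simp only [gact, Z0.node.injEq, and_true] at h1
    exact hg (mul_eq_right.1 h1)

/-- The product `t ^ ε₁ * g₁ * t ^ ε₂ * g₂ * ...` of a list. -/
noncomputable def cprod {G : Type*} [Group G] : List (Bool × G) → FPr G
  | [] => 1
  | p :: l => te p.1 * inG p.2 * cprod l

/-- Cyclically reduced lists: for cyclically consecutive entries `(ε, g), (ε', g')` we have
`g = 1 → ε' = ε`. -/
def CycRed {G : Type*} [Group G] (l : List (Bool × G)) : Prop :=
  l ≠ [] ∧ (l ++ l).IsChain (fun p q => p.2 = 1 → q.1 = p.1)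

theorem cprod_append {G : Type*} [Group G] (a b : List (Bool × G)) :
    cprod (a ++ b) = cprod a * cprod b := by
  induction a with
  | nil => simp [cprod]
  | cons p a ih => simp only [List.cons_append, cprod, ih, mul_assoc]

/-- Multiplication of a non-empty product by an element of `G` on the right. -/
theorem cprod_mul_inG {G : Type*} [Group G] (g : G) (c : List (Bool × G)) (hc : c ≠ []) :
    ∃ c' : List (Bool × G), c'.length = c.length ∧ cprod c * inG g = cprod c' := by
  induction c with
  | nil => exact absurd rfl hc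
  | cons p c ih =>
    by_cases h : c = []
    · subst h
      refine ⟨[(p.1, p.2 * g)], rfl, ?_⟩
      simp [cprod, mul_assoc]
    · obtain ⟨c', hl, h'⟩ := ih h
      refine ⟨p :: c', by simp [hl], ?_⟩
      simp only [cprod, mul_assoc, ← h']

/-- The conclusion of `cyc_conj`. -/
def CC {G : Type*} [Group G] (x : FPr G) : Prop :=
  ∃ η : FPr G, (∃ g : G, x = η * inG g * η⁻¹) ∨
    (∃ l : List (Bool × G), CycRed l ∧ x = η * cprod l * η⁻¹)

theorem CC.conj {G : Type*} [Group G] {x : FPr G} (h : CC x) (ξ : FPr G) : CC (ξ * x * ξ⁻¹) := by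
  obtain ⟨η, h⟩ := h
  refine ⟨ξ * η, ?_⟩
  rcases h with ⟨g, rfl⟩ | ⟨l, hl, rfl⟩
  · exact Or.inl ⟨g, by group⟩
  · exact Or.inr ⟨l, hl, by group⟩

theorem CC.inG_mul {G : Type*} [Group G] (g : G) (n : ℕ)
    (ih : ∀ c : List (Bool × G), c.length < n → CC (cprod c)) (c : List (Bool × G))
    (hc : c.length < n) : CC (inG g * cprod c) := by
  by_cases h : c = []
  · subst h
    exact ⟨1, Or.inl ⟨g, by simp [cprod]⟩⟩
  · obtain ⟨c', hl, h'⟩ := cprod_mul_inG g c h
    have h1 := (ih c' (by omega)).conj (inG g)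
    rw [← h'] at h1
    have h2 : inG g * (cprod c * inG g) * (inG g)⁻¹ = inG g * cprod c := by group
    rwa [h2] at h1

theorem CC.front {G : Type*} [Group G] (n : ℕ)
    (ih : ∀ c : List (Bool × G), c.length < n → CC (cprod c)) (p q : Bool × G)
    (hpq : ¬ (p.2 = 1 → q.1 = p.1)) (c : List (Bool × G)) (hc : c.length < n) :
    CC (cprod (p :: q :: c)) := by
  push Not at hpq
  obtain ⟨h1, h2⟩ := hpq
  have h3 : q.1 = !p.1 := by
    cases hp : p.1 <;> cases hq : q.1 <;> simp_all
  have h4 : cprod (p :: q :: c) = inG q.2 * cprod c := by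
    simp only [cprod, h1, h3, map_one, mul_one, ← mul_assoc, te_mul_te, one_mul]
  rw [h4]
  exact CC.inG_mul q.2 n ih c hc

theorem CC.cprod {G : Type*} [Group G] (n : ℕ) : ∀ c : List (Bool × G), c.length < n →
    CC (cprod c) := by
  induction n with
  | zero => intro c hc; omega
  | succ n ih =>
    intro c hc
    by_cases h0 : c = []
    · subst h0
      exact ⟨1, Or.inl ⟨1, by simp [TD.cprod]⟩⟩
    by_cases hr : CycRed c
    · exact ⟨1, Or.inr ⟨c, hr, by simp⟩⟩
    have hr' : ¬ (c ++ c).IsChain (fun p q => p.2 = 1 → q.1 = p.1) := fun h => hr ⟨h0, h⟩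
    by_cases h1 : c.IsChain (fun p q : Bool × G => p.2 = 1 → q.1 = p.1)
    · have h2 : ¬ ∀ x ∈ c.getLast?, ∀ y ∈ c.head?, (x.2 = 1 → y.1 = x.1) := fun h =>
        hr' (List.isChain_append.2 ⟨h1, h1, h⟩)
      push Not at h2
      obtain ⟨p, hp, q, hq, hp1, hqp⟩ := h2
      have hpq : ¬ (p.2 = 1 → q.1 = p.1) := fun h => hqp (h hp1)
      cases c with
      | nil => exact absurd rfl h0
      | cons q' b' =>
        have hqq : q' = q := by simpa using hq
        subst hqq
        by_cases hb : b' = []
        · subst hb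
          have : q' = p := by simpa using hp
          subst this
          exact absurd rfl hqp
        · have hlast : b' = b'.dropLast ++ [p] := by
            have h5 : b'.getLast? = some p := by
              rw [List.getLast?_cons] at hp
              rw [List.getLast?_eq_some_getLast hb]
              rw [List.getLast?_eq_some_getLast hb] at hp
              simpa using hp
            rw [List.getLast?_eq_some_getLast hb] at h5
            rw [← Option.some.inj h5]
            exact (List.dropLast_append_getLast hb).symm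
          have h6 : TD.cprod (q' :: b') = (TD.cprod [p])⁻¹ *
              TD.cprod (p :: q' :: b'.dropLast) * ((TD.cprod [p])⁻¹)⁻¹ := by
            conv_lhs => rw [hlast, ← List.cons_append, cprod_append]
            have h7 : TD.cprod (p :: q' :: b'.dropLast)
                = TD.cprod [p] * TD.cprod (q' :: b'.dropLast) := by
              rw [← cprod_append]; rfl
            rw [h7]; group
          rw [h6]
          apply CC.conj
          apply CC.front n ih p q' hpq
          simp only [List.length_dropLast, List.length_cons] at hc ⊢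
          have : 0 < b'.length := List.length_pos_iff.2 hb
          omega
    · rw [List.isChain_iff_forall_rel_of_append_cons_cons] at h1
      push Not at h1
      obtain ⟨p, q, a, b, rfl, hp1, hqp⟩ := h1
      have hpq : ¬ (p.2 = 1 → q.1 = p.1) := fun h => hqp (h hp1)
      have h6 : TD.cprod (a ++ p :: q :: b) = TD.cprod a * TD.cprod (p :: q :: (b ++ a)) *
          (TD.cprod a)⁻¹ := by
        have h7 : (p :: q :: (b ++ a)) = (p :: q :: b) ++ a := rfl
        rw [h7, cprod_append, cprod_append]; group
      rw [h6]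
      apply CC.conj
      apply CC.front n ih p q hpq
      simp only [List.length_append, List.length_cons] at hc ⊢
      omega

/-- Every element is conjugate into `G` or to the product of a cyclically reduced list. -/
theorem cyc_conj (x : FPr G) : ∃ η : FPr G, (∃ g : G, x = η * inG g * η⁻¹) ∨
    (∃ l : List (Bool × G), CycRed l ∧ x = η * cprod l * η⁻¹) := by
  have key : ∃ (g : G) (l : List (Bool × G)), x = inG g * cprod l := by
    induction x using FPr.induction with
    | h1 => exact ⟨1, [], by simp [cprod]⟩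
    | hg g x ih =>
      obtain ⟨h, l, rfl⟩ := ih
      exact ⟨g * h, l, by simp [mul_assoc]⟩
    | ht ε x ih =>
      obtain ⟨h, l, rfl⟩ := ih
      exact ⟨1, (ε, h) :: l, by simp [cprod, mul_assoc]⟩
  obtain ⟨g, l, rfl⟩ := key
  exact CC.inG_mul g (l.length + 1) (CC.cprod _) l (Nat.lt_succ_self _)

/-- Number of nodes of a raw point. -/
def dep {G Y : Type*} : Z0 G Y → ℕ
  | .base _ => 0
  | .node _ _ z => dep z + 1

theorem cprod_cons_smul (p : Bool × G) (l : List (Bool × G)) (z : ZZ G τ) :
    (cprod (p :: l) • z).1 = tact τ p.1 (gact p.2 (cprod l • z).1) := by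
  rw [cprod, mul_smul, mul_smul, ZZ.te_smul, ZZ.inG_smul]

theorem tact_fresh {p q : Bool × G} (hR : p.2 = 1 → q.1 = p.1) (w : Z0 G Y) :
    tact τ p.1 (gact p.2 (.node 1 q.1 w : Z0 G Y)) = .node 1 p.1 (.node p.2 q.1 w) := by
  simp only [gact, mul_one]
  apply tact_node_neg
  rintro ⟨h1, h2⟩
  rw [hR h1] at h2
  cases hp : p.1 <;> simp [hp] at h2

/-- Once the depth has increased it increases forever. -/
theorem fresh_cprod (q : Bool × G) (l : List (Bool × G))
    (hc : (l ++ [q]).IsChain (fun p q => p.2 = 1 → q.1 = p.1)) (z : ZZ G τ) (w : Z0 G Y)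
    (hz : z.1 = .node 1 q.1 w) :
    ∃ r ∈ (l ++ [q]).head?, ∃ w' : Z0 G Y, (cprod l • z).1 = .node 1 r.1 w' ∧
      dep w' = dep w + l.length := by
  induction l with
  | nil => exact ⟨q, rfl, w, by rw [cprod, one_smul]; exact hz, rfl⟩
  | cons p l ih =>
    rw [List.cons_append, List.isChain_cons] at hc
    obtain ⟨r, hr, w', hw', hd⟩ := ih hc.2
    refine ⟨p, by simp, .node p.2 r.1 w', ?_, ?_⟩
    · rw [cprod_cons_smul, hw', tact_fresh (hc.1 r hr)]
    · simp only [dep, hd, List.length_cons]; omega

/-- Either the depth has increased at some moment, or it does not increase and stays the same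
only if all points are base points. -/
theorem push_or_not (l : List (Bool × G))
    (hc : l.IsChain (fun p q => p.2 = 1 → q.1 = p.1)) (z : ZZ G τ) :
    (∃ r ∈ l.head?, ∃ w' : Z0 G Y, (cprod l • z).1 = .node 1 r.1 w') ∨
    (dep (cprod l • z).1 ≤ dep z.1 ∧ (dep (cprod l • z).1 = dep z.1 →
      ∀ p ∈ l.getLast?, ∃ y, z.1 = .base y ∧ (tau τ p.1 (p.2 • y)).isSome)) := by
  induction l with
  | nil => exact Or.inr ⟨by rw [cprod, one_smul], fun _ p hp => by simp at hp⟩
  | cons p l ih =>
    rw [List.isChain_cons] at hc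
    rcases ih hc.2 with ⟨r, hr, w', hw'⟩ | ⟨hle, heq⟩
    · left
      exact ⟨p, rfl, .node p.2 r.1 w', by rw [cprod_cons_smul, hw', tact_fresh (hc.1 r hr)]⟩
    · cases hz' : (cprod l • z).1 with
      | base y =>
        rw [hz'] at hle heq
        cases ht : tau τ p.1 (p.2 • y) with
        | none =>
          left
          refine ⟨p, rfl, .base (p.2 • y), ?_⟩
          rw [cprod_cons_smul, hz', gact, tact_base_none ht]
        | some y' =>
          right
          have h1 : (cprod (p :: l) • z).1 = .base y' := by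
            rw [cprod_cons_smul, hz', gact, tact_base_some ht]
          rw [h1]
          refine ⟨by simp [dep], fun h2 => ?_⟩
          intro p' hp'
          by_cases hl : l = []
          · subst hl
            have : p = p' := by simpa using hp'
            subst this
            refine ⟨y, ?_, by rw [ht]; rfl⟩
            rw [cprod, one_smul] at hz'
            exact hz'
          · apply heq h2 p'
            rw [List.getLast?_cons, List.getLast?_eq_some_getLast hl] at hp'
            rw [List.getLast?_eq_some_getLast hl]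
            simpa using hp'
      | node h ε w =>
        rw [hz'] at hle
        by_cases hpop : p.2 * h = 1 ∧ ε = !p.1
        · right
          have h1 : (cprod (p :: l) • z).1 = w := by
            rw [cprod_cons_smul, hz', gact, hpop.1, hpop.2, tact_node_not]
          rw [h1]
          simp only [dep] at hle
          exact ⟨by omega, fun h2 => by omega⟩
        · left
          refine ⟨p, rfl, .node (p.2 * h) ε w, ?_⟩
          rw [cprod_cons_smul, hz', gact, tact_node_neg hpop]

/-- A point fixed by a positive power of a cyclically reduced element is a base point `y`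
such that `t ^ ε` is defined at `g • y`, for the last entry `(ε, g)` of the list. -/
theorem cyc_fix {l : List (Bool × G)} (hl : CycRed l) {m : ℕ} (hm : m ≠ 0) {z : ZZ G τ}
    (h : (cprod l) ^ m • z = z) : ∃ y, z = ZZ.base τ y ∧
      ∃ p ∈ l.getLast?, (tau τ p.1 (p.2 • y)).isSome := by
  obtain ⟨hne, hch⟩ := hl
  obtain ⟨hc1, -, hc3⟩ := List.isChain_append.1 hch
  obtain ⟨q, hq⟩ : ∃ q, l.head? = some q := by
    cases l with
    | nil => exact absurd rfl hne
    | cons q l => exact ⟨q, rfl⟩
  have hcq : (l ++ [q]).IsChain (fun p q => p.2 = 1 → q.1 = p.1) := by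
    refine List.isChain_append.2 ⟨hc1, List.isChain_singleton q, ?_⟩
    intro x hx y hy
    have : q = y := by simpa using hy
    subst this
    exact hc3 x hx q hq
  have hhead : ∀ r, r ∈ (l ++ [q]).head? → r = q := by
    intro r hr
    rw [List.head?_append, hq] at hr
    simpa using hr.symm
  have hlen : 0 < l.length := List.length_pos_iff.2 hne
  -- fresh points are not fixed
  have hfresh : ∀ z' : ZZ G τ, (cprod l) ^ m • z' = z' → ∀ w : Z0 G Y,
      z'.1 ≠ .node 1 q.1 w := by
    intro z' hz' w hw
    have key : ∀ j : ℕ, ∃ w' : Z0 G Y, ((cprod l) ^ j • z').1 = .node 1 q.1 w' ∧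
        dep w' = dep w + j * l.length := by
      intro j
      induction j with
      | zero => exact ⟨w, by rw [pow_zero, one_smul]; exact hw, by simp⟩
      | succ j ih =>
        obtain ⟨w', hw', hd⟩ := ih
        obtain ⟨r, hr, w'', hw'', hd'⟩ := fresh_cprod q l hcq _ w' hw'
        refine ⟨w'', ?_, ?_⟩
        · rw [pow_succ', mul_smul, hw'', hhead r hr]
        · rw [hd', hd]; ring
    obtain ⟨w', hw', hd⟩ := key m
    rw [hz', hw] at hw'
    simp only [Z0.node.injEq, true_and] at hw'
    rw [hw'] at hd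
    have : 0 < m * l.length := Nat.mul_pos (Nat.pos_of_ne_zero hm) hlen
    omega
  have hfix : ∀ j : ℕ, (cprod l) ^ m • ((cprod l) ^ j • z) = (cprod l) ^ j • z := by
    intro j
    rw [← mul_smul, ← pow_add, add_comm, pow_add, mul_smul, h]
  have hstep : ∀ j : ℕ, dep ((cprod l) ^ (j + 1) • z).1 ≤ dep ((cprod l) ^ j • z).1 := by
    intro j
    rcases push_or_not l hc1 ((cprod l) ^ j • z) with ⟨r, hr, w', hw'⟩ | ⟨hle, -⟩
    · exfalso
      rw [← mul_smul, ← pow_succ'] at hw'
      rw [hq] at hr
      have : q = r := by simpa using hr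
      subst this
      exact hfresh _ (hfix (j + 1)) w' hw'
    · rwa [← mul_smul, ← pow_succ'] at hle
  have hanti : Antitone (fun j : ℕ => dep ((cprod l) ^ j • z).1) :=
    antitone_nat_of_succ_le hstep
  have h1 : dep ((cprod l) ^ m • z).1 ≤ dep ((cprod l) ^ 1 • z).1 :=
    hanti (Nat.pos_of_ne_zero hm)
  rw [h, pow_one] at h1
  rcases push_or_not l hc1 z with ⟨r, hr, w', hw'⟩ | ⟨hle, heq⟩
  · exfalso
    rw [hq] at hr
    have : q = r := by simpa using hr
    subst this
    have h2 := hfix 1
    rw [pow_one] at h2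
    exact hfresh _ h2 w' hw'
  · have h3 := heq (le_antisymm hle h1)
    obtain ⟨y, hy, hs⟩ := h3 _ (List.getLast?_eq_some_getLast hne)
    exact ⟨y, Subtype.ext hy, _, List.getLast?_eq_some_getLast hne, hs⟩

/-- F5: bound for the number of fixed points. -/
theorem fix_bound (τ : Y ≃. Y) {K : ℕ}
    (hY : ∀ g : G, g ≠ 1 → ∀ f : Fin (K + 1) → Y, (∀ i, g • f i = f i) →
      ∃ i j, i ≠ j ∧ f i = f j)
    (hτ : ∀ ε, ∀ f : Fin (K + 1) → Y, (∀ i, (tau τ ε (f i)).isSome) → ∃ i j, i ≠ j ∧ f i = f j)
    (x : FPr G) (hx : x ≠ 1) (f : Fin (K + 1) → ZZ G τ) (hf : ∀ i, x • f i = f i) :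
    ∃ i j, i ≠ j ∧ f i = f j := by
  obtain ⟨η, h⟩ := cyc_conj x
  have hconj : ∀ c : FPr G, x = η * c * η⁻¹ → ∀ i, c • (η⁻¹ • f i) = η⁻¹ • f i := by
    intro c hc i
    have h1 := hf i
    rw [hc, mul_smul, mul_smul] at h1
    exact eq_inv_smul_iff.2 h1
  have hback : ∀ i j, η⁻¹ • f i = η⁻¹ • f j → f i = f j := fun i j hij =>
    smul_left_cancel _ hij
  rcases h with ⟨g, hg⟩ | ⟨l, hl, hg⟩
  · have hg1 : g ≠ 1 := by
      rintro rfl
      apply hx
      rw [hg]; simp
    choose y hy1 hy2 using fun i => fix_inG hg1 (hconj _ hg i)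
    obtain ⟨i, j, hij, h⟩ := hY g hg1 y hy2
    exact ⟨i, j, hij, hback i j (by rw [hy1 i, hy1 j, h])⟩
  · have h2 : ∀ i, ∃ y, η⁻¹ • f i = ZZ.base τ y ∧
        ∃ p ∈ l.getLast?, (tau τ p.1 (p.2 • y)).isSome := fun i =>
      cyc_fix hl one_ne_zero (by rw [pow_one]; exact hconj _ hg i)
    choose y hy1 p hp hy2 using h2
    have hpp : ∀ i, p i = p 0 := fun i => by
      have h3 := hp i
      have h4 := hp 0
      rw [Option.mem_def] at h3 h4
      rw [h3] at h4
      exact Option.some.inj h4
    obtain ⟨i, j, hij, h⟩ := hτ (p 0).1 (fun i => (p 0).2 • y i) (fun i => by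
      have := hy2 i
      rwa [hpp i] at this)
    refine ⟨i, j, hij, hback i j ?_⟩
    rw [hy1 i, hy1 j, smul_left_cancel _ h]

/-- The free product is torsion-free. -/
theorem FPr_tf {G : Type*} [Group G] (tf : TF G) : TF (FPr G) := by
  intro w n hn hw
  obtain ⟨η, h⟩ := cyc_conj w
  have hconj : ∀ c : FPr G, w = η * c * η⁻¹ → c ^ n = 1 := by
    intro c hc
    rw [hc, conj_pow] at hw
    exact conj_eq_one_iff.1 hw
  rcases h with ⟨g, hg⟩ | ⟨l, hl, hg⟩
  · have h1 := hconj _ hg
    rw [← map_pow] at h1
    have h2 : g ^ n = 1 := by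
      apply Monoid.Coprod.inl_injective (M := G) (N := Multiplicative ℤ)
      rw [map_one]; exact h1
    rw [hg, tf g n hn h2]; simp
  · exfalso
    have h1 := hconj _ hg
    have h2 : (cprod l) ^ n • (ZZ.base (⊥ : G ≃. G) (1 : G) : ZZ G (⊥ : G ≃. G))
        = ZZ.base (⊥ : G ≃. G) (1 : G) := by rw [h1, one_smul]
    obtain ⟨y, -, p, -, hs⟩ := cyc_fix hl hn h2
    have h3 : tau (⊥ : G ≃. G) p.1 (p.2 • y) = none := by
      cases p.1 <;> rfl
    rw [h3] at hs
    simp at hs

end TD
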