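import Mathlib

/-!
# Module LimitA: direct limits of sequences of groups, as eventually coherent sequences
modulo eventually trivial ones.  Blueprint section 18.
-/

set_option autoImplicit false

namespace TD

section lim

variable {G : ℕ → Type} [∀ n, Group (G n)] (φ : ∀ n, G n →* G (n + 1))

/-- Coherent from `N` on. -/
def Coh (x : ∀ n, G n) (N : ℕ) : Prop := ∀ n, N ≤ n → φ n (x n) = x (n + 1)

variable {φ} in
theorem Coh.mono {x : ∀ n, G n} {N M : ℕ} (h : Coh φ x N) (hNM : N ≤ M) : Coh φ x M :=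
  fun n hn => h n (hNM.trans hn)

/-- The group of eventually coherent sequences. -/
def cohGroup : Subgroup (∀ n, G n) where
  carrier := {x | ∃ N, Coh φ x N}
  mul_mem' := by
    rintro x y ⟨N, hN⟩ ⟨M, hM⟩
    refine ⟨max N M, fun n hn => ?_⟩
    rw [Pi.mul_apply, Pi.mul_apply, map_mul, hN n (le_trans (le_max_left _ _) hn),
      hM n (le_trans (le_max_right _ _) hn)]
  one_mem' := ⟨0, fun n _ => by simp⟩
  inv_mem' := by
    rintro x ⟨N, hN⟩
    refine ⟨N, fun n hn => ?_⟩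
    rw [Pi.inv_apply, Pi.inv_apply, map_inv, hN n hn]

/-- The eventually trivial sequences. -/
def evOne : Subgroup (cohGroup φ) where
  carrier := {x | ∃ N, ∀ n, N ≤ n → x.1 n = 1}
  mul_mem' := by
    rintro x y ⟨N, hN⟩ ⟨M, hM⟩
    refine ⟨max N M, fun n hn => ?_⟩
    change x.1 n * y.1 n = 1
    rw [hN n (le_trans (le_max_left _ _) hn), hM n (le_trans (le_max_right _ _) hn), one_mul]
  one_mem' := ⟨0, fun n _ => rfl⟩
  inv_mem' := by
    rintro x ⟨N, hN⟩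
    refine ⟨N, fun n hn => ?_⟩
    change (x.1 n)⁻¹ = 1
    rw [hN n hn, inv_one]

instance evOne_normal : (evOne φ).Normal where
  conj_mem := by
    rintro x ⟨N, hN⟩ g
    refine ⟨N, fun n hn => ?_⟩
    change g.1 n * x.1 n * (g.1 n)⁻¹ = 1
    rw [hN n hn, mul_one, mul_inv_cancel]

/-- The limit group. -/
def Lim : Type := cohGroup φ ⧸ evOne φ

noncomputable instance : Group (Lim φ) := inferInstanceAs (Group (cohGroup φ ⧸ evOne φ))

/-- `x` represents `X`. -/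
def Rep (X : Lim φ) (x : ∀ n, G n) : Prop :=
  ∃ h : x ∈ cohGroup φ, X = (QuotientGroup.mk (⟨x, h⟩ : cohGroup φ) : cohGroup φ ⧸ evOne φ)

variable {φ}

theorem exists_rep (X : Lim φ) : ∃ x, Rep φ X x := by
  obtain ⟨⟨x, hx⟩, rfl⟩ := QuotientGroup.mk_surjective (s := evOne φ) X
  exact ⟨x, hx, rfl⟩

theorem Rep.coh {X : Lim φ} {x : ∀ n, G n} (h : Rep φ X x) : ∃ N, Coh φ x N := h.choose

theorem Rep.eq_iff {X Y : Lim φ} {x y : ∀ n, G n} (hX : Rep φ X x) (hY : Rep φ Y y) :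
    X = Y ↔ ∃ N, ∀ n, N ≤ n → x n = y n := by
  obtain ⟨hx, rfl⟩ := hX
  obtain ⟨hy, rfl⟩ := hY
  refine Iff.trans (QuotientGroup.eq (s := evOne φ)) ?_
  constructor
  · rintro ⟨N, hN⟩
    refine ⟨N, fun n hn => ?_⟩
    have h : (x n)⁻¹ * y n = 1 := hN n hn
    exact (inv_mul_eq_one.mp h)
  · rintro ⟨N, hN⟩
    refine ⟨N, fun n hn => ?_⟩
    change (x n)⁻¹ * y n = 1
    rw [hN n hn, inv_mul_cancel]

theorem Rep.mul {X Y : Lim φ} {x y : ∀ n, G n} (hX : Rep φ X x) (hY : Rep φ Y y) :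
    Rep φ (X * Y) (x * y) := by
  obtain ⟨hx, rfl⟩ := hX
  obtain ⟨hy, rfl⟩ := hY
  exact ⟨mul_mem hx hy, rfl⟩

theorem Rep.inv {X : Lim φ} {x : ∀ n, G n} (hX : Rep φ X x) : Rep φ X⁻¹ x⁻¹ := by
  obtain ⟨hx, rfl⟩ := hX
  exact ⟨inv_mem hx, rfl⟩

theorem Rep.one : Rep φ (1 : Lim φ) 1 := ⟨one_mem _, rfl⟩

theorem Rep.pow {X : Lim φ} {x : ∀ n, G n} (hX : Rep φ X x) (m : ℕ) :
    Rep φ (X ^ m) (x ^ m) := by
  obtain ⟨hx, rfl⟩ := hX
  exact ⟨pow_mem hx m, rfl⟩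

theorem Rep.zpow {X : Lim φ} {x : ∀ n, G n} (hX : Rep φ X x) (m : ℤ) :
    Rep φ (X ^ m) (x ^ m) := by
  obtain ⟨hx, rfl⟩ := hX
  exact ⟨zpow_mem hx m, rfl⟩

theorem Rep.eq_one_iff {X : Lim φ} {x : ∀ n, G n} (hX : Rep φ X x) :
    X = 1 ↔ ∃ N, ∀ n, N ≤ n → x n = 1 := hX.eq_iff Rep.one

/-- The sequence starting at level `n` with `g`. -/
def seqFrom (φ : ∀ n, G n →* G (n + 1)) (n : ℕ) (g : G n) : ∀ m, G m
  | 0 => if h : n = 0 then h ▸ g else 1
  | m + 1 => if h : n = m + 1 then h ▸ g else φ m (seqFrom φ n g m)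

theorem seqFrom_self (n : ℕ) (g : G n) : seqFrom φ n g n = g := by
  cases n <;> simp [seqFrom]

theorem seqFrom_succ (n : ℕ) (g : G n) (m : ℕ) (h : n ≤ m) :
    seqFrom φ n g (m + 1) = φ m (seqFrom φ n g m) := by
  have h1 : n ≠ m + 1 := by omega
  simp [seqFrom, h1]

theorem seqFrom_coh (n : ℕ) (g : G n) : Coh φ (seqFrom φ n g) n :=
  fun m hm => (seqFrom_succ n g m hm).symm

theorem seqFrom_mul (n : ℕ) (g h : G n) (m : ℕ) :
    seqFrom φ n (g * h) m = seqFrom φ n g m * seqFrom φ n h m := by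
  induction m with
  | zero =>
    by_cases hn : n = 0
    · subst hn; simp [seqFrom]
    · simp [seqFrom, hn]
  | succ m ih =>
    by_cases hn : n = m + 1
    · subst hn; simp [seqFrom]
    · simp [seqFrom, hn, ih]

/-- The canonical map. -/
noncomputable def iota (φ : ∀ n, G n →* G (n + 1)) (n : ℕ) : G n →* Lim φ :=
  MonoidHom.mk' (fun g => (QuotientGroup.mk (⟨seqFrom φ n g, n, seqFrom_coh n g⟩ : cohGroup φ) :
    cohGroup φ ⧸ evOne φ)) (by
      intro g h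
      change _ = (QuotientGroup.mk (_ * _ : cohGroup φ) : cohGroup φ ⧸ evOne φ)
      congr 1
      apply Subtype.ext
      funext m
      exact seqFrom_mul n g h m)

theorem iota_rep (n : ℕ) (g : G n) : Rep φ (iota φ n g) (seqFrom φ n g) :=
  ⟨⟨n, seqFrom_coh n g⟩, rfl⟩

theorem coh_eq {x y : ∀ n, G n} {N n : ℕ} (hx : Coh φ x N) (hy : Coh φ y N) (hn : N ≤ n)
    (h : x n = y n) (m : ℕ) (hm : n ≤ m) : x m = y m := by
  induction m, hm using Nat.le_induction with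
  | base => exact h
  | succ m hm ih => rw [← hx m (hn.trans hm), ← hy m (hn.trans hm), ih]

theorem Rep.iota_eq {X : Lim φ} {x : ∀ n, G n} (hX : Rep φ X x) {N n : ℕ} (hN : Coh φ x N)
    (hn : N ≤ n) : iota φ n (x n) = X := by
  rw [(iota_rep n (x n)).eq_iff hX]
  refine ⟨n, fun m hm => ?_⟩
  exact coh_eq (N := n) (seqFrom_coh n _) (hN.mono hn) le_rfl (seqFrom_self n _) m hm

theorem iota_succ (n : ℕ) (g : G n) : iota φ (n + 1) (φ n g) = iota φ n g := by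
  have h := (iota_rep (φ := φ) n g).iota_eq (seqFrom_coh n g) (Nat.le_succ n)
  rw [seqFrom_succ n g n le_rfl, seqFrom_self] at h
  exact h

instance lim_countable [∀ n, Countable (G n)] : Countable (Lim φ) := by
  have hs : Function.Surjective (fun p : Σ n, G n => iota φ p.1 p.2) := by
    intro X
    obtain ⟨x, hx⟩ := exists_rep X
    obtain ⟨N, hN⟩ := hx.coh
    exact ⟨⟨N, x N⟩, hx.iota_eq hN le_rfl⟩
  exact hs.countable

/-- The limit of a sequence of subgroups. -/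
def limSub (φ : ∀ n, G n →* G (n + 1)) (H : ∀ n, Subgroup (G n)) : Subgroup (Lim φ) where
  carrier := {X | ∃ x, Rep φ X x ∧ ∃ N, ∀ n, N ≤ n → x n ∈ H n}
  mul_mem' := by
    rintro X Y ⟨x, hx, N, hN⟩ ⟨y, hy, M, hM⟩
    refine ⟨x * y, hx.mul hy, max N M, fun n hn => ?_⟩
    exact mul_mem (hN n (le_trans (le_max_left _ _) hn)) (hM n (le_trans (le_max_right _ _) hn))
  one_mem' := ⟨1, Rep.one, 0, fun n _ => one_mem _⟩
  inv_mem' := by
    rintro X ⟨x, hx, N, hN⟩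
    exact ⟨x⁻¹, hx.inv, N, fun n hn => inv_mem (hN n hn)⟩

theorem Rep.mem_iff {X : Lim φ} {x : ∀ n, G n} (hX : Rep φ X x) (H : ∀ n, Subgroup (G n)) :
    X ∈ limSub φ H ↔ ∃ N, ∀ n, N ≤ n → x n ∈ H n := by
  constructor
  · rintro ⟨y, hy, N, hN⟩
    obtain ⟨M, hM⟩ := (hX.eq_iff hy).mp rfl
    refine ⟨max N M, fun n hn => ?_⟩
    rw [hM n (le_trans (le_max_right _ _) hn)]
    exact hN n (le_trans (le_max_left _ _) hn)
  · rintro h
    exact ⟨x, hX, h⟩

theorem coh_mem {x : ∀ n, G n} {N n : ℕ} (hx : Coh φ x N) {H : ∀ n, Subgroup (G n)}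
    (hH : ∀ n, (H n).map (φ n) ≤ H (n + 1)) (hn : N ≤ n) (h : x n ∈ H n) (m : ℕ) (hm : n ≤ m) :
    x m ∈ H m := by
  induction m, hm using Nat.le_induction with
  | base => exact h
  | succ m hm ih =>
    rw [← hx m (hn.trans hm)]
    exact hH m (Subgroup.mem_map_of_mem _ ih)

theorem Rep.mem_of {X : Lim φ} {x : ∀ n, G n} (hX : Rep φ X x) {N n : ℕ} (hN : Coh φ x N)
    {H : ∀ n, Subgroup (G n)} (hH : ∀ n, (H n).map (φ n) ≤ H (n + 1)) (hn : N ≤ n)
    (h : x n ∈ H n) : X ∈ limSub φ H :=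
  (hX.mem_iff H).mpr ⟨n, fun m hm => coh_mem hN hH hn h m hm⟩

theorem iota_mem {H : ∀ n, Subgroup (G n)} (hH : ∀ n, (H n).map (φ n) ≤ H (n + 1)) {n : ℕ}
    {g : G n} (hg : g ∈ H n) : iota φ n g ∈ limSub φ H :=
  (iota_rep n g).mem_of (seqFrom_coh n g) hH le_rfl (by rw [seqFrom_self]; exact hg)

/-- Representatives coherent from a common level. -/
theorem exists_reps {ι : Type} [Finite ι] (X : ι → Lim φ) (N0 : ℕ) :
    ∃ (x : ι → ∀ n, G n) (N : ℕ), N0 ≤ N ∧ (∀ i, Rep φ (X i) (x i)) ∧ ∀ i, Coh φ (x i) N := by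
  choose x hx using fun i => exists_rep (X i)
  choose M hM using fun i => (hx i).coh
  cases nonempty_fintype ι
  refine ⟨x, max N0 (Finset.univ.sup M), le_max_left _ _, hx, fun i => (hM i).mono ?_⟩
  exact le_trans (Finset.le_sup (Finset.mem_univ i)) (le_max_right _ _)

end lim

end TD
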