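import Pool.Agent.TD.Step
import Pool.Agent.TD.LimitA

/-!
# Module LimitB: tasks and bookkeeping.  Blueprint section 18.
-/

set_option autoImplicit false

namespace TD

/-- Tasks over a group. -/
def Task (G : Type) : Type :=
  (List G × G × G) ⊕ ((Σ k : ℕ, (Fin k → G) × (Fin k → G)) × G)

instance {G : Type} [Countable G] : Countable (Task G) :=
  inferInstanceAs (Countable ((List G × G × G) ⊕ ((Σ k : ℕ, (Fin k → G) × (Fin k → G)) × G)))

/-- Transport of a task. -/
def Task.map {G G' : Type} (φ : G → G') : Task G → Task G'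
  | Sum.inl (l, a, c) => Sum.inl (l.map φ, φ a, φ c)
  | Sum.inr (⟨k, x, y⟩, c) => Sum.inr (⟨k, fun i => φ (x i), fun i => φ (y i)⟩, φ c)

/-- The subgroup generated by a list. -/
def clo {G : Type} [Group G] (l : List G) : Subgroup G := Subgroup.closure {g | g ∈ l}

/-- The task has been performed by the step. -/
def Done {n : ℕ} {A : Stage n} {B : Stage (n + 1)} (f : StageHom A B) : Task A.G → Prop
  | Sum.inl (l, a, c) => B.c (n + 1) = f.φ c ∧ (NonAb (clo l) →
      (∀ k, 1 ≤ k → k ≤ n → NoFin (clo l) (A.H k)) → f.φ a ∈ (clo l).map f.φ)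
  | Sum.inr (⟨k, x, y⟩, c) => B.c (n + 1) = f.φ c ∧ (1 ≤ k → k ≤ n →
      (∀ i j, i ≠ j → (x i)⁻¹ * x j ∉ A.H k) → (∀ i j, i ≠ j → (y i)⁻¹ * y j ∉ A.H k) →
      ∃ t : B.G, ∀ i, (f.φ (y i))⁻¹ * t * f.φ (x i) ∈ B.H k)

theorem exists_done {n : ℕ} (A : Stage n) (T : Task A.G) :
    ∃ (B : Stage (n + 1)) (f : StageHom A B), Done f T := by
  classical
  rcases T with ⟨l, a, c⟩ | ⟨⟨k, x, y⟩, c⟩
  · obtain ⟨B, f, hc, h⟩ := step_trap A l.toFinset a c
    refine ⟨B, f, hc, ?_⟩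
    have e : Subgroup.closure ((l.toFinset : Finset A.G) : Set A.G) = clo l := by
      unfold clo
      congr 1
      ext g
      simp
    rw [e] at h
    exact h
  · by_cases h : 1 ≤ k ∧ k ≤ n ∧ (∀ i j, i ≠ j → (x i)⁻¹ * x j ∉ A.H k) ∧
      (∀ i j, i ≠ j → (y i)⁻¹ * y j ∉ A.H k)
    · obtain ⟨h1, h2, h3, h4⟩ := h
      obtain ⟨B, f, hc, t, ht⟩ := step_trans A h1 h2 x y h3 h4 c
      exact ⟨B, f, hc, fun _ _ _ _ => ⟨t, ht⟩⟩
    · obtain ⟨B, f, hc⟩ := step_trivial A c
      exact ⟨B, f, hc, fun h1 h2 h3 h4 => absurd ⟨h1, h2, h3, h4⟩ h⟩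

/-- A stage with the transported tasks of the previous stages. -/
structure State (n : ℕ) where
  A : Stage n
  e : ℕ → ℕ → Task A.G

theorem exists_enum {n : ℕ} (A : Stage n) : ∃ e : ℕ → Task A.G, Function.Surjective e := by
  have : Countable A.G := A.hG.countable
  have : Nonempty (Task A.G) := ⟨Sum.inl ([], 1, 1)⟩
  exact exists_surjective_nat _

theorem exists_next {n : ℕ} (s : State n) :
    ∃ (s' : State (n + 1)) (f : StageHom s.A s'.A),
      Done f (s.e n.unpair.1 n.unpair.2) ∧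
      (∀ m, m ≤ n → ∀ i, s'.e m i = (s.e m i).map f.φ) ∧
      Function.Surjective (s'.e (n + 1)) := by
  obtain ⟨B, f, h⟩ := exists_done s.A (s.e n.unpair.1 n.unpair.2)
  obtain ⟨e, he⟩ := exists_enum B
  refine ⟨⟨B, fun m i => if m ≤ n then (s.e m i).map f.φ else e i⟩, f, h, ?_, ?_⟩
  · intro m hm i
    change (if m ≤ n then _ else _) = _
    rw [if_pos hm]
  · have h1 : (fun i => if n + 1 ≤ n then (s.e (n + 1) i).map f.φ else e i) = e := by
      funext i
      rw [if_neg (by omega)]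
    change Function.Surjective (fun i => if n + 1 ≤ n then (s.e (n + 1) i).map f.φ else e i)
    rw [h1]
    exact he

theorem exists_seq : ∃ (s : ∀ n, State n) (f : ∀ n, StageHom (s n).A (s (n + 1)).A),
    (s 0).A.c 0 ≠ 1 ∧
    (∀ n, Done (f n) ((s n).e n.unpair.1 n.unpair.2)) ∧
    (∀ n m, m ≤ n → ∀ i, (s (n + 1)).e m i = ((s n).e m i).map (f n).φ) ∧
    (∀ n, Function.Surjective ((s n).e n)) := by
  obtain ⟨A0, h0⟩ := exists_stage_zero
  obtain ⟨e0, he0⟩ := exists_enum A0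
  choose nx fh h1 h2 h3 using fun (n : ℕ) (s : State n) => exists_next s
  let s : ∀ n, State n := fun n => Nat.rec (motive := State) ⟨A0, fun _ i => e0 i⟩ nx n
  refine ⟨s, fun n => fh n (s n), h0, fun n => h1 n (s n), fun n => h2 n (s n), ?_⟩
  intro n
  cases n with
  | zero => exact he0
  | succ n => exact h3 n (s n)

end TD
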