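import Pool.Agent.TD.LoxA

/-!
# Module Lox: elements of infinite order are loxodromic.  Blueprint section 12.
-/

set_option autoImplicit false

namespace TD

variable {G : Type*} [Group G] {d : G → G → ℕ} {δ : ℕ}

/-- L1: cyclic subgroups are uniformly straight. -/
theorem lox (hG : IsHG d δ) {g : G} (hg : ∀ n : ℕ, n ≠ 0 → g ^ n ≠ 1) :
    ∃ κ : ℕ, ∀ i j k : ℤ, i ≤ j → j ≤ k → Btw d κ (g ^ i) (g ^ k) (g ^ j) := by
  obtain ⟨z, m, hm1, hgrow⟩ := lox_grow hG hg
  have hGM : IsGM d := hG.toIsGM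
  set l : ℕ := d z (g ^ m * z) with hl
  set v : ℤ → G := fun i => g ^ ((m : ℤ) * i) * z with hv
  have hstep : ∀ i : ℤ, d (v i) (v (i + 1)) = l := by
    intro i
    have h1 : v (i + 1) = g ^ ((m : ℤ) * i) * (g ^ m * z) := by
      simp only [hv]
      rw [← mul_assoc, ← zpow_natCast g m, ← zpow_add]
      congr 2
      ring
    rw [h1]
    simp only [hv]
    rw [hG.inv]
  have hstep' : ∀ i : ℤ, d (v (i - 1)) (v i) = l := by
    intro i
    have := hstep (i - 1)
    rwa [sub_add_cancel] at this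
  have hstep2 : ∀ i : ℤ, d (v (i - 1)) (v (i + 1)) = d z (g ^ (2 * m) * z) := by
    intro i
    have h1 : v (i + 1) = g ^ ((m : ℤ) * (i - 1)) * (g ^ (2 * m) * z) := by
      simp only [hv]
      rw [← mul_assoc, ← zpow_natCast g (2 * m), ← zpow_add]
      congr 2
      push_cast
      ring
    rw [h1]
    simp only [hv]
    rw [hG.inv]
  have hl2 : 2 * δ + 1 ≤ l := by
    have h1 := hGM.tri (v (0 - 1)) (v 0) (v (0 + 1))
    rw [hstep' 0, hstep 0, hstep2 0] at h1
    omega
  have hbr : ∀ i j k : ℤ, i ≤ j → j ≤ k → Btw d (l - 2 * δ - 1 + 2 * δ) (v i) (v k) (v j) := by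
    intro i j k hij hjk
    refine broken_int hGM hG.hyp v ?_ ?_ hij hjk
    · intro i
      unfold Btw
      rw [hstep' i, hstep i, hstep2 i]
      omega
    · intro i
      rw [hstep i]
      omega
  set E : ℕ := ∑ s ∈ Finset.range m, d z (g ^ s) with hE
  have hEs : ∀ s : ℕ, s < m → d z (g ^ s) ≤ E := by
    intro s hs
    exact Finset.single_le_sum (f := fun s => d z (g ^ s)) (fun _ _ => Nat.zero_le _)
      (Finset.mem_range.2 hs)
  have hm0 : (0 : ℤ) < m := by exact_mod_cast hm1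
  have hnear : ∀ i : ℤ, d (v (i / m)) (g ^ i) ≤ E := by
    intro i
    have h0 : 0 ≤ i % m := Int.emod_nonneg _ hm0.ne'
    have h1 : i % m < m := Int.emod_lt_of_pos _ hm0
    obtain ⟨s, hs⟩ := Int.eq_ofNat_of_zero_le h0
    have h2 : g ^ i = g ^ ((m : ℤ) * (i / m)) * g ^ s := by
      conv_lhs => rw [← Int.mul_ediv_add_emod i m]
      rw [zpow_add, hs]
      simp
    rw [h2]
    simp only [hv]
    rw [hG.inv]
    apply hEs
    rw [hs] at h1
    exact_mod_cast h1
  refine ⟨l - 2 * δ - 1 + 2 * δ + 2 * E + 2 * E + 2 * E, ?_⟩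
  intro i j k hij hjk
  exact Btw.change hGM (hbr (i / m) (j / m) (k / m) (Int.ediv_le_ediv hm0 hij)
    (Int.ediv_le_ediv hm0 hjk)) (hnear i) (hnear k) (hnear j)

end TD
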