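import Pool.Agent.TD.Broken

/-!
# Module LoxA: displacement grows.  Blueprint section 12.
-/

set_option autoImplicit false

namespace TD

variable {G : Type*} [Group G] {d : G → G → ℕ} {δ : ℕ}

theorem IsHG.norm_pow_le (hG : IsHG d δ) (g : G) (j : ℕ) : d 1 (g ^ j) ≤ j * d 1 g := by
  induction j with
  | zero => simp [hG.self]
  | succ j ih =>
    rw [pow_succ]
    have h := hG.norm_mul (g ^ j) g
    have : (j + 1) * d 1 g = j * d 1 g + d 1 g := by ring
    omega

/-- The key estimate: the point `z` in the middle of a long geodesic between `1` and `e` is moved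
by `f` by at most `9 δ`, when `f` moves both endpoints by at most `D` and does not move `z`
further under `f * f`. -/
theorem lox_middle (hG : IsHG d δ) {f e z : G} {D N : ℕ} (hfD : d 1 f ≤ D)
    (heD : d e (f * e) ≤ D) (hN : d 1 e = N) (hND : 2 * (4 * D + 20 * δ + 20) ≤ N)
    (hz1 : d 1 z = N / 2) (hz2 : d z e = N - N / 2)
    (hff : d z (f * f * z) ≤ d z (f * z) + 2 * δ) : d z (f * z) ≤ 9 * δ := by
  have hm : IsGM d := hG.toIsGM
  have hh : Hyp d δ := hG.hyp
  -- the point `f z`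
  have a1 : d f (f * z) = N / 2 := by
    have := hG.inv f 1 z
    rw [mul_one] at this
    rw [this, hz1]
  have a2 : d (f * z) (f * e) = N - N / 2 := by rw [hG.inv, hz2]
  have a3 : d f (f * e) = N := by
    have := hG.inv f 1 e
    rw [mul_one] at this
    rw [this, hN]
  have b1 : Btw d 0 f (f * e) (f * z) := by unfold Btw; omega
  have c1 : d f 1 ≤ D := by rw [hm.symm]; exact hfD
  have c2 : d (f * e) e ≤ D := by rw [hm.symm]; exact heD
  have b2 : Btw d (0 + 2 * δ) 1 e (f * z) :=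
    b1.far hm hh c1 c2 (by omega) (by omega)
  have b3 : Btw d 0 1 e z := by unfold Btw; omega
  have b4 := b2.close hm hh b3
  -- triangle inequalities for `f z`, `f f z`
  have t1 : d 1 (f * z) ≤ d 1 f + d f (f * z) := hm.tri _ _ _
  have t2 : d f (f * z) ≤ d f 1 + d 1 (f * z) := hm.tri _ _ _
  have t3 : d 1 z ≤ d 1 (f * f * z) + d (f * f * z) z := hm.tri _ _ _
  have t4 : d 1 (f * f * z) ≤ d 1 z + d z (f * f * z) := hm.tri _ _ _
  have s1 := hm.symm f 1
  have s2 := hm.symm (f * f * z) z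
  have s3 := hm.symm (f * z) z
  have s4 := hm.symm z (f * z)
  have a4 : d (f * f) (f * f * z) = N / 2 := by
    have := hG.inv (f * f) 1 z
    rw [mul_one] at this
    rw [this, hz1]
  have a5 : d 1 (f * f) ≤ d 1 f + d 1 f := hG.norm_mul f f
  have t5 : d (f * f) (f * f * z) ≤ d (f * f) 1 + d 1 (f * f * z) := hm.tri _ _ _
  have s5 := hm.symm (f * f) 1
  -- the points `1, f⁻¹, z, f z`
  have e1 : d f⁻¹ z = d 1 (f * z) := by
    have := hG.inv f f⁻¹ z
    rw [mul_inv_cancel] at this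
    exact this.symm
  have e2 : d f⁻¹ (f * z) = d 1 (f * f * z) := by
    have := hG.inv f f⁻¹ (f * z)
    rw [mul_inv_cancel, ← mul_assoc] at this
    exact this.symm
  have e3 : d 1 f⁻¹ = d 1 f := hG.norm_inv f
  have h1 := hh 1 f⁻¹ z (f * z)
  have h2 := hh 1 f⁻¹ (f * z) z
  rw [e1, e2, e3] at h1 h2
  rcases abs_cases ((d 1 (f * z) : ℤ) - d 1 z) with ⟨h, h'⟩ | ⟨h, h'⟩
  all_goals
    rw [h] at b4
    omega

/-- L1 (1): displacement grows. -/
theorem lox_grow (hG : IsHG d δ) {g : G} (hg : ∀ n : ℕ, n ≠ 0 → g ^ n ≠ 1) :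
    ∃ (z : G) (m : ℕ), 1 ≤ m ∧
      d z (g ^ m * z) + 2 * δ + 1 ≤ d z (g ^ (2 * m) * z) := by
  by_contra hcon
  push Not at hcon
  obtain ⟨J, hJ⟩ := hG.pigeon (9 * δ)
  obtain ⟨N, hN⟩ := hG.pow_large hg (2 * (4 * (J * d 1 g) + 20 * δ + 20))
  have hN1 := hN N (by simp)
  rw [zpow_natCast] at hN1
  obtain ⟨z, hz1, hz2⟩ := hG.toIsGM.exists_between 1 (g ^ N) (d 1 (g ^ N) / 2)
    (Nat.div_le_self _ _)
  have key : ∀ j ≤ J, d 1 (z⁻¹ * (g ^ j * z)) ≤ 9 * δ := by
    intro j hj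
    rw [← hG.norm_eq z]
    rcases Nat.eq_zero_or_pos j with rfl | hj0
    · rw [pow_zero, one_mul, hG.self]; exact Nat.zero_le _
    · have hfD : d 1 (g ^ j) ≤ J * d 1 g :=
        (hG.norm_pow_le g j).trans (Nat.mul_le_mul_right _ hj)
      have heD : d (g ^ N) (g ^ j * g ^ N) ≤ J * d 1 g := by
        rw [(Commute.refl g).pow_pow j N |>.eq, hG.d_mul_right]
        exact hfD
      refine lox_middle hG hfD heD rfl hN1.le hz1 hz2 ?_
      have := hcon z j hj0
      rw [two_mul, pow_add] at this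
      omega
  obtain ⟨i, j, hij, hjJ, he⟩ := hJ (fun j => z⁻¹ * (g ^ j * z)) key
  have h1 : g ^ i = g ^ j := mul_right_cancel (mul_left_cancel he)
  have h2 : g ^ (j - i) = 1 := by
    have h3 : g ^ i * g ^ (j - i) = g ^ i := by
      rw [← pow_add, Nat.add_sub_cancel' hij.le, h1]
    exact mul_eq_left.mp h3
  exact hg (j - i) (Nat.sub_ne_zero_of_lt hij) h2

end TD
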