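import Pool.Agent.TD.Elem

/-!
# Module M3: a non-abelian subgroup without finite orbits contains an element acting without
periodic points.  Blueprint section 14.
-/

set_option autoImplicit false

open scoped Pointwise

namespace TD

variable {G : Type*} [Group G] {d : G → G → ℕ} {δ : ℕ}

/-- Conjugates of powers. -/
theorem m3_conj_pow (x g : G) (n : ℕ) : (x⁻¹ * g * x) ^ n = x⁻¹ * g ^ n * x := by
  induction n with
  | zero => simp
  | succ n ih => rw [pow_succ, ih, pow_succ]; group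

theorem m3_conj_zpow (x g : G) (n : ℤ) : (x⁻¹ * g * x) ^ n = x⁻¹ * g ^ n * x := by
  have := conj_zpow (i := n) (a := x⁻¹) (b := g)
  simpa using this

/-- Periodic points: the set of cosets is finite. -/
theorem m3_per_finite (tf : TF G) {g : G} (hg : g ≠ 1) {H : Subgroup G} {k : ℕ} (hf : FF H k) :
    {c : G ⧸ H | ∃ x : G, c = (x : G ⧸ H) ∧ ∃ p : ℕ, p ≠ 0 ∧ x⁻¹ * g ^ p * x ∈ H}.Finite := by
  by_contra hinf
  have hinf' : Set.Infinite {c : G ⧸ H | ∃ x : G, c = (x : G ⧸ H) ∧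
      ∃ p : ℕ, p ≠ 0 ∧ x⁻¹ * g ^ p * x ∈ H} := hinf
  have := hinf'.to_subtype
  obtain ⟨e⟩ : Nonempty (Fin (k + 1) ↪ {c : G ⧸ H | ∃ x : G, c = (x : G ⧸ H) ∧
      ∃ p : ℕ, p ≠ 0 ∧ x⁻¹ * g ^ p * x ∈ H}) :=
    ⟨(Fin.valEmbedding).trans (Infinite.natEmbedding _)⟩
  have hex : ∀ i, ∃ x : G, (e i : G ⧸ H) = (x : G ⧸ H) ∧
      ∃ p : ℕ, p ≠ 0 ∧ x⁻¹ * g ^ p * x ∈ H := fun i => (e i).2
  choose x hx p hp hxp using hex
  have hP : (∏ i, p i) ≠ 0 := Finset.prod_ne_zero_iff.2 (fun i _ => hp i)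
  have hgP : g ^ (∏ i, p i) ≠ 1 := fun h => hg (tf g _ hP h)
  obtain ⟨i, j, hij, hmem⟩ := hf _ hgP x (by
    intro i
    obtain ⟨r, hr⟩ := Finset.dvd_prod_of_mem p (Finset.mem_univ i)
    rw [hr, pow_mul, ← m3_conj_pow]
    exact H.pow_mem (hxp i) r)
  apply hij
  apply e.injective
  apply Subtype.ext
  rw [hx i, hx j]
  exact QuotientGroup.eq.2 hmem

/-- A uniform period. -/
theorem m3_uniform (tf : TF G) {g : G} (hg : g ≠ 1) {H : Subgroup G} {k : ℕ} (hf : FF H k) :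
    ∃ P : ℕ, P ≠ 0 ∧ ∀ x : G, ∀ p : ℕ, p ≠ 0 → x⁻¹ * g ^ p * x ∈ H → x⁻¹ * g ^ P * x ∈ H := by
  classical
  have hfin := m3_per_finite tf hg hf
  set S : Finset (G ⧸ H) := hfin.toFinset with hS
  have hex : ∀ c : G ⧸ H, ∃ q : ℕ, q ≠ 0 ∧ (c ∈ S → ∃ x : G, c = (x : G ⧸ H) ∧
      x⁻¹ * g ^ q * x ∈ H) := by
    intro c
    by_cases hc : c ∈ S
    · obtain ⟨x, hx, p, hp, hxp⟩ := (hfin.mem_toFinset).1 hc
      exact ⟨p, hp, fun _ => ⟨x, hx, hxp⟩⟩
    · exact ⟨1, one_ne_zero, fun h => absurd h hc⟩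
  choose q hq0 hq using hex
  refine ⟨∏ c ∈ S, q c, Finset.prod_ne_zero_iff.2 (fun c _ => hq0 c), ?_⟩
  intro x p hp hxp
  have hc : (x : G ⧸ H) ∈ S := (hfin.mem_toFinset).2 ⟨x, rfl, p, hp, hxp⟩
  obtain ⟨y, hy, hyq⟩ := hq _ hc
  have hyx : y⁻¹ * x ∈ H := QuotientGroup.eq.1 hy.symm
  obtain ⟨r, hr⟩ := Finset.dvd_prod_of_mem q hc
  have h1 : x⁻¹ * g ^ (∏ c ∈ S, q c) * x =
      (y⁻¹ * x)⁻¹ * ((y⁻¹ * g ^ q (x : G ⧸ H) * y) ^ r) * (y⁻¹ * x) := by
    rw [m3_conj_pow, ← pow_mul, ← hr]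
    group
  rw [h1]
  exact H.mul_mem (H.mul_mem (H.inv_mem hyx) (H.pow_mem hyq r)) hyx

/-- B.H. Neumann: a finite set of cosets can be moved off itself. -/
theorem m3_move {H : Subgroup G} {U : Subgroup G} (hn : NoFin U H) (S : Finset (G ⧸ H)) :
    ∃ u ∈ U, ∀ x : G, (x : G ⧸ H) ∈ S → ((u * x : G) : G ⧸ H) ∉ S := by
  classical
  by_contra hcon
  push Not at hcon
  let gg : (G ⧸ H) × (G ⧸ H) → U := fun c =>
    if h : ∃ u : U, (u : G) • c.1 = c.2 then h.choose else 1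
  have hcov : ⋃ i ∈ S ×ˢ S, gg i • ((MulAction.stabilizer U i.1 : Subgroup U) : Set U)
      = Set.univ := by
    apply Set.eq_univ_of_forall
    intro u
    obtain ⟨x, hx, hux⟩ := hcon u u.2
    simp only [Set.mem_iUnion]
    refine ⟨((x : G ⧸ H), ((u * x : G) : G ⧸ H)), Finset.mem_product.2 ⟨hx, hux⟩, ?_⟩
    have hex : ∃ w : U, (w : G) • ((x : G ⧸ H), (((u : G) * x : G) : G ⧸ H)).1 =
        ((x : G ⧸ H), (((u : G) * x : G) : G ⧸ H)).2 := ⟨u, rfl⟩
    have hgg : (gg ((x : G ⧸ H), (((u : G) * x : G) : G ⧸ H)) : G) • (x : G ⧸ H)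
        = (((u : G) * x : G) : G ⧸ H) := by
      simp only [gg]
      rw [dif_pos hex]
      exact hex.choose_spec
    rw [Set.mem_smul_set_iff_inv_smul_mem]
    change _ ∈ MulAction.stabilizer U _
    rw [MulAction.mem_stabilizer_iff]
    change ((gg ((x : G ⧸ H), (((u : G) * x : G) : G ⧸ H)))⁻¹ * u) • (x : G ⧸ H) = _
    rw [mul_smul, inv_smul_eq_iff]
    exact hgg.symm
  obtain ⟨c, hc, hfi⟩ := Subgroup.exists_finiteIndex_of_leftCoset_cover hcov
  obtain ⟨x, hx⟩ := QuotientGroup.mk_surjective c.1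
  apply hn x
  have hfin : (MulAction.orbit U c.1).Finite := by
    have : Finite (U ⧸ MulAction.stabilizer U c.1) := inferInstance
    have : Finite (MulAction.orbit U c.1) :=
      Finite.of_equiv _ (MulAction.orbitEquivQuotientStabilizer U c.1).symm
    exact Set.toFinite _
  apply hfin.subset
  rintro c' ⟨u, hu, rfl⟩
  refine ⟨⟨u, hu⟩, ?_⟩
  change (u : G) • c.1 = _
  rw [← hx]
  rfl

/-- Left translation of betweenness. -/
theorem m3_btw_mul (hG : IsHG d δ) (g : G) {c : ℕ} {x y p : G} (h : Btw d c x y p) :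
    Btw d c (g * x) (g * y) (g * p) := by
  unfold Btw at *
  rw [hG.inv, hG.inv, hG.inv]
  exact h

/-- The product step. -/
theorem m3_prod (hG : IsHG d δ) (tf : TF G) {g g' : G} (hg : g ≠ 1) (hg' : g' ≠ 1)
    (hi : Indep g g') {ι : Type*} (s : Finset ι) (H : ι → Subgroup G)
    (hq : ∀ i, ∃ κ, QC d κ (H i : Set G)) :
    ∃ M0 : ℕ, ∀ M : ℕ, M0 ≤ M → ∀ i ∈ s, ∀ x : G, ∀ p : ℕ, p ≠ 0 →
      x⁻¹ * (g ^ M * g' ^ M) ^ p * x ∈ H i →
      (∃ q : ℕ, q ≠ 0 ∧ x⁻¹ * g ^ q * x ∈ H i) ∧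
      (∃ q : ℕ, q ≠ 0 ∧ ((g ^ M)⁻¹ * x)⁻¹ * g' ^ q * ((g ^ M)⁻¹ * x) ∈ H i) := by
  classical
  have hGM : IsGM d := hG.toIsGM
  obtain ⟨c, hc⟩ := indep_btw hG tf hg hg' hi
  choose κ hκ using hq
  choose m1 hm1 using fun i => near_lemma hG tf hg (hκ i) (κ i + (c + 2 * δ + 2 * δ))
  choose m2 hm2 using fun i => near_lemma hG tf hg' (hκ i) (κ i + (c + 2 * δ + 2 * δ))
  obtain ⟨N1, hN1⟩ := hG.pow_large (g := g) (fun n hn h => hg (tf g n hn h)) (c + 2 * δ)
  obtain ⟨N2, hN2⟩ := hG.pow_large (g := g') (fun n hn h => hg' (tf g' n hn h)) (c + 2 * δ)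
  refine ⟨N1 + N2 + 1 + ∑ i ∈ s, (m1 i + m2 i), ?_⟩
  intro M hM i his x p hp hx
  have hsum : m1 i + m2 i ≤ ∑ i ∈ s, (m1 i + m2 i) :=
    Finset.single_le_sum (f := fun i => m1 i + m2 i) (fun _ _ => Nat.zero_le _) his
  have hgM : c + 2 * δ < d 1 (g ^ M) := by
    have := hN1 (M : ℤ) (by rw [abs_of_nonneg (by positivity)]; exact_mod_cast (by omega))
    rwa [zpow_natCast] at this
  have hg'M : c + 2 * δ < d 1 (g' ^ M) := by
    have := hN2 (M : ℤ) (by rw [abs_of_nonneg (by positivity)]; exact_mod_cast (by omega))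
    rwa [zpow_natCast] at this
  set f : G := g ^ M * g' ^ M with hf
  set v : ℤ → G := fun n => f ^ (n / 2) * (if n % 2 = 0 then 1 else g ^ M) with hv
  have hv0 : ∀ n : ℤ, v (2 * n) = f ^ n := by
    intro n
    simp only [hv]
    rw [if_pos (by omega), mul_one]
    congr 1
    omega
  have hv1 : ∀ n : ℤ, v (2 * n + 1) = f ^ n * g ^ M := by
    intro n
    simp only [hv]
    rw [if_neg (by omega)]
    congr 2
    omega
  have hb : ∀ n : ℤ, Btw d c (v (n - 1)) (v (n + 1)) (v n) := by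
    intro n
    rcases Int.even_or_odd' n with ⟨j, rfl | rfl⟩
    · have e1 : v (2 * j - 1) = f ^ j * (g' ^ M)⁻¹ := by
        have : (2 * j - 1 : ℤ) = 2 * (j - 1) + 1 := by ring
        rw [this, hv1, zpow_sub_one, hf]
        group
      rw [e1, hv1, hv0]
      have h0 := m3_btw_mul hG (f ^ j) ((hc (M : ℤ) (-(M : ℤ))).swap hGM)
      simpa using h0
    · have e1 : v (2 * j + 1 - 1) = (f ^ j * g ^ M) * (g ^ M)⁻¹ := by
        rw [add_sub_cancel_right, hv0]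
        group
      have e2 : v (2 * j + 1 + 1) = (f ^ j * g ^ M) * g' ^ M := by
        have : (2 * j + 1 + 1 : ℤ) = 2 * (j + 1) := by ring
        rw [this, hv0, zpow_add_one, hf]
        group
      rw [e1, e2, hv1]
      have h0 := m3_btw_mul hG (f ^ j * g ^ M) (hc (-(M : ℤ)) (M : ℤ))
      simpa using h0
  have hl : ∀ n : ℤ, c + 2 * δ < d (v n) (v (n + 1)) := by
    intro n
    rcases Int.even_or_odd' n with ⟨j, rfl | rfl⟩
    · rw [hv0, hv1, hG.d_mul_right]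
      exact hgM
    · have e2 : v (2 * j + 1 + 1) = (f ^ j * g ^ M) * g' ^ M := by
        have : (2 * j + 1 + 1 : ℤ) = 2 * (j + 1) := by ring
        rw [this, hv0, zpow_add_one, hf]
        group
      rw [e2, hv1, hG.d_mul_right]
      exact hg'M
  -- the long path
  set e : ℕ := d 1 x with he
  set n : ℕ := e + c + 4 * δ + 4 with hn
  have hnN : n ≤ p * n := Nat.le_mul_of_pos_left _ (Nat.pos_of_ne_zero hp)
  set N : ℕ := p * n with hN
  have hkey : ∀ l : ℕ, l ≤ 2 → ∃ h ∈ H i, d (v l) (x * h) ≤ κ i + (c + 2 * δ + 2 * δ) := by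
    intro l hl2
    have hbt : Btw d (c + 2 * δ) (v (2 * (-(N : ℤ)))) (v (2 * (N : ℤ))) (v l) :=
      broken_int hGM hG.hyp v hb hl (by omega) (by omega)
    have hg1 : d (v (2 * (-(N : ℤ)))) (v l) ≥ 2 * N + l := by
      have := broken_int_grow hGM hG.hyp v hb hl (2 * (-(N : ℤ))) (2 * N + l)
      have e3 : (2 * (-(N : ℤ)) + ((2 * N + l : ℕ) : ℤ)) = (l : ℤ) := by push_cast; ring
      rwa [e3] at this
    have hg2 : d (v l) (v (2 * (N : ℤ))) ≥ 2 * N - l := by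
      have := broken_int_grow hGM hG.hyp v hb hl (l : ℤ) (2 * N - l)
      have e3 : ((l : ℤ) + ((2 * N - l : ℕ) : ℤ)) = 2 * (N : ℤ) := by omega
      rwa [e3] at this
    have hx1 : d (v (2 * (-(N : ℤ)))) (f ^ (-(N : ℤ)) * x) ≤ e := by
      rw [hv0, hG.d_mul_right]
    have hx2 : d (v (2 * (N : ℤ))) (f ^ (N : ℤ) * x) ≤ e := by
      rw [hv0, hG.d_mul_right]
    have hfar := Btw.far hGM hG.hyp hbt hx1 hx2 (by omega) (by omega)
    have hA : f ^ (-(N : ℤ)) * x ∈ ((fun y => x * y) '' (H i : Set G)) := by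
      refine ⟨((x⁻¹ * f ^ p * x) ^ n)⁻¹, (H i).inv_mem ((H i).pow_mem hx n), ?_⟩
      change x * ((x⁻¹ * f ^ p * x) ^ n)⁻¹ = _
      rw [m3_conj_pow, ← pow_mul, ← hN, zpow_neg, zpow_natCast]
      group
    have hB : f ^ (N : ℤ) * x ∈ ((fun y => x * y) '' (H i : Set G)) := by
      refine ⟨(x⁻¹ * f ^ p * x) ^ n, (H i).pow_mem hx n, ?_⟩
      change x * ((x⁻¹ * f ^ p * x) ^ n) = _
      rw [m3_conj_pow, ← pow_mul, ← hN, zpow_natCast]
      group
    obtain ⟨q, ⟨h, hh, rfl⟩, hq⟩ := (QC.translate hG (hκ i) x).near hA hB hfar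
    exact ⟨h, hh, hq⟩
  obtain ⟨h0, hh0, hd0⟩ := hkey 0 (by omega)
  obtain ⟨h1, hh1, hd1⟩ := hkey 1 (by omega)
  obtain ⟨h2, hh2, hd2⟩ := hkey 2 (by omega)
  have ev0 : v ((0 : ℕ) : ℤ) = 1 := by
    have := hv0 0
    simpa using this
  have ev1 : v ((1 : ℕ) : ℤ) = g ^ M := by
    have := hv1 0
    simpa using this
  have ev2 : v ((2 : ℕ) : ℤ) = g ^ M * g' ^ M := by
    have := hv0 1
    simpa [hf] using this
  rw [ev0] at hd0
  rw [ev1] at hd1
  rw [ev2] at hd2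
  constructor
  · exact hm1 i M (by omega) x h0 h1 hh0 hh1 hd0 hd1
  · refine hm2 i M (by omega) ((g ^ M)⁻¹ * x) h1 h2 hh1 hh2 ?_ ?_
    · have := hG.inv (g ^ M)⁻¹ (g ^ M) (x * h1)
      rw [inv_mul_cancel, ← mul_assoc] at this
      rw [this]
      exact hd1
    · have := hG.inv (g ^ M)⁻¹ (g ^ M * g' ^ M) (x * h2)
      rw [inv_mul_cancel_left, ← mul_assoc] at this
      rw [this]
      exact hd2

theorem m3_step (hG : IsHG d δ) (tf : TF G) {ι : Type*} (s : Finset ι)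
    (H : ι → Subgroup G) (hq : ∀ i, ∃ κ, QC d κ (H i : Set G)) (k : ι → ℕ)
    (hf : ∀ i, FF (H i) (k i)) {U : Subgroup G} (hU : NonAb U) (hn : ∀ i, NoFin U (H i)) :
    ∃ g ∈ U, g ≠ 1 ∧ ∀ i ∈ s, ∀ x : G, ∀ p : ℕ, p ≠ 0 → x⁻¹ * g ^ p * x ∉ H i := by
  classical
  induction s using Finset.induction_on with
  | empty =>
    obtain ⟨x, hx, y, hy, hxy⟩ := hU
    refine ⟨x, hx, ?_, by simp⟩
    rintro rfl
    exact hxy (by simp)
  | insert j s hjs ih =>
    obtain ⟨g, hgU, hg1, hgood⟩ := ih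
    by_cases hper : ∃ x : G, ∃ p : ℕ, p ≠ 0 ∧ x⁻¹ * g ^ p * x ∈ H j
    · -- finite set of periodic points
      have hfin := m3_per_finite tf hg1 (hf j)
      obtain ⟨P, hP0, hP⟩ := m3_uniform tf hg1 (hf j)
      obtain ⟨u, huU, hu⟩ := m3_move (hn j) hfin.toFinset
      have hmove : ∀ x : G, (∃ p : ℕ, p ≠ 0 ∧ x⁻¹ * g ^ p * x ∈ H j) →
          ¬ (∃ p : ℕ, p ≠ 0 ∧ (u * x)⁻¹ * g ^ p * (u * x) ∈ H j) := by
        intro x hx hux
        refine hu x ((hfin.mem_toFinset).2 ⟨x, rfl, hx⟩) ((hfin.mem_toFinset).2 ⟨u * x, rfl, hux⟩)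
      set g' : G := u * g * u⁻¹ with hg'
      have hg'pow : ∀ n : ℕ, g' ^ n = u * g ^ n * u⁻¹ := by
        intro n
        rw [hg']
        exact conj_pow
      have hg'zpow : ∀ n : ℤ, g' ^ n = u * g ^ n * u⁻¹ := by
        intro n
        rw [hg']
        exact conj_zpow
      have hg'1 : g' ≠ 1 := by
        intro h
        apply hg1
        have : g = u⁻¹ * g' * u := by rw [hg']; group
        rw [this, h]
        group
      -- periodic points of `g'`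
      have hper' : ∀ x : G, (∃ p : ℕ, p ≠ 0 ∧ x⁻¹ * g' ^ p * x ∈ H j) →
          ¬ (∃ p : ℕ, p ≠ 0 ∧ x⁻¹ * g ^ p * x ∈ H j) := by
        rintro x ⟨p, hp, hx⟩ hx'
        have h1 : ∃ p : ℕ, p ≠ 0 ∧ (u⁻¹ * x)⁻¹ * g ^ p * (u⁻¹ * x) ∈ H j := by
          refine ⟨p, hp, ?_⟩
          rw [hg'pow] at hx
          have : (u⁻¹ * x)⁻¹ * g ^ p * (u⁻¹ * x) = x⁻¹ * (u * g ^ p * u⁻¹) * x := by group
          rw [this]
          exact hx
        apply hmove _ h1
        obtain ⟨q, hq0, hq1⟩ := hx'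
        refine ⟨q, hq0, ?_⟩
        rw [mul_inv_cancel_left]
        exact hq1
      have hind : Indep g g' := by
        intro p q hpq
        by_contra hp
        obtain ⟨x, p0, hp0, hx⟩ := hper
        have hxP := hP x p0 hp0 hx
        -- g^(p P) fixes x, so does g'^(q P)
        have hgp : g ^ p ≠ 1 := by
          intro h
          rcases Int.natAbs_eq p with h' | h'
          · rw [h', zpow_natCast] at h
            exact hg1 (tf g _ (by omega) h)
          · rw [h', zpow_neg, zpow_natCast, inv_eq_one] at h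
            exact hg1 (tf g _ (by omega) h)
        have hq : q ≠ 0 := by
          rintro rfl
          rw [zpow_zero] at hpq
          exact hgp hpq
        refine hper' x ?_ ⟨P, hP0, hxP⟩
        refine ⟨q.natAbs * P, Nat.mul_ne_zero (Int.natAbs_ne_zero.2 hq) hP0, ?_⟩
        have h1 : x⁻¹ * g' ^ (q * P) * x ∈ H j := by
          rw [zpow_mul, ← hpq, ← zpow_mul, mul_comm, zpow_mul, ← m3_conj_zpow, zpow_natCast]
          exact (H j).zpow_mem hxP p
        rcases Int.natAbs_eq q with h' | h'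
        · rw [h'] at h1
          have : x⁻¹ * g' ^ (q.natAbs * P) * x = x⁻¹ * g' ^ ((q.natAbs : ℤ) * P) * x := by
            rw [← zpow_natCast]; push_cast; rfl
          rw [this]
          exact h1
        · rw [h'] at h1
          have : x⁻¹ * g' ^ (q.natAbs * P) * x =
              (x⁻¹ * g' ^ (-(q.natAbs : ℤ) * P) * x)⁻¹ := by
            rw [← zpow_natCast]
            push_cast
            rw [neg_mul, zpow_neg]
            group
          rw [this]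
          exact (H j).inv_mem h1
      obtain ⟨M0, hM0⟩ := m3_prod hG tf hg1 hg'1 hind (insert j s) H hq
      set M : ℕ := P * (M0 + 1) with hM
      have hMM : M0 ≤ M := by
        have : M0 + 1 ≤ P * (M0 + 1) := Nat.le_mul_of_pos_left _ (Nat.pos_of_ne_zero hP0)
        omega
      have hMpos : M ≠ 0 := Nat.mul_ne_zero hP0 (Nat.succ_ne_zero _)
      refine ⟨g ^ M * g' ^ M, U.mul_mem (U.pow_mem hgU _) (U.pow_mem (U.mul_mem
        (U.mul_mem huU hgU) (U.inv_mem huU)) _), ?_, ?_⟩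
      · intro h
        have := hind (M : ℤ) (-(M : ℤ)) (by
          rw [zpow_neg, zpow_natCast, zpow_natCast]
          exact eq_inv_of_mul_eq_one_left h)
        exact hMpos (by exact_mod_cast this)
      · intro i hi x p hp hx
        obtain ⟨⟨q, hq0, hqx⟩, ⟨q', hq'0, hq'x⟩⟩ := hM0 M hMM i hi x p hp hx
        rcases Finset.mem_insert.1 hi with rfl | his
        · have hxP := hP x q hq0 hqx
          have hxM : x⁻¹ * g ^ M * x ∈ H i := by
            rw [hM, pow_mul, ← m3_conj_pow]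
            exact (H i).pow_mem hxP _
          refine hper' _ ⟨q', hq'0, hq'x⟩ ⟨q, hq0, ?_⟩
          have : ((g ^ M)⁻¹ * x)⁻¹ * g ^ q * ((g ^ M)⁻¹ * x) = x⁻¹ * g ^ q * x := by
            have hcomm : g ^ M * g ^ q * (g ^ M)⁻¹ = g ^ q := by
              rw [← pow_add, add_comm, pow_add]
              group
            calc ((g ^ M)⁻¹ * x)⁻¹ * g ^ q * ((g ^ M)⁻¹ * x)
                = x⁻¹ * (g ^ M * g ^ q * (g ^ M)⁻¹) * x := by group
              _ = _ := by rw [hcomm]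
          rw [this]
          exact hqx
        · exact hgood i his x q hq0 hqx
    · push Not at hper
      refine ⟨g, hgU, hg1, ?_⟩
      intro i hi x p hp
      rcases Finset.mem_insert.1 hi with rfl | his
      · exact hper x p hp
      · exact hgood i his x p hp

theorem exists_no_periodic (hG : IsHG d δ) (tf : TF G) {ι : Type*} [Finite ι]
    (H : ι → Subgroup G) (hq : ∀ i, ∃ κ, QC d κ (H i : Set G)) (k : ι → ℕ)
    (hf : ∀ i, FF (H i) (k i)) {U : Subgroup G} (hU : NonAb U) (hn : ∀ i, NoFin U (H i)) :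
    ∃ g ∈ U, g ≠ 1 ∧ ∀ i, ∀ x : G, ∀ p : ℕ, p ≠ 0 → x⁻¹ * g ^ p * x ∉ H i := by
  classical
  obtain ⟨inst⟩ := nonempty_fintype ι
  obtain ⟨g, hg, hg1, h⟩ := m3_step hG tf (Finset.univ) H hq k hf hU hn
  exact ⟨g, hg, hg1, fun i => h i (Finset.mem_univ i)⟩

end TD
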