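import Pool.Agent.TD.RelB

/-!
# Module OverB: O2 (J), vertex matching.  Blueprint section 16.
-/

set_option autoImplicit false

namespace TD

variable {G : Type*} [Group G] {d : G → G → ℕ} {δ : ℕ}

theorem ovB_zpow (tf : TF G) {g : G} (hg : g ≠ 1) {p : ℤ} (h : g ^ p = 1) : p = 0 := by
  by_contra hp
  have h1 : g ^ p.natAbs = 1 := by
    rcases Int.natAbs_eq p with h2 | h2
    · rw [h2, zpow_natCast] at h; exact h
    · rw [h2, zpow_neg, zpow_natCast, inv_eq_one] at h; exact h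
  exact hg (tf g p.natAbs (Int.natAbs_ne_zero.mpr hp) h1)

theorem ovB_norm_pow (hG : IsHG d δ) (g : G) (n : ℕ) : d 1 (g ^ n) ≤ n * d 1 g := by
  induction n with
  | zero => simp [hG.self]
  | succ n ih =>
    rw [pow_succ]
    have := hG.norm_mul (g ^ n) g
    calc d 1 (g ^ n * g) ≤ d 1 (g ^ n) + d 1 g := this
      _ ≤ n * d 1 g + d 1 g := by omega
      _ = (n + 1) * d 1 g := by ring

theorem ovB_lip (hG : IsHG d δ) {γ : ℤ → G} (hl : ∀ s, d (γ s) (γ (s + 1)) ≤ 1) (s : ℤ) (n : ℕ) :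
    d (γ s) (γ (s + n)) ≤ n := by
  induction n with
  | zero => simp [hG.self]
  | succ n ih =>
    have h1 := hG.tri (γ s) (γ (s + n)) (γ (s + n + 1))
    have h2 := hl (s + n)
    have h3 : s + ((n + 1 : ℕ) : ℤ) = s + n + 1 := by push_cast; ring
    rw [h3]; omega

theorem ovB_lip' (hG : IsHG d δ) {γ : ℤ → G} (hl : ∀ s, d (γ s) (γ (s + 1)) ≤ 1) (s t : ℤ) :
    (d (γ s) (γ t) : ℤ) ≤ |s - t| := by
  rcases le_total s t with h | h
  · obtain ⟨n, hn⟩ := Int.eq_ofNat_of_zero_le (sub_nonneg.mpr h)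
    have h1 := ovB_lip hG hl s n
    have h2 : s + (n : ℤ) = t := by linarith
    rw [h2] at h1
    rw [abs_sub_comm, abs_of_nonneg (sub_nonneg.mpr h), hn]
    exact_mod_cast h1
  · obtain ⟨n, hn⟩ := Int.eq_ofNat_of_zero_le (sub_nonneg.mpr h)
    have h1 := ovB_lip hG hl t n
    have h2 : t + (n : ℤ) = s := by linarith
    rw [h2] at h1
    rw [abs_of_nonneg (sub_nonneg.mpr h), hn, hG.symm]
    exact_mod_cast h1

theorem ovB_near_path (hG : IsHG d δ) {γ : ℤ → G} {σ ρ : ℤ} (h : σ ≤ ρ)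
    (hgeo : ∀ s t, σ ≤ s → s ≤ t → t ≤ ρ → (d (γ s) (γ t) : ℤ) = t - s) {c' : ℕ} {p : G}
    (hp : Btw d c' (γ σ) (γ ρ) p) : ∃ u, σ ≤ u ∧ u ≤ ρ ∧ d p (γ u) ≤ c' + δ + 1 := by
  obtain ⟨u, h1, h2, h3⟩ := path_qc_btw hG.toIsGM hG.hyp (c := 0) (c' := c') (l := 1) γ h
    (fun u hu hu' => by
      have := hgeo u (u + 1) hu (by omega) (by omega)
      have h4 : (u + 1 - u : ℤ) = 1 := by ring
      rw [h4] at this
      exact_mod_cast this.le)
    (fun u hu hu' => by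
      have e1 := hgeo σ u le_rfl hu hu'
      have e2 := hgeo u ρ hu hu' le_rfl
      have e3 := hgeo σ ρ le_rfl h le_rfl
      unfold Btw
      have : ((d (γ σ) (γ u) + d (γ u) (γ ρ) : ℕ) : ℤ) ≤ ((d (γ σ) (γ ρ) + 0 : ℕ) : ℤ) := by
        push_cast; linarith
      exact_mod_cast this) hp
  exact ⟨u, h1, h2, by omega⟩

theorem ovB_near_axis (hG : IsHG d δ) {g Z y y' p : G} {κ e : ℕ}
    (hq : QC d κ (Subgroup.zpowers g : Set G)) (n : ℤ) (hy : d y Z ≤ e) (hy' : y' = Z * g ^ n)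
    (hp : Btw d 0 y y' p) : ∃ j : ℤ, d p (Z * g ^ j) ≤ κ + 2 * e := by
  have h1 : Btw d (0 + 2 * e + 2 * 0 + 2 * 0) Z y' p :=
    Btw.change hG.toIsGM hp hy (by rw [hG.self]) (by rw [hG.self])
  have h2 : Btw d (2 * e) (1 : G) (g ^ n) (Z⁻¹ * p) := by
    unfold Btw at h1 ⊢
    have e1 := hG.inv Z⁻¹ Z p
    have e2 := hG.inv Z⁻¹ p y'
    have e3 := hG.inv Z⁻¹ Z y'
    rw [hy'] at e2 e3 h1
    rw [inv_mul_cancel] at e1 e3
    rw [inv_mul_cancel_left] at e2 e3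
    rw [e1, e2, e3]
    omega
  obtain ⟨q, hq1, hq2⟩ := QC.near hq (Subgroup.one_mem _) ⟨n, rfl⟩ h2
  obtain ⟨j, rfl⟩ := hq1
  refine ⟨j, ?_⟩
  have e1 := hG.inv Z⁻¹ p (Z * g ^ j)
  rw [inv_mul_cancel_left] at e1
  rw [← e1]
  exact hq2

theorem ovB_pigeon (hG : IsHG d δ) {E J : ℕ}
    (hJ : ∀ (f : ℕ → G), (∀ j ≤ J, d 1 (f j) ≤ E) → ∃ i j, i < j ∧ j ≤ J ∧ f i = f j)
    {y g X b : G} (h : ∀ i : ℕ, i ≤ J → ∃ j : ℤ, d (y * g ^ i) (X * b ^ j) ≤ E) :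
    ∃ p q : ℤ, p ≠ 0 ∧ y * g ^ p * y⁻¹ = X * b ^ q * X⁻¹ := by
  have h' : ∀ i : ℕ, ∃ j : ℤ, i ≤ J → d (y * g ^ i) (X * b ^ j) ≤ E := by
    intro i
    by_cases hi : i ≤ J
    · obtain ⟨j, hj⟩ := h i hi
      exact ⟨j, fun _ => hj⟩
    · exact ⟨0, fun h => absurd h hi⟩
  choose j hj using h'
  obtain ⟨i, i', hii, hi'J, he⟩ := hJ (fun i => (y * g ^ i)⁻¹ * (X * b ^ (j i)))
    (fun i hi => by rw [← hG.norm_eq]; exact hj i hi)
  refine ⟨(i' : ℤ) - i, j i' - j i, by omega, ?_⟩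
  have he' : (y * g ^ i)⁻¹ * (X * b ^ (j i)) = (y * g ^ i')⁻¹ * (X * b ^ (j i')) := he
  have h1 : y * g ^ ((i' : ℤ) - i) * y⁻¹ = (y * g ^ i') * ((y * g ^ i)⁻¹ * (X * b ^ (j i))) *
      (X * b ^ (j i))⁻¹ := by
    rw [zpow_sub, zpow_natCast, zpow_natCast]; group
  rw [h1, he', zpow_sub]
  group

theorem ovB_combine (tf : TF G) {y g y' g' X b : G} (hg : g ≠ 1) (hg' : g' ≠ 1)
    {p q p' q' : ℤ} (hp : p ≠ 0) (hp' : p' ≠ 0)
    (h : y * g ^ p * y⁻¹ = X * b ^ q * X⁻¹) (h' : y' * g' ^ p' * y'⁻¹ = X * b ^ q' * X⁻¹) :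
    ∃ n n' : ℤ, n ≠ 0 ∧ n' ≠ 0 ∧ y * g ^ n * y⁻¹ = y' * g' ^ n' * y'⁻¹ := by
  have hq : q ≠ 0 := by
    rintro rfl
    rw [zpow_zero, mul_one, mul_inv_cancel, conj_eq_one_iff] at h
    exact hp (ovB_zpow tf hg h)
  have hq' : q' ≠ 0 := by
    rintro rfl
    rw [zpow_zero, mul_one, mul_inv_cancel, conj_eq_one_iff] at h'
    exact hp' (ovB_zpow tf hg' h')
  refine ⟨p * q', p' * q, mul_ne_zero hp hq', mul_ne_zero hp' hq, ?_⟩
  have e1 : y * g ^ (p * q') * y⁻¹ = (y * g ^ p * y⁻¹) ^ q' := by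
    rw [conj_zpow, zpow_mul]
  have e2 : y' * g' ^ (p' * q) * y'⁻¹ = (y' * g' ^ p' * y'⁻¹) ^ q := by
    rw [conj_zpow, zpow_mul]
  rw [e1, e2, h, h', conj_zpow, conj_zpow, ← zpow_mul, ← zpow_mul, mul_comm q q']

/-- Shape of a block. -/
theorem ovB_blk (hG : IsHG d δ) {a g₁ g₂ : G} {T : ℕ} {m : ℤ → ℕ} {v : ℤ → G} {i : ℤ}
    (h : v (i + 1) = v i * blk a g₁ g₂ T m i) :
    ∃ z g : G, d (v i) z ≤ d 1 a ∧ v (i + 1) = z * g ^ (m i) ∧
      ((g = g₁ ∧ i % 2 = 0) ∨ (g = g₂ ∧ i % 2 = 1)) ∧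
      (z = v i ∨ (z = v i * a ∧ g = g₁ ∧ i % 2 = 0)) := by
  unfold blk at h
  split_ifs at h with h1 h2
  · refine ⟨v i * a, g₁, by rw [hG.d_mul_right], by rw [h]; group, Or.inl ⟨rfl, ?_⟩,
      Or.inr ⟨rfl, rfl, ?_⟩⟩
    all_goals
      have h3 : (2 : ℤ) ∣ i := Dvd.dvd.trans ⟨(T : ℤ), by ring⟩ (Int.dvd_of_emod_eq_zero h1)
      omega
  · exact ⟨v i, g₁, by rw [hG.self]; omega, h, Or.inl ⟨rfl, h2⟩, Or.inl rfl⟩
  · exact ⟨v i, g₂, by rw [hG.self]; omega, h, Or.inr ⟨rfl, by omega⟩, Or.inl rfl⟩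

/-- O2 (J): vertices in the overlap of two translates are close to vertices. -/
theorem relPath_vertex (hG : IsHG d δ) (tf : TF G) (a : G) {g₁ g₂ : G} (h₁ : g₁ ≠ 1)
    (h₂ : g₂ ≠ 1) (hi : Indep g₁ g₂) (hi' : Indep (a * g₁ * a⁻¹) g₂) (c₀ E : ℕ) :
    ∃ E₅ lam₀ M₀ D₀ : ℕ, ∀ (T lam Δ M : ℕ), 2 ≤ T → lam₀ ≤ lam → M₀ ≤ M → ∀ r γ L v τ m,
      RelPath d a g₁ g₂ T lam Δ M r γ L v τ m →
      (∀ i, Btw d c₀ (v (i - 1)) (v (i + 1)) (v i)) →
      ∀ (x : G) (s t : ℤ), (∀ u, s ≤ u → u ≤ t → ∃ u', d (γ u) (x * γ u') ≤ E) →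
      ∀ l, s + D₀ ≤ τ l → τ l + D₀ ≤ t → ∃ k, d (v l) (x * v k) ≤ E₅ := by
  obtain ⟨κ₁, hκ₁⟩ := lox hG (fun n hn h => h₁ (tf g₁ n hn h))
  obtain ⟨κ₂, hκ₂⟩ := lox hG (fun n hn h => h₂ (tf g₂ n hn h))
  obtain ⟨κ₃, hκ₃⟩ := zpowers_qc hG tf g₁
  obtain ⟨κ₄, hκ₄⟩ := zpowers_qc hG tf g₂
  -- uniform statements for both generators
  have hlox : ∀ g : G, (g = g₁ ∨ g = g₂) → ∀ i j k : ℤ, i ≤ j → j ≤ k →
      Btw d (κ₁ + κ₂) (g ^ i) (g ^ k) (g ^ j) := by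
    rintro g (rfl | rfl) i j k hij hjk
    · exact (hκ₁ i j k hij hjk).mono (by omega)
    · exact (hκ₂ i j k hij hjk).mono (by omega)
  have hqc : ∀ g : G, (g = g₁ ∨ g = g₂) → QC d (κ₃ + κ₄) (Subgroup.zpowers g : Set G) := by
    rintro g (rfl | rfl) x hx y hy p
    · obtain ⟨c, hc, h⟩ := hκ₃ x hx y hy p
      exact ⟨c, hc, by omega⟩
    · obtain ⟨c, hc, h⟩ := hκ₄ x hx y hy p
      exact ⟨c, hc, by omega⟩
  have hnorm : ∀ g : G, (g = g₁ ∨ g = g₂) → d 1 g ≤ d 1 g₁ + d 1 g₂ := by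
    rintro g (rfl | rfl) <;> omega
  set A := d 1 a with hA
  set κ := κ₁ + κ₂ with hκ
  set κ' := κ₃ + κ₄ with hκ'
  set G0 := d 1 g₁ + d 1 g₂ with hG0
  obtain ⟨J, hJ⟩ := hG.pigeon ((κ + 2 * A + δ + 1) + E + (κ' + 2 * A))
  set E7 := κ + 2 * A + δ + 1 with hE7
  set D1 := A + J * G0 + E7 with hD1
  set D2 := 2 * (D1 + 2 * E + c₀ + δ) with hD2
  refine ⟨E + D2 + 1, 5 * (c₀ + δ) + 1, J, D1, ?_⟩
  intro T lam Δ M hT hlam hM r γ L v τ m hR hbt x s t hpart l hsl hlt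
  obtain ⟨hlip, hbtw, hlow, -⟩ := RelPath.basic hG hR hbt (by omega)
  by_contra hcon
  push Not at hcon
  have hm : ∀ i, J ≤ m i := fun i => hM.trans (hR.m_ge i)
  have hlampos : 1 ≤ lam := by omega
  have hstep : ∀ i, τ i + 1 ≤ τ (i + 1) := by
    intro i
    have h1 := hR.τ_succ i
    have h2 := hR.len_ge i
    have h3 : (1 : ℤ) ≤ d (v i) (v (i + 1)) := by exact_mod_cast hlampos.trans h2
    linarith
  -- monotonicity
  have hgrow : ∀ (i : ℤ) (n : ℕ), τ i + n ≤ τ (i + n) := by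
    intro i n
    induction n with
    | zero => simp
    | succ n ih =>
      have h1 := hstep (i + n)
      have h3 : i + ((n + 1 : ℕ) : ℤ) = i + n + 1 := by push_cast; ring
      rw [h3]; push_cast; linarith
  -- partner of the vertex
  obtain ⟨u0, hu0⟩ := hpart (τ l) (by linarith [Int.natCast_nonneg D1])
    (by linarith [Int.natCast_nonneg D1])
  rw [hR.γ_τ] at hu0
  -- the block containing `u0`
  obtain ⟨k, hk1, hk2⟩ : ∃ k, τ k ≤ u0 ∧ u0 ≤ τ (k + 1) := by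
    obtain ⟨k, hk, hk'⟩ := Int.exists_greatest_of_bdd (P := fun z => τ z ≤ u0)
      (by
        refine ⟨|u0 - τ 0|, fun z hz => ?_⟩
        rcases le_total z 0 with h | h
        · exact h.trans (abs_nonneg _)
        · obtain ⟨n, rfl⟩ := Int.eq_ofNat_of_zero_le h
          have h1 := hgrow 0 n
          rw [zero_add] at h1
          have h2 : (n : ℤ) ≤ u0 - τ 0 := by
            have h3 : τ n ≤ u0 := hz
            linarith
          exact h2.trans (le_abs_self _))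
      (by
        refine ⟨-((u0 - τ 0).natAbs : ℤ), ?_⟩
        have h1 := hgrow (-((u0 - τ 0).natAbs : ℤ)) (u0 - τ 0).natAbs
        rw [neg_add_cancel] at h1
        have h2 : -((u0 - τ 0).natAbs : ℤ) ≤ u0 - τ 0 := by
          rw [Int.natCast_natAbs]; exact neg_abs_le _
        show τ (-((u0 - τ 0).natAbs : ℤ)) ≤ u0
        linarith)
    refine ⟨k, hk, ?_⟩
    by_contra h
    have := hk' (k + 1) (by push Not at h; exact h.le)
    omega
  have hk1' : τ k + D2 ≤ u0 := by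
    have h1 := hcon k
    have h2 := hG.tri (v l) (x * γ u0) (x * v k)
    rw [hG.inv, ← hR.γ_τ k] at h2
    rw [← hR.γ_τ k] at h1
    have h3 := ovB_lip' hG hlip u0 (τ k)
    rw [abs_of_nonneg (by linarith)] at h3
    have h4 : D2 ≤ d (γ u0) (γ (τ k)) := by omega
    have h5 : (D2 : ℤ) ≤ d (γ u0) (γ (τ k)) := by exact_mod_cast h4
    linarith
  have hk2' : u0 + D2 ≤ τ (k + 1) := by
    have h1 := hcon (k + 1)
    have h2 := hG.tri (v l) (x * γ u0) (x * v (k + 1))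
    rw [hG.inv, ← hR.γ_τ (k + 1)] at h2
    rw [← hR.γ_τ (k + 1)] at h1
    have h3 := ovB_lip' hG hlip u0 (τ (k + 1))
    rw [abs_sub_comm, abs_of_nonneg (by linarith)] at h3
    have h4 : D2 ≤ d (γ u0) (γ (τ (k + 1))) := by omega
    have h5 : (D2 : ℤ) ≤ d (γ u0) (γ (τ (k + 1))) := by exact_mod_cast h4
    linarith
  obtain ⟨Z, b, hZ, hvk, hb, -⟩ := ovB_blk hG (hR.v_succ k)
  have hb' : b = g₁ ∨ b = g₂ := by tauto
  -- the partner of every point near the vertex lies in block `k`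
  have key : ∀ u, s ≤ u → u ≤ t → |u - τ l| ≤ D1 →
      ∃ j : ℤ, d (γ u) (x * Z * b ^ j) ≤ E + (κ' + 2 * A) := by
    intro u hu1 hu2 hu3
    obtain ⟨u', hu'⟩ := hpart u hu1 hu2
    have e1 := hG.tri (x * γ u') (γ u) (x * γ u0)
    have e2 := hG.tri (γ u) (v l) (x * γ u0)
    have e3 := ovB_lip' hG hlip u (τ l)
    rw [hR.γ_τ] at e3
    have e4 : d (γ u) (v l) ≤ D1 := by
      have : (d (γ u) (v l) : ℤ) ≤ D1 := e3.trans hu3
      exact_mod_cast this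
    rw [hG.inv, hG.symm (x * γ u') (γ u)] at e1
    have e5 : d (γ u') (γ u0) ≤ D1 + 2 * E := by omega
    have e6 : |u' - u0| ≤ D2 := by
      have e7 : 4 * |u' - u0| ≤ 5 * (d (γ u') (γ u0) : ℤ) + 5 * (c₀ + δ) := by
        rcases le_total u' u0 with h | h
        · rw [abs_sub_comm, abs_of_nonneg (by linarith)]
          exact hlow u' u0 h
        · rw [abs_of_nonneg (by linarith), hG.symm]
          exact hlow u0 u' h
      have e8 : (d (γ u') (γ u0) : ℤ) ≤ D1 + 2 * E := by exact_mod_cast e5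
      have e9 : (D2 : ℤ) = 2 * (D1 + 2 * E + c₀ + δ) := by rw [hD2]; push_cast; ring
      rw [e9]
      have e10 : (0 : ℤ) ≤ D1 + 2 * E + c₀ + δ := by positivity
      linarith
    have hu'1 : τ k ≤ u' := by
      have := (abs_le.mp e6).1
      linarith
    have hu'2 : u' ≤ τ (k + 1) := by
      have := (abs_le.mp e6).2
      linarith
    have f1 := hR.geo k (τ k) u' le_rfl hu'1 hu'2
    have f2 := hR.geo k u' (τ (k + 1)) hu'1 hu'2 le_rfl
    have f3 := hR.geo k (τ k) (τ (k + 1)) le_rfl (by linarith) le_rfl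
    rw [hR.γ_τ] at f1 f2 f3
    rw [hR.γ_τ] at f3
    have f4 : Btw d 0 (v k) (v (k + 1)) (γ u') := by
      unfold Btw
      have : ((d (v k) (γ u') + d (γ u') (v (k + 1)) : ℕ) : ℤ) ≤
          ((d (v k) (v (k + 1)) + 0 : ℕ) : ℤ) := by
        push_cast; linarith
      exact_mod_cast this
    obtain ⟨j, hj⟩ := ovB_near_axis hG (hqc b hb') (m k : ℤ) hZ (by rw [hvk, zpow_natCast]) f4
    refine ⟨j, ?_⟩
    have g1 := hG.tri (γ u) (x * γ u') (x * Z * b ^ j)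
    have g2 : d (x * γ u') (x * Z * b ^ j) = d (γ u') (Z * b ^ j) := by
      rw [mul_assoc x Z, hG.inv]
    rw [g2] at g1
    omega
  -- forward side
  obtain ⟨z, g, hz, hvl, hg, hzz⟩ := ovB_blk hG (hR.v_succ l)
  have hg' : g = g₁ ∨ g = g₂ := by tauto
  obtain ⟨p, q, hp, hpq⟩ : ∃ p q : ℤ, p ≠ 0 ∧ z * g ^ p * z⁻¹ = (x * Z) * b ^ q * (x * Z)⁻¹ := by
    apply ovB_pigeon hG hJ
    intro i hiJ
    have b1 := hlox g hg' 0 i (m l) (by positivity) (by exact_mod_cast hiJ.trans (hm l))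
    have b2 : Btw d κ z (z * g ^ (m l)) (z * g ^ i) := by
      unfold Btw at b1 ⊢
      rw [zpow_zero, zpow_natCast, zpow_natCast] at b1
      have c1 := hG.inv z 1 (g ^ i)
      have c2 := hG.inv z (g ^ i) (g ^ (m l))
      have c3 := hG.inv z 1 (g ^ (m l))
      rw [mul_one] at c1 c3
      rw [c1, c2, c3]; exact b1
    have b3 : Btw d (κ + 2 * A + 2 * 0 + 2 * 0) (v l) (v (l + 1)) (z * g ^ i) :=
      Btw.change hG.toIsGM b2 (by rw [hG.symm]; exact hz) (by rw [hvl, hG.self]) (by rw [hG.self])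
    have b4 : Btw d (κ + 2 * A) (γ (τ l)) (γ (τ (l + 1))) (z * g ^ i) := by
      rw [hR.γ_τ, hR.γ_τ]; exact b3.mono (by omega)
    obtain ⟨u, hu1, hu2, hu3⟩ := ovB_near_path hG (by linarith [hstep l])
      (fun s' t' h1 h2 h3 => hR.geo l s' t' h1 h2 h3) b4
    have c1 := hR.geo l (τ l) u le_rfl hu1 hu2
    rw [hR.γ_τ] at c1
    have c2 := hG.tri (v l) (z * g ^ i) (γ u)
    have c3 := hG.tri (v l) z (z * g ^ i)
    rw [hG.d_mul_right] at c3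
    have c4 := ovB_norm_pow hG g i
    have c5 : i * d 1 g ≤ J * G0 := Nat.mul_le_mul hiJ (hnorm g hg')
    have c6 : d (v l) (γ u) ≤ D1 := by omega
    have c7 : u - τ l ≤ D1 := by
      rw [← c1]; exact_mod_cast c6
    obtain ⟨j, hj⟩ := key u (by linarith [Int.natCast_nonneg D1]) (by linarith)
      (by rw [abs_of_nonneg (by linarith)]; exact c7)
    refine ⟨j, ?_⟩
    have c8 := hG.tri (z * g ^ i) (γ u) (x * Z * b ^ j)
    omega
  -- backward side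
  obtain ⟨z', g', hz', hvl', hgg, -⟩ := ovB_blk hG (hR.v_succ (l - 1))
  rw [sub_add_cancel] at hvl'
  have hgg' : g' = g₁ ∨ g' = g₂ := by tauto
  obtain ⟨p', q', hp', hpq'⟩ : ∃ p q : ℤ, p ≠ 0 ∧
      v l * (g'⁻¹) ^ p * (v l)⁻¹ = (x * Z) * b ^ q * (x * Z)⁻¹ := by
    apply ovB_pigeon hG hJ
    intro i hiJ
    have hmi : i ≤ m (l - 1) := hiJ.trans (hm _)
    have b1 := hlox g' hgg' 0 ((m (l - 1) : ℤ) - i) (m (l - 1)) (by
      have : (i : ℤ) ≤ m (l - 1) := by exact_mod_cast hmi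
      linarith) (by linarith [Int.natCast_nonneg i])
    have b0 : v l * g'⁻¹ ^ i = z' * g' ^ ((m (l - 1) : ℤ) - i) := by
      rw [hvl', zpow_sub, zpow_natCast, zpow_natCast, inv_pow]; group
    rw [b0]
    have b2 : Btw d κ z' (z' * g' ^ (m (l - 1))) (z' * g' ^ ((m (l - 1) : ℤ) - i)) := by
      unfold Btw at b1 ⊢
      rw [zpow_zero, zpow_natCast] at b1
      have c1 := hG.inv z' 1 (g' ^ ((m (l - 1) : ℤ) - i))
      have c2 := hG.inv z' (g' ^ ((m (l - 1) : ℤ) - i)) (g' ^ (m (l - 1)))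
      have c3 := hG.inv z' 1 (g' ^ (m (l - 1)))
      rw [mul_one] at c1 c3
      rw [c1, c2, c3]; exact b1
    have b3 : Btw d (κ + 2 * A + 2 * 0 + 2 * 0) (v (l - 1)) (v l)
        (z' * g' ^ ((m (l - 1) : ℤ) - i)) :=
      Btw.change hG.toIsGM b2 (by rw [hG.symm]; exact hz') (by rw [hvl', hG.self])
        (by rw [hG.self])
    have b4 : Btw d (κ + 2 * A) (γ (τ (l - 1))) (γ (τ (l - 1 + 1)))
        (z' * g' ^ ((m (l - 1) : ℤ) - i)) := by
      rw [hR.γ_τ, hR.γ_τ, sub_add_cancel]; exact b3.mono (by omega)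
    obtain ⟨u, hu1, hu2, hu3⟩ := ovB_near_path hG (by linarith [hstep (l - 1)])
      (fun s' t' h1 h2 h3 => hR.geo (l - 1) s' t' h1 h2 h3) b4
    have c1 := hR.geo (l - 1) u (τ (l - 1 + 1)) hu1 hu2 le_rfl
    rw [hR.γ_τ, sub_add_cancel] at c1
    rw [sub_add_cancel] at hu2
    have c2 := hG.tri (γ u) (z' * g' ^ ((m (l - 1) : ℤ) - i)) (v l)
    have c3 : d (z' * g' ^ ((m (l - 1) : ℤ) - i)) (v l) = d 1 (g' ^ i) := by
      rw [← b0, hG.symm, hG.d_mul_right, inv_pow, hG.norm_inv]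
    have c4 := ovB_norm_pow hG g' i
    have c5 : i * d 1 g' ≤ J * G0 := Nat.mul_le_mul hiJ (hnorm g' hgg')
    rw [hG.symm (γ u) (z' * g' ^ ((m (l - 1) : ℤ) - i)), c3] at c2
    have c6 : d (γ u) (v l) ≤ D1 := by omega
    have c7 : τ l - u ≤ D1 := by
      rw [← c1]; exact_mod_cast c6
    obtain ⟨j, hj⟩ := key u (by linarith) (by linarith [Int.natCast_nonneg D1])
      (by rw [abs_sub_comm, abs_of_nonneg (by linarith)]; exact c7)
    refine ⟨j, ?_⟩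
    have c8 := hG.tri (z' * g' ^ ((m (l - 1) : ℤ) - i)) (γ u) (x * Z * b ^ j)
    omega
  have hgne : g ≠ 1 := by rcases hg' with rfl | rfl <;> assumption
  have hgne' : g'⁻¹ ≠ 1 := by
    rw [Ne, inv_eq_one]
    rcases hgg' with rfl | rfl <;> assumption
  obtain ⟨n, n', hn, hn', heq⟩ := ovB_combine tf hgne hgne' hp hp' hpq hpq'
  rw [inv_zpow', ] at heq
  rcases hzz with hzz | ⟨hzz, hgz, hlz⟩
  · -- z = v l
    rw [hzz] at heq
    have h5 : g ^ n = g' ^ (-n') := by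
      have := mul_right_cancel heq
      exact mul_left_cancel this
    rcases hg with ⟨rfl, hl⟩ | ⟨rfl, hl⟩
    · rcases hgg with ⟨rfl, hl'⟩ | ⟨rfl, hl'⟩
      · omega
      · exact hn (hi _ _ h5)
    · rcases hgg with ⟨rfl, hl'⟩ | ⟨rfl, hl'⟩
      · have := hi _ _ h5.symm
        exact hn' (by omega)
      · omega
  · rw [hzz, hgz] at heq
    rcases hgg with ⟨rfl, hl'⟩ | ⟨rfl, hl'⟩
    · omega
    · have h5 : (a * g₁ * a⁻¹) ^ n = g' ^ (-n') := by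
        rw [conj_zpow]
        have h6 : v l * (a * g₁ ^ n * a⁻¹) * (v l)⁻¹ = v l * g' ^ (-n') * (v l)⁻¹ := by
          rw [← heq]; group
        have := mul_right_cancel h6
        exact mul_left_cancel this
      exact hn (hi' _ _ h5)

end TD
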