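import Pool.Agent.TD.RelB

/-!
# Module OverC: O2 (K), rigidity.  Blueprint section 16.
-/

set_option autoImplicit false

namespace TD

variable {G : Type*} [Group G] {d : G → G → ℕ} {δ : ℕ}

/-- If `b` moves `1` and `g ^ m` by at most `E` and `m` is large, then `b` commutes with a
power of `g`. -/
theorem overC_commute (hG : IsHG d δ) (tf : TF G) {g : G} (hg : g ≠ 1) (E : ℕ) :
    ∃ J : ℕ, ∀ (m : ℕ) (b : G), J ≤ m → d 1 b ≤ E → d (g ^ m) (b * g ^ m) ≤ E →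
      ∃ p : ℤ, p ≠ 0 ∧ b * g ^ p = g ^ p * b := by
  have hinf : ∀ n : ℕ, n ≠ 0 → g ^ n ≠ 1 := fun n hn h => hg (tf g n hn h)
  obtain ⟨κ, hκ⟩ := lox hG hinf
  obtain ⟨J, hJ⟩ := hG.pigeon (E + κ + (κ + 2 * E + 2 * E + 2 * 0) + δ)
  refine ⟨J, ?_⟩
  intro m b hm hb1 hb2
  have key : ∀ j ≤ m, d 1 (g⁻¹ ^ j * b * g ^ j) ≤ E + κ + (κ + 2 * E + 2 * E + 2 * 0) + δ := by
    intro j hj
    have h1 : Btw d κ 1 (g ^ m) (g ^ j) := by
      have := hκ 0 j m (by omega) (by omega)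
      simpa using this
    have h2 : Btw d κ b (b * g ^ m) (b * g ^ j) := by
      unfold Btw at *
      have e1 := hG.inv b 1 (g ^ j)
      have e2 := hG.inv b (g ^ j) (g ^ m)
      have e3 := hG.inv b 1 (g ^ m)
      rw [mul_one] at e1 e3
      omega
    have h3 : Btw d (κ + 2 * E + 2 * E + 2 * 0) 1 (g ^ m) (b * g ^ j) := by
      apply h2.change hG.toIsGM (e := E) (e' := E) (e'' := 0)
      · rw [hG.symm]; exact hb1
      · rw [hG.symm]; exact hb2
      · rw [hG.self]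
    have h4 := h1.close hG.toIsGM hG.hyp h3
    have h5 : |(d 1 (g ^ j) : ℤ) - d 1 (b * g ^ j)| ≤ E := by
      have t1 := hG.tri 1 b (b * g ^ j)
      have t2 := hG.inv b 1 (g ^ j)
      rw [mul_one] at t2
      have t3 := hG.tri b 1 (b * g ^ j)
      have t4 := hG.symm b 1
      rw [abs_le]
      constructor <;> omega
    have h6 : d 1 (g⁻¹ ^ j * b * g ^ j) = d (g ^ j) (b * g ^ j) := by
      rw [hG.norm_eq (g ^ j)]
      congr 1
      rw [inv_pow]; group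
    rw [h6]
    omega
  obtain ⟨i, j, hij, hjJ, hf⟩ := hJ (fun j => g⁻¹ ^ j * b * g ^ j) (fun j hj => key j (by omega))
  refine ⟨(j : ℤ) - i, by omega, ?_⟩
  -- g^{-i} b g^i = g^{-j} b g^j
  have e1 : b = g ^ ((i : ℤ) - j) * b * g ^ ((j : ℤ) - i) := by
    have h7 : b = g ^ i * (g⁻¹ ^ i * b * g ^ i) * g⁻¹ ^ i := by
      rw [inv_pow]; group
    rw [hf] at h7
    rw [zpow_sub, zpow_sub]
    simp only [zpow_natCast]
    calc b = g ^ i * (g⁻¹ ^ j * b * g ^ j) * g⁻¹ ^ i := h7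
      _ = g ^ i * (g ^ j)⁻¹ * b * (g ^ j * (g ^ i)⁻¹) := by
        rw [inv_pow, inv_pow]; group
  have e2 : g ^ ((j : ℤ) - i) * g ^ ((i : ℤ) - j) = 1 := by
    rw [← zpow_add]; simp
  calc b * g ^ ((j : ℤ) - i) = (g ^ ((j : ℤ) - i) * g ^ ((i : ℤ) - j)) * (b * g ^ ((j : ℤ) - i)) := by
        rw [e2, one_mul]
    _ = g ^ ((j : ℤ) - i) * (g ^ ((i : ℤ) - j) * b * g ^ ((j : ℤ) - i)) := by group
    _ = g ^ ((j : ℤ) - i) * b := by rw [← e1]

/-- two-sided version -/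
theorem overC_commute2 (hG : IsHG d δ) (tf : TF G) {g : G} (hg : g ≠ 1) (E : ℕ) :
    ∃ J : ℕ, ∀ (m : ℕ) (b : G), J ≤ m → d 1 b ≤ E →
      (d (g ^ m) (b * g ^ m) ≤ E ∨ d ((g ^ m)⁻¹) (b * (g ^ m)⁻¹) ≤ E) →
      ∃ p : ℤ, p ≠ 0 ∧ b * g ^ p = g ^ p * b := by
  obtain ⟨J1, h1⟩ := overC_commute hG tf hg E
  obtain ⟨J2, h2⟩ := overC_commute hG tf (g := g⁻¹) (inv_ne_one.2 hg) E
  refine ⟨max J1 J2, ?_⟩
  rintro m b hm hb (h | h)
  · exact h1 m b (le_trans (le_max_left _ _) hm) hb h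
  · rw [← inv_pow] at h
    obtain ⟨p, hp, hc⟩ := h2 m b (le_trans (le_max_right _ _) hm) hb h
    refine ⟨-p, by omega, ?_⟩
    rw [inv_zpow] at hc
    rw [zpow_neg]; exact hc

theorem overC_per {r : G} {v : ℤ → G} {N : ℤ} (h : ∀ i, v (i + N) = r * v i) (e : ℤ) :
    ∀ i, v (i + N * e) = r ^ e * v i := by
  induction e using Int.induction_on with
  | zero => intro i; simp
  | succ n ih =>
    intro i
    rw [show i + N * ((n : ℤ) + 1) = (i + N * n) + N by ring, h, ih, zpow_add_one, ← mul_assoc]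
    congr 1
    rw [(Commute.refl r).zpow_right (n : ℤ) |>.eq]
  | pred n ih =>
    intro i
    have h1 := h (i + N * (-(n : ℤ) - 1))
    rw [show i + N * (-(n : ℤ) - 1) + N = i + N * (-(n : ℤ)) by ring, ih] at h1
    have h2 : v (i + N * (-(n : ℤ) - 1)) = r⁻¹ * (r ^ (-(n : ℤ)) * v i) := by
      rw [h1]; group
    rw [h2, ← mul_assoc]
    congr 1
    rw [zpow_sub_one, (Commute.refl r).zpow_right (-(n : ℤ)) |>.inv_left |>.eq]

/-- O2 (K): three consecutive matched vertices force `x ∈ ⟨r⟩`. -/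
theorem relPath_rigid (hG : IsHG d δ) (tf : TF G) (a : G) {g₁ g₂ : G} (h₁ : g₁ ≠ 1)
    (h₂ : g₂ ≠ 1) (hi : Indep g₁ g₂) (c₀ E₅ : ℕ) :
    ∃ Δ₀ lam₀ M₀ : ℕ, ∀ (T lam Δ M : ℕ), 2 ≤ T → Δ₀ ≤ Δ → lam₀ ≤ lam → M₀ ≤ M →
      ∀ r γ L v τ m, RelPath d a g₁ g₂ T lam Δ M r γ L v τ m →
      (∀ i, Btw d c₀ (v (i - 1)) (v (i + 1)) (v i)) →
      ∀ (x : G) (l : ℤ), (∀ i, l ≤ i → i ≤ l + 4 → ∃ k, d (v i) (x * v k) ≤ E₅) →
      x ∈ Subgroup.zpowers r := by
  obtain ⟨J1, hJ1⟩ := overC_commute2 hG tf h₁ E₅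
  obtain ⟨J2, hJ2⟩ := overC_commute2 hG tf h₂ E₅
  refine ⟨2 * E₅ + 1, 20 * (c₀ + δ + E₅ + 1), max J1 J2, ?_⟩
  intro T lam Δ M hT hΔ hlam hM r γ L v τ m hR hc x l hmatch
  obtain ⟨_, _, hlow, _⟩ := hR.basic hG hc (by omega)
  -- times
  have hτ1 : ∀ k (n : ℕ), τ k + n * lam ≤ τ (k + n) := by
    intro k n
    induction n with
    | zero => simp
    | succ n ih =>
      have h1 := hR.τ_succ (k + n)
      have h2 := hR.len_ge (k + n)
      push_cast
      rw [← add_assoc]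
      have : ((n : ℤ) + 1) * lam = n * lam + lam := by ring
      omega
  have hfar : ∀ k k' : ℤ, k + 2 ≤ k' → 3 * lam + 4 * E₅ < 2 * d (v k) (v k') := by
    intro k k' hk
    obtain ⟨n, hn⟩ : ∃ n : ℕ, k' = k + n := ⟨(k' - k).toNat, by omega⟩
    have h1 := hτ1 k n
    rw [← hn] at h1
    have hn2 : 2 ≤ n := by omega
    have h2 : (2 : ℤ) * lam ≤ n * lam := by
      have : (2 : ℤ) ≤ n := by exact_mod_cast hn2
      exact mul_le_mul_of_nonneg_right this (by positivity)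
    have h3 := hlow (τ k) (τ k') (by nlinarith)
    rw [hR.γ_τ, hR.γ_τ] at h3
    omega
  -- distances of matched vertices
  have hstep : ∀ i k k' : ℤ, d (v i) (x * v k) ≤ E₅ → d (v (i + 1)) (x * v k') ≤ E₅ →
      (k' = k + 1 ∧ (i - k) % (2 * T) = 0) ∨ (k' = k - 1 ∧ (i - k') % (2 * T) = 0) := by
    intro i k k' h1 h2
    have a1 := hG.tri (v i) (x * v k) (v (i + 1))
    have a2 := hG.tri (x * v k) (x * v k') (v (i + 1))
    have a3 := hG.symm (v (i + 1)) (x * v k')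
    have a4 := hG.inv x (v k) (v k')
    have b1 := hG.tri (x * v k) (v i) (x * v k')
    have b2 := hG.tri (v i) (v (i + 1)) (x * v k')
    have b3 := hG.symm (v i) (x * v k)
    have l1 := hR.len_ge i
    have l2 := hR.len_le i
    have hup : d (v k) (v k') ≤ d (v i) (v (i + 1)) + 2 * E₅ := by omega
    have hlo : d (v i) (v (i + 1)) ≤ d (v k) (v k') + 2 * E₅ := by omega
    have hk1 : ¬ k + 2 ≤ k' := by
      intro h; have := hfar k k' h; omega
    have hk2 : ¬ k' + 2 ≤ k := by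
      intro h; have := hfar k' k h; have := hG.symm (v k) (v k'); omega
    have hk3 : k ≠ k' := by
      intro h; rw [h, hG.self] at hlo; omega
    rcases (by omega : k' = k + 1 ∨ k' = k - 1) with h | h
    · left
      refine ⟨h, ?_⟩
      by_contra hcon
      have := hR.len_sep i k hcon
      rw [h] at hup hlo
      rw [le_abs] at this
      omega
    · right
      refine ⟨h, ?_⟩
      by_contra hcon
      have := hR.len_sep i k' hcon
      have hs := hG.symm (v k) (v k')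
      have hk : k = k' + 1 := by omega
      rw [hk] at hup hlo hs
      rw [le_abs] at this
      omega
  choose! kk hkk using hmatch
  have s0 := hstep l (kk l) (kk (l + 1)) (hkk l (by omega) (by omega)) (hkk (l + 1) (by omega) (by omega))
  have s1 := hstep (l + 1) (kk (l + 1)) (kk (l + 1 + 1)) (hkk (l + 1) (by omega) (by omega))
    (hkk (l + 1 + 1) (by omega) (by omega))
  have s2 := hstep (l + 1 + 1) (kk (l + 1 + 1)) (kk (l + 1 + 1 + 1)) (hkk (l + 1 + 1) (by omega) (by omega))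
    (hkk (l + 1 + 1 + 1) (by omega) (by omega))
  have s3 := hstep (l + 1 + 1 + 1) (kk (l + 1 + 1 + 1)) (kk (l + 1 + 1 + 1 + 1))
    (hkk (l + 1 + 1 + 1) (by omega) (by omega)) (hkk (l + 1 + 1 + 1 + 1) (by omega) (by omega))
  -- congruences
  have hT4 : (4 : ℤ) ≤ 2 * T := by exact_mod_cast (by omega : 4 ≤ 2 * T)
  have hmod : ∀ n : ℤ, -3 ≤ n → n ≤ 3 → n ≠ 0 → ¬ (2 * (T : ℤ)) ∣ n := by
    intro n hn1 hn2 hn0 hd
    have := Int.le_of_dvd (by positivity : (0:ℤ) < |n|) ((dvd_abs _ _).2 hd)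
    rw [le_abs] at this
    omega
  simp only [← Int.dvd_iff_emod_eq_zero] at s0 s1 s2 s3
  have hfwd : ∀ i k k' k'' : ℤ,
      ((k' = k + 1 ∧ (2 * (T : ℤ)) ∣ (i - k)) ∨ (k' = k - 1 ∧ (2 * (T : ℤ)) ∣ (i - k'))) →
      ((k'' = k' + 1 ∧ (2 * (T : ℤ)) ∣ (i + 1 - k')) ∨ (k'' = k' - 1 ∧ (2 * (T : ℤ)) ∣ (i + 1 - k''))) →
      k' = k + 1 ∧ (2 * (T : ℤ)) ∣ (i - k) := by
    intro i k k' k'' h h'
    rcases h with h | h
    · exact h
    · exfalso
      rcases h' with h' | h'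
      · have := dvd_sub h'.2 h.2
        exact hmod _ (by omega) (by omega) (by omega) this
      · have := dvd_sub h'.2 h.2
        exact hmod _ (by omega) (by omega) (by omega) this
  have f0 := hfwd _ _ _ _ s0 s1
  have f1 := hfwd _ _ _ _ s1 s2
  have f2 := hfwd _ _ _ _ s2 s3
  have f3 : kk (l + 1 + 1 + 1 + 1) = kk (l + 1 + 1 + 1) + 1 := by
    rcases s3 with h | h
    · exact h.1
    · exfalso
      have := dvd_sub h.2 f2.2
      exact hmod _ (by omega) (by omega) (by omega) this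
  obtain ⟨e, he⟩ := f0.2
  -- `k(i) = i - 2 T e`
  set e' : ℤ := -e with he'
  have hk0 : kk l = l + 2 * T * e' := by rw [he']; linarith
  set x' : G := x * r ^ e' with hx'
  have hvx : ∀ i, x * v (i + 2 * T * e') = x' * v i := by
    intro i
    rw [overC_per hR.v_per e' i, hx', mul_assoc]
  have hclose : ∀ i, l ≤ i → i ≤ l + 4 → d (v i) (x' * v i) ≤ E₅ := by
    intro i hi1 hi2
    have h1 := hkk i hi1 hi2
    have h2 : kk i = i + 2 * T * e' := by
      rcases (by omega : i = l ∨ i = l + 1 ∨ i = l + 1 + 1 ∨ i = l + 1 + 1 + 1 ∨ i = l + 1 + 1 + 1 + 1)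
        with h | h | h | h | h <;> subst h <;> omega
    rw [h2, hvx] at h1
    exact h1
  -- choose two consecutive good blocks
  obtain ⟨i, hi1, hi2, hb1, hb2⟩ : ∃ i, l ≤ i ∧ i ≤ l + 2 ∧ ¬ i % (2 * T) = 0 ∧ ¬ (i + 1) % (2 * T) = 0 := by
    by_cases c1 : l % (2 * T) = 0
    · refine ⟨l + 1, by omega, by omega, ?_, ?_⟩
      · intro h
        rw [← Int.dvd_iff_emod_eq_zero] at c1 h
        exact hmod (l + 1 - l) (by omega) (by omega) (by omega) (dvd_sub h c1)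
      · intro h
        rw [← Int.dvd_iff_emod_eq_zero] at c1 h
        exact hmod (l + 1 + 1 - l) (by omega) (by omega) (by omega) (dvd_sub h c1)
    · by_cases c2 : (l + 1) % (2 * T) = 0
      · refine ⟨l + 2, by omega, by omega, ?_, ?_⟩
        · intro h
          rw [← Int.dvd_iff_emod_eq_zero] at c2 h
          exact hmod (l + 2 - (l + 1)) (by omega) (by omega) (by omega) (dvd_sub h c2)
        · intro h
          rw [← Int.dvd_iff_emod_eq_zero] at c2 h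
          exact hmod (l + 2 + 1 - (l + 1)) (by omega) (by omega) (by omega) (dvd_sub h c2)
      · exact ⟨l, by omega, by omega, c1, c2⟩
  have hv1 := hR.v_succ i
  have hv2 := hR.v_succ (i + 1)
  have hm1 := hR.m_ge i
  have hm2 := hR.m_ge (i + 1)
  unfold blk at hv1 hv2
  rw [if_neg hb1] at hv1
  rw [if_neg hb2] at hv2
  have q0 := hclose i hi1 (by omega)
  have q1 := hclose (i + 1) (by omega) (by omega)
  have q2 := hclose (i + 1 + 1) (by omega) (by omega)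
  set b : G := (v (i + 1))⁻¹ * x' * v (i + 1) with hb
  have hb0 : d 1 b ≤ E₅ := by
    have h1 := hG.norm_eq (v (i + 1)) (x' * v (i + 1))
    rw [← mul_assoc, ← hb] at h1
    omega
  have hL : ∀ g : G, v (i + 1) = v i * g → d g⁻¹ (b * g⁻¹) ≤ E₅ := by
    intro g hg
    have h1 : v i = v (i + 1) * g⁻¹ := by rw [hg]; group
    have h2 := hG.inv (v (i + 1)) g⁻¹ (b * g⁻¹)
    have h3 : v (i + 1) * (b * g⁻¹) = x' * v i := by rw [h1, hb]; group
    rw [h3, ← h1] at h2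
    omega
  have hRt : ∀ g : G, v (i + 1 + 1) = v (i + 1) * g → d g (b * g) ≤ E₅ := by
    intro g hg
    have h2 := hG.inv (v (i + 1)) g (b * g)
    have h3 : v (i + 1) * (b * g) = x' * v (i + 1 + 1) := by rw [hg, hb]; group
    rw [h3, ← hg] at h2
    omega
  have hM1 : J1 ≤ M := le_trans (le_max_left _ _) hM
  have hM2 : J2 ≤ M := le_trans (le_max_right _ _) hM
  have hcomm : (∃ p : ℤ, p ≠ 0 ∧ b * g₁ ^ p = g₁ ^ p * b) ∧ (∃ p : ℤ, p ≠ 0 ∧ b * g₂ ^ p = g₂ ^ p * b) := by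
    by_cases hpar : i % 2 = 0
    · rw [if_pos hpar] at hv1
      rw [if_neg (by omega)] at hv2
      exact ⟨hJ1 (m i) b (by omega) hb0 (Or.inr (hL _ hv1)),
        hJ2 (m (i + 1)) b (by omega) hb0 (Or.inl (hRt _ hv2))⟩
    · rw [if_neg hpar] at hv1
      rw [if_pos (by omega)] at hv2
      exact ⟨hJ1 (m (i + 1)) b (by omega) hb0 (Or.inl (hRt _ hv2)),
        hJ2 (m i) b (by omega) hb0 (Or.inr (hL _ hv1))⟩
  obtain ⟨⟨p, hp, hcp⟩, ⟨q, hq, hcq⟩⟩ := hcomm
  have hb1' : b = 1 := by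
    by_contra hne
    exact common_of_centralizer hG tf hne h₁ h₂ hp hq hcp hcq hi
  have hx1 : x' = 1 := by
    have : x' = v (i + 1) * b * (v (i + 1))⁻¹ := by rw [hb]; group
    rw [this, hb1']; group
  rw [Subgroup.mem_zpowers_iff]
  refine ⟨-e', ?_⟩
  rw [zpow_neg]
  rw [hx'] at hx1
  exact (eq_inv_of_mul_eq_one_left hx1).symm

end TD
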