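import Pool.Agent.TD.RelDefs
import Pool.Agent.TD.Elem

/-!
# Module RelA: existence of relator paths.  Blueprint section 15.
-/

set_option autoImplicit false

namespace TD

section aux

/-- Cumulative products over the integers. -/
theorem exists_cum {G : Type*} [Group G] (B : ℤ → G) :
    ∃ v : ℤ → G, v 0 = 1 ∧ ∀ i, v (i + 1) = v i * B i := by
  let ps : ℕ → G := fun n => Nat.rec 1 (fun n x => x * B n) n
  let ng : ℕ → G := fun n => Nat.rec 1 (fun n x => x * (B (-(n + 1 : ℤ)))⁻¹) n
  let v : ℤ → G := fun i => match i with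
    | Int.ofNat n => ps n
    | Int.negSucc n => ng (n + 1)
  have hneg : ∀ n : ℕ, v (-(n : ℤ)) = ng n := by
    intro n
    cases n with
    | zero => rfl
    | succ n =>
      have : (-((n + 1 : ℕ) : ℤ)) = Int.negSucc n := by
        rw [Int.negSucc_eq]; push_cast; ring
      rw [this]
  refine ⟨v, rfl, fun i => ?_⟩
  cases i with
  | ofNat n => rfl
  | negSucc n =>
    have h1 : Int.negSucc n + 1 = -(n : ℤ) := by rw [Int.negSucc_eq]; ring
    rw [h1, hneg n]
    have h2 : v (Int.negSucc n) = ng n * (B (-(n + 1 : ℤ)))⁻¹ := rfl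
    rw [h2]
    have h3 : Int.negSucc n = -(n + 1 : ℤ) := by rw [Int.negSucc_eq]
    rw [h3]; simp

theorem cum_unique {G : Type*} [Group G] {B v w : ℤ → G} (hv : ∀ i, v (i + 1) = v i * B i)
    (hw : ∀ i, w (i + 1) = w i * B i) (g : G) (h0 : w 0 = g * v 0) (i : ℤ) : w i = g * v i := by
  induction i using Int.induction_on with
  | zero => exact h0
  | succ n ih => rw [hv, hw, ih, mul_assoc]
  | pred n ih =>
    have h1 := hv (-(n : ℤ) - 1)
    have h2 := hw (-(n : ℤ) - 1)
    rw [sub_add_cancel] at h1 h2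
    rw [h1, h2, ← mul_assoc] at ih
    exact mul_right_cancel ih

variable {G : Type*} [Group G] {d : G → G → ℕ} {δ : ℕ}

/-- Geodesic paths. -/
theorem exists_geo_path {X : Type*} {d : X → X → ℕ} (hm : IsGM d) : ∀ (n : ℕ) (x y : X),
    d x y = n →
    ∃ p : ℕ → X, p 0 = x ∧ p n = y ∧ ∀ a b, a ≤ b → b ≤ n → d (p a) (p b) = b - a := by
  intro n
  induction n with
  | zero =>
    intro x y h
    have hxy := hm.eq_of x y h
    refine ⟨fun _ => x, rfl, hxy, fun a b hab hb => ?_⟩
    have : b = 0 := by omega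
    subst this
    simp [hm.self]
  | succ n ih =>
    intro x y h
    obtain ⟨z, h1, h2⟩ := hm.step x y n h
    obtain ⟨q, q0, qn, hq⟩ := ih z y h2
    refine ⟨fun k => match k with | 0 => x | k + 1 => q k, rfl, qn, fun a b hab hb => ?_⟩
    cases a with
    | succ a =>
      cases b with
      | zero => omega
      | succ b =>
        have := hq a b (by omega) (by omega)
        simp only
        rw [this]; omega
    | zero =>
      cases b with
      | zero => simp [hm.self]
      | succ b =>
        simp only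
        have e1 := hq 0 b (by omega) (by omega)
        have e2 := hq b n (by omega) le_rfl
        rw [q0] at e1
        rw [qn] at e2
        have t1 := hm.tri x z (q b)
        have t2 := hm.tri x (q b) y
        omega

theorem exists_index (τ : ℤ → ℤ) (h0 : τ 0 = 0) (hτ : ∀ i, τ i + 1 ≤ τ (i + 1)) (s : ℤ) :
    ∃ i, τ i ≤ s ∧ s < τ (i + 1) := by
  have hpos : ∀ n : ℕ, (n : ℤ) ≤ τ n := by
    intro n
    induction n with
    | zero => simp [h0]
    | succ n ih => have := hτ n; push_cast; omega
  have hneg : ∀ n : ℕ, τ (-(n : ℤ)) ≤ -(n : ℤ) := by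
    intro n
    induction n with
    | zero => simp [h0]
    | succ n ih =>
      have := hτ (-((n + 1 : ℕ) : ℤ))
      have e : -((n + 1 : ℕ) : ℤ) + 1 = -(n : ℤ) := by push_cast; ring
      rw [e] at this
      push_cast at *; omega
  obtain ⟨i, hi, hmax⟩ := Int.exists_greatest_of_bdd (P := fun i => τ i ≤ s)
    ⟨max s 0, fun z hz => by
      by_contra hlt
      push Not at hlt
      have hz0 : 0 ≤ z := by omega
      obtain ⟨n, rfl⟩ := Int.eq_ofNat_of_zero_le hz0
      have := hpos n
      have : (n : ℤ) ≤ s := le_trans this hz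
      omega⟩
    ⟨min s 0, by
      have hz0 : min s 0 ≤ 0 := min_le_right _ _
      obtain ⟨n, hn⟩ := Int.eq_ofNat_of_zero_le (show 0 ≤ -(min s 0) by omega)
      have e : min s 0 = -(n : ℤ) := by omega
      have := hneg n
      rw [← e] at this
      omega⟩
  refine ⟨i, hi, ?_⟩
  by_contra hlt
  push Not at hlt
  have := hmax (i + 1) hlt
  omega

theorem tau_mono (τ : ℤ → ℤ) (hτ : ∀ i, τ i + 1 ≤ τ (i + 1)) {i j : ℤ} (hij : i < j) :
    τ i < τ j := by
  obtain ⟨n, hn⟩ := Int.eq_ofNat_of_zero_le (show 0 ≤ j - (i + 1) by omega)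
  have : ∀ n : ℕ, τ i < τ (i + 1 + n) := by
    intro n
    induction n with
    | zero => have := hτ i; simp; omega
    | succ n ih =>
      have := hτ (i + 1 + n)
      push_cast
      rw [← add_assoc]
      omega
  have h := this n
  have e : i + 1 + (n : ℤ) = j := by omega
  rwa [e] at h

/-- Exponents with prescribed block length. -/
theorem exists_exponent (f : ℕ → ℕ) (gm M K : ℕ) (h1 : ∀ m, f (m + 1) ≤ f m + gm)
    (h2 : ∀ K, ∃ m, K ≤ f m) (h3 : ∀ m ≤ M, f m < K) :
    ∃ m, M ≤ m ∧ K ≤ f m ∧ f m ≤ K + gm := by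
  classical
  have hex := h2 K
  refine ⟨Nat.find hex, ?_, Nat.find_spec hex, ?_⟩
  · by_contra hlt
    push Not at hlt
    have := h3 _ hlt.le
    have := Nat.find_spec hex
    omega
  · cases hm : Nat.find hex with
    | zero =>
      have h4 := h3 0 (Nat.zero_le _)
      have h5 := Nat.find_spec hex
      rw [hm] at h5
      omega
    | succ n =>
      have h4 := Nat.find_min hex (m := n) (by omega)
      push Not at h4
      have := h1 n
      omega

end aux

variable {G : Type*} [Group G] {d : G → G → ℕ} {δ : ℕ}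

/-- Existence of relator paths with arbitrarily large parameters. -/
theorem exists_relPath (hG : IsHG d δ) (tf : TF G) (a : G) {g₁ g₂ : G} (h₁ : g₁ ≠ 1)
    (h₂ : g₂ ≠ 1) (T Δ M lam₀ : ℕ) (hT : 2 ≤ T) :
    ∃ lam, lam₀ ≤ lam ∧ ∃ r γ L v τ m, RelPath d a g₁ g₂ T lam Δ M r γ L v τ m := by
  classical
  set gm := d 1 g₁ + d 1 g₂ with hgm
  set Δ' := Δ + gm with hΔ'
  set lam := lam₀ + (d 1 a + M * gm + 1) + 2 * (2 * T * Δ' + gm) + 1 with hlam
  have hinf : ∀ g : G, g ≠ 1 → ∀ n : ℕ, n ≠ 0 → g ^ n ≠ 1 := fun g hg n hn h => hg (tf g n hn h)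
  have hpow : ∀ g : G, ∀ m : ℕ, d 1 (g ^ m) ≤ m * d 1 g := by
    intro g m
    induction m with
    | zero => simp [hG.self]
    | succ m ih =>
      rw [pow_succ]
      have := hG.norm_mul (g ^ m) g
      rw [Nat.succ_mul]
      omega
  have hlarge : ∀ g : G, g ≠ 1 → ∀ K, ∃ m : ℕ, K ≤ d 1 (g ^ m) := by
    intro g hg K
    obtain ⟨N, hN⟩ := hG.pow_large (hinf g hg) K
    refine ⟨N, ?_⟩
    have := hN N (le_abs_self _)
    rw [zpow_natCast] at this
    omega
  -- block with exponent n at residue j
  let bl : ℕ → ℕ → G := fun j n =>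
    if j = 0 then a * g₁ ^ n else if j % 2 = 0 then g₁ ^ n else g₂ ^ n
  have hf : ∀ j, ∃ n, M ≤ n ∧ lam + j * Δ' ≤ d 1 (bl j n) ∧
      d 1 (bl j n) ≤ lam + j * Δ' + gm := by
    intro j
    apply exists_exponent (fun n => d 1 (bl j n)) gm M (lam + j * Δ')
    · intro n
      simp only [bl]
      split_ifs
      · rw [pow_succ, ← mul_assoc]
        have := hG.norm_mul (a * g₁ ^ n) g₁
        omega
      · rw [pow_succ]
        have := hG.norm_mul (g₁ ^ n) g₁
        omega
      · rw [pow_succ]
        have := hG.norm_mul (g₂ ^ n) g₂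
        omega
    · intro K
      simp only [bl]
      split_ifs
      · obtain ⟨n, hn⟩ := hlarge g₁ h₁ (K + d 1 a)
        refine ⟨n, ?_⟩
        have h3 := hG.norm_mul a⁻¹ (a * g₁ ^ n)
        rw [inv_mul_cancel_left, hG.norm_inv] at h3
        omega
      · exact hlarge g₁ h₁ K
      · exact hlarge g₂ h₂ K
    · intro n hn
      have e1 := hpow g₁ n
      have e2 := hpow g₂ n
      have e3 : n * d 1 g₁ ≤ M * gm := Nat.mul_le_mul hn (by omega)
      have e4 : n * d 1 g₂ ≤ M * gm := Nat.mul_le_mul hn (by omega)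
      simp only [bl]
      split_ifs
      · have := hG.norm_mul a (g₁ ^ n)
        omega
      · omega
      · omega
  choose mm hm1 hm2 hm3 using hf
  let P : ℤ := 2 * T
  have hP : (0 : ℤ) < P := by simp only [P]; omega
  let m : ℤ → ℕ := fun i => mm (i % P).toNat
  let B : ℤ → G := fun i => blk a g₁ g₂ T m i
  have hB : ∀ i, B i = bl (i % P).toNat (mm (i % P).toNat) := by
    intro i
    have hnn := Int.emod_nonneg i hP.ne'
    simp only [B, blk, bl, m]
    have e1 : (i % (2 * (T : ℤ)) = 0) ↔ ((i % P).toNat = 0) := by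
      simp only [P] at hnn ⊢; omega
    have e2 : (i % 2 = 0) ↔ ((i % P).toNat % 2 = 0) := by
      have h5 : i % P % 2 = i % 2 := Int.emod_emod_of_dvd i (Dvd.intro _ rfl)
      have h6 : ((i % P).toNat : ℤ) = i % P := Int.toNat_of_nonneg hnn
      omega
    simp only [e1, e2]
  have hBper : ∀ i, B (i + P) = B i := by
    intro i
    rw [hB, hB, Int.add_emod_right]
  have hlen : ∀ i, lam + (i % P).toNat * Δ' ≤ d 1 (B i) ∧
      d 1 (B i) ≤ lam + (i % P).toNat * Δ' + gm := by
    intro i
    rw [hB]
    exact ⟨hm2 _, hm3 _⟩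
  obtain ⟨v, v0, hv⟩ := exists_cum B
  have hdv : ∀ i, d (v i) (v (i + 1)) = d 1 (B i) := by
    intro i; rw [hv, hG.d_mul_right]
  obtain ⟨τ', τ0', hτ'⟩ := exists_cum (G := Multiplicative ℤ)
    (fun i => Multiplicative.ofAdd ((d 1 (B i) : ℕ) : ℤ))
  let τ : ℤ → ℤ := fun i => Multiplicative.toAdd (τ' i)
  have τ0 : τ 0 = 0 := by simp only [τ, τ0']; rfl
  have hτ : ∀ i, τ (i + 1) = τ i + d 1 (B i) := by
    intro i; simp only [τ, hτ']; rfl
  have hlam1 : 1 ≤ lam := by omega
  have hτ1 : ∀ i, τ i + 1 ≤ τ (i + 1) := by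
    intro i
    rw [hτ]
    have := (hlen i).1
    have : 1 ≤ d 1 (B i) := by omega
    omega
  have hvper : ∀ i, v (i + P) = v P * v i := by
    intro i
    refine cum_unique (w := fun i => v (i + P)) hv (fun i => ?_) (v P) (by simp [v0]) i
    have e : i + 1 + P = i + P + 1 := by ring
    change v (i + 1 + P) = v (i + P) * B i
    rw [e, hv, hBper]
  have hτper : ∀ i, τ (i + P) = τ i + τ P := by
    intro i
    have h := cum_unique (w := fun i => τ' (i + P)) hτ' (fun i => by
      have e : i + 1 + P = i + P + 1 := by ring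
      change τ' (i + 1 + P) = τ' (i + P) * _
      rw [e, hτ', hBper]) (τ' P) (by simp [τ0']) i
    change τ' (i + P) = τ' P * τ' i at h
    simp only [τ]
    rw [h, toAdd_mul, add_comm]
  have hτP : 0 < τ P := by
    have := tau_mono τ hτ1 hP
    rwa [τ0] at this
  obtain ⟨L, hL⟩ := Int.eq_ofNat_of_zero_le hτP.le
  choose ix hix1 hix2 using exists_index τ τ0 hτ1
  have hixu : ∀ s i, τ i ≤ s → s < τ (i + 1) → ix s = i := by
    intro s i h1 h2
    rcases lt_trichotomy (ix s) i with h | h | h
    · have h3 := hix2 s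
      have : τ (ix s + 1) ≤ τ i := by
        rcases (show ix s + 1 ≤ i by omega).lt_or_eq with h4 | h4
        · exact (tau_mono τ hτ1 h4).le
        · rw [h4]
      omega
    · exact h
    · have h3 := hix1 s
      have : τ (i + 1) ≤ τ (ix s) := by
        rcases (show i + 1 ≤ ix s by omega).lt_or_eq with h4 | h4
        · exact (tau_mono τ hτ1 h4).le
        · rw [h4]
      omega
  have hpath : ∀ g : G, ∃ p : ℕ → G, p 0 = 1 ∧ p (d 1 g) = g ∧
      ∀ a b, a ≤ b → b ≤ d 1 g → d (p a) (p b) = b - a := fun g =>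
    exists_geo_path hG.toIsGM _ 1 g rfl
  choose pt pt0 pt1 ptg using hpath
  let γ : ℤ → G := fun s => v (ix s) * pt (B (ix s)) (s - τ (ix s)).toNat
  have hγ : ∀ i s, τ i ≤ s → s ≤ τ (i + 1) → γ s = v i * pt (B i) (s - τ i).toNat := by
    intro i s h1 h2
    rcases h2.lt_or_eq with h3 | h3
    · have := hixu s i h1 h3
      simp only [γ, this]
    · have h4 : ix s = i + 1 := hixu s (i + 1) (by omega) (by rw [h3]; have := hτ1 (i + 1); omega)
      simp only [γ, h4]
      rw [h3, sub_self, Int.toNat_zero, pt0, mul_one, hv]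
      have : (τ (i + 1) - τ i).toNat = d 1 (B i) := by rw [hτ]; simp
      rw [this, pt1]
  refine ⟨lam, by omega, v P, γ, L, v, τ, m, ?_⟩
  refine ⟨hv, hvper, ?_, ?_, ?_, τ0, ?_, ?_, ?_, ?_, ?_, ?_, ?_, ?_⟩
  · intro i
    change mm ((i + P) % P).toNat = mm (i % P).toNat
    rw [Int.add_emod_right]
  · intro i; rw [hdv, hτ]
  · intro i
    have := hτper i
    change τ (i + P) = τ i + L
    rw [this, hL]
  · intro i
    rw [hγ i (τ i) le_rfl (by have := hτ1 i; omega)]
    simp [pt0]
  · intro s
    have h1 := hix1 s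
    have h2 := hix2 s
    have e1 : τ P = L := hL
    have h3 : τ (ix s + P) ≤ s + L := by rw [hτper]; omega
    have h4 : s + L < τ (ix s + P + 1) := by
      have e : ix s + P + 1 = (ix s + 1) + P := by ring
      rw [e, hτper]; omega
    rw [hγ (ix s + P) (s + L) h3 h4.le, hγ (ix s) s h1 h2.le, hvper, hBper, mul_assoc]
    have e5 : s + (L : ℤ) - τ (ix s + P) = s - τ (ix s) := by rw [hτper]; omega
    rw [e5]
  · intro i s t h1 h2 h3
    rw [hγ i s h1 (by omega), hγ i t (by omega) h3, hG.inv]
    have e := hτ i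
    have := ptg (B i) (s - τ i).toNat (t - τ i).toNat (by omega) (by omega)
    rw [this]; omega
  · intro i
    rw [hdv]
    exact le_trans (Nat.le_add_right _ _) (hlen i).1
  · intro i
    rw [hdv]
    have h1 := (hlen i).2
    have h2 : (i % P).toNat * Δ' ≤ 2 * T * Δ' := by
      apply Nat.mul_le_mul_right
      have := Int.emod_lt_of_pos i hP
      simp only [P] at this ⊢
      omega
    omega
  · intro i j hij
    rw [hdv, hdv]
    have hi := hlen i
    have hj := hlen j
    have hne : (i % P).toNat ≠ (j % P).toNat := by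
      intro h
      have hi0 := Int.emod_nonneg i hP.ne'
      have hj0 := Int.emod_nonneg j hP.ne'
      apply hij
      have h5 : j % P = i % P := by omega
      exact Int.emod_eq_zero_of_dvd (Int.ModEq.dvd h5)
    have key : ∀ p q : ℕ, p < q → p * Δ' + Δ' ≤ q * Δ' := by
      intro p q hpq
      calc p * Δ' + Δ' = (p + 1) * Δ' := by ring
        _ ≤ q * Δ' := Nat.mul_le_mul_right _ hpq
    rcases lt_or_gt_of_ne hne with h | h
    · have := key _ _ h
      rw [abs_sub_comm]
      refine le_trans ?_ (le_abs_self _)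
      omega
    · have := key _ _ h
      refine le_trans ?_ (le_abs_self _)
      omega
  · intro i
    exact hm1 _
  · have hmem : ∀ n : ℕ, n + 1 ≤ 2 * T → a⁻¹ * v (n + 1) ∈ Subgroup.closure {g₁, g₂} := by
      intro n
      induction n with
      | zero =>
        intro _
        have : v (((0 : ℕ) : ℤ) + 1) = a * g₁ ^ mm 0 := by
          have e := hv 0
          rw [v0, one_mul, hB] at e
          simpa [bl] using e
        rw [this, inv_mul_cancel_left]
        exact pow_mem (Subgroup.subset_closure (by simp)) _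
      | succ n ih =>
        intro hn
        have h1 := ih (by omega)
        have e := hv ((n : ℤ) + 1)
        push_cast
        rw [e, ← mul_assoc]
        refine mul_mem h1 ?_
        rw [hB]
        have h2 : ((n : ℤ) + 1) % P = n + 1 := by
          apply Int.emod_eq_of_lt (by omega)
          simp only [P]; omega
        have h3 : (((n : ℤ) + 1) % P).toNat = n + 1 := by rw [h2]; omega
        rw [h3]
        simp only [bl]
        rw [if_neg (by omega)]
        split_ifs
        · exact pow_mem (Subgroup.subset_closure (by simp)) _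
        · exact pow_mem (Subgroup.subset_closure (by simp)) _
    have := hmem (2 * T - 1) (by omega)
    have e : (((2 * T - 1 : ℕ) : ℤ) + 1) = P := by
      simp only [P]; omega
    rwa [e] at this

end TD
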