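import Pool.Agent.TD.OverA
import Pool.Agent.TD.OverB
import Pool.Agent.TD.OverC
import Pool.Agent.TD.RelA

/-!
# Module Over: O2.  Blueprint section 16.
-/

set_option autoImplicit false

namespace TD

/-- The range of a uniform quasi-geodesic path is quasi-convex. -/
theorem over_range_qc {X : Type*} {d : X → X → ℕ} {δ : ℕ} (hm : IsGM d) (hh : Hyp d δ) {c : ℕ}
    (γ : ℤ → X) (hl : ∀ s, d (γ s) (γ (s + 1)) ≤ 1)
    (hb : ∀ s u t, s ≤ u → u ≤ t → Btw d c (γ s) (γ t) (γ u)) :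
    QC d (c + δ + 1) (Set.range γ) := by
  rintro _ ⟨s, rfl⟩ _ ⟨t, rfl⟩ p
  rcases le_total s t with hst | hst
  · obtain ⟨u, -, -, hu⟩ := path_qc hm hh γ hst (fun u _ _ => hl u)
      (fun u h1 h2 => hb s u t h1 h2) p
    exact ⟨γ u, ⟨u, rfl⟩, hu⟩
  · obtain ⟨u, -, -, hu⟩ := path_qc hm hh γ hst (fun u _ _ => hl u)
      (fun u h1 h2 => hb t u s h1 h2) p
    refine ⟨γ u, ⟨u, rfl⟩, ?_⟩
    have h1 := hm.symm (γ s) (γ t)
    have h2 := hm.symm (γ s) p
    have h3 := hm.symm (γ t) p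
    omega

/-- Points between two points of a uniform quasi-geodesic path are close to the path. -/
theorem over_btw_near {X : Type*} {d : X → X → ℕ} {δ : ℕ} (hm : IsGM d) (hh : Hyp d δ) {c e : ℕ}
    (γ : ℤ → X) (hl : ∀ s, d (γ s) (γ (s + 1)) ≤ 1)
    (hb : ∀ s u t, s ≤ u → u ≤ t → Btw d c (γ s) (γ t) (γ u)) {s t : ℤ} {p : X}
    (hp : Btw d e (γ s) (γ t) p) : ∃ u, d p (γ u) ≤ e + c + δ + 1 := by
  rcases le_total s t with hst | hst
  · obtain ⟨u, -, -, hu⟩ := path_qc_btw hm hh γ hst (fun u _ _ => hl u)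
      (fun u h1 h2 => hb s u t h1 h2) hp
    exact ⟨u, hu⟩
  · obtain ⟨u, -, -, hu⟩ := path_qc_btw hm hh γ hst (fun u _ _ => hl u)
      (fun u h1 h2 => hb t u s h1 h2) (hp.swap hm)
    exact ⟨u, hu⟩

variable {G : Type*} [Group G] {d : G → G → ℕ} {δ : ℕ}

/-- The overlap of two translates: if nearest positions of two points of a translate are far
apart then everything in between is close to the translate. -/
theorem over_overlap_near (hG : IsHG d δ) {c : ℕ} (γ : ℤ → G) (hl : ∀ s, d (γ s) (γ (s + 1)) ≤ 1)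
    (hb : ∀ s u t, s ≤ u → u ≤ t → Btw d c (γ s) (γ t) (γ u)) {x : G} {s' t' s t : ℤ}
    (hs : IsNear d γ (x * γ s') s) (ht : IsNear d γ (x * γ t') t)
    (hfar : 2 * (2 * δ + 2 * (c + δ + 1) + 1) + δ < d (γ s) (γ t)) (u : ℤ) (h1 : s ≤ u)
    (h2 : u ≤ t) :
    ∃ u', d (γ u) (x * γ u') ≤ (2 * (2 * δ + 2 * (c + δ + 1) + 1) + δ + c) + c + δ + 1 := by
  have hqc := over_range_qc hG.toIsGM hG.hyp γ hl hb
  have hp2 := proj2 hG.toIsGM hG.hyp hqc (x := x * γ s') (y := x * γ t') (p := γ s) (q := γ t)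
    ⟨s, rfl⟩ (by rintro _ ⟨w, rfl⟩; exact hs w) ⟨t, rfl⟩ (by rintro _ ⟨w, rfl⟩; exact ht w)
  rcases hp2 with h | h
  · omega
  · have hbt : Btw d (2 * (2 * δ + 2 * (c + δ + 1) + 1) + δ + c) (x * γ s') (x * γ t') (γ u) := by
      have a1 := hb s u t h1 h2
      have a2 := hG.tri (x * γ s') (γ s) (γ u)
      have a3 := hG.tri (γ u) (γ t) (x * γ t')
      unfold Btw at *
      omega
    refine over_btw_near hG.toIsGM hG.hyp (fun w => x * γ w) (fun w => ?_) (fun p q w hp hq => ?_)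
      hbt
    · rw [hG.inv]; exact hl w
    · have := hb p q w hp hq
      unfold Btw at *
      rw [hG.inv, hG.inv, hG.inv]
      exact this

/-- O2: distinct translates have small overlap. -/
theorem relPath_small (hG : IsHG d δ) (tf : TF G) (a : G) {g₁ g₂ : G} (h₁ : g₁ ≠ 1)
    (h₂ : g₂ ≠ 1) (hi : Indep g₁ g₂) (hi' : Indep (a * g₁ * a⁻¹) g₂) (c₀ : ℕ) :
    ∃ Δ₀ lam₀ M₀ : ℕ, ∀ (T lam Δ M : ℕ), 2 ≤ T → Δ₀ ≤ Δ → lam₀ ≤ lam → M₀ ≤ M →
      ∀ r γ L v τ m, RelPath d a g₁ g₂ T lam Δ M r γ L v τ m →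
      (∀ i, Btw d c₀ (v (i - 1)) (v (i + 1)) (v i)) →
      ∀ x, x ∉ Subgroup.zpowers r → ∀ s' t' s t, IsNear d γ (x * γ s') s →
        IsNear d γ (x * γ t') t → |s - t| ≤ 12 * lam := by
  obtain ⟨C, hC⟩ : ∃ C, C = 2 * (2 * δ + 2 * ((2 * c₀ + 4 * δ) + δ + 1) + 1) + δ := ⟨_, rfl⟩
  obtain ⟨E₅, lam₁, M₁, D₀, hV⟩ := relPath_vertex hG tf a h₁ h₂ hi hi' c₀
    ((C + (2 * c₀ + 4 * δ)) + (2 * c₀ + 4 * δ) + δ + 1)
  obtain ⟨Δ₀, lam₂, M₂, hR⟩ := relPath_rigid hG tf a h₁ h₂ hi c₀ E₅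
  refine ⟨Δ₀, lam₁ + lam₂ + D₀ + C + 5 * (c₀ + δ) + 1, M₁ + M₂, ?_⟩
  intro T lam Δ M hT hΔ hlam hM r γ L v τ m hP hbt x hx
  obtain ⟨hlip, hb, hlow, -⟩ := hP.basic hG hbt (by omega)
  have hτ1 : ∀ i, τ i + 1 ≤ τ (i + 1) := by
    intro i
    have e1 := hP.τ_succ i
    have e2 := hP.len_ge i
    omega
  have key : ∀ s' t' s t, IsNear d γ (x * γ s') s → IsNear d γ (x * γ t') t → s ≤ t →
      t - s ≤ 12 * lam := by
    intro s' t' s t hs ht hst
    by_contra hlt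
    push Not at hlt
    have hlo := hlow s t hst
    have hclose := over_overlap_near hG γ hlip hb hs ht (by rw [← hC]; omega)
    rw [← hC] at hclose
    have hV' := hV T lam Δ M hT (by omega) (by omega) r γ L v τ m hP hbt x s t hclose
    obtain ⟨i, hi1, hi2⟩ := exists_index τ hP.τ_zero hτ1 (s + D₀)
    have hstep : ∀ j, 2 * τ (j + 1) ≤ 2 * τ j + 3 * lam := by
      intro j
      have e1 := hP.τ_succ j
      have e2 := hP.len_le j
      omega
    have hj : ∀ n : ℕ, τ (i + 1) ≤ τ (i + 1 + n) ∧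
        2 * τ (i + 1 + n) ≤ 2 * τ (i + 1) + 3 * n * lam := by
      intro n
      induction n with
      | zero => simp
      | succ n ih =>
        have e1 := hstep (i + 1 + n)
        have e2 := hτ1 (i + 1 + n)
        have e3 : i + 1 + ((n + 1 : ℕ) : ℤ) = i + 1 + n + 1 := by push_cast; ring
        rw [e3]
        have e4 : 3 * (((n + 1 : ℕ) : ℤ)) * (lam : ℤ) = 3 * n * lam + 3 * lam := by
          push_cast; ring
        rw [e4]
        omega
    apply hx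
    refine hR T lam Δ M hT hΔ (by omega) (by omega) r γ L v τ m hP hbt x (i + 1) ?_
    intro l hl1 hl2
    obtain ⟨n, hn⟩ := Int.eq_ofNat_of_zero_le (show 0 ≤ l - (i + 1) by omega)
    have hl : l = i + 1 + n := by omega
    obtain ⟨q1, q2⟩ := hj n
    have q3 : 3 * (n : ℤ) * lam ≤ 12 * lam := by
      have : (n : ℤ) ≤ 4 := by omega
      nlinarith
    have q4 := hstep i
    rw [← hl] at q1 q2
    exact hV' l (by omega) (by omega)
  intro s' t' s t hs ht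
  rcases le_total s t with hst | hst
  · rw [abs_sub_comm, abs_of_nonneg (by omega)]
    exact key s' t' s t hs ht hst
  · rw [abs_of_nonneg (by omega)]
    exact key t' s' t s ht hs hst

end TD
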