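import Pool.Agent.TD.RelB

/-!
# Module OverA: O1.  Blueprint section 16.
-/

set_option autoImplicit false

namespace TD

/-- every integer lies between two consecutive values of `τ` -/
theorem oa_index (τ : ℤ → ℤ) (h0 : τ 0 = 0) (hτ : ∀ i, τ i + 1 ≤ τ (i + 1)) (s : ℤ) :
    ∃ i, τ i ≤ s ∧ s < τ (i + 1) := by
  have hpos : ∀ n : ℕ, (n : ℤ) ≤ τ n := by
    intro n
    induction n with
    | zero => simp [h0]
    | succ n ih => have := hτ n; push_cast; omega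
  have hneg : ∀ n : ℕ, τ (-(n : ℤ)) ≤ -(n : ℤ) := by
    intro n
    induction n with
    | zero => simp [h0]
    | succ n ih =>
      have := hτ (-((n + 1 : ℕ) : ℤ))
      have e : -((n + 1 : ℕ) : ℤ) + 1 = -(n : ℤ) := by push_cast; ring
      rw [e] at this
      push_cast at *; omega
  obtain ⟨i, hi, hmax⟩ := Int.exists_greatest_of_bdd (P := fun i => τ i ≤ s)
    ⟨max s 0, fun z hz => by
      by_contra hlt
      push Not at hlt
      have hz0 : 0 ≤ z := by omega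
      obtain ⟨n, rfl⟩ := Int.eq_ofNat_of_zero_le hz0
      have := hpos n
      have : (n : ℤ) ≤ s := le_trans this hz
      omega⟩
    ⟨min s 0, by
      have hz0 : min s 0 ≤ 0 := min_le_right _ _
      obtain ⟨n, hn⟩ := Int.eq_ofNat_of_zero_le (show 0 ≤ -(min s 0) by omega)
      have e : min s 0 = -(n : ℤ) := by omega
      have := hneg n
      rw [← e] at this
      omega⟩
  refine ⟨i, hi, ?_⟩
  by_contra hlt
  push Not at hlt
  have := hmax (i + 1) hlt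
  omega

variable {G : Type*} [Group G] {d : G → G → ℕ} {δ : ℕ}

/-- quasi-convexity of a path -/
theorem oa_qc (hG : IsHG d δ) {γ : ℤ → G} {c : ℕ} (hlip : ∀ s, d (γ s) (γ (s + 1)) ≤ 1)
    (hbtw : ∀ s u t, s ≤ u → u ≤ t → Btw d c (γ s) (γ t) (γ u)) :
    QC d (c + δ + 1) (Set.range γ) := by
  rintro _ ⟨s, rfl⟩ _ ⟨t, rfl⟩ p
  rcases le_total s t with hst | hst
  · obtain ⟨u, _, _, hu⟩ := path_qc hG.toIsGM hG.hyp γ hst (fun u _ _ => hlip u)
      (fun u h1 h2 => hbtw s u t h1 h2) p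
    exact ⟨γ u, ⟨u, rfl⟩, hu⟩
  · obtain ⟨u, _, _, hu⟩ := path_qc hG.toIsGM hG.hyp γ hst (fun u _ _ => hlip u)
      (fun u h1 h2 => hbtw t u s h1 h2) p
    refine ⟨γ u, ⟨u, rfl⟩, ?_⟩
    have e1 := hG.symm (γ s) (γ t)
    have e2 := hG.symm (γ s) p
    have e3 := hG.symm p (γ t)
    omega

/-- O1: small projections of cosets of quasi-convex subgroups containing no conjugate of a power
of `g₁` or `g₂`. -/
theorem relPath_smallOn (hG : IsHG d δ) (tf : TF G) (a : G) {g₁ g₂ : G} (h₁ : g₁ ≠ 1)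
    (h₂ : g₂ ≠ 1) (c₀ : ℕ) (H : Subgroup G) {κ : ℕ} (hq : QC d κ (H : Set G))
    (hH₁ : ∀ x : G, ∀ p : ℕ, p ≠ 0 → x⁻¹ * g₁ ^ p * x ∉ H)
    (hH₂ : ∀ x : G, ∀ p : ℕ, p ≠ 0 → x⁻¹ * g₂ ^ p * x ∉ H) :
    ∃ lam₀ M₀ : ℕ, ∀ (T lam Δ M : ℕ), 2 ≤ T → lam₀ ≤ lam → M₀ ≤ M → ∀ r γ L v τ m,
      RelPath d a g₁ g₂ T lam Δ M r γ L v τ m →
      (∀ i, Btw d c₀ (v (i - 1)) (v (i + 1)) (v i)) →
      SmallOn d γ (12 * lam) H := by
  obtain ⟨C2, hC2⟩ : ∃ C2 : ℕ, C2 = 2 * (2 * δ + 2 * (2 * c₀ + 4 * δ + δ + 1) + 1) + δ := ⟨_, rfl⟩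
  obtain ⟨E, hE⟩ : ∃ E : ℕ, E = κ + (C2 + (2 * c₀ + 4 * δ)) := ⟨_, rfl⟩
  obtain ⟨m1, hm1⟩ := near_lemma hG tf h₁ hq E
  obtain ⟨m2, hm2⟩ := near_lemma hG tf h₂ hq E
  refine ⟨5 * (c₀ + δ) + C2 + c₀ + δ + 1, max m1 m2, ?_⟩
  intro T lam Δ M hT hlam hM r γ L v τ m hR hc
  obtain ⟨hlip, hbtw, hlow, -⟩ := hR.basic hG hc (by omega)
  have hqc := oa_qc hG hlip hbtw
  have hlam1 : 1 ≤ lam := by omega
  have hτ1 : ∀ i, τ i + 1 ≤ τ (i + 1) := by
    intro i
    have h1 := hR.τ_succ i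
    have h2 := hR.len_ge i
    omega
  have hτ2 : ∀ i, 2 * (τ (i + 1) - τ i) ≤ 3 * lam := by
    intro i
    have h1 := hR.τ_succ i
    have h2 := hR.len_le i
    omega
  -- the ordered version
  have key : ∀ x : G, ∀ h ∈ H, ∀ h' ∈ H, ∀ s t, IsNear d γ (x * h) s → IsNear d γ (x * h') t →
      s ≤ t → t - s ≤ 12 * lam := by
    intro x h hh h' hh' s t hs ht hst
    by_contra hcon
    push Not at hcon
    have hlow' := hlow s t hst
    have hbig : C2 < d (γ s) (γ t) := by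
      have : (C2 : ℤ) < d (γ s) (γ t) := by
        have hlam' : ((5 * (c₀ + δ) + C2 + c₀ + δ + 1 : ℕ) : ℤ) ≤ lam := by exact_mod_cast hlam
        push_cast at hlam'
        linarith
      exact_mod_cast this
    have hP2 : d (x * h) (γ s) + d (γ s) (γ t) + d (γ t) (x * h') ≤ d (x * h) (x * h') + C2 := by
      rcases proj2 hG.toIsGM hG.hyp hqc (x := x * h) (y := x * h') (p := γ s) (q := γ t) ⟨s, rfl⟩
        (by rintro _ ⟨u, rfl⟩; exact hs u) ⟨t, rfl⟩ (by rintro _ ⟨u, rfl⟩; exact ht u) with h | h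
      · rw [← hC2] at h; omega
      · rw [← hC2] at h; exact h
    -- points between are near the coset
    have hnear : ∀ u, s ≤ u → u ≤ t → ∃ h'' ∈ H, d (γ u) (x * h'') ≤ E := by
      intro u h1 h2
      have hb : Btw d (C2 + (2 * c₀ + 4 * δ)) (x * h) (x * h') (γ u) := by
        have b1 := hbtw s u t h1 h2
        have t1 := hG.tri (x * h) (γ s) (γ u)
        have t2 := hG.tri (γ u) (γ t) (x * h')
        unfold Btw at b1 ⊢
        omega
      obtain ⟨q, ⟨h'', hh'', rfl⟩, hq'⟩ := (hq.translate hG x).near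
        (a := x * h) (b := x * h') (p := γ u) ⟨h, hh, rfl⟩ ⟨h', hh', rfl⟩ hb
      exact ⟨h'', hh'', by rw [hE]; exact hq'⟩
    -- a full block of the right type
    obtain ⟨l, hl1, hl2⟩ := oa_index τ hR.τ_zero hτ1 s
    obtain ⟨k, hk1, hk2, hk3⟩ : ∃ k, s ≤ τ k ∧ τ (k + 1) ≤ t ∧ ¬ k % (2 * (T : ℤ)) = 0 := by
      have e1 := hτ2 l
      have e2 := hτ2 (l + 1)
      have e3 := hτ2 (l + 1 + 1)
      have e4 := hτ1 (l + 1)
      by_cases hmod : (l + 1) % (2 * (T : ℤ)) = 0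
      · refine ⟨l + 1 + 1, by omega, by omega, ?_⟩
        intro h
        have h2T : (0 : ℤ) < 2 * T := by omega
        have hd1 : (2 * (T : ℤ)) ∣ (l + 1) := Int.dvd_of_emod_eq_zero hmod
        have hd2 : (2 * (T : ℤ)) ∣ (l + 1 + 1) := Int.dvd_of_emod_eq_zero h
        have hd3 : (2 * (T : ℤ)) ∣ 1 := by
          have := dvd_sub hd2 hd1
          simpa using this
        have := Int.le_of_dvd one_pos hd3
        omega
      · exact ⟨l + 1, by omega, by omega, hmod⟩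
    have hkk := hτ1 k
    obtain ⟨h1, hh1, hd1⟩ := hnear (τ k) hk1 (by omega)
    obtain ⟨h2, hh2, hd2⟩ := hnear (τ (k + 1)) (by omega) hk2
    rw [hR.γ_τ] at hd1 hd2
    have hM' := hR.m_ge k
    -- the general conclusion
    have concl : ∀ g : G, v (k + 1) = v k * g ^ m k →
        d 1 ((v k)⁻¹ * x * h1) ≤ E ∧ d (g ^ m k) ((v k)⁻¹ * x * h2) ≤ E := by
      intro g hg
      constructor
      · have := hG.inv (v k) 1 ((v k)⁻¹ * x * h1)
        rw [mul_one, ← mul_assoc, ← mul_assoc, mul_inv_cancel, one_mul] at this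
        rw [← this]; exact hd1
      · have := hG.inv (v k) (g ^ m k) ((v k)⁻¹ * x * h2)
        rw [← hg, ← mul_assoc, ← mul_assoc, mul_inv_cancel, one_mul] at this
        rw [← this]; exact hd2
    have hv := hR.v_succ k
    unfold blk at hv
    rw [if_neg hk3] at hv
    by_cases heven : k % 2 = 0
    · rw [if_pos heven] at hv
      obtain ⟨c1, c2⟩ := concl g₁ hv
      obtain ⟨q, hq0, hq1⟩ := hm1 (m k) (by omega) ((v k)⁻¹ * x) h1 h2 hh1 hh2 c1 c2
      exact hH₁ _ q hq0 hq1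
    · rw [if_neg heven] at hv
      obtain ⟨c1, c2⟩ := concl g₂ hv
      obtain ⟨q, hq0, hq1⟩ := hm2 (m k) (by omega) ((v k)⁻¹ * x) h1 h2 hh1 hh2 c1 c2
      exact hH₂ _ q hq0 hq1
  intro x h hh h' hh' s t hs ht
  rcases le_total s t with hst | hst
  · have := key x h hh h' hh' s t hs ht hst
    rw [abs_sub_comm, abs_of_nonneg (by omega)]
    push_cast
    exact this
  · have := key x h' hh' h hh t s ht hs hst
    rw [abs_of_nonneg (by omega)]
    push_cast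
    exact this

end TD
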