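import Pool.Agent.TD.Axis

/-!
# Module PresA: minimal lifts and the power lemma PL.  Blueprint section 10.
-/

set_option autoImplicit false

namespace TD

variable {G : Type*} [Group G] {d : G → G → ℕ} {δ : ℕ} {r : G} {γ : ℤ → G} {L θ c : ℕ}

/-- Existence of minimal lifts. -/
theorem exists_min_lift (hG : IsHG d δ) (y : G) :
    ∃ y', y' * y⁻¹ ∈ NN r ∧ ∀ n ∈ NN r, d 1 y' ≤ d 1 (n * y') := by
  classical
  have hex : ∃ k : ℕ, ∃ z : G, z * y⁻¹ ∈ NN r ∧ d 1 z = k :=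
    ⟨d 1 y, y, by rw [mul_inv_cancel]; exact (NN r).one_mem, rfl⟩
  obtain ⟨z, hz, hk⟩ := Nat.find_spec hex
  refine ⟨z, hz, fun n hn => ?_⟩
  rw [hk]
  refine Nat.find_min' hex ⟨n * z, ?_, rfl⟩
  rw [mul_assoc]
  exact (NN r).mul_mem hn hz

/-- Powers of congruent elements are congruent. -/
theorem pow_congr_NN {a b : G} (h : a * b⁻¹ ∈ NN r) (m : ℕ) : a ^ m * (b ^ m)⁻¹ ∈ NN r := by
  have e1 : (a : G ⧸ NN r) = (b : G ⧸ NN r) := by
    rw [← QuotientGroup.eq_one_iff] at h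
    rw [QuotientGroup.mk_mul, QuotientGroup.mk_inv] at h
    exact mul_inv_eq_one.mp h
  rw [← QuotientGroup.eq_one_iff, QuotientGroup.mk_mul, QuotientGroup.mk_inv,
    QuotientGroup.mk_pow, QuotientGroup.mk_pow, e1, mul_inv_cancel]

/-- PL: the power lemma. -/
theorem power_lemma (hG : IsHG d δ) (tf : TF G) (hS : SC d r γ L θ c)
    (hθ : 1000 * (δ + c + 1) ≤ θ) (hL : 1000 * θ ≤ L) {H H' : Subgroup G}
    (hH : SmallOn d γ θ H) (hH' : SmallOn d γ θ H') {h h' y : G} (hh : h ∈ H) (hh' : h' ∈ H')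
    (hmin : ∀ n ∈ NN r, d 1 y ≤ d 1 (n * y)) (hN : h ∉ NN r)
    (hrel : y * h' * y⁻¹ * h⁻¹ ∈ NN r) :
    ∃ m0 : ℕ, ∀ m : ℕ, m0 ≤ m → y * h' ^ m * y⁻¹ = h ^ m := by
  have hL0 : 0 < L := by omega
  have hh'1 : h' ≠ 1 := by
    rintro rfl
    rw [mul_one, mul_inv_cancel, one_mul] at hrel
    exact hN (by simpa using (NN r).inv_mem hrel)
  have hinf : ∀ n : ℕ, n ≠ 0 → h' ^ n ≠ 1 := fun n hn he => hh'1 (tf h' n hn he)
  obtain ⟨N, hNl⟩ := hG.pow_large hinf (2 * d 1 y + 2 * CC2 δ c + θ)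
  refine ⟨N, fun m hm => ?_⟩
  have hbig : 2 * d 1 y + 2 * CC2 δ c + θ < d 1 (h' ^ m) := by
    have := hNl (m : ℤ) (by rw [Nat.abs_cast]; exact_mod_cast hm)
    rwa [zpow_natCast] at this
  by_contra hne
  -- the element of the kernel
  have hn : y * h' ^ m * y⁻¹ * (h ^ m)⁻¹ ∈ NN r := by
    have := pow_congr_NN hrel m
    rwa [conj_pow] at this
  have hn1 : y * h' ^ m * y⁻¹ * (h ^ m)⁻¹ ≠ 1 := fun h0 => hne (mul_inv_eq_one.mp h0)
  obtain ⟨v, hv⟩ := ax_gl hG hS hθ hL hn hn1 (h ^ m)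
  rw [inv_mul_cancel_right] at hv
  -- the short sides
  have s1 := ax_small_on hG hL0 hS hH v 1 (h ^ m) (H.pow_mem hh m)
  rw [one_mul] at s1
  have s2 := ax_small_on hG hL0 hS hH' v y (h' ^ m) (H'.pow_mem hh' m)
  -- the long sides
  have t1 := ax_c hG hS hθ hL v 1 y (fun e => hmin _ ((NN r).zpow_mem (rho_mem v) e))
  have e1 : d (y * h' ^ m) (y * h' ^ m * y⁻¹) = d 1 y := by
    rw [hG.d_mul_right, hG.norm_inv]
  have t2 := ax_c hG hS hθ hL v (y * h' ^ m) (y * h' ^ m * y⁻¹) (fun e => by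
    rw [e1]
    have hnor : (NN r).Normal := inferInstance
    have hmem : y * ((y * h' ^ m)⁻¹ * (rho v ^ e) * (y * h' ^ m))⁻¹ * y⁻¹ ∈ NN r := by
      refine hnor.conj_mem _ ((NN r).inv_mem ?_) y
      have := hnor.conj_mem _ ((NN r).zpow_mem (rho_mem v) e) (y * h' ^ m)⁻¹
      rwa [inv_inv] at this
    refine (hmin _ hmem).trans (le_of_eq ?_)
    rw [hG.norm_eq (y * h' ^ m), ← hG.norm_inv]
    congr 1
    group)
  have u1 : 3 * (θ : ℤ) < |pos d γ v 1 - pos d γ v y| := by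
    generalize pos d γ v 1 = A at *
    generalize pos d γ v (h ^ m) = B at *
    generalize pos d γ v y = C at *
    generalize pos d γ v (y * h' ^ m) = D at *
    generalize pos d γ v (y * h' ^ m * y⁻¹) = E at *
    have q1 : |B - E| ≤ |A - B| + |A - C| + |C - D| + |D - E| := by
      have := abs_sub_le B A E
      have := abs_sub_le A C E
      have := abs_sub_le C D E
      rw [abs_sub_comm B A] at *
      omega
    have : (0 : ℤ) < θ := by omega
    omega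
  have u2 : 3 * (θ : ℤ) < |pos d γ v (y * h' ^ m) - pos d γ v (y * h' ^ m * y⁻¹)| := by
    generalize pos d γ v 1 = A at *
    generalize pos d γ v (h ^ m) = B at *
    generalize pos d γ v y = C at *
    generalize pos d γ v (y * h' ^ m) = D at *
    generalize pos d γ v (y * h' ^ m * y⁻¹) = E at *
    have q1 : |B - E| ≤ |A - B| + |A - C| + |C - D| + |D - E| := by
      have := abs_sub_le B A E
      have := abs_sub_le A C E
      have := abs_sub_le C D E
      rw [abs_sub_comm B A] at *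
      omega
    have : (0 : ℤ) < θ := by omega
    omega
  have w1 := ax_a hG hS hθ hL v 1 y u1
  have w2 := ax_a hG hS hθ hL v (y * h' ^ m) (y * h' ^ m * y⁻¹) u2
  rw [e1] at w2
  have w3 : (d (prj d γ v y) (prj d γ v (y * h' ^ m)) : ℤ) ≤ θ :=
    (gam_lip hG hS v _ _).trans s2
  have z1 := hG.tri y (prj d γ v y) (y * h' ^ m)
  have z2 := hG.tri (prj d γ v y) (prj d γ v (y * h' ^ m)) (y * h' ^ m)
  have z3 := hG.symm y (prj d γ v y)
  have z4 := hG.symm (prj d γ v (y * h' ^ m)) (y * h' ^ m)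
  have z5 := hG.d_mul_right y (h' ^ m)
  omega

end TD
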