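import Pool.Agent.TD.PresA

/-!
# Module PresB: preservation of FF and Sep.  Blueprint section 10.
-/

set_option autoImplicit false

namespace TD

variable {G : Type*} [Group G] {d : G → G → ℕ} {δ : ℕ} {r : G} {γ : ℤ → G} {L θ c : ℕ}

theorem quot_mk_eq_of_mem {N : Subgroup G} [N.Normal] {y x : G} (h : y * x⁻¹ ∈ N) :
    QuotientGroup.mk' N y = QuotientGroup.mk' N x := by
  have h1 : QuotientGroup.mk' N (y * x⁻¹) = 1 := (QuotientGroup.eq_one_iff _).2 h
  rw [map_mul, map_inv, mul_inv_eq_one] at h1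
  exact h1

theorem quot_ff (hG : IsHG d δ) (tf : TF G) (hS : SC d r γ L θ c)
    (hθ : 1000 * (δ + c + 1) ≤ θ) (hL : 1000 * θ ≤ L) (H : Subgroup G)
    (hH : SmallOn d γ θ H) {k : ℕ} (hf : FF H k) :
    FF (H.map (QuotientGroup.mk' (NN r))) k := by
  intro g hg x hx
  choose X hX using fun i => QuotientGroup.mk'_surjective (NN r) (x i)
  choose h hhH hh using hx
  choose y hy hymin using fun i => exists_min_lift (r := r) hG ((X 0)⁻¹ * X i)
  have hy' : ∀ i, QuotientGroup.mk' (NN r) (y i) = (x 0)⁻¹ * x i := by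
    intro i
    rw [quot_mk_eq_of_mem (hy i), map_mul, map_inv, hX, hX]
  have h0 : h 0 ∉ NN r := by
    intro h0
    have h1 : QuotientGroup.mk' (NN r) (h 0) = 1 := (QuotientGroup.eq_one_iff _).2 h0
    rw [hh] at h1
    apply hg
    have h2 : g = x 0 * ((x 0)⁻¹ * g * x 0) * (x 0)⁻¹ := by group
    rw [h2, h1]
    group
  have hrel : ∀ i, y i * h i * (y i)⁻¹ * (h 0)⁻¹ ∈ NN r := by
    intro i
    rw [← QuotientGroup.eq_one_iff]
    show QuotientGroup.mk' (NN r) (y i * h i * (y i)⁻¹ * (h 0)⁻¹) = 1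
    rw [map_mul, map_mul, map_mul, map_inv, map_inv, hh, hh, hy']
    group
  choose m0 hm0 using fun i => power_lemma hG tf hS hθ hL hH hH (hhH 0) (hhH i) (hymin i) h0
    (hrel i)
  set m : ℕ := ∑ i, m0 i + 1 with hm
  have hmi : ∀ i, m0 i ≤ m := fun i =>
    (Finset.single_le_sum (f := m0) (fun _ _ => Nat.zero_le _) (Finset.mem_univ i)).trans
      (Nat.le_succ _)
  have hne : h 0 ^ m ≠ 1 := by
    intro h1
    have h2 := tf (h 0) m (by omega) h1
    exact h0 (h2 ▸ (NN r).one_mem)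
  obtain ⟨i, j, hij, hmem⟩ := hf (h 0 ^ m) hne y (by
    intro i
    rw [← hm0 i m (hmi i)]
    have : (y i)⁻¹ * (y i * h i ^ m * (y i)⁻¹) * y i = h i ^ m := by group
    rw [this]
    exact H.pow_mem (hhH i) m)
  refine ⟨i, j, hij, ⟨_, hmem, ?_⟩⟩
  rw [map_mul, map_inv, hy', hy']
  group

theorem quot_sep (hG : IsHG d δ) (tf : TF G) (hS : SC d r γ L θ c)
    (hθ : 1000 * (δ + c + 1) ≤ θ) (hL : 1000 * θ ≤ L) (H K : Subgroup G)
    (hH : SmallOn d γ θ H) (hK : SmallOn d γ θ K) (hs : Sep H K) :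
    Sep (H.map (QuotientGroup.mk' (NN r))) (K.map (QuotientGroup.mk' (NN r))) := by
  rintro x _ ⟨h, hh, rfl⟩ ⟨k, hk, hkx⟩
  by_contra hne
  obtain ⟨X, hX⟩ := QuotientGroup.mk'_surjective (NN r) x
  obtain ⟨y, hy, hymin⟩ := exists_min_lift (r := r) hG X
  have hy' : QuotientGroup.mk' (NN r) y = x := by rw [quot_mk_eq_of_mem hy, hX]
  have hkN : k ∉ NN r := by
    intro hkN
    have h1 : QuotientGroup.mk' (NN r) k = 1 := (QuotientGroup.eq_one_iff _).2 hkN
    rw [h1] at hkx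
    apply hne
    have h2 : QuotientGroup.mk' (NN r) h = x⁻¹ * (x * QuotientGroup.mk' (NN r) h * x⁻¹) * x := by
      group
    rw [h2, ← hkx]
    group
  have hrel : y * h * y⁻¹ * k⁻¹ ∈ NN r := by
    rw [← QuotientGroup.eq_one_iff]
    show QuotientGroup.mk' (NN r) (y * h * y⁻¹ * k⁻¹) = 1
    rw [map_mul, map_mul, map_mul, map_inv, map_inv, hy', ← hkx, mul_inv_cancel]
  obtain ⟨m0, hm0⟩ := power_lemma hG tf hS hθ hL hK hH hk hh hymin hkN hrel
  have h1 := hm0 (m0 + 1) (Nat.le_succ _)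
  have h2 : h ^ (m0 + 1) = 1 :=
    hs y (h ^ (m0 + 1)) (H.pow_mem hh _) (by rw [h1]; exact K.pow_mem hk _)
  have h3 := tf h (m0 + 1) (Nat.succ_ne_zero _) h2
  apply hne
  rw [h3, map_one]

end TD
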