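import Pool.Agent.TD.RelDefs
import Pool.Agent.TD.Elem

/-!
# Module RelB: junction constants and basic consequences.  Blueprint section 15.
-/

set_option autoImplicit false

namespace TD

variable {G : Type*} [Group G] {d : G → G → ℕ} {δ : ℕ}

theorem relb_even {T : ℕ} {i : ℤ} (h : i % (2 * T) = 0) : i % 2 = 0 := by
  have h1 : (2 * (T : ℤ)) ∣ i := Int.dvd_of_emod_eq_zero h
  exact Int.emod_eq_zero_of_dvd (dvd_trans (dvd_mul_right 2 (T : ℤ)) h1)

/-- Junction constants: all corners of relator paths are `c₀`-between. -/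
theorem exists_junction (hG : IsHG d δ) (tf : TF G) (a : G) {g₁ g₂ : G} (h₁ : g₁ ≠ 1)
    (h₂ : g₂ ≠ 1) (hi : Indep g₁ g₂) (hi' : Indep (a * g₁ * a⁻¹) g₂) :
    ∃ c₀ : ℕ, ∀ (T lam Δ M : ℕ), 2 ≤ T → ∀ r γ L v τ m,
      RelPath d a g₁ g₂ T lam Δ M r γ L v τ m →
      ∀ i, Btw d c₀ (v (i - 1)) (v (i + 1)) (v i) := by
  have hm := hG.toIsGM
  obtain ⟨c, hc⟩ := indep_btw hG tf h₁ h₂ hi
  have ha1 : a * g₁ * a⁻¹ ≠ 1 := by
    intro h
    apply h₁
    have h2 : g₁ = a⁻¹ * (a * g₁ * a⁻¹) * a := by group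
    rw [h2, h]; simp
  obtain ⟨c', hc'⟩ := indep_btw hG tf ha1 h₂ hi'
  -- the four corners
  have k1 : ∀ p q : ℤ, Btw d (c + c' + 2 * d 1 a) (g₁ ^ p) (g₂ ^ q) 1 := fun p q =>
    (hc p q).mono (by omega)
  have k2 : ∀ p q : ℤ, Btw d (c + c' + 2 * d 1 a) (g₁ ^ p * a⁻¹) (g₂ ^ q) 1 := by
    intro p q
    have h1 : d (g₁ ^ p) (g₁ ^ p * a⁻¹) ≤ d 1 a := by
      rw [hG.d_mul_right, hG.norm_inv]
    have h2 := Btw.change hm (hc p q) h1 (le_of_eq (hm.self _)) (le_of_eq (hm.self 1))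
    exact h2.mono (by omega)
  have k3 : ∀ p q : ℤ, Btw d (c + c' + 2 * d 1 a) (a * g₁ ^ p) (g₂ ^ q) 1 := by
    intro p q
    have h0 : a * g₁ ^ p = (a * g₁ * a⁻¹) ^ p * a := by
      rw [conj_zpow]; group
    have h1 : d ((a * g₁ * a⁻¹) ^ p) (a * g₁ ^ p) ≤ d 1 a := by
      rw [h0, hG.d_mul_right]
    have h2 := Btw.change hm (hc' p q) h1 (le_of_eq (hm.self _)) (le_of_eq (hm.self 1))
    exact h2.mono (by omega)
  refine ⟨c + c' + 2 * d 1 a, ?_⟩
  intro T lam Δ M hT r γ L v τ m hR i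
  -- translate to `v i = 1`
  have hprev : v i = v (i - 1) * blk a g₁ g₂ T m (i - 1) := by
    have := hR.v_succ (i - 1)
    rwa [sub_add_cancel] at this
  have hnext := hR.v_succ i
  have e1 : v (i - 1) = v i * (blk a g₁ g₂ T m (i - 1))⁻¹ := by
    rw [hprev]; group
  have key : Btw d (c + c' + 2 * d 1 a) ((blk a g₁ g₂ T m (i - 1))⁻¹) (blk a g₁ g₂ T m i) 1 := by
    by_cases hpar : i % 2 = 0
    · -- previous block odd
      have hprevodd : ¬ (i - 1) % 2 = 0 := by omega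
      have hprev0 : ¬ (i - 1) % (2 * T) = 0 := fun h => hprevodd (relb_even h)
      have hB : blk a g₁ g₂ T m (i - 1) = g₂ ^ m (i - 1) := by
        simp only [blk, hprev0, hprevodd, if_false]
      rw [hB]
      have hinv : (g₂ ^ m (i - 1))⁻¹ = g₂ ^ (-(m (i - 1) : ℤ)) := by
        rw [zpow_neg, zpow_natCast]
      rw [hinv]
      by_cases h0 : i % (2 * T) = 0
      · have hB2 : blk a g₁ g₂ T m i = a * g₁ ^ (m i : ℤ) := by
          simp only [blk, h0, if_true, zpow_natCast]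
        rw [hB2]
        exact (k3 _ _).swap hm
      · have hB2 : blk a g₁ g₂ T m i = g₁ ^ (m i : ℤ) := by
          simp only [blk, h0, hpar, if_false, if_true, zpow_natCast]
        rw [hB2]
        exact (k1 _ _).swap hm
    · have hcur0 : ¬ i % (2 * T) = 0 := fun h => hpar (relb_even h)
      have hB2 : blk a g₁ g₂ T m i = g₂ ^ (m i : ℤ) := by
        simp only [blk, hcur0, hpar, if_false, zpow_natCast]
      rw [hB2]
      have hpe : (i - 1) % 2 = 0 := by omega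
      by_cases h0 : (i - 1) % (2 * T) = 0
      · have hB : (blk a g₁ g₂ T m (i - 1))⁻¹ = g₁ ^ (-(m (i - 1) : ℤ)) * a⁻¹ := by
          simp only [blk, h0, if_true]
          rw [mul_inv_rev, zpow_neg, zpow_natCast]
        rw [hB]
        exact k2 _ _
      · have hB : (blk a g₁ g₂ T m (i - 1))⁻¹ = g₁ ^ (-(m (i - 1) : ℤ)) := by
          simp only [blk, h0, hpe, if_false, if_true]
          rw [zpow_neg, zpow_natCast]
        rw [hB]
        exact k1 _ _
  have t1 : d (v (i - 1)) (v i) = d ((blk a g₁ g₂ T m (i - 1))⁻¹) 1 := by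
    have := hG.inv (v i) ((blk a g₁ g₂ T m (i - 1))⁻¹) 1
    rw [mul_one, ← e1] at this
    exact this
  have t2 : d (v i) (v (i + 1)) = d 1 (blk a g₁ g₂ T m i) := by
    have := hG.inv (v i) 1 (blk a g₁ g₂ T m i)
    rw [mul_one, ← hnext] at this
    exact this
  have t3 : d (v (i - 1)) (v (i + 1)) = d ((blk a g₁ g₂ T m (i - 1))⁻¹) (blk a g₁ g₂ T m i) := by
    have := hG.inv (v i) ((blk a g₁ g₂ T m (i - 1))⁻¹) (blk a g₁ g₂ T m i)
    rw [← e1, ← hnext] at this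
    exact this
  unfold Btw at key ⊢
  rw [t1, t2, t3]
  exact key

/-- Basic consequences of `broken_path` for relator paths: lip, btw, low, length. -/
theorem RelPath.basic (hG : IsHG d δ) {a g₁ g₂ : G} {T lam Δ M : ℕ} {r : G} {γ : ℤ → G} {L : ℕ}
    {v : ℤ → G} {τ : ℤ → ℤ} {m : ℤ → ℕ} (hR : RelPath d a g₁ g₂ T lam Δ M r γ L v τ m)
    {c₀ : ℕ} (hc : ∀ i, Btw d c₀ (v (i - 1)) (v (i + 1)) (v i)) (hlam : 5 * (c₀ + δ) < lam) :
    (∀ s, d (γ s) (γ (s + 1)) ≤ 1) ∧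
    (∀ s u t, s ≤ u → u ≤ t → Btw d (2 * c₀ + 4 * δ) (γ s) (γ t) (γ u)) ∧
    (∀ s t, s ≤ t → 4 * (t - s) ≤ 5 * (d (γ s) (γ t) : ℤ) + 5 * (c₀ + δ)) ∧
    2 * T * lam ≤ L := by
  have hm := hG.toIsGM
  have hstep : ∀ i, (lam : ℤ) ≤ τ (i + 1) - τ i := by
    intro i
    have h1 := hR.τ_succ i
    have h2 := hR.len_ge i
    have h3 : (lam : ℤ) ≤ (d (v i) (v (i + 1)) : ℤ) := by exact_mod_cast h2
    linarith
  have hgrow : ∀ (i : ℤ) (n : ℕ), τ i + (n : ℤ) * lam ≤ τ (i + n) := by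
    intro i n
    induction n with
    | zero => simp
    | succ n ih =>
      have h1 := hstep (i + n)
      have h2 : i + (n : ℤ) + 1 = i + ((n + 1 : ℕ) : ℤ) := by push_cast; ring
      rw [h2] at h1
      push_cast at *
      linarith
  have hlam1 : (1 : ℤ) ≤ lam := by
    have : 1 ≤ lam := by omega
    exact_mod_cast this
  have hb' : ∀ i, Btw d c₀ (γ (τ (i - 1))) (γ (τ (i + 1))) (γ (τ i)) := by
    intro i
    rw [hR.γ_τ, hR.γ_τ, hR.γ_τ]
    exact hc i
  have hloc : ∀ s : ℤ, ∃ i, τ i ≤ s ∧ s < τ (i + 1) := by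
    intro s
    have h0 := hR.τ_zero
    have hbd : ∃ b : ℤ, ∀ z : ℤ, τ z ≤ s → z ≤ b := by
      refine ⟨|s|, fun z hz => ?_⟩
      by_contra hcon
      push Not at hcon
      have hz0 : 0 ≤ z := le_trans (abs_nonneg s) hcon.le
      obtain ⟨n, rfl⟩ := Int.eq_ofNat_of_zero_le hz0
      have h1 := hgrow 0 n
      rw [h0, zero_add, zero_add] at h1
      have h2 : (n : ℤ) ≤ (n : ℤ) * lam := by nlinarith
      have h3 := le_abs_self s
      linarith
    have hne : ∃ z : ℤ, τ z ≤ s := by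
      refine ⟨-(s.natAbs : ℤ), ?_⟩
      have h1 := hgrow (-(s.natAbs : ℤ)) s.natAbs
      rw [neg_add_cancel, h0] at h1
      have h2 : (s.natAbs : ℤ) ≤ (s.natAbs : ℤ) * lam := by nlinarith
      have h3 : -(s.natAbs : ℤ) ≤ s := by omega
      linarith
    obtain ⟨i, hi1, hi2⟩ := Int.exists_greatest_of_bdd hbd hne
    refine ⟨i, hi1, ?_⟩
    by_contra hcon
    push Not at hcon
    have := hi2 _ hcon
    omega
  refine ⟨?_, ?_, ?_, ?_⟩
  · intro s
    obtain ⟨i, hi1, hi2⟩ := hloc s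
    have h1 := hR.geo i s (s + 1) hi1 (by omega) (by omega)
    omega
  · intro s u t hsu hut
    refine broken_path hm hG.hyp γ τ (fun i => ?_) hR.geo hb' s u t hsu hut
    have h1 := hstep i
    have h2 : (c₀ : ℤ) + 2 * δ < lam := by
      have : c₀ + 2 * δ < lam := by omega
      exact_mod_cast this
    linarith
  · intro s t hst
    exact broken_path_low hm hG.hyp γ τ hlam.le (by omega) hstep hR.geo hb' s t hst
  · have h1 := hgrow 0 (2 * T)
    have h2 := hR.τ_per 0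
    rw [hR.τ_zero, zero_add, zero_add] at *
    have h3 : ((2 * T : ℕ) : ℤ) = 2 * (T : ℤ) := by push_cast; ring
    rw [h3] at h1
    rw [h2] at h1
    exact_mod_cast h1

end TD
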