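import Pool.Agent.TD.Defs

/-!
# RelDefs: the relator path.  Blueprint section 15.
-/

set_option autoImplicit false

namespace TD

/-- The `i`-th block: `a * g₁ ^ m` for `i ≡ 0`, `g₁ ^ m` for other even `i`, `g₂ ^ m` for odd `i`
(modulo `2 * T`). -/
def blk {G : Type*} [Group G] (a g₁ g₂ : G) (T : ℕ) (m : ℤ → ℕ) (i : ℤ) : G :=
  if i % (2 * T) = 0 then a * g₁ ^ m i else if i % 2 = 0 then g₁ ^ m i else g₂ ^ m i

/-- The relator path: vertices `v`, times `τ`, path `γ`, exponents `m`. -/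
structure RelPath {G : Type*} [Group G] (d : G → G → ℕ) (a g₁ g₂ : G) (T lam Δ M : ℕ) (r : G)
    (γ : ℤ → G) (L : ℕ) (v : ℤ → G) (τ : ℤ → ℤ) (m : ℤ → ℕ) : Prop where
  v_succ : ∀ i, v (i + 1) = v i * blk a g₁ g₂ T m i
  v_per : ∀ i, v (i + 2 * T) = r * v i
  m_per : ∀ i, m (i + 2 * T) = m i
  τ_succ : ∀ i, τ (i + 1) = τ i + d (v i) (v (i + 1))
  τ_per : ∀ i, τ (i + 2 * T) = τ i + L
  τ_zero : τ 0 = 0
  γ_τ : ∀ i, γ (τ i) = v i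
  γ_per : ∀ s, γ (s + L) = r * γ s
  geo : ∀ i s t, τ i ≤ s → s ≤ t → t ≤ τ (i + 1) → (d (γ s) (γ t) : ℤ) = t - s
  len_ge : ∀ i, lam ≤ d (v i) (v (i + 1))
  len_le : ∀ i, 2 * d (v i) (v (i + 1)) ≤ 3 * lam
  len_sep : ∀ i j : ℤ, ¬ (i - j) % (2 * T) = 0 →
    (Δ : ℤ) ≤ |(d (v i) (v (i + 1)) : ℤ) - d (v j) (v (j + 1))|
  m_ge : ∀ i, M ≤ m i
  r_mem : a⁻¹ * r ∈ Subgroup.closure {g₁, g₂}

end TD
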