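import Pool.Agent.TD.Over
import Pool.Agent.TD.RelA
import Pool.Agent.TD.M3

/-!
# THM RELATOR.  Blueprint section 3.
-/

set_option autoImplicit false

namespace TD

variable {G : Type*} [Group G] {d : G → G → ℕ} {δ : ℕ}

theorem relator (hG : IsHG d δ) (tf : TF G) {ι : Type*} [Finite ι] (H : ι → Subgroup G)
    (hq : ∀ i, ∃ κ, QC d κ (H i : Set G)) (k : ι → ℕ) (hf : ∀ i, FF (H i) (k i))
    {U : Subgroup G} (hU : NonAb U) (hn : ∀ i, NoFin U (H i)) (a : G) :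
    ∃ c : ℕ, ∀ C M : ℕ, ∃ u ∈ U, ∃ (γ : ℤ → G) (L θ : ℕ), SC d (a * u) γ L θ c ∧ C ≤ θ ∧
      M * θ ≤ L ∧ ∀ i, SmallOn d γ θ (H i) := by
  obtain ⟨g₁, hg₁U, hg₁, hper₁⟩ := exists_no_periodic hG tf H hq k hf hU hn
  obtain ⟨u, huU, hi, hi'⟩ := exists_indep_conj hG tf hU hg₁U hg₁ a
  have hg₂ : u * g₁ * u⁻¹ ≠ 1 := by
    intro h
    exact hg₁ (by rwa [conj_eq_one_iff] at h)
  have hg₂U : u * g₁ * u⁻¹ ∈ U := U.mul_mem (U.mul_mem huU hg₁U) (U.inv_mem huU)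
  have hper₂ : ∀ i, ∀ x : G, ∀ p : ℕ, p ≠ 0 → x⁻¹ * (u * g₁ * u⁻¹) ^ p * x ∉ H i := by
    intro i x p hp h
    apply hper₁ i (u⁻¹ * x) p hp
    rw [conj_pow] at h
    have : (u⁻¹ * x)⁻¹ * g₁ ^ p * (u⁻¹ * x) = x⁻¹ * (u * g₁ ^ p * u⁻¹) * x := by group
    rw [this]; exact h
  obtain ⟨c₀, hc₀⟩ := exists_junction hG tf a hg₁ hg₂ hi hi'
  refine ⟨2 * c₀ + 4 * δ, fun C M => ?_⟩
  obtain ⟨Δ₀, lam₀, M₀, hsmall⟩ := relPath_small hG tf a hg₁ hg₂ hi hi' c₀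
  have hOn : ∀ i, ∃ lM : ℕ × ℕ, ∀ (T lam Δ M : ℕ), 2 ≤ T → lM.1 ≤ lam → lM.2 ≤ M → ∀ r γ L v τ m,
      RelPath d a g₁ (u * g₁ * u⁻¹) T lam Δ M r γ L v τ m →
      (∀ i, Btw d c₀ (v (i - 1)) (v (i + 1)) (v i)) →
      SmallOn d γ (12 * lam) (H i) := by
    intro i
    obtain ⟨κ, hκ⟩ := hq i
    obtain ⟨l, m', h⟩ := relPath_smallOn hG tf a hg₁ hg₂ c₀ (H i) hκ (hper₁ i) (hper₂ i)
    exact ⟨(l, m'), h⟩
  choose lM hlM using hOn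
  obtain ⟨B₁, hB₁⟩ := (Set.finite_range (fun i => (lM i).1)).bddAbove
  obtain ⟨B₂, hB₂⟩ := (Set.finite_range (fun i => (lM i).2)).bddAbove
  have hB₁' : ∀ i, (lM i).1 ≤ B₁ := fun i => hB₁ ⟨i, rfl⟩
  have hB₂' : ∀ i, (lM i).2 ≤ B₂ := fun i => hB₂ ⟨i, rfl⟩
  obtain ⟨lam, hlam, r, γ, L, v, τ, m, hR⟩ := exists_relPath (d := d) hG tf a hg₁ hg₂ (6 * M + 2) Δ₀
    (M₀ + B₂) (lam₀ + B₁ + C + 5 * (c₀ + δ) + 1) (by omega)
  have hT : 2 ≤ 6 * M + 2 := by omega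
  have hbtw := hc₀ _ _ _ _ hT r γ L v τ m hR
  obtain ⟨hlip, hb, hlow, hlen⟩ := RelPath.basic hG hR hbtw (by omega)
  have hr : a * (a⁻¹ * r) = r := by group
  have hUr : a⁻¹ * r ∈ U := by
    have hcl : Subgroup.closure {g₁, u * g₁ * u⁻¹} ≤ U := by
      rw [Subgroup.closure_le]
      intro y hy
      rcases hy with rfl | hy
      · exact hg₁U
      · rw [Set.mem_singleton_iff] at hy
        rw [hy]; exact hg₂U
    exact hcl hR.r_mem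
  refine ⟨a⁻¹ * r, hUr, γ, L, 12 * lam, ?_, by omega, ?_, ?_⟩
  · rw [hr]
    refine ⟨hR.γ_per, hlip, hb, ?_, ?_⟩
    · intro s t hst
      have h1 := hlow s t hst
      push_cast
      have h2 : ((c₀ : ℤ) + δ) ≤ 12 * lam := by
        have : c₀ + δ ≤ 12 * lam := by omega
        exact_mod_cast this
      linarith
    · intro x hx s' t' s t hs ht
      have := hsmall _ _ _ _ hT le_rfl (show lam₀ ≤ lam by omega) (show M₀ ≤ M₀ + B₂ by omega)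
        r γ L v τ m hR hbtw x hx s' t' s t hs ht
      push_cast
      exact this
  · calc M * (12 * lam) ≤ 2 * (6 * M + 2) * lam := by nlinarith
      _ ≤ L := hlen
  · intro i
    have h1 := hB₁' i
    have h2 := hB₂' i
    exact hlM i _ _ _ _ hT (by omega) (by omega) r γ L v τ m hR hbtw

end TD
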