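import Mathlib

/-!
# Module ROT: abstract rotation systems and a Greendlinger type lemma

Pure combinatorics: points `X`, axes `Y`, a distance `a` from points to axes, projections
`pos v : X → ℤ` to the axes and rotations `rot v` which translate the axis `v` by `L`.
-/

set_option autoImplicit false

namespace Pool.Agent.TD

/-- An abstract rotation system. -/
structure RotSys (X Y : Type*) where
  a : X → Y → ℕ
  pos : Y → X → ℤ
  base : Y → X
  rot : Y → Equiv.Perm X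
  rotY : Y → Equiv.Perm Y
  L : ℤ
  T : ℤ
  a_rot : ∀ v u x, a (rot v x) (rotY v u) = a x u
  rotY_self : ∀ v, rotY v v = v
  rot_conj : ∀ v u, rot (rotY v u) = rot v * rot u * (rot v)⁻¹
  pos_rot : ∀ v x, pos v (rot v x) = pos v x + L
  beh : ∀ u v, u ≠ v → ∀ s, |pos v s - pos v (base u)| ≤ T ∨ |pos u s - pos u (base v)| ≤ T
  near : ∀ u v, u ≠ v → ∀ x, a x u ≤ a x v → |pos v x - pos v (base u)| ≤ T
  far : ∀ u v, u ≠ v → ∀ x, (∀ e : ℤ, a x u ≤ a ((rot v ^ e) x) u) →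
    4 * |pos v x - pos v (base u)| ≤ 3 * L
  hL : 60 * T ≤ L
  hT : 1 ≤ T

namespace RotSys

variable {X Y : Type*} (R : RotSys X Y)

/-- the point of an end -/
def pt : X ⊕ Y → X := Sum.elim id R.base

/-- distance of the projections to the axis `v` -/
def dd (v : Y) (s t : X ⊕ Y) : ℤ := |R.pos v (R.pt s) - R.pos v (R.pt t)|

lemma dd_self (v : Y) (s : X ⊕ Y) : R.dd v s s = 0 := by simp [dd]

lemma dd_comm (v : Y) (s t : X ⊕ Y) : R.dd v s t = R.dd v t s := abs_sub_comm _ _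

lemma dd_tri (v : Y) (s t u : X ⊕ Y) : R.dd v s u ≤ R.dd v s t + R.dd v t u :=
  abs_sub_le _ _ _

lemma dd_nonneg (v : Y) (s t : X ⊕ Y) : 0 ≤ R.dd v s t := abs_nonneg _

/-- first element of the list, or the right end -/
def hd : List Y → X ⊕ Y → X ⊕ Y
  | [], q => q
  | w :: _, _ => Sum.inr w

/-- last element of the list, or the left end -/
def la : X ⊕ Y → List Y → X ⊕ Y
  | s, [] => s
  | _, w :: l => la (Sum.inr w) l

/-- a condition on all triples of consecutive elements of `s, l, q` -/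
def Tri (P : X ⊕ Y → Y → X ⊕ Y → Prop) : X ⊕ Y → List Y → X ⊕ Y → Prop
  | _, [], _ => True
  | s, v :: l, q => P s v (hd l q) ∧ Tri P (Sum.inr v) l q

/-- a condition on all pairs of consecutive elements of `s, l, q` -/
def Con (Q : X ⊕ Y → X ⊕ Y → Prop) : X ⊕ Y → List Y → X ⊕ Y → Prop
  | s, [], q => Q s q
  | s, v :: l, q => Q s (Sum.inr v) ∧ Con Q (Sum.inr v) l q

/-- two axes are distinct -/
def Dist (s t : X ⊕ Y) : Prop := ∀ u v, s = Sum.inr u → t = Sum.inr v → u ≠ v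

lemma hd_append (l₁ : List Y) (v : Y) (l₂ : List Y) (q : X ⊕ Y) :
    hd (l₁ ++ v :: l₂) q = hd l₁ (Sum.inr v) := by
  cases l₁ <;> rfl

lemma tri_append (P : X ⊕ Y → Y → X ⊕ Y → Prop) (v : Y) (l₂ : List Y) (q : X ⊕ Y) :
    ∀ (l₁ : List Y) (s : X ⊕ Y), Tri P s (l₁ ++ v :: l₂) q ↔
      Tri P s l₁ (Sum.inr v) ∧ P (la s l₁) v (hd l₂ q) ∧ Tri P (Sum.inr v) l₂ q
  | [], s => by simp [Tri, la]
  | w :: l₁, s => by
    simp only [List.cons_append, Tri, la, tri_append P v l₂ q l₁, hd_append, and_assoc]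

lemma con_append (Q : X ⊕ Y → X ⊕ Y → Prop) (v : Y) (l₂ : List Y) (q : X ⊕ Y) :
    ∀ (l₁ : List Y) (s : X ⊕ Y), Con Q s (l₁ ++ v :: l₂) q ↔
      Con Q s l₁ (Sum.inr v) ∧ Con Q (Sum.inr v) l₂ q
  | [], s => by simp [Con]
  | w :: l₁, s => by
    simp only [List.cons_append, Con, con_append Q v l₂ q l₁, and_assoc]

lemma tri_mono {P P' : X ⊕ Y → Y → X ⊕ Y → Prop} (h : ∀ s v t, P s v t → P' s v t) (q : X ⊕ Y) :
    ∀ (l : List Y) (s : X ⊕ Y), Tri P s l q → Tri P' s l q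
  | [], _, _ => trivial
  | _ :: l, _, hh => ⟨h _ _ _ hh.1, tri_mono h q l _ hh.2⟩

lemma tri_and {P P' : X ⊕ Y → Y → X ⊕ Y → Prop} (q : X ⊕ Y) :
    ∀ (l : List Y) (s : X ⊕ Y), Tri P s l q → Tri P' s l q →
      Tri (fun s v t => P s v t ∧ P' s v t) s l q
  | [], _, _, _ => trivial
  | _ :: l, _, h, h' => ⟨⟨h.1, h'.1⟩, tri_and q l _ h.2 h'.2⟩

lemma la_mem : ∀ (l : List Y) (s : X ⊕ Y), l ≠ [] → ∃ w ∈ l, la s l = Sum.inr w
  | [w], s, _ => ⟨w, by simp, rfl⟩
  | w :: w' :: l, s, _ => by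
    obtain ⟨w'', h1, h2⟩ := la_mem (w' :: l) (Sum.inr w) (by simp)
    exact ⟨w'', List.mem_cons_of_mem _ h1, h2⟩

/-! ### Local to global -/

lemma lg_back (q : X ⊕ Y) : ∀ (l : List Y) (s : X ⊕ Y), Con Dist s l q →
    Tri (fun s v t => 5 * R.T ≤ R.dd v s t) s l q → Tri (fun _ v t => R.dd v q t ≤ R.T) s l q
  | [], _, _, _ => trivial
  | v :: l, s, hD, hE => by
    have hT := R.hT
    have ih := lg_back q l (Sum.inr v) hD.2 hE.2
    refine ⟨?_, ih⟩
    cases l with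
    | nil => simp only [hd, dd_self]; linarith
    | cons w l₂ =>
      have h1 := ih.1
      have h2 := hE.2.1
      have hne : w ≠ v := fun h => hD.2.1 v w rfl rfl h.symm
      have h3 : R.T < R.dd w q (Sum.inr v) := by
        have := R.dd_tri w (Sum.inr v) q (hd l₂ q)
        rw [R.dd_comm w (Sum.inr v) q] at this
        linarith
      rcases R.beh w v hne (R.pt q) with h | h
      · exact h
      · exact absurd h (not_le.mpr h3)

lemma lg_forw (o q : X ⊕ Y) : ∀ (l : List Y) (s : X ⊕ Y),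
    (∀ v l', l = v :: l' → R.dd v o s ≤ R.T) → Con Dist s l q →
    Tri (fun s v t => 5 * R.T ≤ R.dd v s t) s l q → Tri (fun s v _ => R.dd v o s ≤ R.T) s l q
  | [], _, _, _, _ => trivial
  | v :: l, s, h0, hD, hE => by
    have hT := R.hT
    have h0' := h0 v l rfl
    refine ⟨h0', lg_forw o q l (Sum.inr v) ?_ hD.2 hE.2⟩
    intro w l' hl
    subst hl
    have hne : v ≠ w := hD.2.1 v w rfl rfl
    have h2 : 5 * R.T ≤ R.dd v s (Sum.inr w) := hE.1
    have h3 : R.T < R.dd v o (Sum.inr w) := by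
      have := R.dd_tri v s o (Sum.inr w)
      rw [R.dd_comm v s o] at this
      linarith
    rcases R.beh v w hne (R.pt o) with h | h
    · exact h
    · exact absurd h (not_le.mpr h3)

lemma lg (p q : X ⊕ Y) (l : List Y) (hD : Con Dist p l q)
    (hE : Tri (fun s v t => 5 * R.T ≤ R.dd v s t) p l q) :
    Tri (fun s v t => R.dd v p s ≤ R.T ∧ R.dd v q t ≤ R.T) p l q := by
  refine tri_and q l p (R.lg_forw p q l p ?_ hD hE) (R.lg_back q l p hD hE)
  intro v l' _
  have := R.hT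
  rw [dd_self]; linarith

lemma tri_mem {P : X ⊕ Y → Y → X ⊕ Y → Prop} (q : X ⊕ Y) :
    ∀ (l : List Y) (s : X ⊕ Y), Tri P s l q → ∀ v ∈ l, ∃ s' t', P s' v t'
  | w :: l, s, h, v, hv => by
    rcases List.mem_cons.mp hv with rfl | hv
    · exact ⟨_, _, h.1⟩
    · exact tri_mem q l _ h.2 v hv

/-! ### The classes -/

/-- a step of level `< b` -/
def Step (b : ℕ) (x y : X) : Prop := ∃ (v : Y) (e : ℤ), R.a x v < b ∧ y = (R.rot v ^ e) x

/-- the equivalence relation generated by the steps of level `< b` -/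
def Rel (b : ℕ) : X → X → Prop := Relation.ReflTransGen (R.Step b)

lemma a_self (v : Y) (x : X) : R.a (R.rot v x) v = R.a x v := by
  have := R.a_rot v v x
  rwa [R.rotY_self] at this

lemma a_zpow (v : Y) (e : ℤ) (x : X) : R.a ((R.rot v ^ e) x) v = R.a x v := by
  induction e with
  | zero => simp
  | succ n ih =>
    have h : R.rot v ((R.rot v ^ (n:ℤ)) x) = (R.rot v ^ ((n:ℤ) + 1)) x := by
      rw [← Equiv.Perm.mul_apply, ← zpow_one_add]; congr 2; ring
    rw [← h, R.a_self, ih]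
  | pred n ih =>
    have h : R.rot v ((R.rot v ^ (-(n:ℤ) - 1)) x) = (R.rot v ^ (-(n:ℤ))) x := by
      rw [← Equiv.Perm.mul_apply, ← zpow_one_add]; congr 2; ring
    rw [← R.a_self, h, ih]

lemma pos_zpow (v : Y) (e : ℤ) (x : X) : R.pos v ((R.rot v ^ e) x) = R.pos v x + e * R.L := by
  induction e with
  | zero => simp
  | succ n ih =>
    have h : R.rot v ((R.rot v ^ (n:ℤ)) x) = (R.rot v ^ ((n:ℤ) + 1)) x := by
      rw [← Equiv.Perm.mul_apply, ← zpow_one_add]; congr 2; ring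
    rw [← h, R.pos_rot, ih]; ring
  | pred n ih =>
    have h : R.rot v ((R.rot v ^ (-(n:ℤ) - 1)) x) = (R.rot v ^ (-(n:ℤ))) x := by
      rw [← Equiv.Perm.mul_apply, ← zpow_one_add]; congr 2; ring
    have := R.pos_rot v ((R.rot v ^ (-(n:ℤ) - 1)) x)
    rw [h, ih] at this
    linarith

lemma zpow_zpow (v : Y) (e e' : ℤ) (x : X) :
    (R.rot v ^ e) ((R.rot v ^ e') x) = (R.rot v ^ (e + e')) x := by
  rw [zpow_add, Equiv.Perm.mul_apply]

lemma zpow_neg_zpow (v : Y) (e : ℤ) (x : X) :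
    (R.rot v ^ (-e)) ((R.rot v ^ e) x) = x := by
  rw [zpow_zpow, neg_add_cancel, zpow_zero, Equiv.Perm.one_apply]

lemma step_symm {b : ℕ} {x y : X} (h : R.Step b x y) : R.Step b y x := by
  obtain ⟨v, e, h, rfl⟩ := h
  exact ⟨v, -e, by rwa [a_zpow], (R.zpow_neg_zpow v e x).symm⟩

lemma rel_refl (b : ℕ) (x : X) : R.Rel b x x := Relation.ReflTransGen.refl

lemma rel_trans {b : ℕ} {x y z : X} (h : R.Rel b x y) (h' : R.Rel b y z) : R.Rel b x z :=
  Relation.ReflTransGen.trans h h'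

lemma rel_symm {b : ℕ} {x y : X} (h : R.Rel b x y) : R.Rel b y x := by
  induction h with
  | refl => exact R.rel_refl _ _
  | tail _ h ih => exact R.rel_trans (Relation.ReflTransGen.single (R.step_symm h)) ih

lemma rel_mono {b b' : ℕ} (hb : b ≤ b') {x y : X} (h : R.Rel b x y) : R.Rel b' x y := by
  induction h with
  | refl => exact R.rel_refl _ _
  | tail _ h ih =>
    obtain ⟨v, e, h1, h2⟩ := h
    exact R.rel_trans ih (Relation.ReflTransGen.single ⟨v, e, lt_of_lt_of_le h1 hb, h2⟩)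

lemma rel_zero {x y : X} (h : R.Rel 0 x y) : x = y := by
  induction h with
  | refl => rfl
  | tail _ h _ => obtain ⟨v, e, h, _⟩ := h; exact absurd h (Nat.not_lt_zero _)

lemma rel_rot {b : ℕ} (u : Y) {x y : X} (h : R.Rel b x y) : R.Rel b (R.rot u x) (R.rot u y) := by
  induction h with
  | refl => exact R.rel_refl _ _
  | @tail y z _ h ih =>
    refine R.rel_trans ih (Relation.ReflTransGen.single ?_)
    obtain ⟨v, e, h1, rfl⟩ := h
    refine ⟨R.rotY u v, e, by rwa [a_rot], ?_⟩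
    rw [R.rot_conj, conj_zpow]
    simp

lemma rel_rot_inv {b : ℕ} (u : Y) {x y : X} (h : R.Rel b x y) :
    R.Rel b ((R.rot u)⁻¹ x) ((R.rot u)⁻¹ y) := by
  induction h with
  | refl => exact R.rel_refl _ _
  | @tail y z _ h ih =>
    refine R.rel_trans ih (Relation.ReflTransGen.single ?_)
    obtain ⟨v, e, h1, rfl⟩ := h
    have hv : R.rotY u ((R.rotY u)⁻¹ v) = v := by simp
    have hr : R.rot v = R.rot u * R.rot ((R.rotY u)⁻¹ v) * (R.rot u)⁻¹ := by
      have := R.rot_conj u ((R.rotY u)⁻¹ v)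
      rwa [hv] at this
    refine ⟨(R.rotY u)⁻¹ v, e, ?_, ?_⟩
    · have := R.a_rot u ((R.rotY u)⁻¹ v) ((R.rot u)⁻¹ y)
      have h0 : R.rot u ((R.rot u)⁻¹ y) = y := by simp
      rw [hv, h0] at this
      rwa [← this]
    · rw [hr, conj_zpow]
      simp

lemma rel_zpow {b : ℕ} (u : Y) (e : ℤ) {x y : X} (h : R.Rel b x y) :
    R.Rel b ((R.rot u ^ e) x) ((R.rot u ^ e) y) := by
  induction e with
  | zero => simpa using h
  | succ n ih =>
    have := R.rel_rot u ih
    rw [← Equiv.Perm.mul_apply, ← Equiv.Perm.mul_apply, ← zpow_one_add, add_comm] at this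
    exact this
  | pred n ih =>
    have := R.rel_rot_inv u ih
    rw [← Equiv.Perm.mul_apply, ← Equiv.Perm.mul_apply, ← zpow_neg_one, ← zpow_add] at this
    rwa [sub_eq_add_neg, add_comm]

/-- an axis which is close to the class is stabilised -/
lemma rel_inside {b : ℕ} {x z : X} {v : Y} (hz : R.Rel b x z) (h : R.a z v < b) (e : ℤ) :
    R.Rel b x ((R.rot v ^ e) x) := by
  have h1 : R.Rel b z ((R.rot v ^ e) z) := Relation.ReflTransGen.single ⟨v, e, h, rfl⟩
  exact R.rel_trans hz (R.rel_trans h1 (R.rel_zpow v e (R.rel_symm hz)))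

/-- a reduced chain of rotations of level exactly `b` between classes of level `b` -/
inductive Pth (b : ℕ) : Option Y → X → X → Prop
  | nil {x y : X} : R.Rel b x y → Pth b none x y
  | cons {x y : X} (v : Y) (o : Option Y) (z : X) (e : ℤ) :
      R.Rel b x z → (∀ z', R.Rel b x z' → b ≤ R.a z' v) → (∃ z', R.Rel b x z' ∧ R.a z' v = b) →
      e ≠ 0 → o ≠ some v → Pth b o ((R.rot v ^ e) z) y → Pth b (some v) x y

lemma pth_pre {b : ℕ} {o : Option Y} {x x' y : X} (h : R.Rel b x x') (hp : R.Pth b o x' y) :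
    R.Pth b o x y := by
  cases hp with
  | nil h' => exact .nil (R.rel_trans h h')
  | cons v o z e h1 h2 h3 he ho hp =>
    refine .cons v o z e (R.rel_trans h h1) (fun z' hz' => h2 z' (R.rel_trans (R.rel_symm h) hz'))
      ?_ he ho hp
    obtain ⟨z', h4, h5⟩ := h3
    exact ⟨z', R.rel_trans h h4, h5⟩

lemma pth_step {b : ℕ} {o : Option Y} {x y : X} (v : Y) (e : ℤ) (ha : R.a x v ≤ b)
    (hp : R.Pth b o ((R.rot v ^ e) x) y) : ∃ o', R.Pth b o' x y := by
  by_cases hin : ∃ z, R.Rel b x z ∧ R.a z v < b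
  · obtain ⟨z, h1, h2⟩ := hin
    exact ⟨o, R.pth_pre (R.rel_inside h1 h2 e) hp⟩
  · push Not at hin
    have hab : R.a x v = b := le_antisymm ha (hin x (R.rel_refl _ _))
    have hmin : ∃ z', R.Rel b x z' ∧ R.a z' v = b := ⟨x, R.rel_refl _ _, hab⟩
    rcases eq_or_ne e 0 with rfl | he
    · exact ⟨o, by simpa using hp⟩
    cases hp with
    | nil h =>
      exact ⟨some v, .cons v none x e (R.rel_refl _ _) hin hmin he (by simp) (.nil h)⟩
    | cons v' o z e' h1 h2 h3 he' ho hp =>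
      by_cases hv : v' = v
      · subst hv
        have hz : R.Rel b x ((R.rot v' ^ (-e)) z) := by
          have := R.rel_zpow v' (-e) h1
          rwa [zpow_neg_zpow] at this
        have hw : (R.rot v' ^ e') z = (R.rot v' ^ (e' + e)) ((R.rot v' ^ (-e)) z) := by
          rw [zpow_zpow]; congr 2; ring
        rcases eq_or_ne (e' + e) 0 with h0 | h0
        · refine ⟨o, R.pth_pre hz ?_⟩
          rw [hw, h0] at hp
          simpa using hp
        · rw [hw] at hp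
          exact ⟨some v', .cons v' o _ (e' + e) hz hin hmin h0 ho hp⟩
      · refine ⟨some v, .cons v (some v') x e (R.rel_refl _ _) hin hmin he ?_
          (.cons v' o z e' h1 h2 h3 he' ho hp)⟩
        intro h
        exact hv (Option.some.inj h)

lemma exists_pth {b : ℕ} {x y : X} (h : R.Rel (b + 1) x y) : ∃ o, R.Pth b o x y := by
  induction h using Relation.ReflTransGen.head_induction_on with
  | refl => exact ⟨none, .nil (R.rel_refl _ _)⟩
  | head h _ ih =>
    obtain ⟨v, e, h1, rfl⟩ := h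
    obtain ⟨o, ho⟩ := ih
    exact R.pth_step v e (Nat.lt_succ_iff.mp h1) ho

/-! ### The main induction -/

/-- `p` is a point of the class of `x`, or an axis outside it, with closest point `zp` at
distance `β` -/
def IsEnd (b : ℕ) (x : X) (p : X ⊕ Y) (zp : X) (β : ℕ) : Prop :=
  R.Rel b x zp ∧ (∀ z, p = Sum.inl z → z = zp ∧ β = 0) ∧
    ∀ u, p = Sum.inr u → R.a zp u = β ∧ b ≤ β ∧ ∀ z, R.Rel b x z → β ≤ R.a z u

def Good (b : ℕ) : Prop :=
  ∀ (x : X) (p q : X ⊕ Y) (zp zq : X) (βp βq : ℕ), R.IsEnd b x p zp βp → R.IsEnd b x q zq βq →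
    Dist p q → ∃ l : List Y,
      (∀ w ∈ l, ∃ z, R.Rel b x z ∧ R.a z w < b) ∧
      Con Dist p l q ∧
      Tri (fun s v t => 5 * R.T ≤ R.dd v s t) p l q ∧
      (∀ v, (∀ z, R.Rel b x z → b ≤ R.a z v ∧ βp ≤ R.a z v ∧ βq ≤ R.a z v) →
        p ≠ Sum.inr v → q ≠ Sum.inr v → Con (fun s t => R.dd v s t ≤ 4 * R.T) p l q) ∧
      (∀ y y', p = Sum.inl y → q = Sum.inl y' → y ≠ y' →
        ¬ Tri (fun s v t => R.dd v s t < R.L - 8 * R.T) p l q)

lemma types {v : Y} {z z' : X ⊕ Y} (q : X ⊕ Y) (hq : R.dd v z' q ≤ R.T) :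
    ∀ (l : List Y) (s : X ⊕ Y), R.dd v z s ≤ R.T →
      (∀ w ∈ l, R.dd v z (Sum.inr w) ≤ R.T ∨ R.dd v z' (Sum.inr w) ≤ R.T) →
      Con (fun s t => R.dd v s t ≤ 4 * R.T) s l q → R.dd v z z' ≤ 6 * R.T
  | [], s, hs, _, hc => by
    have h1 := R.dd_tri v z s z'
    have h2 := R.dd_tri v s q z'
    have h3 : R.dd v s q ≤ 4 * R.T := hc
    rw [R.dd_comm v q z'] at h2
    linarith
  | w :: l, s, hs, hl, hc => by
    rcases hl w (by simp) with h | h
    · exact types q hq l (Sum.inr w) h (fun w' hw' => hl w' (List.mem_cons_of_mem _ hw')) hc.2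
    · have h1 := R.dd_tri v z s z'
      have h2 := R.dd_tri v s (Sum.inr w) z'
      have h3 : R.dd v s (Sum.inr w) ≤ 4 * R.T := hc.1
      rw [R.dd_comm v (Sum.inr w) z'] at h2
      linarith

lemma good_I {b : ℕ} (hG : R.Good b) {x : X} {v : Y} (hv : ∀ z, R.Rel b x z → b ≤ R.a z v)
    {z z' : X} (hz : R.Rel b x z) (hz' : R.Rel b x z') :
    R.dd v (Sum.inl z) (Sum.inl z') ≤ 6 * R.T := by
  have hT := R.hT
  obtain ⟨l, h1, h2, h3, h4, -⟩ := hG x (Sum.inl z) (Sum.inl z') z z' 0 0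
    ⟨hz, fun y hy => ⟨(Sum.inl.inj hy).symm, rfl⟩, fun u hu => by simp at hu⟩
    ⟨hz', fun y hy => ⟨(Sum.inl.inj hy).symm, rfl⟩, fun u hu => by simp at hu⟩
    (fun u v hu => by simp at hu)
  have h4' := h4 v (fun y hy => ⟨hv y hy, Nat.zero_le _, Nat.zero_le _⟩) (by simp) (by simp)
  have h5 := R.lg _ _ l h2 h3
  refine R.types (Sum.inl z') (by rw [dd_self]; linarith) l (Sum.inl z)
    (by rw [dd_self]; linarith) ?_ h4'
  intro w hw
  obtain ⟨s', t', h6, h7, h8⟩ := tri_mem _ l _ (tri_and _ l _ h3 h5) w hw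
  obtain ⟨y, hy1, hy2⟩ := h1 w hw
  have hne : w ≠ v := by
    rintro rfl
    exact absurd hy2 (not_lt.mpr (hv y hy1))
  have h9 : 3 * R.T ≤ R.dd w (Sum.inl z) (Sum.inl z') := by
    have e1 := R.dd_tri w s' (Sum.inl z) t'
    have e2 := R.dd_tri w (Sum.inl z) (Sum.inl z') t'
    rw [R.dd_comm w s' (Sum.inl z)] at e1
    linarith
  rcases R.beh w v hne z with h | h
  · exact Or.inl h
  · rcases R.beh w v hne z' with h' | h'
    · exact Or.inr h'
    · exfalso
      have e1 := R.dd_tri w (Sum.inl z) (Sum.inr v) (Sum.inl z')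
      rw [R.dd_comm w (Sum.inr v) (Sum.inl z')] at e1
      have e2 : R.dd w (Sum.inl z) (Sum.inr v) ≤ R.T := h
      have e3 : R.dd w (Sum.inl z') (Sum.inr v) ≤ R.T := h'
      linarith

/-- an axis `w` which is at most as far from `z` as `v` -/
lemma near_dd {z : X} {w v : Y} (hne : w ≠ v) (h : R.a z w ≤ R.a z v) :
    R.dd v (Sum.inr w) (Sum.inl z) ≤ R.T := by
  rw [dd_comm]
  exact R.near w v hne z h

/-- the exposure at a rotation -/
lemma exposure {b : ℕ} (hG : R.Good b) {x z : X} {v : Y} {e : ℤ} (hz : R.Rel b x z)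
    (hout : ∀ z', R.Rel b x z' → b ≤ R.a z' v) (he : e ≠ 0) {z₁ z₂ : X} (h₁ : R.Rel b x z₁)
    (h₂ : R.Rel b ((R.rot v ^ e) z) z₂) :
    R.L - 6 * R.T ≤ R.dd v (Sum.inl z₁) (Sum.inl z₂) := by
  have hT := R.hT
  have hL := R.hL
  have h3 : R.Rel b x ((R.rot v ^ (-e)) z₂) := by
    have := R.rel_zpow v (-e) h₂
    rw [zpow_neg_zpow] at this
    exact R.rel_trans hz this
  have h4 := R.good_I hG hout h₁ h3
  have h5 := R.pos_zpow v (-e) z₂
  unfold dd at h4 ⊢
  simp only [pt, Sum.elim_inl, id] at h4 ⊢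
  rw [h5] at h4
  rw [abs_le] at h4
  have he' : 1 ≤ e ∨ e ≤ -1 := by omega
  rw [le_abs]
  rcases he' with h | h
  · right
    nlinarith
  · left
    nlinarith

/-- minimum at the next class -/
lemma next_out {b : ℕ} {x z : X} {v : Y} (e : ℤ) (hz : R.Rel b x z)
    (hout : ∀ z', R.Rel b x z' → b ≤ R.a z' v) :
    ∀ z', R.Rel b ((R.rot v ^ e) z) z' → b ≤ R.a z' v := by
  intro z' hz'
  have := R.rel_zpow v (-e) hz'
  rw [zpow_neg_zpow] at this
  have h2 := hout _ (R.rel_trans hz this)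
  rwa [a_zpow] at h2

lemma next_min {b : ℕ} {x z : X} {v : Y} (e : ℤ) (hz : R.Rel b x z)
    (hmin : ∃ z', R.Rel b x z' ∧ R.a z' v = b) :
    ∃ z', R.Rel b ((R.rot v ^ e) z) z' ∧ R.a z' v = b := by
  obtain ⟨z', h1, h2⟩ := hmin
  refine ⟨(R.rot v ^ e) z', R.rel_zpow v e (R.rel_trans (R.rel_symm hz) h1), ?_⟩
  rw [a_zpow, h2]

lemma isEnd_axis {b : ℕ} {x : X} {v : Y} (hout : ∀ z', R.Rel b x z' → b ≤ R.a z' v)
    {z₀ : X} (h1 : R.Rel b x z₀) (h2 : R.a z₀ v = b) : R.IsEnd b x (Sum.inr v) z₀ b := by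
  refine ⟨h1, fun z hz => by simp at hz, fun u hu => ?_⟩
  obtain rfl := Sum.inr.inj hu
  exact ⟨h2, le_rfl, hout⟩

/-- Left tolerance: for every axis `v` outside the `b₁`-class of `x` and inside the `b`-class,
the projection of `s` to `v` is `κ`-close to that of a point of the `b₁`-class. -/
def Tol (b b₁ : ℕ) (x : X) (s : X ⊕ Y) (κ : ℤ) : Prop :=
  ∀ v, (∃ z, R.Rel b x z ∧ R.a z v < b) → (∀ z, R.Rel b₁ x z → b₁ ≤ R.a z v) → s ≠ Sum.inr v →
    ∃ z, R.Rel b₁ x z ∧ R.dd v s (Sum.inl z) ≤ κ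

lemma tol_axis {b b₁ : ℕ} {x : X} {w : Y} (h : ∃ z, R.Rel b₁ x z ∧ R.a z w ≤ b₁) :
    R.Tol b b₁ x (Sum.inr w) R.T := by
  intro v _ hout hne
  obtain ⟨z, h1, h2⟩ := h
  refine ⟨z, h1, R.near_dd (fun h => hne (by rw [h])) (h2.trans (hout z h1))⟩

lemma pth_rel {b b₁ : ℕ} (hb : b₁ < b) {o : Option Y} {x y : X} (hp : R.Pth b₁ o x y) :
    R.Rel b x y := by
  induction hp with
  | nil h => exact R.rel_mono hb.le h
  | cons v o z e h1 h2 h3 _ _ _ ih =>
    obtain ⟨z', h4, h5⟩ := h3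
    refine R.rel_trans (R.rel_mono hb.le h1) (R.rel_trans ?_ ih)
    refine R.rel_inside (z := z') ?_ (by omega) e
    exact R.rel_mono hb.le (R.rel_trans (R.rel_symm h1) h4)

lemma lemmaM {b b₁ : ℕ} (hb : b₁ < b) (hG : R.Good b₁) {o : Option Y} {x y : X}
    (hp : R.Pth b₁ o x y) : ∀ (s : X ⊕ Y) (zs : X) (βs : ℕ) (q : X ⊕ Y) (zq : X) (βq : ℕ) (κ : ℤ),
      R.IsEnd b₁ x s zs βs → R.IsEnd b₁ y q zq βq →
      (∀ v, o = some v → s ≠ Sum.inr v) → (o = none → Dist s q) →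
      (∀ v, (∃ z, R.Rel b x z ∧ R.a z v < b) → q ≠ Sum.inr v) →
      R.Tol b b₁ x s R.T → R.Tol b b₁ y q κ → 4 * κ ≤ 3 * R.L →
      ∃ l : List Y,
        (∀ w ∈ l, ∃ z, R.Rel b x z ∧ R.a z w < b) ∧
        Con Dist s l q ∧
        Tri (fun s v t => 5 * R.T ≤ R.dd v s t) s l q ∧
        (∀ v, (∀ z, R.Rel b x z → b ≤ R.a z v ∧ βs ≤ R.a z v ∧ βq ≤ R.a z v) →
          s ≠ Sum.inr v → q ≠ Sum.inr v → Con (fun s t => R.dd v s t ≤ 4 * R.T) s l q) ∧
        (κ ≤ R.T → o ≠ none → ¬ Tri (fun s v t => R.dd v s t < R.L - 8 * R.T) s l q) ∧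
        (∀ w l', l = w :: l' → ∃ z, R.Rel b₁ x z ∧ R.a z w ≤ b₁) ∧
        (l = [] → R.Rel b₁ x y) := by
  have hT := R.hT
  have hL := R.hL
  induction hp with
  | @nil x y h =>
    intro s zs βs q zq βq κ hs hq _ hsq hqn _ _ _
    have hq' : R.IsEnd b₁ x q zq βq := by
      refine ⟨R.rel_trans h hq.1, hq.2.1, fun u hu => ?_⟩
      obtain ⟨g1, g2, g3⟩ := hq.2.2 u hu
      exact ⟨g1, g2, fun z hz => g3 z (R.rel_trans (R.rel_symm h) hz)⟩
    obtain ⟨l, h1, h2, h3, h4, _⟩ := hG x s q zs zq βs βq hs hq' (hsq rfl)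
    refine ⟨l, ?_, h2, h3, ?_, fun _ h => absurd rfl h, ?_, fun _ => h⟩
    · intro w hw
      obtain ⟨z, g1, g2⟩ := h1 w hw
      exact ⟨z, R.rel_mono hb.le g1, g2.trans hb⟩
    · intro v hv hsv hqv
      refine h4 v (fun z hz => ?_) hsv hqv
      obtain ⟨g1, g2, g3⟩ := hv z (R.rel_mono hb.le hz)
      exact ⟨hb.le.trans g1, g2, g3⟩
    · rintro w l' rfl
      obtain ⟨z, g1, g2⟩ := h1 w (by simp)
      exact ⟨z, g1, g2.le⟩
  | @cons x y v o z e hz hout hmin he ho hp ih =>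
    intro s zs βs q zq βq κ hs hq hsv hsq hqn hts htq hκ
    obtain ⟨z₀, hz₀, haz₀⟩ := hmin
    have hsv' : s ≠ Sum.inr v := hsv v rfl
    -- the rest
    have hrel : R.Rel b x ((R.rot v ^ e) z) := by
      refine R.rel_trans (R.rel_mono hb.le hz) ?_
      refine R.rel_inside (z := z₀) ?_ (by omega) e
      exact R.rel_mono hb.le (R.rel_trans (R.rel_symm hz) hz₀)
    have hinv : ∃ z, R.Rel b x z ∧ R.a z v < b := ⟨z₀, R.rel_mono hb.le hz₀, by omega⟩
    have hout' := R.next_out e hz hout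
    obtain ⟨z₀', hz₀', haz₀'⟩ := R.next_min e hz ⟨z₀, hz₀, haz₀⟩
    have hqv : q ≠ Sum.inr v := hqn v hinv
    obtain ⟨l', i1, i2, i3, i4, i5, i6, i7⟩ := ih (Sum.inr v) z₀' b₁ q zq βq κ
      (R.isEnd_axis hout' hz₀' haz₀') hq
      (fun v' hv' h => ho (by rw [hv', Sum.inr.inj h]))
      (fun _ u u' hu hu' h => hqv (by rw [hu', ← h, ← Sum.inr.inj hu]))
      (fun v' ⟨z', g1, g2⟩ => hqn v' ⟨z', R.rel_trans hrel g1, g2⟩)
      (R.tol_axis ⟨z₀', hz₀', haz₀'.le⟩) htq hκ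
    -- the first list
    obtain ⟨l₀, j1, j2, j3, j4, _⟩ := hG x s (Sum.inr v) zs z₀ βs b₁ hs
      (R.isEnd_axis hout hz₀ haz₀)
      (fun u u' hu hu' h => hsv' (by rw [hu, h, ← Sum.inr.inj hu']))
    -- neighbours of `v`
    have hleft : ∃ z₁, R.Rel b₁ x z₁ ∧ R.dd v (la s l₀) (Sum.inl z₁) ≤ R.T := by
      rcases eq_or_ne l₀ [] with rfl | hne
      · exact hts v hinv hout hsv'
      · obtain ⟨w, hw, hla⟩ := la_mem l₀ s hne
        rw [hla]
        obtain ⟨z₁, g1, g2⟩ := j1 w hw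
        have := hout z₁ g1
        refine ⟨z₁, g1, R.near_dd ?_ (by omega)⟩
        rintro rfl
        omega
    have hright : ∃ z₂, R.Rel b₁ ((R.rot v ^ e) z) z₂ ∧
        ((R.dd v (hd l' q) (Sum.inl z₂) ≤ R.T) ∨ R.dd v (hd l' q) (Sum.inl z₂) ≤ κ) := by
      cases l' with
      | nil =>
        have hr := i7 rfl
        obtain ⟨z₂, g1, g2⟩ := htq v (by
            refine ⟨z₀', R.rel_trans ?_ (R.rel_mono hb.le hz₀'), by omega⟩
            exact R.rel_mono hb.le (R.rel_symm hr))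
          (fun z' hz' => hout' z' (R.rel_trans hr hz')) hqv
        exact ⟨z₂, R.rel_trans hr g1, Or.inr g2⟩
      | cons w l'' =>
        obtain ⟨z₂, g1, g2⟩ := i6 w l'' rfl
        have hne : w ≠ v := fun h => i2.1 v w rfl rfl h.symm
        exact ⟨z₂, g1, Or.inl (R.near_dd hne (g2.trans (hout' z₂ g1)))⟩
    obtain ⟨z₁, hz₁, hd₁⟩ := hleft
    obtain ⟨z₂, hz₂, hd₂⟩ := hright
    have hexp := R.exposure hG hz hout he hz₁ hz₂
    have htri : R.L - 6 * R.T ≤ R.dd v (la s l₀) (Sum.inl z₁) +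
        R.dd v (la s l₀) (hd l' q) + R.dd v (hd l' q) (Sum.inl z₂) := by
      have e1 := R.dd_tri v (Sum.inl z₁) (la s l₀) (Sum.inl z₂)
      have e2 := R.dd_tri v (la s l₀) (hd l' q) (Sum.inl z₂)
      rw [R.dd_comm v (Sum.inl z₁) (la s l₀)] at e1
      linarith
    refine ⟨l₀ ++ v :: l', ?_, ?_, ?_, ?_, ?_, ?_, ?_⟩
    · intro w hw
      rcases List.mem_append.mp hw with h | h
      · obtain ⟨z', g1, g2⟩ := j1 w h
        exact ⟨z', R.rel_mono hb.le g1, g2.trans hb⟩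
      · rcases List.mem_cons.mp h with rfl | h
        · exact hinv
        · obtain ⟨z', g1, g2⟩ := i1 w h
          exact ⟨z', R.rel_trans hrel g1, g2⟩
    · rw [con_append]
      exact ⟨j2, i2⟩
    · rw [tri_append]
      refine ⟨j3, ?_, i3⟩
      rcases hd₂ with h | h
      · linarith
      · linarith
    · intro v' hv' hsv'' hqv''
      rw [con_append]
      have hvne : v ≠ v' := by
        rintro rfl
        obtain ⟨z', g1, g2⟩ := hinv
        have := (hv' z' g1).1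
        omega
      constructor
      · refine j4 v' (fun z' hz' => ?_) hsv'' (fun h => hvne (Sum.inr.inj h))
        obtain ⟨g1, g2, g3⟩ := hv' z' (R.rel_mono hb.le hz')
        exact ⟨by omega, g2, by omega⟩
      · refine i4 v' (fun z' hz' => ?_) (fun h => hvne (Sum.inr.inj h)) hqv''
        obtain ⟨g1, g2, g3⟩ := hv' z' (R.rel_trans hrel hz')
        exact ⟨g1, by omega, g3⟩
    · intro hκT _ hTri
      rw [tri_append] at hTri
      have := hTri.2.1
      rcases hd₂ with h | h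
      · linarith
      · linarith
    · intro w l'' hl
      cases l₀ with
      | nil =>
        simp only [List.nil_append, List.cons.injEq] at hl
        obtain ⟨rfl, _⟩ := hl
        exact ⟨z₀, hz₀, haz₀.le⟩
      | cons w' l₀' =>
        simp only [List.cons_append, List.cons.injEq] at hl
        obtain ⟨rfl, _⟩ := hl
        obtain ⟨z', g1, g2⟩ := j1 w' (by simp)
        exact ⟨z', g1, g2.le⟩
    · intro hl
      simp at hl

lemma end_near {b : ℕ} {x : X} {p : X ⊕ Y} {zp : X} {β : ℕ} (hp : R.IsEnd b x p zp β) {v : Y}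
    (hv : β ≤ R.a zp v) (hpv : p ≠ Sum.inr v) : R.dd v p (Sum.inl zp) ≤ R.T := by
  have hT := R.hT
  cases p with
  | inl z =>
    rw [(hp.2.1 z rfl).1, dd_self]
    linarith
  | inr u =>
    refine R.near_dd (fun h => hpv (by rw [h])) ?_
    rw [(hp.2.2 u rfl).1]
    exact hv

lemma end_far {b : ℕ} {x : X} {p : X ⊕ Y} {zp : X} {β : ℕ} (hp : R.IsEnd b x p zp β) {v : Y}
    (hin : ∃ z, R.Rel b x z ∧ R.a z v < b) : 4 * R.dd v p (Sum.inl zp) ≤ 3 * R.L := by
  have hT := R.hT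
  have hL := R.hL
  cases p with
  | inl z =>
    rw [(hp.2.1 z rfl).1, dd_self]
    linarith
  | inr u =>
    obtain ⟨h1, h2, h3⟩ := hp.2.2 u rfl
    have hne : u ≠ v := by
      rintro rfl
      obtain ⟨z, g1, g2⟩ := hin
      have := h3 z g1
      omega
    rw [dd_comm]
    refine R.far u v hne zp (fun e => ?_)
    rw [h1]
    obtain ⟨z, g1, g2⟩ := hin
    refine h3 _ (R.rel_trans hp.1 ?_)
    exact R.rel_inside (R.rel_trans (R.rel_symm hp.1) g1) g2 e

lemma end_lower {b b₁ : ℕ} (hb : b₁ < b) {x : X} {p : X ⊕ Y} {zp : X} {β : ℕ}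
    (hp : R.IsEnd b x p zp β) : R.IsEnd b₁ zp p zp β := by
  refine ⟨R.rel_refl _ _, hp.2.1, fun u hu => ?_⟩
  obtain ⟨h1, h2, h3⟩ := hp.2.2 u hu
  exact ⟨h1, by omega, fun z hz => h3 z (R.rel_trans hp.1 (R.rel_mono hb.le hz))⟩

lemma end_out {b : ℕ} {x : X} {p : X ⊕ Y} {zp : X} {β : ℕ} (hp : R.IsEnd b x p zp β) (v : Y)
    (hin : ∃ z, R.Rel b x z ∧ R.a z v < b) : p ≠ Sum.inr v := by
  intro h
  obtain ⟨h1, h2, h3⟩ := hp.2.2 v h
  obtain ⟨z, g1, g2⟩ := hin
  have := h3 z g1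
  omega

/-- tolerance of an arbitrary end of the big class -/
lemma end_tol {b b₁ : ℕ} {x : X} {p : X ⊕ Y} {zp : X} {β : ℕ} (hp : R.IsEnd b x p zp β) :
    ∃ κ, 4 * κ ≤ 3 * R.L ∧ R.Tol b b₁ zp p κ ∧ ((∃ z, p = Sum.inl z) → κ ≤ R.T) := by
  have hT := R.hT
  have hL := R.hL
  cases p with
  | inl z =>
    refine ⟨0, by linarith, fun v _ _ _ => ⟨zp, R.rel_refl _ _, ?_⟩, fun _ => by linarith⟩
    rw [(hp.2.1 z rfl).1, dd_self]
  | inr u =>
    refine ⟨(3 * R.L) / 4, by omega, fun v hin _ _ => ⟨zp, R.rel_refl _ _, ?_⟩,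
      fun ⟨z, hz⟩ => by simp at hz⟩
    have := R.end_far hp (v := v) (by
      obtain ⟨z, g1, g2⟩ := hin
      exact ⟨z, R.rel_trans hp.1 g1, g2⟩)
    omega

theorem good_step (b : ℕ) (ih : ∀ b₁ < b, R.Good b₁) : R.Good b := by
  classical
  have hT := R.hT
  have hL := R.hL
  intro x p q zp zq βp βq hp hq hpq
  by_cases hzz : zp = zq
  · subst hzz
    refine ⟨[], by simp, hpq, trivial, ?_, ?_⟩
    · intro v hv hpv hqv
      obtain ⟨g1, g2, g3⟩ := hv zp hp.1
      have h1 := R.end_near hp g2 hpv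
      have h2 := R.end_near hq g3 hqv
      have h3 := R.dd_tri v p (Sum.inl zp) q
      rw [R.dd_comm v (Sum.inl zp) q] at h3
      show R.dd v p q ≤ 4 * R.T
      linarith
    · intro y y' hy hy' hne
      exact absurd ((hp.2.1 y hy).1.trans (hq.2.1 y' hy').1.symm) hne
  -- the level
  have hex : ∃ b', R.Rel b' zp zq := ⟨b, R.rel_trans (R.rel_symm hp.1) hq.1⟩
  obtain ⟨b₁, hb₁, hb, hnot⟩ : ∃ b₁, R.Rel (b₁ + 1) zp zq ∧ b₁ < b ∧ ¬ R.Rel b₁ zp zq := by
    have h0 : Nat.find hex ≠ 0 := by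
      intro h
      have := Nat.find_spec hex
      rw [h] at this
      exact hzz (R.rel_zero this)
    obtain ⟨b₁, hb₁⟩ := Nat.exists_eq_succ_of_ne_zero h0
    refine ⟨b₁, ?_, ?_, ?_⟩
    · have := Nat.find_spec hex
      rwa [hb₁] at this
    · have := Nat.find_min' hex (R.rel_trans (R.rel_symm hp.1) hq.1)
      omega
    · exact Nat.find_min hex (by omega)
  have hG := ih b₁ hb
  obtain ⟨o, hpth⟩ := R.exists_pth hb₁
  have hp1 := R.end_lower hb hp
  have hq1 := R.end_lower hb hq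
  obtain ⟨κ, hκ, hκt, hκp⟩ := R.end_tol (b₁ := b₁) hq
  have hqn : ∀ v, (∃ z, R.Rel b zp z ∧ R.a z v < b) → q ≠ Sum.inr v := fun v ⟨z, g1, g2⟩ =>
    R.end_out hq v ⟨z, R.rel_trans hp.1 g1, g2⟩
  have hpn : ∀ v, (∃ z, R.Rel b zp z ∧ R.a z v < b) → p ≠ Sum.inr v := fun v ⟨z, g1, g2⟩ =>
    R.end_out hp v ⟨z, R.rel_trans hp.1 g1, g2⟩
  cases hpth with
  | nil h => exact absurd h hnot
  | cons v o z e hz hout hmin he ho hpth =>
  have hfull : R.Pth b₁ (some v) zp zq := .cons v o z e hz hout hmin he ho hpth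
  obtain ⟨z₀, hz₀, haz₀⟩ := hmin
  have hinv : ∃ z, R.Rel b zp z ∧ R.a z v < b := ⟨z₀, R.rel_mono hb.le hz₀, by omega⟩
  cases p with
  | inl y₀ =>
    have hy₀ : y₀ = zp := (hp.2.1 y₀ rfl).1
    obtain ⟨l, i1, i2, i3, i4, i5, -, -⟩ := R.lemmaM hb hG hfull (Sum.inl y₀) zp βp q zq βq κ
      hp1 hq1 (by simp) (by simp) hqn (fun v' _ _ _ => ⟨zp, R.rel_refl _ _, by
        rw [hy₀, dd_self]; linarith⟩) hκt hκ
    refine ⟨l, ?_, i2, i3, ?_, ?_⟩
    · intro w hw
      obtain ⟨z', g1, g2⟩ := i1 w hw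
      exact ⟨z', R.rel_trans hp.1 g1, g2⟩
    · intro v' hv' h1 h2
      exact i4 v' (fun z' hz' => hv' z' (R.rel_trans hp.1 hz')) h1 h2
    · intro y y' _ hy' _
      exact i5 (hκp ⟨y', hy'⟩) (by simp)
  | inr u =>
    have hpv : (Sum.inr u : X ⊕ Y) ≠ Sum.inr v := hpn v hinv
    have hqv : q ≠ Sum.inr v := hqn v hinv
    have hrel : R.Rel b zp ((R.rot v ^ e) z) := by
      refine R.rel_trans (R.rel_mono hb.le hz) ?_
      refine R.rel_inside (z := z₀) ?_ (by omega) e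
      exact R.rel_mono hb.le (R.rel_trans (R.rel_symm hz) hz₀)
    have hout' := R.next_out e hz hout
    obtain ⟨z₀', hz₀', haz₀'⟩ := R.next_min e hz ⟨z₀, hz₀, haz₀⟩
    obtain ⟨l', i1, i2, i3, i4, i5, i6, i7⟩ := R.lemmaM hb hG hpth (Sum.inr v) z₀' b₁ q zq βq κ
      (R.isEnd_axis hout' hz₀' haz₀') hq1
      (fun v' hv' h => ho (by rw [hv', Sum.inr.inj h]))
      (fun _ u u' hu hu' h => hqv (by rw [hu', ← h, ← Sum.inr.inj hu]))
      (fun v' ⟨z', g1, g2⟩ => hqn v' ⟨z', R.rel_trans hrel g1, g2⟩)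
      (R.tol_axis ⟨z₀', hz₀', haz₀'.le⟩) hκt hκ
    obtain ⟨l₀, j1, j2, j3, j4, _⟩ := hG zp (Sum.inr u) (Sum.inr v) zp z₀ βp b₁ hp1
      (R.isEnd_axis hout hz₀ haz₀)
      (fun u' u'' hu hu' h => hpv (by rw [hu, h, ← Sum.inr.inj hu']))
    by_cases hsk : l₀ = [] ∧ l' = [] ∧ R.dd v (Sum.inr u) q < 5 * R.T
    · -- the skip case
      obtain ⟨-, hl', hlt⟩ := hsk
      refine ⟨[], by simp, hpq, trivial, ?_, fun y y' hy => by simp at hy⟩
      intro v' hv' hpv' hqv'
      have hvne : v ≠ v' := by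
        rintro rfl
        obtain ⟨z', g1, g2⟩ := hinv
        have := (hv' z' (R.rel_trans hp.1 g1)).1
        omega
      have hexp := R.exposure hG hz hout he (R.rel_refl b₁ zp) (i7 hl')
      have f1 := R.end_far hp (v := v) (by
        obtain ⟨z', g1, g2⟩ := hinv
        exact ⟨z', R.rel_trans hp.1 g1, g2⟩)
      have f2 := R.end_far hq (v := v) (by
        obtain ⟨z', g1, g2⟩ := hinv
        exact ⟨z', R.rel_trans hp.1 g1, g2⟩)
      have t1 := R.dd_tri v (Sum.inl zp) (Sum.inr u) (Sum.inl zq)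
      have t2 := R.dd_tri v (Sum.inr u) q (Sum.inl zq)
      rw [R.dd_comm v (Sum.inl zp) (Sum.inr u)] at t1
      have k1 : 2 * R.T < R.dd v (Sum.inr u) (Sum.inl zp) := by linarith
      have k2 : 2 * R.T < R.dd v q (Sum.inl zq) := by linarith
      have n1 : R.dd v' (Sum.inr u) (Sum.inl zp) ≤ R.T :=
        R.end_near hp (hv' zp hp.1).2.1 hpv'
      have n2 : R.dd v' q (Sum.inl zq) ≤ R.T := R.end_near hq (hv' zq hq.1).2.2 hqv'
      -- the general claim
      have claim : ∀ (r : X ⊕ Y) (zr : X), 2 * R.T < R.dd v r (Sum.inl zr) →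
          R.dd v' r (Sum.inl zr) ≤ R.T → R.dd v' r (Sum.inr v) ≤ 2 * R.T := by
        intro r zr c1 c2
        rcases R.beh v v' hvne (R.pt r) with h | h
        · have h' : R.dd v' r (Sum.inr v) ≤ R.T := h
          linarith
        · have h' : R.dd v r (Sum.inr v') ≤ R.T := h
          rcases R.beh v v' hvne zr with g | g
          · have g' : R.dd v' (Sum.inl zr) (Sum.inr v) ≤ R.T := g
            have := R.dd_tri v' r (Sum.inl zr) (Sum.inr v)
            linarith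
          · have g' : R.dd v (Sum.inl zr) (Sum.inr v') ≤ R.T := g
            have := R.dd_tri v r (Sum.inr v') (Sum.inl zr)
            rw [R.dd_comm v (Sum.inr v') (Sum.inl zr)] at this
            linarith
      have c1 := claim _ _ k1 n1
      have c2 := claim _ _ k2 n2
      have := R.dd_tri v' (Sum.inr u) (Sum.inr v) q
      rw [R.dd_comm v' (Sum.inr v) q] at this
      show R.dd v' (Sum.inr u) q ≤ 4 * R.T
      linarith
    · -- the main case
      have hleft : ∃ z₁, R.Rel b₁ zp z₁ ∧ 4 * R.dd v (la (Sum.inr u) l₀) (Sum.inl z₁) ≤ 3 * R.L ∧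
          (l₀ ≠ [] → R.dd v (la (Sum.inr u) l₀) (Sum.inl z₁) ≤ R.T) := by
        rcases eq_or_ne l₀ [] with rfl | hne
        · refine ⟨zp, R.rel_refl _ _, ?_, fun h => absurd rfl h⟩
          exact R.end_far hp (v := v) (by
            obtain ⟨z', g1, g2⟩ := hinv
            exact ⟨z', R.rel_trans hp.1 g1, g2⟩)
        · obtain ⟨w, hw, hla⟩ := la_mem l₀ (Sum.inr u) hne
          rw [hla]
          obtain ⟨z₁, g1, g2⟩ := j1 w hw
          have h3 := hout z₁ g1
          have h4 : R.dd v (Sum.inr w) (Sum.inl z₁) ≤ R.T := by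
            refine R.near_dd ?_ (by omega)
            rintro rfl
            omega
          exact ⟨z₁, g1, by linarith, fun _ => h4⟩
      have hright : ∃ z₂, R.Rel b₁ ((R.rot v ^ e) z) z₂ ∧
          4 * R.dd v (hd l' q) (Sum.inl z₂) ≤ 3 * R.L ∧
          (l' ≠ [] → R.dd v (hd l' q) (Sum.inl z₂) ≤ R.T) := by
        cases l' with
        | nil =>
          refine ⟨zq, i7 rfl, ?_, fun h => absurd rfl h⟩
          exact R.end_far hq (v := v) (by
            obtain ⟨z', g1, g2⟩ := hinv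
            exact ⟨z', R.rel_trans hp.1 g1, g2⟩)
        | cons w l'' =>
          obtain ⟨z₂, g1, g2⟩ := i6 w l'' rfl
          have hne : w ≠ v := fun h => i2.1 v w rfl rfl h.symm
          have h4 : R.dd v (Sum.inr w) (Sum.inl z₂) ≤ R.T := R.near_dd hne (g2.trans (hout' z₂ g1))
          exact ⟨z₂, g1, by simp only [hd]; linarith, fun _ => h4⟩
      obtain ⟨z₁, hz₁, hd₁, hd₁'⟩ := hleft
      obtain ⟨z₂, hz₂, hd₂, hd₂'⟩ := hright
      have hexp := R.exposure hG hz hout he hz₁ hz₂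
      have htri : R.L - 6 * R.T ≤ R.dd v (la (Sum.inr u) l₀) (Sum.inl z₁) +
          R.dd v (la (Sum.inr u) l₀) (hd l' q) + R.dd v (hd l' q) (Sum.inl z₂) := by
        have e1 := R.dd_tri v (Sum.inl z₁) (la (Sum.inr u) l₀) (Sum.inl z₂)
        have e2 := R.dd_tri v (la (Sum.inr u) l₀) (hd l' q) (Sum.inl z₂)
        rw [R.dd_comm v (Sum.inl z₁) (la (Sum.inr u) l₀)] at e1
        linarith
      refine ⟨l₀ ++ v :: l', ?_, ?_, ?_, ?_, fun y y' hy => by simp at hy⟩
      · intro w hw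
        rcases List.mem_append.mp hw with h | h
        · obtain ⟨z', g1, g2⟩ := j1 w h
          exact ⟨z', R.rel_trans hp.1 (R.rel_mono hb.le g1), g2.trans hb⟩
        · rcases List.mem_cons.mp h with rfl | h
          · obtain ⟨z', g1, g2⟩ := hinv
            exact ⟨z', R.rel_trans hp.1 g1, g2⟩
          · obtain ⟨z', g1, g2⟩ := i1 w h
            exact ⟨z', R.rel_trans hp.1 (R.rel_trans hrel g1), g2⟩
      · rw [con_append]
        exact ⟨j2, i2⟩
      · rw [tri_append]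
        refine ⟨j3, ?_, i3⟩
        rcases eq_or_ne l₀ [] with hl₀ | hl₀
        · rcases eq_or_ne l' [] with hl' | hl'
          · subst hl₀ hl'
            simp only [true_and, not_lt] at hsk
            exact hsk
          · have := hd₂' hl'
            linarith
        · have := hd₁' hl₀
          linarith
      · intro v' hv' hpv' hqv'
        rw [con_append]
        have hvne : v ≠ v' := by
          rintro rfl
          obtain ⟨z', g1, g2⟩ := hinv
          have := (hv' z' (R.rel_trans hp.1 g1)).1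
          omega
        constructor
        · refine j4 v' (fun z' hz' => ?_) hpv' (fun h => hvne (Sum.inr.inj h))
          obtain ⟨g1, g2, g3⟩ := hv' z' (R.rel_trans hp.1 (R.rel_mono hb.le hz'))
          exact ⟨by omega, g2, by omega⟩
        · refine i4 v' (fun z' hz' => ?_) (fun h => hvne (Sum.inr.inj h)) hqv'
          obtain ⟨g1, g2, g3⟩ := hv' z' (R.rel_trans hp.1 (R.rel_trans hrel hz'))
          exact ⟨g1, by omega, g3⟩

theorem good (b : ℕ) : R.Good b := by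
  induction b using Nat.strong_induction_on with
  | _ b ih => exact R.good_step b ih

/-- **Greendlinger type lemma.** -/
theorem greendlinger {x y : X}
    (h : Relation.ReflTransGen (fun x y => ∃ (v : Y) (e : ℤ), y = (R.rot v ^ e) x) x y)
    (hne : x ≠ y) : ∃ w, R.L - 10 * R.T ≤ |R.pos w x - R.pos w y| := by
  have hrel : ∃ b, R.Rel b x y := by
    clear hne
    induction h with
    | refl => exact ⟨0, R.rel_refl _ _⟩
    | @tail y z _ h ih =>
      obtain ⟨b, hb⟩ := ih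
      obtain ⟨v, e, rfl⟩ := h
      refine ⟨max b (R.a y v + 1), R.rel_trans (R.rel_mono (le_max_left _ _) hb) ?_⟩
      exact Relation.ReflTransGen.single ⟨v, e, lt_of_lt_of_le (Nat.lt_succ_self _)
        (le_max_right _ _), rfl⟩
  obtain ⟨b, hb⟩ := hrel
  obtain ⟨l, -, h2, h3, -, h5⟩ := R.good b x (Sum.inl x) (Sum.inl y) x y 0 0
    ⟨R.rel_refl _ _, fun z hz => ⟨(Sum.inl.inj hz).symm, rfl⟩, fun u hu => by simp at hu⟩
    ⟨hb, fun z hz => ⟨(Sum.inl.inj hz).symm, rfl⟩, fun u hu => by simp at hu⟩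
    (fun u v hu => by simp at hu)
  by_contra hcon
  push Not at hcon
  refine h5 x y rfl rfl hne ?_
  refine tri_mono ?_ _ l _ (R.lg _ _ l h2 h3)
  intro s v t ⟨h6, h7⟩
  have h8 : R.dd v (Sum.inl x) (Sum.inl y) < R.L - 10 * R.T := hcon v
  have e1 := R.dd_tri v s (Sum.inl x) t
  have e2 := R.dd_tri v (Sum.inl x) (Sum.inl y) t
  rw [R.dd_comm v s (Sum.inl x)] at e1
  linarith

end RotSys

end Pool.Agent.TD
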