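import Pool.Agent.TD.Trap
import Pool.Agent.TD.Free

/-!
# Module STEP: stages and the steps T1, T2, T3.  Blueprint section 18.
-/

set_option autoImplicit false

namespace TD

/-- A stage of the construction. -/
structure Stage (n : ℕ) where
  G : Type
  [grp : Group G]
  d : G → G → ℕ
  δ : ℕ
  hG : IsHG d δ
  tf : TF G
  H : ℕ → Subgroup G
  H_zero : H 0 = ⊥
  H_large : ∀ k, n < k → H k = ⊥
  qc : ∀ k, ∃ κ, QC d κ (H k : Set G)
  ff : ∀ k, FF (H k) k
  c : ℕ → G
  sep : ∀ j k, j ≤ n → j < k → Sep (Subgroup.zpowers (c j)) (H k)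

attribute [instance] Stage.grp

/-- A map from a stage to the next one. -/
structure StageHom {n : ℕ} (A : Stage n) (B : Stage (n + 1)) where
  φ : A.G →* B.G
  mapH : ∀ k, (A.H k).map φ ≤ B.H k
  mapc : ∀ j, j ≤ n → φ (A.c j) = B.c j
  c_ne : ∀ j, j ≤ n → A.c j ≠ 1 → B.c j ≠ 1

section aux

variable {G : Type} [Group G]

theorem qc_bot {d : G → G → ℕ} {δ : ℕ} (hG : IsHG d δ) :
    ∃ κ, QC d κ ((⊥ : Subgroup G) : Set G) := by
  refine ⟨0, ?_⟩
  intro a ha b hb p
  have ha' : a = 1 := by simpa using ha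
  have hb' : b = 1 := by simpa using hb
  subst ha' hb'
  refine ⟨1, by simp, ?_⟩
  have h1 := hG.self 1
  have h2 := hG.symm 1 p
  omega

theorem ff_bot (k : ℕ) : FF (⊥ : Subgroup G) k := by
  intro g hg x hx
  exfalso
  have h := hx 0
  rw [Subgroup.mem_bot] at h
  apply hg
  have : g = x 0 * ((x 0)⁻¹ * g * x 0) * (x 0)⁻¹ := by group
  rw [this, h]; group

theorem sep_bot (U : Subgroup G) : Sep U (⊥ : Subgroup G) := by
  intro x h _ hx
  rw [Subgroup.mem_bot] at hx
  have : h = x⁻¹ * (x * h * x⁻¹) * x := by group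
  rw [this, hx]; group

end aux

/-- Stage zero: the infinite cyclic group. -/
theorem exists_stage_zero : ∃ A : Stage 0, A.c 0 ≠ 1 := by
  have hG : IsHG (G := Multiplicative ℤ)
      (fun x y => (Multiplicative.toAdd x - Multiplicative.toAdd y).natAbs) 0 := by
    refine { self := ?_, eq_of := ?_, symm := ?_, tri := ?_, step := ?_, inv := ?_, fin := ?_,
             hyp := ?_ }
    · intro x; simp
    · intro x y h
      apply Multiplicative.toAdd.injective
      omega
    · intro x y; omega
    · intro x y z; omega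
    · intro x y n h
      rcases le_or_gt (Multiplicative.toAdd x) (Multiplicative.toAdd y) with hxy | hxy
      · refine ⟨Multiplicative.ofAdd (Multiplicative.toAdd x + 1), ?_, ?_⟩ <;>
        · simp only [toAdd_ofAdd]; omega
      · refine ⟨Multiplicative.ofAdd (Multiplicative.toAdd x - 1), ?_, ?_⟩ <;>
        · simp only [toAdd_ofAdd]; omega
    · intro g x y
      simp only [toAdd_mul]
      congr 1
      ring
    · apply Set.Finite.subset
        (s := Multiplicative.ofAdd '' (Set.Icc (-1 : ℤ) 1)) ((Set.finite_Icc _ _).image _)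
      intro g hg
      refine ⟨Multiplicative.toAdd g, ?_, by simp⟩
      simp only [Set.mem_ofPred_eq, toAdd_one] at hg
      simp only [Set.mem_Icc]
      omega
    · intro x y z w
      simp only
      omega
  have tf : TF (Multiplicative ℤ) := by
    intro g n hn h
    apply Multiplicative.toAdd.injective
    have h2 := congrArg Multiplicative.toAdd h
    simp only [toAdd_pow, toAdd_one, nsmul_eq_mul, mul_eq_zero] at h2
    rcases h2 with h2 | h2
    · exact absurd (by exact_mod_cast h2) hn
    · simpa using h2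
  refine ⟨{ G := Multiplicative ℤ, d := _, δ := 0, hG := hG, tf := tf, H := fun _ => ⊥,
            H_zero := rfl, H_large := fun _ _ => rfl, qc := fun _ => qc_bot hG,
            ff := fun k => ff_bot k, c := fun _ => Multiplicative.ofAdd 1,
            sep := fun _ _ _ _ => sep_bot _ }, ?_⟩
  change Multiplicative.ofAdd (1 : ℤ) ≠ 1
  intro h
  have h2 := congrArg Multiplicative.toAdd h
  simp at h2

/-- T3 only: nothing happens except that a new element is recorded. -/
theorem step_trivial {n : ℕ} (A : Stage n) (cn : A.G) :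
    ∃ (B : Stage (n + 1)) (f : StageHom A B), B.c (n + 1) = f.φ cn := by
  refine ⟨{ G := A.G, d := A.d, δ := A.δ, hG := A.hG, tf := A.tf, H := A.H, H_zero := A.H_zero,
            H_large := fun k hk => A.H_large k (by omega), qc := A.qc, ff := A.ff,
            c := fun j => if j = n + 1 then cn else A.c j,
            sep := ?_ },
    { φ := MonoidHom.id A.G, mapH := ?_, mapc := ?_, c_ne := ?_ }, ?_⟩
  · intro j k hj hjk
    by_cases h : j = n + 1
    · rw [A.H_large k (by omega)]
      exact sep_bot _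
    · simp only [h, if_false]
      exact A.sep j k (by omega) hjk
  · intro k
    change (A.H k).map (MonoidHom.id A.G) ≤ A.H k
    rw [Subgroup.map_id]
  · intro j hj
    change A.c j = if j = n + 1 then cn else A.c j
    rw [if_neg (by omega)]
  · intro j hj h
    change (if j = n + 1 then cn else A.c j) ≠ 1
    rw [if_neg (by omega)]
    exact h
  · change (if n + 1 = n + 1 then cn else A.c (n + 1)) = cn
    rw [if_pos rfl]

/-- T1 (and T3). -/
theorem step_trap {n : ℕ} (A : Stage n) (S : Finset A.G) (a cn : A.G) :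
    ∃ (B : Stage (n + 1)) (f : StageHom A B), B.c (n + 1) = f.φ cn ∧
      (NonAb (Subgroup.closure (S : Set A.G)) →
        (∀ k, 1 ≤ k → k ≤ n → NoFin (Subgroup.closure (S : Set A.G)) (A.H k)) →
        f.φ a ∈ (Subgroup.closure (S : Set A.G)).map f.φ) := by
  by_cases hyp : NonAb (Subgroup.closure (S : Set A.G)) ∧
      (∀ k, 1 ≤ k → k ≤ n → NoFin (Subgroup.closure (S : Set A.G)) (A.H k))
  swap
  · obtain ⟨B, f, hc⟩ := step_trivial A cn
    exact ⟨B, f, hc, fun h1 h2 => absurd ⟨h1, h2⟩ hyp⟩
  obtain ⟨hU, hn⟩ := hyp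
  classical
  choose κz hκz using fun j : ℕ => zpowers_ff A.hG A.tf (A.c j)
  -- the family
  let ι := Fin n ⊕ Fin (n + 1)
  let K : ι → Subgroup A.G := fun i =>
    Sum.elim (fun i : Fin n => A.H (i + 1)) (fun j : Fin (n + 1) => Subgroup.zpowers (A.c j)) i
  let kk : ι → ℕ := fun i => Sum.elim (fun i : Fin n => (i : ℕ) + 1) (fun j : Fin (n + 1) => κz j) i
  have hq : ∀ i, ∃ κ, QC A.d κ (K i : Set A.G) := by
    rintro (i | j)
    · exact A.qc (i + 1)
    · exact zpowers_qc A.hG A.tf (A.c j)
  have hf : ∀ i, FF (K i) (kk i) := by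
    rintro (i | j)
    · exact A.ff (i + 1)
    · exact hκz j
  have hno : ∀ i, NoFin (Subgroup.closure (S : Set A.G)) (K i) := by
    rintro (i | j)
    · exact hn (i + 1) (by omega) (by omega)
    · exact zpowers_noFin A.hG A.tf (A.c j) hU
  obtain ⟨G', _, φ, hφ, hF, ⟨u, hu, hau⟩, ⟨d', δ', hG', hq'⟩, tf', hf', hsep'⟩ :=
    trap A.hG A.tf K hq kk hf hU hno a ((Finset.range (n + 1)).image A.c)
  have hbot : ∀ k, (k = 0 ∨ n < k) → (A.H k).map φ = ⊥ := by
    intro k hk
    have : A.H k = ⊥ := by
      rcases hk with rfl | hk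
      · exact A.H_zero
      · exact A.H_large k hk
    rw [this, Subgroup.map_bot]
  refine ⟨{ G := G', d := d', δ := δ', hG := hG', tf := tf', H := fun k => (A.H k).map φ,
            H_zero := hbot 0 (Or.inl rfl), H_large := fun k hk => hbot k (Or.inr (by omega)),
            qc := ?_, ff := ?_, c := fun j => if j = n + 1 then φ cn else φ (A.c j), sep := ?_ },
    { φ := φ, mapH := fun k => le_refl _, mapc := ?_, c_ne := ?_ }, ?_, ?_⟩
  · intro k
    by_cases hk : k = 0 ∨ n < k
    · rw [hbot k hk]; exact qc_bot hG'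
    · obtain ⟨κ, h⟩ := hq' (Sum.inl ⟨k - 1, by omega⟩)
      refine ⟨κ, ?_⟩
      have e : k - 1 + 1 = k := by omega
      simp only [K, Sum.elim_inl, e] at h
      exact h
  · intro k
    by_cases hk : k = 0 ∨ n < k
    · rw [hbot k hk]; exact ff_bot k
    · have h := hf' (Sum.inl ⟨k - 1, by omega⟩)
      have e : k - 1 + 1 = k := by omega
      simp only [K, kk, Sum.elim_inl, e] at h
      exact h
  · intro j k hj hjk
    by_cases hk : n < k
    · rw [hbot k (Or.inr hk)]; exact sep_bot _
    · have hj' : j ≠ n + 1 := by omega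
      simp only [hj', if_false]
      have h := hsep' (Sum.inr ⟨j, by omega⟩) (Sum.inl ⟨k - 1, by omega⟩)
      have e : k - 1 + 1 = k := by omega
      simp only [K, Sum.elim_inl, Sum.elim_inr, e, MonoidHom.map_zpowers] at h
      exact h (A.sep j k (by omega) hjk)
  · intro j hj
    change φ (A.c j) = if j = n + 1 then φ cn else φ (A.c j)
    rw [if_neg (by omega)]
  · intro j hj h
    change (if j = n + 1 then φ cn else φ (A.c j)) ≠ 1
    rw [if_neg (by omega)]
    intro h2
    apply h
    apply hF (A.c j) _ h2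
    rw [Finset.mem_image]
    exact ⟨j, Finset.mem_range.mpr (by omega), rfl⟩
  · change (if n + 1 = n + 1 then φ cn else φ (A.c (n + 1))) = φ cn
    rw [if_pos rfl]
  · intro _ _
    exact ⟨u, hu, hau.symm⟩

/-- T2 (and T3). -/
theorem step_trans {n : ℕ} (A : Stage n) {k : ℕ} (hk : 1 ≤ k) (hkn : k ≤ n) (x y : Fin k → A.G)
    (hx : ∀ i j, i ≠ j → (x i)⁻¹ * x j ∉ A.H k) (hy : ∀ i j, i ≠ j → (y i)⁻¹ * y j ∉ A.H k)
    (cn : A.G) :
    ∃ (B : Stage (n + 1)) (f : StageHom A B), B.c (n + 1) = f.φ cn ∧
      ∃ t : B.G, ∀ i, (f.φ (y i))⁻¹ * t * f.φ (x i) ∈ B.H k := by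
  obtain ⟨κ, hq⟩ := A.qc k
  obtain ⟨G', _, φ, t, d', δ', H0', hφ, hG', tf', hle, hq0, hff0, ht, hq', hf', hsep0, hsep'⟩ :=
    free_step A.hG A.tf (A.H k) hq (A.ff k) (le_refl k) x y hx hy
  classical
  let H' : ℕ → Subgroup G' := fun i => if i = k then H0' else (A.H i).map φ
  have hk1 : H' k = H0' := if_pos rfl
  have hk2 : ∀ i, i ≠ k → H' i = (A.H i).map φ := fun i hi => if_neg hi
  refine ⟨{ G := G', d := d', δ := δ', hG := hG', tf := tf', H := H',
            H_zero := ?_, H_large := ?_,
            qc := ?_, ff := ?_, c := fun j => if j = n + 1 then φ cn else φ (A.c j), sep := ?_ },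
    { φ := φ, mapH := ?_, mapc := ?_, c_ne := ?_ }, ?_, t, ?_⟩
  · rw [hk2 0 (by omega), A.H_zero, Subgroup.map_bot]
  · intro i hi
    rw [hk2 i (by omega), A.H_large i (by omega), Subgroup.map_bot]
  · intro i
    by_cases h : i = k
    · rw [h, hk1]; exact hq0
    · rw [hk2 i h]; exact hq' _ (A.qc i)
  · intro i
    by_cases h : i = k
    · rw [h, hk1]; exact hff0
    · rw [hk2 i h]; exact hf' _ _ (A.ff i)
  · intro j i hj hji
    by_cases h : n < i
    · rw [hk2 i (by omega), A.H_large i h, Subgroup.map_bot]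
      exact sep_bot _
    · have hj' : j ≠ n + 1 := by omega
      simp only [hj', if_false]
      have h1 := A.sep j i (by omega) hji
      rw [← MonoidHom.map_zpowers]
      by_cases h2 : i = k
      · rw [h2, hk1]
        rw [h2] at h1
        exact hsep0 _ h1
      · rw [hk2 i h2]
        exact hsep' _ _ h1
  · intro i
    by_cases h : i = k
    · change (A.H i).map φ ≤ H' i
      rw [h, hk1]; exact hle
    · change (A.H i).map φ ≤ H' i
      rw [hk2 i h]
  · intro j hj
    change φ (A.c j) = if j = n + 1 then φ cn else φ (A.c j)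
    rw [if_neg (by omega)]
  · intro j hj h
    change (if j = n + 1 then φ cn else φ (A.c j)) ≠ 1
    rw [if_neg (by omega)]
    intro h2
    apply h
    apply hφ
    rw [h2, map_one]
  · change (if n + 1 = n + 1 then φ cn else φ (A.c (n + 1))) = φ cn
    rw [if_pos rfl]
  · intro i
    change (φ (y i))⁻¹ * t * φ (x i) ∈ H' k
    rw [hk1]
    exact ht i

end TD
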