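import Pool.Agent.TD.Axis
import Pool.Agent.TD.Broken

/-!
# Auxiliary lemmas for module TORS: geodesic paths and the periodic path of an element.
-/

set_option autoImplicit false

namespace TD

section path

variable {X : Type*} {d : X → X → ℕ} {δ : ℕ}

theorem geo_path_aux (hm : IsGM d) : ∀ (n : ℕ) (x y : X), d x y = n →
    ∃ q : ℕ → X, q 0 = x ∧ q n = y ∧ ∀ s, s < n → d (q s) (q (s + 1)) ≤ 1 := by
  intro n
  induction n with
  | zero =>
    intro x y h
    have := hm.eq_of x y h
    subst this
    exact ⟨fun _ => x, rfl, rfl, fun s hs => absurd hs (by omega)⟩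
  | succ n ih =>
    intro x y h
    obtain ⟨z, h1, h2⟩ := hm.step x y n h
    obtain ⟨q, hq0, hqn, hq⟩ := ih z y h2
    refine ⟨fun s => if s = 0 then x else q (s - 1), by simp, by simp [hqn], ?_⟩
    intro s hs
    rcases Nat.eq_zero_or_pos s with h0 | h0
    · subst h0
      simp [hq0, h1]
    · obtain ⟨j, rfl⟩ : ∃ j, s = j + 1 := ⟨s - 1, by omega⟩
      have := hq j (by omega)
      simpa using this

theorem path_lip (hm : IsGM d) (q : ℕ → X) (n : ℕ) (hq : ∀ s, s < n → d (q s) (q (s + 1)) ≤ 1) :
    ∀ (k s : ℕ), s + k ≤ n → d (q s) (q (s + k)) ≤ k := by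
  intro k
  induction k with
  | zero => intro s _; simp [hm.self]
  | succ k ih =>
    intro s hs
    have h1 := ih s (by omega)
    have h2 := hq (s + k) (by omega)
    have h3 := hm.tri (q s) (q (s + k)) (q (s + k + 1))
    have h4 : s + (k + 1) = s + k + 1 := by ring
    rw [h4]
    omega

theorem geo_path (hm : IsGM d) (x y : X) :
    ∃ q : ℕ → X, q 0 = x ∧ q (d x y) = y ∧
      ∀ s t, s ≤ t → t ≤ d x y → d (q s) (q t) = t - s := by
  obtain ⟨q, hq0, hqn, hq⟩ := geo_path_aux hm (d x y) x y rfl
  refine ⟨q, hq0, hqn, ?_⟩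
  intro s t hst ht
  have h1 := path_lip hm q _ hq s 0 (by omega)
  have h2 := path_lip hm q _ hq (t - s) s (by omega)
  have h3 := path_lip hm q _ hq (d x y - t) t (by omega)
  have e1 : 0 + s = s := by omega
  have e2 : s + (t - s) = t := by omega
  have e3 : t + (d x y - t) = d x y := by omega
  rw [e1, hq0] at h1
  rw [e2] at h2
  rw [e3, hqn] at h3
  have h4 := hm.tri x (q s) y
  have h5 := hm.tri (q s) (q t) y
  omega

end path

variable {G : Type*} [Group G] {d : G → G → ℕ} {δ : ℕ}

/-- The periodic path of an element `x` with `4 δ < |x|` and `2 |x| ≤ |x ^ 2| + 2 δ`. -/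
theorem periodic_path (hG : IsHG d δ) (x : G) (hx : 4 * δ < d 1 x)
    (h2 : 2 * d 1 x ≤ d 1 (x * x) + 2 * δ) :
    ∃ P : ℤ → G, P 0 = 1 ∧ (∀ s, P (s + d 1 x) = x * P s) ∧ (∀ s, d (P s) (P (s + 1)) ≤ 1) ∧
      ∀ s u t, s ≤ u → u ≤ t → Btw d (8 * δ) (P s) (P t) (P u) := by
  obtain ⟨D, hD⟩ : ∃ D : ℕ, D = d 1 x := ⟨_, rfl⟩
  obtain ⟨q, hq0, hqD, hq⟩ := geo_path hG.toIsGM 1 x
  rw [← hD] at hqD hq hx h2 ⊢
  have hDpos : (0 : ℤ) < D := by omega
  let P : ℤ → G := fun s => x ^ (s / (D : ℤ)) * q (s % (D : ℤ)).toNat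
  have hP : ∀ i s : ℤ, i * D ≤ s → s ≤ (i + 1) * D → P s = x ^ i * q (s - i * D).toNat := by
    intro i s h3 h4
    rcases lt_or_eq_of_le h4 with h5 | h5
    · have e1 : s / (D : ℤ) = i := by
        rw [Int.ediv_eq_iff_of_pos hDpos]
        have e : (i + 1) * (D : ℤ) = i * D + D := by ring
        constructor
        · exact h3
        · rw [← e]; exact h5
      have e2 : s % (D : ℤ) = s - i * D := by
        have := Int.emod_add_mul_ediv s D
        rw [e1] at this
        linarith
      simp only [P, e1, e2]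
    · have e1 : s / (D : ℤ) = i + 1 := by
        rw [h5]; exact Int.mul_ediv_cancel _ (by omega)
      have e2 : s % (D : ℤ) = 0 := by
        rw [h5]; exact Int.mul_emod_left _ _
      have e3 : (s - i * D).toNat = D := by
        have : s - i * D = D := by rw [h5]; ring
        rw [this]; simp
      simp only [P, e1, e2, e3, hqD, Int.toNat_zero, hq0, mul_one]
      rw [zpow_add_one]
  have hgeo : ∀ i s t : ℤ, i * D ≤ s → s ≤ t → t ≤ (i + 1) * D →
      (d (P s) (P t) : ℤ) = t - s := by
    intro i s t h3 h4 h5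
    rw [hP i s h3 (by omega), hP i t (by omega) h5, hG.inv]
    have e : (i + 1) * (D : ℤ) = i * D + D := by ring
    rw [hq _ _ (by omega) (by omega)]
    omega
  have hPi : ∀ i : ℤ, P (i * D) = x ^ i := by
    intro i
    rw [hP i (i * D) le_rfl (by nlinarith)]
    simp [hq0]
  refine ⟨P, ?_, ?_, ?_, ?_⟩
  · have := hPi 0
    simpa using this
  · intro s
    have e1 : (s + (D : ℤ)) / (D : ℤ) = s / D + 1 := by
      rw [Int.add_ediv_of_dvd_right (dvd_refl _), Int.ediv_self (by omega)]
    have e2 : (s + (D : ℤ)) % (D : ℤ) = s % D := by simp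
    simp only [P, e1, e2]
    rw [zpow_add_one, ← mul_assoc]
    congr 1
    exact ((Commute.refl x).zpow_right _).eq.symm
  · intro s
    have h3 : (s / (D : ℤ)) * D ≤ s := Int.ediv_mul_le s (by omega)
    have h4 : s < (s / (D : ℤ) + 1) * D := Int.lt_ediv_add_one_mul_self s hDpos
    have := hgeo (s / (D : ℤ)) s (s + 1) h3 (by omega) (by omega)
    omega
  · intro s u t hsu hut
    have key := broken_path hG.toIsGM hG.hyp (c := 2 * δ) P (fun i => i * D)
      (by intro i; push_cast; nlinarith) (fun i s t => hgeo i s t)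
      (by
        intro i
        rw [hPi, hPi, hPi]
        have e1 : d (x ^ (i - 1)) (x ^ i) = D := by
          have := hG.inv (x ^ (i - 1)) 1 x
          rw [mul_one, ← zpow_add_one] at this
          rw [hD, ← this]
          congr 2
          ring
        have e2 : d (x ^ i) (x ^ (i + 1)) = D := by
          have := hG.inv (x ^ i) 1 x
          rw [mul_one, ← zpow_add_one] at this
          rw [hD, ← this]
        have e3 : d (x ^ (i - 1)) (x ^ (i + 1)) = d 1 (x * x) := by
          have := hG.inv (x ^ (i - 1)) 1 (x * x)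
          rw [mul_one] at this
          rw [← this]
          congr 1
          have e4 : x * x = x ^ (2 : ℤ) := by rw [zpow_ofNat, pow_two]
          rw [e4, ← zpow_add]
          congr 1
          ring
        unfold Btw
        omega) s u t hsu hut
    exact key.mono (by omega)

end TD
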