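import Pool.Agent.TD.Axis
import Pool.Agent.TD.Broken
import Pool.Agent.TD.TorsAux

/-!
# Module TORS: the quotient is torsion-free.  Blueprint section 11.
-/

set_option autoImplicit false

namespace TD

variable {G : Type*} [Group G] {d : G → G → ℕ} {δ : ℕ} {r : G} {γ : ℤ → G} {L θ c : ℕ}

/-- Translate of an axis. -/
theorem gam_translate (hS : SC d r γ L θ c) (g : G) (v : Ax r) :
    ∃ e : ℤ, ∀ s, g * gam γ v s = gam γ (g • v) (s + e * L) := by
  have h1 : ((g • v).out : G ⧸ Subgroup.zpowers r) = ((g * v.out : G) : G ⧸ Subgroup.zpowers r) := by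
    rw [QuotientGroup.out_eq']
    conv_lhs => rw [← QuotientGroup.out_eq' v]
    rfl
  rw [QuotientGroup.eq, Subgroup.mem_zpowers_iff] at h1
  obtain ⟨e, he⟩ := h1
  refine ⟨e, fun s => ?_⟩
  have h2 := rho_gam hS (g • v) e s
  rw [← h2]
  have h3 : rho (g • v) ^ e = (g • v).out * r ^ e * (g • v).out⁻¹ := by
    unfold rho
    exact conj_zpow
  rw [h3, he]
  unfold gam
  group

/-- Displacement estimate T1. -/
theorem tors_T1 (hG : IsHG d δ) (x : G) (hx : 4 * δ + 1 < d 1 x)
    (hmin : ∀ y, d 1 x ≤ d y (x * y)) : 2 * d 1 x ≤ d 1 (x * x) + 2 * δ := by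
  obtain ⟨y, hy1, hy2⟩ := hG.toIsGM.exists_between 1 x (d 1 x / 2) (by omega)
  have h1 := hmin y
  have h2 := hG.hyp y x (x * y) 1
  have h3 := hG.hyp 1 x (x * y) (x * x)
  have e1 : d x (x * y) = d 1 y := by simpa using hG.inv x 1 y
  have e2 : d (x * y) (x * x) = d y x := hG.inv x y x
  have e3 : d x (x * x) = d 1 x := by simpa using hG.inv x 1 x
  have e4 := hG.symm x 1
  have e5 := hG.symm y 1
  have e6 := hG.symm (x * y) 1
  have e7 := hG.symm y x
  omega

theorem quot_tf (hG : IsHG d δ) (tf : TF G) (hS : SC d r γ L θ c)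
    (hθ : 1000 * (δ + c + 1) ≤ θ) (hL : 1000 * θ ≤ L)
    (hx : ∀ x : G, d 1 x ≤ 4 * δ + 1 → SmallOn d γ θ (Subgroup.zpowers x)) :
    TF (G ⧸ NN r) := by
  classical
  intro g p hp hgp
  by_contra hg1
  have hL0 : 0 < L := by omega
  -- choose a minimal counterexample
  have hex : ∃ n : ℕ, ∃ x : G, x ∉ NN r ∧ x ^ p ∈ NN r ∧ d 1 x = n := by
    obtain ⟨x, rfl⟩ := QuotientGroup.mk_surjective g
    refine ⟨d 1 x, x, ?_, ?_, rfl⟩
    · intro h
      exact hg1 ((QuotientGroup.eq_one_iff x).mpr h)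
    · rw [← QuotientGroup.eq_one_iff]
      simpa using hgp
  obtain ⟨x, hxN, hxp, hxn⟩ := Nat.find_spec hex
  have hmin0 : ∀ x' : G, x' ∉ NN r → x' ^ p ∈ NN r → d 1 x ≤ d 1 x' := by
    intro x' h1 h2
    rw [hxn]
    exact Nat.find_min' hex ⟨x', h1, h2, rfl⟩
  have hmin : ∀ n ∈ NN r, ∀ y : G, d 1 x ≤ d y (n * (x * y)) := by
    intro n hn y
    have hnn : (NN r).Normal := Subgroup.normalClosure_normal
    have h1 : y⁻¹ * (n * x) * y ∉ NN r := by
      intro h
      have h2 := hnn.conj_mem _ h y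
      have h3 : y * (y⁻¹ * (n * x) * y) * y⁻¹ = n * x := by group
      rw [h3] at h2
      exact hxN ((Subgroup.mul_mem_cancel_left _ hn).mp h2)
    have h2 : (y⁻¹ * (n * x) * y) ^ p ∈ NN r := by
      have h3 : (y⁻¹ * (n * x) * y) ^ p = y⁻¹ * (n * x) ^ p * y := by
        have := @conj_pow G _ p y⁻¹ (n * x)
        simpa using this
      rw [h3]
      have h4 : (n * x) ^ p ∈ NN r := by
        rw [← QuotientGroup.eq_one_iff] at hxp hn ⊢
        rw [QuotientGroup.mk_pow, QuotientGroup.mk_mul, hn, one_mul, ← QuotientGroup.mk_pow]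
        exact hxp
      have := hnn.conj_mem _ h4 y⁻¹
      simpa using this
    have h5 := hmin0 _ h1 h2
    have h6 := hG.inv y 1 (y⁻¹ * (n * x) * y)
    have h7 : y * (y⁻¹ * (n * x) * y) = n * (x * y) := by group
    rw [h7, mul_one] at h6
    rw [h6]
    exact h5
  have hx1 : x ^ p ≠ 1 := by
    intro h
    have := tf x p hp h
    rw [this] at hxN
    exact hxN (one_mem _)
  obtain ⟨v, hv⟩ := ax_gl hG hS hθ hL hxp hx1 1
  rw [mul_one] at hv
  rcases Nat.lt_or_ge (4 * δ + 1) (d 1 x) with hlong | hshort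
  swap
  · have h1 := ax_small_on hG hL0 hS (hx x hshort) v 1 (x ^ p)
      (Subgroup.pow_mem _ (Subgroup.mem_zpowers x) p)
    rw [one_mul] at h1
    omega
  -- the periodic path
  have hT1 := tors_T1 hG x hlong (fun y => by
    have := hmin 1 (one_mem _) y
    rwa [one_mul] at this)
  obtain ⟨P, hP0, hPx, hPl, hPb⟩ := periodic_path hG x (by omega) hT1
  obtain ⟨D, hD⟩ : ∃ D : ℕ, D = d 1 x := ⟨_, rfl⟩
  rw [← hD] at hPx hmin hlong
  have hPp : ∀ n : ℕ, P (n * D) = x ^ n := by
    intro n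
    induction n with
    | zero => simpa using hP0
    | succ n ih =>
      have : ((n + 1 : ℕ) : ℤ) * D = n * D + D := by push_cast; ring
      rw [this, hPx, ih, pow_succ']
  have hPlip : ∀ (n : ℕ) (s : ℤ), d (P s) (P (s + n)) ≤ n := by
    intro n
    induction n with
    | zero => intro s; simp [hG.self]
    | succ n ih =>
      intro s
      have h1 := ih s
      have h2 := hPl (s + n)
      have h3 := hG.tri (P s) (P (s + n)) (P (s + n + 1))
      have h4 : s + ((n + 1 : ℕ) : ℤ) = s + n + 1 := by push_cast; ring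
      rw [h4]
      omega
  -- projections of the endpoints
  have hpD : (0 : ℤ) ≤ p * D := by positivity
  have hpb : ∀ u, 0 ≤ u → u ≤ (p * D : ℤ) → Btw d (8 * δ) (P 0) (P (p * D)) (P u) :=
    fun u h1 h2 => hPb _ _ _ h1 h2
  have haa := ax_a hG hS hθ hL v 1 (x ^ p) (by omega)
  obtain ⟨p1, hp1⟩ : ∃ p1, p1 = prj d γ v 1 := ⟨_, rfl⟩
  obtain ⟨p2, hp2⟩ : ∃ p2, p2 = prj d γ v (x ^ p) := ⟨_, rfl⟩
  rw [← hp1, ← hp2] at haa
  have hC2 : CC2 δ c = 9 * δ + 4 * c + 6 := by unfold CC2 CC1 kap; ring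
  have hlow := gam_low hG hS v (pos d γ v 1) (pos d γ v (x ^ p))
  have hp1' : gam γ v (pos d γ v 1) = p1 := hp1.symm
  have hp2' : gam γ v (pos d γ v (x ^ p)) = p2 := hp2.symm
  rw [hp1', hp2'] at hlow
  have hb1 : Btw d (CC2 δ c) (P 0) (P (p * D)) p1 := by
    have h1 := hG.tri p1 p2 (x ^ p)
    rw [hPp, hP0]
    unfold Btw
    omega
  have hb2 : Btw d (CC2 δ c) (P 0) (P (p * D)) p2 := by
    have h1 := hG.tri 1 p1 p2
    rw [hPp, hP0]
    unfold Btw
    omega
  obtain ⟨α, hα0, hα1, hα⟩ := path_qc_btw hG.toIsGM hG.hyp P hpD (fun u _ _ => hPl u) hpb hb1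
  obtain ⟨β, hβ0, hβ1, hβ⟩ := path_qc_btw hG.toIsGM hG.hyp P hpD (fun u _ _ => hPl u) hpb hb2
  -- α < β
  have hαβ : α < β := by
    by_contra hcon
    have h1 := hPb 0 β α hβ0 (not_lt.mp hcon)
    have h2 := hG.tri 1 p2 (x ^ p)
    have h3 := hG.tri 1 (P β) p2
    have h4 := hG.tri 1 p1 (P α)
    have h5 := hG.symm (P β) p2
    have h6 := hG.symm p1 (P α)
    rw [hP0] at h1
    unfold Btw at h1
    omega
  have hposgam : ∀ s : ℤ, 4 * |pos d γ v (gam γ v s) - s| ≤ 5 * θ := by
    intro s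
    have h1 := prj_near hG hS hL0 v (gam γ v s) s
    rw [hG.self] at h1
    have h2 := gam_low hG hS v (pos d γ v (gam γ v s)) s
    have h3 : d (gam γ v (pos d γ v (gam γ v s))) (gam γ v s) = 0 := by
      rw [hG.symm]
      exact Nat.le_zero.mp h1
    rw [h3] at h2
    push_cast at h2
    linarith
  have hy : |pos d γ v (P α) - pos d γ v 1| ≤ 4 * θ := by
    have h1 := hposgam (pos d γ v 1)
    rw [hp1'] at h1
    have h2 := ax_b hG hS hθ hL v (P α) p1
    have h3 := hG.symm (P α) p1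
    rw [abs_le]
    have k1 := abs_le.mp (le_refl |pos d γ v p1 - pos d γ v 1|)
    have k2 := abs_le.mp (le_refl |pos d γ v (P α) - pos d γ v p1|)
    omega
  have hz : |pos d γ v (P β) - pos d γ v (x ^ p)| ≤ 4 * θ := by
    have h1 := hposgam (pos d γ v (x ^ p))
    rw [hp2'] at h1
    have h2 := ax_b hG hS hθ hL v (P β) p2
    have h3 := hG.symm (P β) p2
    rw [abs_le]
    have k1 := abs_le.mp (le_refl |pos d γ v p2 - pos d γ v (x ^ p)|)
    have k2 := abs_le.mp (le_refl |pos d γ v (P β) - pos d γ v p2|)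
    omega
  -- AX-c
  have hPαD : P (α + D) = x * P α := hPx α
  have hc3 : 4 * |pos d γ v (P α) - pos d γ v (P (α + D))| ≤ 3 * L := by
    apply ax_c hG hS hθ hL v
    intro e
    have h1 := hPlip D α
    have h2 := hmin (rho v ^ e) (Subgroup.zpow_mem _ (rho_mem v) e) (P α)
    rw [hPαD] at h1 ⊢
    omega
  have hyz : (L : ℤ) - 48 * θ ≤ |pos d γ v (P α) - pos d γ v (P β)| := by
    have k1 := abs_le.mp hy
    have k2 := abs_le.mp hz
    rw [le_abs] at hv ⊢
    omega
  rcases le_or_gt β (α + D) with hcase | hcase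
  · -- case A
    have hbt := hPb α β (α + D) hαβ.le hcase
    have a1 := ax_a hG hS hθ hL v (P α) (P β) (by omega)
    have hyz2 : (L : ℤ) - 192 * θ ≤ 4 * |pos d γ v (P β) - pos d γ v (P (α + D))| := by
      have k1 := abs_le.mp (le_refl |pos d γ v (P α) - pos d γ v (P (α + D))|)
      have k2 := abs_le.mp (le_refl |pos d γ v (P β) - pos d γ v (P (α + D))|)
      rw [le_abs] at hyz
      omega
    have a2 := ax_a hG hS hθ hL v (P β) (P (α + D)) (by omega)
    have l1 := gam_low hG hS v (pos d γ v (P α)) (pos d γ v (P β))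
    have l2 := gam_low hG hS v (pos d γ v (P β)) (pos d γ v (P (α + D)))
    have l3 := gam_lip hG hS v (pos d γ v (P α)) (pos d γ v (P (α + D)))
    have t1 := hG.tri (P α) (prj d γ v (P α)) (P (α + D))
    have t2 := hG.tri (prj d γ v (P α)) (prj d γ v (P (α + D))) (P (α + D))
    have s1 := hG.symm (P β) (prj d γ v (P β))
    unfold prj at a1 a2 t1 t2 s1
    unfold Btw at hbt
    omega
  · -- case B
    have hbt := hPb (α + D) β (β + D) hcase.le (by omega)
    have hPβD : P (β + D) = x * P β := hPx β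
    have hbt2 : Btw d (8 * δ + 2 * (CC2 δ c + 8 * δ + δ + 1) + 2 * (CC2 δ c + 8 * δ + δ + 1) + 2 * 0)
        (x * p1) (x * p2) (P β) := by
      apply hbt.change hG.toIsGM
      · rw [hPαD, hG.inv, hG.symm]
        exact hα
      · rw [hPβD, hG.inv, hG.symm]
        exact hβ
      · rw [hG.self]
    obtain ⟨e, he⟩ := gam_translate hS x v
    by_cases hxv : x • v = v
    · -- x in the stabiliser
      have h1 : ((x * v.out : G) : G ⧸ Subgroup.zpowers r) = (v.out : G ⧸ Subgroup.zpowers r) := by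
        conv_rhs => rw [QuotientGroup.out_eq', ← hxv]
        conv_rhs => rw [← QuotientGroup.out_eq' v]
        rfl
      rw [QuotientGroup.eq, Subgroup.mem_zpowers_iff] at h1
      obtain ⟨k, hk⟩ := h1
      have hr : r ∈ NN r := Subgroup.subset_normalClosure rfl
      have h2 : (x * v.out)⁻¹ * v.out ∈ NN r := hk ▸ Subgroup.zpow_mem _ hr k
      have hnn : (NN r).Normal := Subgroup.normalClosure_normal
      have h3 := hnn.conj_mem _ h2 v.out
      have h4 : v.out * ((x * v.out)⁻¹ * v.out) * v.out⁻¹ = x⁻¹ := by group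
      rw [h4] at h3
      exact hxN ((Subgroup.inv_mem_iff _).mp h3)
    · have hq := wax_qc hG hS (x • v)
      have hm1 : x * p1 ∈ wax r γ (x • v) := by
        rw [← hp1', he]
        exact ⟨_, rfl⟩
      have hm2 : x * p2 ∈ wax r γ (x • v) := by
        rw [← hp2', he]
        exact ⟨_, rfl⟩
      obtain ⟨b, ⟨t, ht⟩, hb⟩ := hq.near hm1 hm2 hbt2
      have hsm := ax_small hG hS hL0 hxv (pos d γ v 1 + e * L) t
      rw [← he, hp1', ht] at hsm
      have b1 := ax_b hG hS hθ hL v (P (α + D)) (x * p1)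
      have b2 := ax_b hG hS hθ hL v (P β) b
      have s1 : d (P (α + D)) (x * p1) ≤ CC2 δ c + 8 * δ + δ + 1 := by
        rw [hPαD, hG.inv, hG.symm]
        exact hα
      unfold kap at hb
      have k1 := abs_le.mp (le_refl |pos d γ v (P (α + D)) - pos d γ v (x * p1)|)
      have k2 := abs_le.mp (le_refl |pos d γ v (P β) - pos d γ v b|)
      have k3 := abs_le.mp hsm
      have k4 := abs_le.mp (le_refl |pos d γ v (P α) - pos d γ v (P (α + D))|)
      rw [le_abs] at hyz
      omega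

end TD
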