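import Pool.Agent.TD.Relator
import Pool.Agent.TD.Close
import Pool.Agent.TD.Pres
import Pool.Agent.TD.Tors

/-!
# THM TRAP.  Blueprint section 3.
-/

set_option autoImplicit false

namespace TD

theorem trap {G : Type} [Group G] {d : G → G → ℕ} {δ : ℕ} (hG : IsHG d δ) (tf : TF G)
    {ι : Type} [Finite ι] (H : ι → Subgroup G) (hq : ∀ i, ∃ κ, QC d κ (H i : Set G))
    (k : ι → ℕ) (hf : ∀ i, FF (H i) (k i)) {U : Subgroup G} (hU : NonAb U)
    (hn : ∀ i, NoFin U (H i)) (a : G) (F : Finset G) :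
    ∃ (G' : Type) (_ : Group G') (φ : G →* G'), Function.Surjective φ ∧
      (∀ f ∈ F, φ f = 1 → f = 1) ∧ (∃ u ∈ U, φ a = φ u) ∧
      (∃ (d' : G' → G' → ℕ) (δ' : ℕ), IsHG d' δ' ∧
        ∀ i, ∃ κ, QC d' κ ((H i).map φ : Set G')) ∧
      TF G' ∧ (∀ i, FF ((H i).map φ) (k i)) ∧
      ∀ i j, Sep (H i) (H j) → Sep ((H i).map φ) ((H j).map φ) := by
  classical
  -- the enlarged family
  have hfin : Finite {x : G // d 1 x ≤ 4 * δ + 1} := (hG.ball_finite (4 * δ + 1)).to_subtype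
  choose kz hkz using fun x : G => zpowers_ff hG tf x
  obtain ⟨c, hc⟩ := relator hG tf
    (ι := ι ⊕ {x : G // d 1 x ≤ 4 * δ + 1})
    (Sum.elim H fun x => Subgroup.zpowers x.1)
    (by
      rintro (i | x)
      · exact hq i
      · exact zpowers_qc hG tf x.1)
    (Sum.elim k fun x => kz x.1)
    (by
      rintro (i | x)
      · exact hf i
      · exact hkz x.1)
    hU
    (by
      rintro (i | x)
      · exact hn i
      · exact zpowers_noFin hG tf x.1 hU) a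
  obtain ⟨u, huU, γ, L, θ, hS, hC, hM, hsm⟩ := hc (1000 * (δ + c + 1) + F.sup (d 1))
    (MM δ c + 1000)
  have hθ : 1000 * (δ + c + 1) ≤ θ := by omega
  have hL : MM δ c * θ ≤ L := le_trans (Nat.mul_le_mul_right θ (by omega)) hM
  have hL' : 1000 * θ ≤ L := le_trans (Nat.mul_le_mul_right θ (by omega)) hM
  have hsmH : ∀ i, SmallOn d γ θ (H i) := fun i => hsm (Sum.inl i)
  have hsmx : ∀ x : G, d 1 x ≤ 4 * δ + 1 → SmallOn d γ θ (Subgroup.zpowers x) :=
    fun x hx => hsm (Sum.inr ⟨x, hx⟩)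
  refine ⟨G ⧸ NN (a * u), inferInstance, QuotientGroup.mk' (NN (a * u)),
    QuotientGroup.mk'_surjective _, ?_, ?_, ?_, ?_, ?_, ?_⟩
  · intro f hfF hf1
    have hfN : f ∈ NN (a * u) := by
      rwa [← MonoidHom.mem_ker, QuotientGroup.ker_mk'] at hf1
    have hle : d 1 f ≤ F.sup (d 1) := Finset.le_sup (f := d 1) hfF
    exact quot_inj hG hS hθ hL hfN (by omega)
  · refine ⟨u⁻¹, U.inv_mem huU, ?_⟩
    have h1 : a * u ∈ NN (a * u) := Subgroup.subset_normalClosure (Set.mem_singleton _)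
    have h2 : (QuotientGroup.mk' (NN (a * u))) (a * u) = 1 := by
      rwa [← MonoidHom.mem_ker, QuotientGroup.ker_mk']
    rw [map_mul] at h2
    rw [map_inv]
    exact eq_inv_of_mul_eq_one_left h2
  · refine ⟨_, _, quot_isHG hG hS hθ hL, fun i => ?_⟩
    obtain ⟨κ, hκ⟩ := hq i
    exact quot_qc hG hS hθ hL (H i) (hsmH i) hκ
  · exact quot_tf hG tf hS hθ hL' hsmx
  · exact fun i => quot_ff hG tf hS hθ hL' (H i) (hsmH i) (hf i)
  · exact fun i j h => quot_sep hG tf hS hθ hL' (H i) (H j) (hsmH i) (hsmH j) h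

end TD
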